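import Mathlib

/-!
# Functions `ℕ × ℕ → ℤ` which are eventually polynomials (module A)

`BP F D c`: for large `s`, `t` the function `F` is a sum `∑_(a+b ≤ D) e_(a,b) C(s,a) C(t,b)` whose
top part is `c`: `e_(a,D-a) = c a`.
-/

namespace Pool.Agent.GrUp

/-- `∑_(a+b ≤ D) e a b * C(s,a) * C(t,b)`. -/
def bsum (D : ℕ) (e : ℕ → ℕ → ℤ) (s t : ℕ) : ℤ :=
  ∑ a ∈ Finset.range (D + 1), ∑ b ∈ Finset.range (D + 1 - a), e a b * (s.choose a) * (t.choose b)

/-- `F` is eventually a polynomial of total degree `≤ D` with top part `c`. -/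
def BP (F : ℕ → ℕ → ℤ) (D : ℕ) (c : Fin (D + 1) → ℤ) : Prop :=
  ∃ (n₀ : ℕ) (e : ℕ → ℕ → ℤ), (∀ a : Fin (D + 1), e a (D - a) = c a) ∧
    ∀ s t, n₀ ≤ s → n₀ ≤ t → F s t = bsum D e s t

/-- `F` is eventually a polynomial. -/
def IsPoly (F : ℕ → ℕ → ℤ) : Prop := ∃ (D : ℕ) (c : Fin (D + 1) → ℤ), BP F D c

variable {F G : ℕ → ℕ → ℤ} {D : ℕ}

/-! ### Sums over squares -/

/-- `∑_(a,b < N) e a b * C(s,a) * C(t,b)`. -/
def sqS (N : ℕ) (e : ℕ → ℕ → ℤ) (s t : ℕ) : ℤ :=
  ∑ a ∈ Finset.range N, ∑ b ∈ Finset.range N, e a b * (s.choose a) * (t.choose b)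

theorem bsum_eq_sqS {e : ℕ → ℕ → ℤ} (he : ∀ a b, D < a + b → e a b = 0) {N : ℕ} (hN : D < N)
    (s t : ℕ) : bsum D e s t = sqS N e s t := by
  unfold bsum sqS
  have h1 : ∀ a ∈ Finset.range (D + 1),
      ∑ b ∈ Finset.range (D + 1 - a), e a b * (s.choose a) * (t.choose b) =
      ∑ b ∈ Finset.range N, e a b * (s.choose a) * (t.choose b) := by
    intro a ha
    rw [Finset.mem_range] at ha
    refine Finset.sum_subset (fun b hb => ?_) fun b _ hb => ?_
    · rw [Finset.mem_range] at hb ⊢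
      omega
    · rw [Finset.mem_range] at hb
      rw [he a b (by omega)]
      simp
  rw [Finset.sum_congr rfl h1]
  refine Finset.sum_subset (fun b hb => ?_) fun a _ ha => ?_
  · rw [Finset.mem_range] at hb ⊢
    omega
  · rw [Finset.mem_range] at ha
    refine Finset.sum_eq_zero fun b _ => ?_
    rw [he a b (by omega)]
    simp

theorem BP.elim {c : Fin (D + 1) → ℤ} (h : BP F D c) : ∃ (n₀ : ℕ) (e : ℕ → ℕ → ℤ),
    (∀ a b, D < a + b → e a b = 0) ∧ (∀ a : Fin (D + 1), e a (D - a) = c a) ∧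
    ∀ N, D < N → ∀ s t, n₀ ≤ s → n₀ ≤ t → F s t = sqS N e s t := by
  obtain ⟨n₀, e, h1, h2⟩ := h
  have h0 : ∀ a b, D < a + b → (fun a b => if a + b ≤ D then e a b else 0) a b = 0 := by
    intro a b hab
    simp only
    rw [if_neg (by omega)]
  refine ⟨n₀, fun a b => if a + b ≤ D then e a b else 0, h0, fun a => ?_,
    fun N hN s t hs ht => ?_⟩
  · have := a.2
    beta_reduce
    rw [if_pos (by omega), h1]
  · rw [h2 s t hs ht, ← bsum_eq_sqS h0 hN]
    unfold bsum
    refine Finset.sum_congr rfl fun a ha => Finset.sum_congr rfl fun b hb => ?_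
    rw [Finset.mem_range] at ha hb
    beta_reduce
    rw [if_pos (by omega)]

theorem BP.intro {c : Fin (D + 1) → ℤ} (n₀ : ℕ) (e : ℕ → ℕ → ℤ)
    (he : ∀ a b, D < a + b → e a b = 0) (hc : ∀ a : Fin (D + 1), e a (D - a) = c a) {N : ℕ}
    (hN : D < N) (h : ∀ s t, n₀ ≤ s → n₀ ≤ t → F s t = sqS N e s t) : BP F D c :=
  ⟨n₀, e, hc, fun s t hs ht => by rw [h s t hs ht, bsum_eq_sqS he hN]⟩

theorem sqS_add (N : ℕ) (e e' : ℕ → ℕ → ℤ) (s t : ℕ) :
    sqS N (fun a b => e a b + e' a b) s t = sqS N e s t + sqS N e' s t := by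
  unfold sqS
  rw [← Finset.sum_add_distrib]
  refine Finset.sum_congr rfl fun a _ => ?_
  rw [← Finset.sum_add_distrib]
  refine Finset.sum_congr rfl fun b _ => ?_
  ring

theorem sqS_neg (N : ℕ) (e : ℕ → ℕ → ℤ) (s t : ℕ) :
    sqS N (fun a b => -e a b) s t = -sqS N e s t := by
  unfold sqS
  rw [← Finset.sum_neg_distrib]
  refine Finset.sum_congr rfl fun a _ => ?_
  rw [← Finset.sum_neg_distrib]
  refine Finset.sum_congr rfl fun b _ => ?_
  ring

/-- the shift of a sum in one variable -/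
theorem sum_shift {N : ℕ} {f : ℕ → ℤ} (hf : f N = 0) (s : ℕ) :
    ∑ a ∈ Finset.range N, f a * ((s + 1).choose a) =
      ∑ a ∈ Finset.range N, (f a + f (a + 1)) * (s.choose a) := by
  have h1 : ∀ M : ℕ, ∑ a ∈ Finset.range M, f a * ((s + 1).choose a) + f M * s.choose (M - 1) =
      ∑ a ∈ Finset.range M, (f a + f (a + 1)) * (s.choose a) + (if M = 0 then f 0 else 0) := by
    intro M
    induction M with
    | zero => simp
    | succ M ih =>
      rw [Finset.sum_range_succ, Finset.sum_range_succ]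
      rcases M with _ | M
      · simp
      · have h2 : ((s + 1).choose (M + 1) : ℤ) = s.choose M + s.choose (M + 1) := by
          rw [Nat.choose_succ_succ]
          push_cast
          ring
        rw [h2]
        simp only [Nat.add_sub_cancel, Nat.add_eq_zero_iff, one_ne_zero, and_false, if_false,
          add_zero] at ih ⊢
        linear_combination ih
  have h2 := h1 N
  rcases N with _ | N
  · simp
  · rw [hf] at h2
    simpa using h2

theorem sqS_swap (N : ℕ) (e : ℕ → ℕ → ℤ) (s t : ℕ) :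
    sqS N e s t = sqS N (fun a b => e b a) t s := by
  unfold sqS
  rw [Finset.sum_comm]
  refine Finset.sum_congr rfl fun a _ => Finset.sum_congr rfl fun b _ => ?_
  ring

theorem sqS_succ_left {N : ℕ} {e : ℕ → ℕ → ℤ} (he : ∀ a b, N ≤ a + b → e a b = 0) (s t : ℕ) :
    sqS N e (s + 1) t = sqS N (fun a b => e a b + e (a + 1) b) s t := by
  rw [sqS_swap, sqS_swap N _ s t]
  unfold sqS
  refine Finset.sum_congr rfl fun b _ => ?_
  have h1 := sum_shift (f := fun a => e a b) (N := N) (he N b (by omega)) s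
  have h2 : ∀ x : ℕ → ℤ, ∀ y : ℕ → ℤ, ∑ a ∈ Finset.range N, x a * (t.choose b) * y a =
      (∑ a ∈ Finset.range N, x a * y a) * t.choose b := by
    intro x y
    rw [Finset.sum_mul]
    refine Finset.sum_congr rfl fun a _ => ?_
    ring
  rw [h2, h2]
  rw [h1]

/-! ### Basic closure properties -/

theorem BP.congr {c : Fin (D + 1) → ℤ} (h : BP F D c) (n₁ : ℕ)
    (hFG : ∀ s t, n₁ ≤ s → n₁ ≤ t → F s t = G s t) : BP G D c := by
  obtain ⟨n₀, e, h1, h2⟩ := h
  refine ⟨max n₀ n₁, e, h1, fun s t hs ht => ?_⟩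
  rw [← hFG s t (le_trans (le_max_right _ _) hs) (le_trans (le_max_right _ _) ht),
    h2 s t (le_trans (le_max_left _ _) hs) (le_trans (le_max_left _ _) ht)]

/-- exchange of the two variables -/
theorem BP.swap {c : Fin (D + 1) → ℤ} (h : BP F D c) :
    BP (fun s t => F t s) D (fun a => c a.rev) := by
  obtain ⟨n₀, e, h1, h2, h3⟩ := h.elim
  refine BP.intro n₀ (fun a b => e b a) (fun a b hab => h1 b a (by omega)) (fun a => ?_)
    (Nat.lt_succ_self D) (fun s t hs ht => ?_)
  · rw [← h2 a.rev]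
    have := a.2
    congr 1
    · rw [Fin.val_rev]
      omega
    · rw [Fin.val_rev]
      omega
  · rw [h3 (D + 1) (Nat.lt_succ_self D) t s ht hs, sqS_swap]

theorem BP.add {c c' : Fin (D + 1) → ℤ} (h : BP F D c) (h' : BP G D c') :
    BP (fun s t => F s t + G s t) D (c + c') := by
  obtain ⟨n₀, e, h1, h2, h3⟩ := h.elim
  obtain ⟨n₀', e', h1', h2', h3'⟩ := h'.elim
  refine BP.intro (max n₀ n₀') (fun a b => e a b + e' a b) (fun a b hab => ?_) (fun a => ?_)
    (Nat.lt_succ_self D) (fun s t hs ht => ?_)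
  · rw [h1 a b hab, h1' a b hab, add_zero]
  · rw [h2, h2']
    rfl
  · rw [sqS_add, h3 (D + 1) (Nat.lt_succ_self D) s t (le_trans (le_max_left _ _) hs)
      (le_trans (le_max_left _ _) ht), h3' (D + 1) (Nat.lt_succ_self D) s t
      (le_trans (le_max_right _ _) hs) (le_trans (le_max_right _ _) ht)]

theorem BP.neg {c : Fin (D + 1) → ℤ} (h : BP F D c) : BP (fun s t => -F s t) D (-c) := by
  obtain ⟨n₀, e, h1, h2, h3⟩ := h.elim
  refine BP.intro n₀ (fun a b => -e a b) (fun a b hab => ?_) (fun a => ?_)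
    (Nat.lt_succ_self D) (fun s t hs ht => ?_)
  · rw [h1 a b hab, neg_zero]
  · rw [h2]
    rfl
  · rw [sqS_neg, h3 (D + 1) (Nat.lt_succ_self D) s t hs ht]

theorem BP.sub {c c' : Fin (D + 1) → ℤ} (h : BP F D c) (h' : BP G D c') :
    BP (fun s t => F s t - G s t) D (c - c') := by
  have h1 := h.add h'.neg
  rw [sub_eq_add_neg]
  exact h1.congr 0 fun s t _ _ => by ring

theorem BP.zero (D : ℕ) : BP (fun _ _ => 0) D 0 :=
  ⟨0, fun _ _ => 0, fun _ => rfl, fun s t _ _ => by simp [bsum]⟩

theorem BP.succ_left {c : Fin (D + 1) → ℤ} (h : BP F D c) : BP (fun s t => F (s + 1) t) D c := by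
  obtain ⟨n₀, e, h1, h2, h3⟩ := h.elim
  refine BP.intro n₀ (fun a b => e a b + e (a + 1) b) (fun a b hab => ?_) (fun a => ?_)
    (Nat.lt_succ_self D) (fun s t hs ht => ?_)
  · rw [h1 a b hab, h1 (a + 1) b (by omega), add_zero]
  · have := a.2
    rw [h2, h1 (a + 1) (D - a) (by omega), add_zero]
  · rw [h3 (D + 1) (Nat.lt_succ_self D) (s + 1) t (by omega) ht,
      sqS_succ_left (fun a b hab => h1 a b (by omega))]

theorem BP.of_succ_left {c : Fin (D + 1) → ℤ} (h : BP (fun s t => F (s + 1) t) D c) :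
    BP F D c := by
  obtain ⟨n₀, e, h1, h2, h3⟩ := h.elim
  have h1' : ∀ a b, D < a + b →
      (fun a b => ∑ j ∈ Finset.range (D + 1), (-1 : ℤ) ^ j * e (a + j) b) a b = 0 := by
    intro a b hab
    refine Finset.sum_eq_zero fun j _ => ?_
    rw [h1 (a + j) b (by omega), mul_zero]
  refine BP.intro (n₀ + 1) (fun a b => ∑ j ∈ Finset.range (D + 1), (-1 : ℤ) ^ j * e (a + j) b) h1'
    (fun a => ?_) (Nat.lt_succ_self D) (fun s t hs ht => ?_)
  · have := a.2
    rw [← h2 a, Finset.sum_range_succ', Finset.sum_eq_zero]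
    · simp
    · intro j _
      rw [h1 (a + (j + 1)) (D - a) (by omega), mul_zero]
  · obtain ⟨s, rfl⟩ : ∃ s', s = s' + 1 := ⟨s - 1, by omega⟩
    rw [sqS_succ_left (fun a b hab => h1' a b (by omega)),
      h3 (D + 1) (Nat.lt_succ_self D) s t (by omega) (by omega)]
    congr 1
    funext a b
    have h5 : ∑ k ∈ Finset.range D, (-1 : ℤ) ^ (k + 1) * e (a + (k + 1)) b +
        ∑ k ∈ Finset.range D, (-1 : ℤ) ^ k * e (a + 1 + k) b = 0 := by
      rw [← Finset.sum_add_distrib]
      refine Finset.sum_eq_zero fun j _ => ?_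
      rw [add_assoc a 1 j, add_comm 1 j]
      ring
    rw [Finset.sum_range_succ', Finset.sum_range_succ (fun j => (-1 : ℤ) ^ j * e (a + 1 + j) b),
      h1 (a + 1 + D) b (by omega), add_zero]
    linear_combination -h5

theorem BP.shift_left_iff (c : Fin (D + 1) → ℤ) (a : ℕ) :
    BP (fun s t => F (s + a) t) D c ↔ BP F D c := by
  induction a with
  | zero => rfl
  | succ a ih =>
    rw [← ih]
    constructor
    · intro h
      refine BP.of_succ_left ?_
      refine h.congr 0 fun s t _ _ => ?_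
      congr 1
      ring
    · intro h
      refine h.succ_left.congr 0 fun s t _ _ => ?_
      congr 1
      ring

theorem BP.shift_right_iff (c : Fin (D + 1) → ℤ) (b : ℕ) :
    BP (fun s t => F s (t + b)) D c ↔ BP F D c := by
  constructor
  · intro h
    have h1 := h.swap
    have h2 := (BP.shift_left_iff (F := fun s t => F t s) _ b).1 h1
    have h3 := h2.swap
    simpa using h3
  · intro h
    have h1 := (BP.shift_left_iff (F := fun s t => F t s) _ b).2 h.swap
    have h3 := h1.swap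
    simpa using h3

/-- The top part does not change under a shift of the arguments. -/
theorem BP.shift_iff (c : Fin (D + 1) → ℤ) (a b : ℕ) :
    BP (fun s t => F (s + a) (t + b)) D c ↔ BP F D c := by
  rw [← BP.shift_left_iff (F := F) c a, ← BP.shift_right_iff (F := fun s t => F (s + a) t) c b]

theorem BP.lift {c : Fin (D + 1) → ℤ} (h : BP F D c) : BP F (D + 1) 0 := by
  obtain ⟨n₀, e, h1, h2, h3⟩ := h.elim
  refine BP.intro n₀ e (fun a b hab => h1 a b (by omega)) (fun a => ?_)
    (Nat.lt_succ_self (D + 1)) (fun s t hs ht => ?_)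
  · have := a.2
    rw [h1 a (D + 1 - a) (by omega)]
    rfl
  · rw [h3 (D + 2) (by omega) s t hs ht]

theorem BP.lift_of_lt {c : Fin (D + 1) → ℤ} (h : BP F D c) {E : ℕ} (hE : D < E) : BP F E 0 := by
  induction E, hE using Nat.le_induction with
  | base => exact h.lift
  | succ E _ ih => exact ih.lift

theorem BP.drop (h : BP F (D + 1) 0) : ∃ c : Fin (D + 1) → ℤ, BP F D c := by
  obtain ⟨n₀, e, h1, h2, h3⟩ := h.elim
  refine ⟨fun a => e a (D - a), BP.intro n₀ e (fun a b hab => ?_) (fun a => rfl)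
    (by omega : D < D + 2) (fun s t hs ht => h3 (D + 2) (by omega) s t hs ht)⟩
  rcases Nat.lt_or_ge (D + 1) (a + b) with h4 | h4
  · exact h1 a b h4
  · have h5 := h2 ⟨a, by omega⟩
    have h6 : D + 1 - a = b := by omega
    simpa [h6] using h5

theorem BP.eventually_zero (h : BP F 0 0) : ∃ n₀, ∀ s t, n₀ ≤ s → n₀ ≤ t → F s t = 0 := by
  obtain ⟨n₀, e, h1, h2⟩ := h
  refine ⟨n₀, fun s t hs ht => ?_⟩
  rw [h2 s t hs ht]
  have h3 := h1 0
  simp only [Fin.val_zero, Nat.sub_zero, Pi.zero_apply] at h3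
  simp [bsum, h3]

theorem BP.diff_left {c : Fin (D + 2) → ℤ} (h : BP F (D + 1) c) :
    BP (fun s t => F (s + 1) t - F s t) D (fun p => c p.succ) := by
  obtain ⟨n₀, e, h1, h2, h3⟩ := h.elim
  refine BP.intro n₀ (fun a b => e (a + 1) b) (fun a b hab => h1 (a + 1) b (by omega))
    (fun a => ?_) (by omega : D < D + 2) (fun s t hs ht => ?_)
  · rw [← h2 a.succ]
    have := a.2
    congr 1
    · rw [Fin.val_succ]
      omega
  · rw [h3 (D + 2) (by omega) s t hs ht, h3 (D + 2) (by omega) (s + 1) t (by omega) ht,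
      sqS_succ_left (fun a b hab => h1 a b (by omega)), sqS_add]
    ring

theorem BP.diff_right {c : Fin (D + 2) → ℤ} (h : BP F (D + 1) c) :
    BP (fun s t => F s (t + 1) - F s t) D (fun p => c p.castSucc) := by
  have h1 := h.swap.diff_left.swap
  refine (h1.congr 0 fun s t _ _ => rfl).congr 0 (fun s t _ _ => rfl) |> fun h2 => ?_
  have h3 : (fun a : Fin (D + 1) => (fun p : Fin (D + 1) =>
      (fun a : Fin (D + 2) => c a.rev) p.succ) a.rev) = fun p => c p.castSucc := by
    funext p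
    simp only
    congr 1
    ext
    have := p.2
    simp [Fin.val_rev]
    omega
  rw [h3] at h2
  exact h2

theorem BP.eq_zero {c : Fin (D + 1) → ℤ} (h : BP (fun _ _ => 0) D c) : c = 0 := by
  induction D with
  | zero =>
    obtain ⟨n₀, e, h1, h2⟩ := h
    have h3 := h2 n₀ n₀ le_rfl le_rfl
    have h4 := h1 0
    funext a
    obtain rfl : a = 0 := by
      ext
      omega
    simp only [Fin.val_zero, Nat.sub_zero] at h4
    simp [bsum] at h3
    rw [← h4, ← h3]
    rfl
  | succ D ih =>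
    have h1 := ih (h.diff_left.congr 0 fun s t _ _ => by simp)
    have h2 := ih (h.diff_right.congr 0 fun s t _ _ => by simp)
    funext p
    rcases Fin.eq_zero_or_eq_succ p with rfl | ⟨q, rfl⟩
    · exact congrFun h2 0
    · exact congrFun h1 q

theorem BP.unique {c c' : Fin (D + 1) → ℤ} (h : BP F D c) (h' : BP F D c') : c = c' := by
  have h1 := (h.sub h').congr (G := fun _ _ => 0) 0 fun s t _ _ => by simp
  exact sub_eq_zero.1 h1.eq_zero

theorem BP.diff_left' {c : Fin (D + 2) → ℤ} (h : BP F (D + 1) c) (a : ℕ) :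
    BP (fun s t => F (s + a) t - F s t) D (fun p => (a : ℤ) * c p.succ) := by
  induction a with
  | zero =>
    have h1 : (fun p : Fin (D + 1) => ((0 : ℕ) : ℤ) * c p.succ) = 0 := by
      funext p
      simp
    rw [h1]
    exact (BP.zero D).congr 0 fun s t _ _ => by simp
  | succ a ih =>
    have h1 := ((BP.shift_left_iff _ a).2 h.diff_left).add ih
    have h2 : ((fun p : Fin (D + 1) => c p.succ) + fun p : Fin (D + 1) => (a : ℤ) * c p.succ) =
        fun p => ((a + 1 : ℕ) : ℤ) * c p.succ := by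
      funext p
      simp only [Pi.add_apply]
      push_cast
      ring
    rw [h2] at h1
    refine h1.congr 0 fun s t _ _ => ?_
    rw [show s + a + 1 = s + (a + 1) by ring]
    ring

theorem BP.diff_right' {c : Fin (D + 2) → ℤ} (h : BP F (D + 1) c) (b : ℕ) :
    BP (fun s t => F s (t + b) - F s t) D (fun p => (b : ℤ) * c p.castSucc) := by
  induction b with
  | zero =>
    have h1 : (fun p : Fin (D + 1) => ((0 : ℕ) : ℤ) * c p.castSucc) = 0 := by
      funext p
      simp
    rw [h1]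
    exact (BP.zero D).congr 0 fun s t _ _ => by simp
  | succ b ih =>
    have h1 := ((BP.shift_right_iff _ b).2 h.diff_right).add ih
    have h2 : ((fun p : Fin (D + 1) => c p.castSucc) +
        fun p : Fin (D + 1) => (b : ℤ) * c p.castSucc) =
        fun p => ((b + 1 : ℕ) : ℤ) * c p.castSucc := by
      funext p
      simp only [Pi.add_apply]
      push_cast
      ring
    rw [h2] at h1
    refine h1.congr 0 fun s t _ _ => ?_
    rw [show t + b + 1 = t + (b + 1) by ring]
    ring

/-- The top part of the difference `F(s+a,t+b) - F(s,t)`. -/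
theorem BP.diff {c : Fin (D + 2) → ℤ} (h : BP F (D + 1) c) (a b : ℕ) :
    BP (fun s t => F (s + a) (t + b) - F s t) D
      (fun p => (a : ℤ) * c p.succ + (b : ℤ) * c p.castSucc) := by
  have h1 := ((BP.shift_right_iff _ b).2 (h.diff_left' a)).add (h.diff_right' b)
  exact h1.congr 0 fun s t _ _ => by ring

/-! ### Polynomials -/

theorem BP.lift_le {c : Fin (D + 1) → ℤ} (h : BP F D c) {E : ℕ} (hE : D ≤ E) :
    ∃ c' : Fin (E + 1) → ℤ, BP F E c' := by
  rcases hE.eq_or_lt with rfl | hE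
  · exact ⟨c, h⟩
  · exact ⟨0, h.lift_of_lt hE⟩

theorem IsPoly.add (h : IsPoly F) (h' : IsPoly G) : IsPoly (fun s t => F s t + G s t) := by
  obtain ⟨D, c, h⟩ := h
  obtain ⟨D', c', h'⟩ := h'
  obtain ⟨c₁, h₁⟩ := h.lift_le (le_max_left D D')
  obtain ⟨c₂, h₂⟩ := h'.lift_le (le_max_right D D')
  exact ⟨max D D', c₁ + c₂, h₁.add h₂⟩

theorem IsPoly.congr (h : IsPoly F) (n₁ : ℕ)
    (hFG : ∀ s t, n₁ ≤ s → n₁ ≤ t → F s t = G s t) : IsPoly G := by
  obtain ⟨D, c, h⟩ := h
  exact ⟨D, c, h.congr n₁ hFG⟩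

theorem IsPoly.zero : IsPoly (fun _ _ => 0) := ⟨0, 0, BP.zero 0⟩

/-- the binomial basis -/
theorem BP.basis (a b : ℕ) (r : ℤ) :
    BP (fun s t => r * (s.choose a) * (t.choose b)) (a + b)
      (fun p => if (p : ℕ) = a then r else 0) := by
  refine BP.intro 0 (fun x y => if x = a ∧ y = b then r else 0) (fun x y hxy => ?_) (fun p => ?_)
    (Nat.lt_succ_self (a + b)) (fun s t _ _ => ?_)
  · rw [if_neg]
    rintro ⟨rfl, rfl⟩
    omega
  · have := p.2
    by_cases hp : (p : ℕ) = a
    · rw [if_pos hp, if_pos ⟨hp, by omega⟩]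
    · rw [if_neg hp, if_neg fun h => hp h.1]
  · unfold sqS
    rw [Finset.sum_eq_single a, Finset.sum_eq_single b]
    · simp
    · intro y _ hy
      beta_reduce
      rw [if_neg fun h => hy h.2]
      simp
    · intro hb
      exact absurd (Finset.mem_range.2 (by omega)) hb
    · intro x _ hx
      refine Finset.sum_eq_zero fun y _ => ?_
      beta_reduce
      rw [if_neg fun h => hx h.1]
      simp
    · intro ha
      exact absurd (Finset.mem_range.2 (by omega)) ha

theorem IsPoly.basis (a b : ℕ) (r : ℤ) : IsPoly (fun s t => r * (s.choose a) * (t.choose b)) :=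
  ⟨_, _, BP.basis a b r⟩

theorem IsPoly.sum {ι : Type*} (S : Finset ι) (f : ι → ℕ → ℕ → ℤ) (h : ∀ i ∈ S, IsPoly (f i)) :
    IsPoly (fun s t => ∑ i ∈ S, f i s t) := by
  classical
  induction S using Finset.induction_on with
  | empty => exact IsPoly.zero.congr 0 fun s t _ _ => by simp
  | insert i S hi ih =>
    have h1 := (h i (Finset.mem_insert_self i S)).add
      (ih fun j hj => h j (Finset.mem_insert_of_mem hj))
    exact h1.congr 0 fun s t _ _ => by rw [Finset.sum_insert hi]

theorem IsPoly.shift_iff (a b : ℕ) : IsPoly (fun s t => F (s + a) (t + b)) ↔ IsPoly F := by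
  constructor
  · rintro ⟨D, c, h⟩
    exact ⟨D, c, (BP.shift_iff c a b).1 h⟩
  · rintro ⟨D, c, h⟩
    exact ⟨D, c, (BP.shift_iff c a b).2 h⟩

/-- Every eventual polynomial is eventually zero or has an exact degree. -/
theorem IsPoly.exact (h : IsPoly F) : (∃ n₀, ∀ s t, n₀ ≤ s → n₀ ≤ t → F s t = 0) ∨
    ∃ (D : ℕ) (c : Fin (D + 1) → ℤ), c ≠ 0 ∧ BP F D c := by
  obtain ⟨D, c, h⟩ := h
  induction D with
  | zero =>
    by_cases hc : c = 0
    · subst hc
      exact Or.inl h.eventually_zero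
    · exact Or.inr ⟨0, c, hc, h⟩
  | succ D ih =>
    by_cases hc : c = 0
    · subst hc
      obtain ⟨c', h'⟩ := h.drop
      exact ih c' h'
    · exact Or.inr ⟨D + 1, c, hc, h⟩

/-- hockey stick -/
theorem sum_choose_range (n a : ℕ) :
    ∑ i ∈ Finset.range n, ((i.choose a : ℕ) : ℤ) = (n.choose (a + 1) : ℕ) := by
  induction n with
  | zero => simp
  | succ n ih =>
    rw [Finset.sum_range_succ, ih, Nat.choose_succ_succ]
    push_cast
    ring

/-- A function both of whose partial differences are polynomials is a polynomial. -/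
theorem IsPoly.of_diff (h₁ : IsPoly (fun s t => F (s + 1) t - F s t))
    (h₂ : IsPoly (fun s t => F s (t + 1) - F s t)) : IsPoly F := by
  obtain ⟨D₁, c₁, h₁⟩ := h₁
  obtain ⟨D₂, c₂, h₂⟩ := h₂
  obtain ⟨n₁, e₁, -, -, h₁⟩ := h₁.elim
  obtain ⟨n₂, e₂, -, -, h₂⟩ := h₂.elim
  have h₁ := h₁ (D₁ + 1) (Nat.lt_succ_self _)
  have h₂ := h₂ (D₂ + 1) (Nat.lt_succ_self _)
  set m := max n₁ n₂ with hm
  have hm1 : n₁ ≤ m := le_max_left _ _
  have hm2 : n₂ ≤ m := le_max_right _ _
  -- the sum in the direction `t`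
  have k2 : ∀ t, m ≤ t → F m t = F m m + ∑ a ∈ Finset.range (D₂ + 1),
      ∑ b ∈ Finset.range (D₂ + 1), e₂ a b * (m.choose a) * (t.choose (b + 1) - m.choose (b + 1)) := by
    intro t ht
    induction t, ht using Nat.le_induction with
    | base => simp
    | succ t ht ih =>
      have h3 := h₂ m t hm2 (hm2.trans ht)
      rw [sub_eq_iff_eq_add.1 h3, ih]
      unfold sqS
      rw [add_comm (∑ a ∈ Finset.range (D₂ + 1), _) (F m m + _), add_assoc,
        ← Finset.sum_add_distrib]
      congr 1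
      refine Finset.sum_congr rfl fun a _ => ?_
      rw [← Finset.sum_add_distrib]
      refine Finset.sum_congr rfl fun b _ => ?_
      rw [Nat.choose_succ_succ t b]
      push_cast
      ring
  have k1 : ∀ t, m ≤ t → ∀ s, m ≤ s → F s t = F m t + ∑ a ∈ Finset.range (D₁ + 1),
      ∑ b ∈ Finset.range (D₁ + 1), e₁ a b * (s.choose (a + 1) - m.choose (a + 1)) * (t.choose b) := by
    intro t ht s hs
    induction s, hs using Nat.le_induction with
    | base => simp
    | succ s hs ih =>
      have h3 := h₁ s t (hm1.trans hs) (hm1.trans ht)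
      rw [sub_eq_iff_eq_add.1 h3, ih]
      unfold sqS
      rw [add_comm (∑ a ∈ Finset.range (D₁ + 1), _) (F m t + _), add_assoc,
        ← Finset.sum_add_distrib]
      congr 1
      refine Finset.sum_congr rfl fun a _ => ?_
      rw [← Finset.sum_add_distrib]
      refine Finset.sum_congr rfl fun b _ => ?_
      rw [Nat.choose_succ_succ s a]
      push_cast
      ring
  have p1 : IsPoly (fun s t => ∑ a ∈ Finset.range (D₁ + 1), ∑ b ∈ Finset.range (D₁ + 1),
      e₁ a b * (s.choose (a + 1) - m.choose (a + 1)) * (t.choose b)) := by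
    refine IsPoly.sum _ _ fun a _ => IsPoly.sum _ _ fun b _ => ?_
    refine ((IsPoly.basis (a + 1) b (e₁ a b)).add
      (IsPoly.basis 0 b (-(e₁ a b * (m.choose (a + 1)))))).congr 0 fun s t _ _ => ?_
    simp only [Nat.choose_zero_right, Nat.cast_one]
    ring
  have p2 : IsPoly (fun s t => ∑ a ∈ Finset.range (D₂ + 1), ∑ b ∈ Finset.range (D₂ + 1),
      e₂ a b * (m.choose a) * (t.choose (b + 1) - m.choose (b + 1))) := by
    refine IsPoly.sum _ _ fun a _ => IsPoly.sum _ _ fun b _ => ?_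
    refine ((IsPoly.basis 0 (b + 1) (e₂ a b * (m.choose a))).add
      (IsPoly.basis 0 0 (-(e₂ a b * (m.choose a) * (m.choose (b + 1)))))).congr 0 fun s t _ _ => ?_
    simp only [Nat.choose_zero_right, Nat.cast_one]
    ring
  have p3 := ((IsPoly.basis 0 0 (F m m)).add p2).add p1
  refine p3.congr m fun s t hs ht => ?_
  rw [k1 t ht s hs, k2 t ht]
  simp

/-! ### Limits -/

open Filter Topology

theorem tendsto_choose_div (a b s : ℕ) (hs : 0 < s) (hab : a ≤ b) :
    Tendsto (fun N : ℕ => ((s * N).choose a : ℝ) / (N : ℝ) ^ b) atTop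
      (𝓝 (if a = b then (s : ℝ) ^ a / a.factorial else 0)) := by
  have h1 : Tendsto (fun N : ℕ => s * N) atTop atTop :=
    tendsto_id.const_mul_atTop' hs
  have h2 : Tendsto (fun m : ℕ => (m.choose a : ℝ) / ((m : ℝ) ^ a / a.factorial)) atTop (𝓝 1) := by
    have hz : ∀ᶠ m : ℕ in atTop, ((m : ℝ) ^ a / a.factorial : ℝ) ≠ 0 := by
      filter_upwards [eventually_gt_atTop 0] with m hm
      positivity
    exact (Asymptotics.isEquivalent_iff_tendsto_one hz).1 (isEquivalent_choose a)
  have h3 := h2.comp h1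
  have h4 : Tendsto (fun N : ℕ => ((N : ℝ) ^ a / (N : ℝ) ^ b)) atTop
      (𝓝 (if a = b then 1 else 0)) := by
    rcases hab.eq_or_lt with rfl | hlt
    · rw [if_pos rfl]
      refine tendsto_const_nhds.congr' ?_
      filter_upwards [eventually_gt_atTop 0] with m hm
      rw [div_self]
      positivity
    · rw [if_neg hlt.ne]
      have h5 : Tendsto (fun N : ℕ => ((N : ℝ) ^ (b - a))⁻¹) atTop (𝓝 0) :=
        (((tendsto_pow_atTop (by omega : b - a ≠ 0)).comp
          tendsto_natCast_atTop_atTop)).inv_tendsto_atTop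
      refine h5.congr' ?_
      filter_upwards [eventually_gt_atTop 0] with m hm
      have hm' : (m : ℝ) ≠ 0 := by positivity
      rw [eq_div_iff (pow_ne_zero _ hm'), ← div_eq_inv_mul, div_eq_iff (pow_ne_zero _ hm'),
        ← pow_add]
      congr 1
      omega
  have h6 := (h3.mul h4).mul_const ((s : ℝ) ^ a / a.factorial)
  have h7 : (1 * (if a = b then (1 : ℝ) else 0)) * ((s : ℝ) ^ a / a.factorial) =
      if a = b then (s : ℝ) ^ a / a.factorial else 0 := by
    split_ifs <;> simp
  rw [h7] at h6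
  refine h6.congr' ?_
  filter_upwards [eventually_gt_atTop 0] with N hN
  simp only [Function.comp]
  have hN' : (N : ℝ) ≠ 0 := by positivity
  have hs' : (s : ℝ) ≠ 0 := by positivity
  have hf : (a.factorial : ℝ) ≠ 0 := by positivity
  push_cast
  field_simp
  ring

/-- The limit of `F(sN,tN) / N^D`. -/
theorem BP.tendsto {c : Fin (D + 1) → ℤ} (h : BP F D c) {s t : ℕ} (hs : 0 < s) (ht : 0 < t) :
    Filter.Tendsto (fun N : ℕ => (F (s * N) (t * N) : ℝ) / (N : ℝ) ^ D) Filter.atTop
      (nhds (∑ a : Fin (D + 1), (c a : ℝ) * (s : ℝ) ^ (a : ℕ) * (t : ℝ) ^ (D - (a : ℕ)) /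
        ((a : ℕ).factorial * (D - (a : ℕ)).factorial))) := by
  obtain ⟨n₀, e, h1, h2⟩ := h
  have h3 : ∀ a ∈ Finset.range (D + 1), ∀ b ∈ Finset.range (D + 1 - a),
      Tendsto (fun N : ℕ => (e a b : ℝ) * ((((s * N).choose a : ℝ) / (N : ℝ) ^ a) *
        (((t * N).choose b : ℝ) / (N : ℝ) ^ (D - a)))) atTop
      (𝓝 ((e a b : ℝ) * (((s : ℝ) ^ a / a.factorial) *
        (if b = D - a then (t : ℝ) ^ b / b.factorial else 0)))) := by
    intro a ha b hb
    rw [Finset.mem_range] at ha hb
    have h4 := tendsto_choose_div a a s hs le_rfl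
    rw [if_pos rfl] at h4
    exact (h4.mul (tendsto_choose_div b (D - a) t ht (by omega))).const_mul _
  have h4 : Tendsto (fun N : ℕ => ∑ a ∈ Finset.range (D + 1), ∑ b ∈ Finset.range (D + 1 - a),
      (e a b : ℝ) * ((((s * N).choose a : ℝ) / (N : ℝ) ^ a) *
        (((t * N).choose b : ℝ) / (N : ℝ) ^ (D - a)))) atTop
      (𝓝 (∑ a ∈ Finset.range (D + 1), ∑ b ∈ Finset.range (D + 1 - a),
        (e a b : ℝ) * (((s : ℝ) ^ a / a.factorial) *
        (if b = D - a then (t : ℝ) ^ b / b.factorial else 0)))) :=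
    tendsto_finsetSum _ fun a ha => tendsto_finsetSum _ fun b hb => h3 a ha b hb
  have h5 : ∑ a : Fin (D + 1), (c a : ℝ) * (s : ℝ) ^ (a : ℕ) * (t : ℝ) ^ (D - (a : ℕ)) /
      ((a : ℕ).factorial * (D - (a : ℕ)).factorial) =
      ∑ a ∈ Finset.range (D + 1), ∑ b ∈ Finset.range (D + 1 - a),
        (e a b : ℝ) * (((s : ℝ) ^ a / a.factorial) *
        (if b = D - a then (t : ℝ) ^ b / b.factorial else 0)) := by
    rw [Finset.sum_range]
    refine Finset.sum_congr rfl fun a _ => ?_
    have ha := a.2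
    rw [Finset.sum_eq_single (D - (a : ℕ)), if_pos rfl, h1 a]
    · field_simp
    · intro b _ hb
      rw [if_neg hb]
      simp
    · intro hb
      exact absurd (Finset.mem_range.2 (by omega)) hb
  rw [h5]
  refine h4.congr' ?_
  filter_upwards [eventually_gt_atTop 0, eventually_ge_atTop n₀] with N hN hN0
  have hN' : (N : ℝ) ≠ 0 := by positivity
  rw [h2 (s * N) (t * N) (hN0.trans (Nat.le_mul_of_pos_left N hs))
    (hN0.trans (Nat.le_mul_of_pos_left N ht))]
  unfold bsum
  push_cast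
  rw [Finset.sum_div]
  refine Finset.sum_congr rfl fun a ha => ?_
  rw [Finset.sum_div]
  refine Finset.sum_congr rfl fun b hb => ?_
  rw [Finset.mem_range] at ha
  have h6 : (N : ℝ) ^ D = (N : ℝ) ^ a * (N : ℝ) ^ (D - a) := by
    rw [← pow_add]
    congr 1
    omega
  rw [h6]
  field_simp

/-- the form determines its coefficients -/
theorem form_inj (v : Fin (D + 1) → ℝ) (h : ∀ s : ℕ, 0 < s →
    ∑ a : Fin (D + 1), v a * (s : ℝ) ^ (a : ℕ) * ((1 : ℕ) : ℝ) ^ (D - (a : ℕ)) /
        ((a : ℕ).factorial * (D - (a : ℕ)).factorial) = 0) : v = 0 := by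
  let p : Polynomial ℝ := ∑ a : Fin (D + 1),
    Polynomial.monomial (a : ℕ) (v a / ((a : ℕ).factorial * (D - (a : ℕ)).factorial))
  have hp : p = 0 := by
    refine Polynomial.eq_zero_of_infinite_isRoot p ?_
    have hinf : (Set.range fun s : ℕ => ((s + 1 : ℕ) : ℝ)).Infinite :=
      Set.infinite_range_of_injective fun a b hab => by simpa using hab
    refine hinf.mono ?_
    rintro _ ⟨s, rfl⟩
    show p.eval _ = 0
    rw [← h (s + 1) (Nat.succ_pos s)]
    simp only [p, Polynomial.eval_finsetSum, Polynomial.eval_monomial]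
    refine Finset.sum_congr rfl fun a _ => ?_
    simp only [Nat.cast_one, one_pow]
    ring
  funext a
  have h1 : p.coeff a = v a / ((a : ℕ).factorial * (D - (a : ℕ)).factorial) := by
    simp only [p, Polynomial.finsetSum_coeff, Polynomial.coeff_monomial]
    rw [Finset.sum_eq_single a]
    · simp
    · intro b _ hb
      rw [if_neg]
      intro h
      exact hb (Fin.ext h)
    · intro h
      exact absurd (Finset.mem_univ a) h
  rw [hp, Polynomial.coeff_zero] at h1
  have h2 : ((a : ℕ).factorial * (D - (a : ℕ)).factorial : ℝ) ≠ 0 := by positivity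
  have h3 := h1.symm
  rw [div_eq_zero_iff] at h3
  exact h3.resolve_right h2

theorem form_inj_int {c : Fin (D + 1) → ℤ} (h : ∀ s t : ℕ, 0 < s → 0 < t →
    ∑ a : Fin (D + 1), (c a : ℝ) * (s : ℝ) ^ (a : ℕ) * (t : ℝ) ^ (D - (a : ℕ)) /
        ((a : ℕ).factorial * (D - (a : ℕ)).factorial) = 0) : c = 0 := by
  have h1 := form_inj (fun a => (c a : ℝ)) fun s hs => h s 1 hs Nat.one_pos
  funext a
  have := congrFun h1 a
  simpa using this

/-- A nonnegative polynomial bounded by one of degree `≤ D` has degree `≤ D`. -/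
theorem IsPoly.bound {c : Fin (D + 1) → ℤ} (hG : BP G D c) (hF : IsPoly F) (n₁ : ℕ)
    (h : ∀ s t, n₁ ≤ s → n₁ ≤ t → 0 ≤ F s t ∧ F s t ≤ G s t) :
    ∃ c' : Fin (D + 1) → ℤ, BP F D c' := by
  rcases hF.exact with ⟨n₀, h0⟩ | ⟨E, c', hc', h'⟩
  · exact ⟨0, (BP.zero D).congr n₀ fun s t hs ht => (h0 s t hs ht).symm⟩
  · rcases Nat.lt_or_ge D E with hE | hE
    · exfalso
      apply hc'
      refine form_inj_int fun s t hs ht => ?_
      have h1 := h'.tendsto hs ht
      have h2 := (hG.lift_of_lt hE).tendsto hs ht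
      simp only [Pi.zero_apply, Int.cast_zero, zero_mul, zero_div, Finset.sum_const_zero] at h2
      refine tendsto_nhds_unique h1 ?_
      refine tendsto_of_tendsto_of_tendsto_of_le_of_le' tendsto_const_nhds h2 ?_ ?_
      · filter_upwards [eventually_ge_atTop n₁] with N hN
        have h3 := (h (s * N) (t * N) (hN.trans (Nat.le_mul_of_pos_left N hs))
          (hN.trans (Nat.le_mul_of_pos_left N ht))).1
        have h4 : (0 : ℝ) ≤ F (s * N) (t * N) := by exact_mod_cast h3
        positivity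
      · filter_upwards [eventually_ge_atTop n₁] with N hN
        have h3 := (h (s * N) (t * N) (hN.trans (Nat.le_mul_of_pos_left N hs))
          (hN.trans (Nat.le_mul_of_pos_left N ht))).2
        have h4 : (F (s * N) (t * N) : ℝ) ≤ G (s * N) (t * N) := by exact_mod_cast h3
        gcongr
    · exact h'.lift_le hE

/-- If the limits of `F(sN,tN) / N^D` exist and are given by `v` then `F` has degree `≤ D` and top
part `v`. -/
theorem IsPoly.of_tendsto (hF : IsPoly F) (v : Fin (D + 1) → ℝ)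
    (h : ∀ s t : ℕ, 0 < s → 0 < t → Filter.Tendsto
      (fun N : ℕ => (F (s * N) (t * N) : ℝ) / (N : ℝ) ^ D) Filter.atTop
      (nhds (∑ a : Fin (D + 1), v a * (s : ℝ) ^ (a : ℕ) * (t : ℝ) ^ (D - (a : ℕ)) /
        ((a : ℕ).factorial * (D - (a : ℕ)).factorial)))) :
    ∃ c : Fin (D + 1) → ℤ, BP F D c ∧ ∀ a, v a = c a := by
  have key : ∀ c : Fin (D + 1) → ℤ, BP F D c → ∀ a, v a = c a := by
    intro c hc a
    have h1 : (fun a => v a - c a) = 0 := by
      refine form_inj _ fun s hs => ?_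
      have h2 := tendsto_nhds_unique (h s 1 hs Nat.one_pos) (hc.tendsto hs Nat.one_pos)
      rw [← sub_eq_zero, ← Finset.sum_sub_distrib] at h2
      rw [← h2]
      refine Finset.sum_congr rfl fun a _ => ?_
      ring
    have := congrFun h1 a
    simpa [sub_eq_zero] using this
  have key2 : ∀ c : Fin (D + 1) → ℤ, BP F D c → ∃ c : Fin (D + 1) → ℤ, BP F D c ∧ ∀ a, v a = c a :=
    fun c hc => ⟨c, hc, key c hc⟩
  rcases hF.exact with ⟨n₀, h0⟩ | ⟨E, c', hc', h'⟩
  · exact key2 0 ((BP.zero D).congr n₀ fun s t hs ht => (h0 s t hs ht).symm)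
  · rcases Nat.lt_or_ge D E with hE | hE
    · exfalso
      apply hc'
      refine form_inj_int fun s t hs ht => ?_
      have h1 := h'.tendsto hs ht
      refine tendsto_nhds_unique h1 ?_
      have h2 := (h s t hs ht).mul (tendsto_choose_div 0 (E - D) 1 Nat.one_pos (by omega))
      rw [if_neg (by omega), mul_zero] at h2
      refine h2.congr' ?_
      filter_upwards [eventually_gt_atTop 0] with N hN
      have hN' : (N : ℝ) ≠ 0 := by positivity
      have h3 : (N : ℝ) ^ E = (N : ℝ) ^ D * (N : ℝ) ^ (E - D) := by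
        rw [← pow_add]
        congr 1
        omega
      rw [h3]
      simp only [Nat.choose_zero_right, Nat.cast_one]
      field_simp
    · obtain ⟨c₁, h₁⟩ := h'.lift_le hE
      exact key2 c₁ h₁

/-- A polynomial of degree `≤ n - 1` in each variable. -/
theorem BP.top_zero {c : Fin (D + 1) → ℤ} (h : BP F D c) {n : ℕ} (hn : 1 ≤ n) (hD : n ≤ D) (n₁ : ℕ)
    (hF : ∀ s t, n₁ ≤ s → n₁ ≤ t → 0 ≤ F s t ∧
      F s t ≤ ((s + n - 1).choose (n - 1) : ℤ) * ((t + n - 1).choose (n - 1) : ℤ)) : c 0 = 0 := by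
  obtain ⟨n₀, e, he, hc, h1⟩ := h.elim
  have h1 := h1 (D + 1) (Nat.lt_succ_self D)
  set m := max n₀ n₁ with hm
  have hm0 : n₀ ≤ m := le_max_left _ _
  have hm1 : n₁ ≤ m := le_max_right _ _
  -- the limit of `F(m,t) / t^D`
  have h2 : Tendsto (fun t : ℕ => (F m t : ℝ) / (t : ℝ) ^ D) atTop
      (𝓝 (∑ a ∈ Finset.range (D + 1), ∑ b ∈ Finset.range (D + 1), (e a b : ℝ) * (m.choose a : ℝ) *
        (if b = D then ((1 : ℕ) : ℝ) ^ b / b.factorial else 0))) := by
    have h3 : Tendsto (fun t : ℕ => ∑ a ∈ Finset.range (D + 1), ∑ b ∈ Finset.range (D + 1),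
        (e a b : ℝ) * (m.choose a : ℝ) * (((1 * t).choose b : ℝ) / (t : ℝ) ^ D)) atTop
      (𝓝 (∑ a ∈ Finset.range (D + 1), ∑ b ∈ Finset.range (D + 1), (e a b : ℝ) * (m.choose a : ℝ) *
        (if b = D then ((1 : ℕ) : ℝ) ^ b / b.factorial else 0))) := by
      refine tendsto_finsetSum _ fun a _ => tendsto_finsetSum _ fun b hb => ?_
      rw [Finset.mem_range] at hb
      exact (tendsto_choose_div b D 1 Nat.one_pos (by omega)).const_mul _
    refine h3.congr' ?_
    filter_upwards [eventually_ge_atTop n₀] with t ht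
    rw [h1 m t hm0 ht]
    unfold sqS
    push_cast
    rw [Finset.sum_div]
    refine Finset.sum_congr rfl fun a _ => ?_
    rw [Finset.sum_div]
    refine Finset.sum_congr rfl fun b _ => ?_
    rw [one_mul]
    ring
  have h4 : ∑ a ∈ Finset.range (D + 1), ∑ b ∈ Finset.range (D + 1),
      (e a b : ℝ) * (m.choose a : ℝ) * (if b = D then ((1 : ℕ) : ℝ) ^ b / b.factorial else 0) =
      (c 0 : ℝ) / D.factorial := by
    rw [Finset.sum_eq_single 0, Finset.sum_eq_single D]
    · have := hc 0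
      simp only [Fin.val_zero, Nat.sub_zero] at this
      rw [← this]
      simp
      ring
    · intro b _ hb
      rw [if_neg hb, mul_zero]
    · intro hb
      exact absurd (Finset.mem_range.2 (by omega)) hb
    · intro a _ ha
      refine Finset.sum_eq_zero fun b _ => ?_
      by_cases hb : b = D
      · rw [he a b (by omega)]
        simp
      · rw [if_neg hb, mul_zero]
    · intro ha
      exact absurd (Finset.mem_range.2 (by omega)) ha
  rw [h4] at h2
  -- the upper bound
  have h5 : Tendsto (fun t : ℕ => ((m + n - 1).choose (n - 1) : ℝ) *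
      ((t + n - 1).choose (n - 1) : ℝ) / (t : ℝ) ^ D) atTop (𝓝 0) := by
    have h6 := (tendsto_choose_div (n - 1) D 2 (by norm_num) (by omega)).const_mul
      ((m + n - 1).choose (n - 1) : ℝ)
    rw [if_neg (by omega), mul_zero] at h6
    refine tendsto_of_tendsto_of_tendsto_of_le_of_le' tendsto_const_nhds h6 ?_ ?_
    · exact Eventually.of_forall fun t => by positivity
    · filter_upwards [eventually_ge_atTop n] with t ht
      rw [← mul_div_assoc]
      have h7 : (t + n - 1).choose (n - 1) ≤ (2 * t).choose (n - 1) :=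
        Nat.choose_le_choose _ (by omega)
      have h8 : ((t + n - 1).choose (n - 1) : ℝ) ≤ ((2 * t).choose (n - 1) : ℝ) := by
        exact_mod_cast h7
      gcongr
  have h9 : (c 0 : ℝ) / D.factorial = 0 := by
    refine tendsto_nhds_unique h2 ?_
    refine tendsto_of_tendsto_of_tendsto_of_le_of_le' tendsto_const_nhds h5 ?_ ?_
    · filter_upwards [eventually_ge_atTop n₁] with t ht
      have h3 := (hF m t hm1 ht).1
      have h4 : (0 : ℝ) ≤ F m t := by exact_mod_cast h3
      positivity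
    · filter_upwards [eventually_ge_atTop n₁] with t ht
      have h3 := (hF m t hm1 ht).2
      have h4 : (F m t : ℝ) ≤ ((m + n - 1).choose (n - 1) : ℝ) * ((t + n - 1).choose (n - 1) : ℝ) := by
        exact_mod_cast h3
      gcongr
  have h10 : (D.factorial : ℝ) ≠ 0 := by positivity
  rw [div_eq_zero_iff] at h9
  exact_mod_cast h9.resolve_right h10

/-- The product of two binomial coefficients. -/
theorem BP.choose_mul (a b : ℕ) : ∃ c : Fin (a + b + 1) → ℤ, c ≠ 0 ∧
    BP (fun s t => ((s + a).choose a : ℤ) * ((t + b).choose b : ℤ)) (a + b) c := by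
  have h1 : BP (fun s t => (s.choose a : ℤ) * (t.choose b : ℤ)) (a + b)
      (fun p => if (p : ℕ) = a then 1 else 0) :=
    (BP.basis a b 1).congr 0 fun s t _ _ => by rw [one_mul]
  refine ⟨_, ?_, (BP.shift_iff _ a b).2 h1⟩
  intro h
  have := congrFun h ⟨a, by omega⟩
  simp at this

/-- The binomial coefficient `C(s+t+a,a)`. -/
theorem BP.choose_add (a : ℕ) : ∃ c : Fin (a + 1) → ℤ,
    BP (fun s t => ((s + t + a).choose a : ℤ)) a c := by
  have h1 : BP (fun s t => ((s + t).choose a : ℤ)) a (fun _ => 1) := by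
    refine ⟨0, fun x y => if x + y = a then 1 else 0, fun p => ?_, fun s t _ _ => ?_⟩
    · have := p.2
      beta_reduce
      rw [if_pos (by omega)]
    · beta_reduce
      rw [Nat.add_choose_eq, Finset.Nat.sum_antidiagonal_eq_sum_range_succ_mk]
      unfold bsum
      push_cast
      refine Finset.sum_congr rfl fun x hx => ?_
      rw [Finset.mem_range] at hx
      rw [Finset.sum_eq_single (a - x)]
      · rw [if_pos (by omega), one_mul]
      · intro y _ hy
        rw [if_neg (by omega)]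
        simp
      · intro hy
        exact absurd (Finset.mem_range.2 (by omega)) hy
  refine ⟨fun _ => 1, ((BP.shift_left_iff _ a).2 h1).congr 0 fun s t _ _ => ?_⟩
  rw [show s + a + t = s + t + a by ring]

end Pool.Agent.GrUp
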