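import Pool.Agent.GrUp.Defs
import Pool.Agent.GrUp.BinPoly

/-!
# Bihomogeneous ideals of the coordinate ring of `2 × n` matrices: basic definitions
-/

namespace Pool.Agent.GrUp

open MvPolynomial

/-- The coordinate ring of the `2 × n` matrices. -/
abbrev Rg (κ : Type*) [Field κ] (n : ℕ) := MvPolynomial (Fin 2 × Fin n) κ

variable {κ : Type*} [Field κ] {n : ℕ}

/-- Bihomogeneous ideals. -/
def IsBi (J : Ideal (Rg κ n)) : Prop :=
  ∀ f ∈ J, ∀ m : ℕ × ℕ, weightedHomogeneousComponent (wt n) m f ∈ J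

/-- The elements of bidegree `(s,t)` of the ideal `J`, inside the space `bi κ n s t`. -/
noncomputable def part (J : Ideal (Rg κ n)) (s t : ℕ) : Submodule κ (bi κ n s t) :=
  (J.restrictScalars κ).comap (bi κ n s t).subtype

/-- The Hilbert function of `Rg κ n ⧸ J`. -/
noncomputable def HF (J : Ideal (Rg κ n)) (s t : ℕ) : ℕ :=
  Module.finrank κ (bi κ n s t ⧸ part J s t)

/-- The `2 × 2` minor of the columns `i`, `j`. -/
noncomputable def minor (κ : Type*) [Field κ] {n : ℕ} (i j : Fin n) : Rg κ n :=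
  X (0, i) * X (1, j) - X (0, j) * X (1, i)

/-- The linear form `∑ q, T p q * X q`. -/
noncomputable def linT (T : Matrix (Fin 2 × Fin n) (Fin 2 × Fin n) κ) (p : Fin 2 × Fin n) : Rg κ n :=
  ∑ q, C (T p q) * X q

/-- The derivation of the coordinate ring with `X p ↦ ∑ q, T p q * X q`. -/
noncomputable def der (T : Matrix (Fin 2 × Fin n) (Fin 2 × Fin n) κ) :
    Derivation κ (Rg κ n) (Rg κ n) :=
  mkDerivation κ (linT T)

/-- `J` is stable under the derivation `der T`. -/
def StabD (J : Ideal (Rg κ n)) (T : Matrix (Fin 2 × Fin n) (Fin 2 × Fin n) κ) : Prop :=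
  ∀ f ∈ J, der T f ∈ J

/-- The row operation `X (r,i) ↦ X (r',i)` (and `X (r'',i) ↦ 0` for `r'' ≠ r`). -/
def rowM (κ : Type*) [Field κ] (n : ℕ) (r r' : Fin 2) : Matrix (Fin 2 × Fin n) (Fin 2 × Fin n) κ :=
  fun p q => if p.1 = r ∧ q.1 = r' ∧ p.2 = q.2 then 1 else 0

/-- The column operation given by the matrix `N`: `X (r,i) ↦ ∑ j, N i j * X (r,j)`. -/
def colM (N : Matrix (Fin n) (Fin n) κ) : Matrix (Fin 2 × Fin n) (Fin 2 × Fin n) κ :=
  fun p q => if p.1 = q.1 then N p.2 q.2 else 0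

/-- `J` is stable under the row operations. -/
def RowStab (J : Ideal (Rg κ n)) : Prop := StabD J (rowM κ n 0 1) ∧ StabD J (rowM κ n 1 0)

end Pool.Agent.GrUp
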