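import Pool.Agent.GrUp.Base

/-!
# Ideals of functions vanishing on sets stable under the two-dimensional torus
-/

namespace Pool.Agent.GrUp

open MvPolynomial

variable {κ : Type*} [Field κ] {n : ℕ}

theorem prod_wt (x y : κ) (d : (Fin 2 × Fin n) →₀ ℕ) :
    ∏ p : Fin 2 × Fin n, (if p.1 = 0 then x else y) ^ d p =
      x ^ (Finsupp.weight (wt n) d).1 * y ^ (Finsupp.weight (wt n) d).2 := by
  rw [Finsupp.weight_apply, Finsupp.sum_fintype _ _ (by simp), Prod.fst_sum, Prod.snd_sum,
    ← Finset.prod_pow_eq_pow_sum, ← Finset.prod_pow_eq_pow_sum, ← Finset.prod_mul_distrib]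
  refine Finset.prod_congr rfl fun p _ => ?_
  unfold wt
  by_cases h : p.1 = 0
  · simp [h]
  · simp [h]

/-- The ideal of a set stable under the rescaling of both rows is bihomogeneous. -/
theorem isBi_of_eval [Infinite κ] {S : Set (Fin 2 × Fin n → κ)}
    (hS : ∀ A ∈ S, ∀ a b : κ, a ≠ 0 → b ≠ 0 →
      (fun p : Fin 2 × Fin n => (if p.1 = 0 then a else b) * A p) ∈ S)
    {J : Ideal (Rg κ n)} (hJ : ∀ f, f ∈ J ↔ ∀ A ∈ S, eval A f = 0) : IsBi J := by
  classical
  intro f hf m
  rw [hJ] at hf ⊢
  intro A hA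
  set w : ((Fin 2 × Fin n) →₀ ℕ) → ℕ × ℕ := fun d => Finsupp.weight (wt n) d with hw
  set M : ℕ := 1 + m.1 + ∑ d ∈ f.support, (w d).1 with hM
  have hMd : ∀ d ∈ f.support, (w d).1 < M := by
    intro d hd
    have : (w d).1 ≤ ∑ d ∈ f.support, (w d).1 :=
      Finset.single_le_sum (f := fun d => (w d).1) (fun i _ => Nat.zero_le _) hd
    omega
  set P : Polynomial κ := ∑ d ∈ f.support, Polynomial.C (coeff d f * ∏ p, A p ^ d p) *
    Polynomial.X ^ ((w d).1 + M * (w d).2) with hP
  have hPx : ∀ x : κ, x ≠ 0 → P.eval x = 0 := by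
    intro x hx
    rw [← hf _ (hS A hA x (x ^ M) hx (pow_ne_zero _ hx)), eval_eq', hP, Polynomial.eval_finsetSum]
    refine Finset.sum_congr rfl fun d _ => ?_
    simp only [Polynomial.eval_mul, Polynomial.eval_C, Polynomial.eval_pow, Polynomial.eval_X,
      mul_pow, Finset.prod_mul_distrib]
    rw [prod_wt, pow_add, pow_mul]
    ring
  have hP0 : P = 0 := by
    have h1 : Polynomial.X * P = 0 := by
      refine Polynomial.eq_zero_of_infinite_isRoot _ ?_
      refine Set.Infinite.mono (s := Set.univ) ?_ Set.infinite_univ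
      intro x _
      show (Polynomial.X * P).eval x = 0
      rw [Polynomial.eval_mul, Polynomial.eval_X]
      by_cases hx : x = 0
      · rw [hx, zero_mul]
      · rw [hPx x hx, mul_zero]
    exact (mul_eq_zero.1 h1).resolve_left Polynomial.X_ne_zero
  have hc : P.coeff (m.1 + M * m.2) = 0 := by rw [hP0, Polynomial.coeff_zero]
  rw [hP, Polynomial.finsetSum_coeff] at hc
  rw [weightedHomogeneousComponent_apply, map_sum, Finset.sum_filter]
  refine Eq.trans (Finset.sum_congr rfl fun d hd => ?_) hc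
  rw [Polynomial.coeff_C_mul, Polynomial.coeff_X_pow, eval_monomial]
  have hiff : Finsupp.weight (wt n) d = m ↔ m.1 + M * m.2 = (w d).1 + M * (w d).2 := by
    constructor
    · rintro rfl; rfl
    · intro h
      have h1 := hMd d hd
      have h2 : m.1 < M := by omega
      have h3 : m.1 = (w d).1 := by
        have := congrArg (· % M) h
        simpa [Nat.mod_eq_of_lt h1, Nat.mod_eq_of_lt h2] using this
      have h4 : m.2 = (w d).2 := by
        have h5 : M * m.2 = M * (w d).2 := by omega
        exact Nat.eq_of_mul_eq_mul_left (by omega) h5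
      exact (Prod.ext h3 h4).symm
  by_cases h : Finsupp.weight (wt n) d = m
  · rw [if_pos h, if_pos (hiff.1 h), mul_one, Finsupp.prod_fintype _ _ (by simp)]
  · rw [if_neg h, if_neg (fun h' => h (hiff.2 h')), mul_zero]

end Pool.Agent.GrUp
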