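import Pool.Agent.GrUp.Der
import Pool.Agent.GrUp.BiEval

/-!
# The cones over the Schubert varieties of `Gr(2,n)` (module E)

Indices are `0`-based: for `i < j < n` the Schubert variety is
`{V ⊆ ⟨e_0, ..., e_j⟩, V ∩ ⟨e_0, ..., e_i⟩ ≠ 0}`, of dimension `i + j - 1`.
-/

namespace Pool.Agent.GrUp

open MvPolynomial

variable {κ : Type*} [Field κ] {n : ℕ}

/-- The matrices with columns `> j` zero and columns `> i` proportional. -/
def celS (κ : Type*) [Field κ] (n i j : ℕ) : Set (Fin 2 × Fin n → κ) :=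
  {A | (∀ (r : Fin 2) (q : Fin n), j < q → A (r, q) = 0) ∧
    ∀ q q' : Fin n, i < q → i < q' → A (0, q) * A (1, q') = A (0, q') * A (1, q)}

/-- The ideal of the matrices with columns `> j` zero and columns `> i` proportional. -/
def celI (κ : Type*) [Field κ] (n i j : ℕ) : Ideal (Rg κ n) where
  carrier := {f | ∀ A ∈ celS κ n i j, eval A f = 0}
  add_mem' := fun {a b} ha hb A hA => by simp [ha A hA, hb A hA]
  zero_mem' := fun A _ => by simp
  smul_mem' := fun c x hx A hA => by simp [hx A hA]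

theorem X_mem_celI {i j : ℕ} (r : Fin 2) {q : Fin n} (hq : j < q) :
    (X (r, q) : Rg κ n) ∈ celI κ n i j := by
  intro A hA
  rw [eval_X]
  exact hA.1 r q hq

theorem minor_mem_celI {i j : ℕ} {q q' : Fin n} (hq : i < q) (hq' : i < q') :
    minor κ q q' ∈ celI κ n i j := by
  intro A hA
  unfold minor
  rw [map_sub, map_mul, map_mul, eval_X, eval_X, eval_X, eval_X, hA.2 q q' hq hq', sub_self]

theorem mem_celS_iff {i j : ℕ} {A : Fin 2 × Fin n → κ} :
    A ∈ celS κ n i j ↔ ∀ f ∈ celI κ n i j, eval A f = 0 := by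
  constructor
  · intro hA f hf
    exact hf A hA
  · intro h
    refine ⟨fun r q hq => ?_, fun q q' hq hq' => ?_⟩
    · have := h _ (X_mem_celI r hq)
      rwa [eval_X] at this
    · have := h _ (minor_mem_celI hq hq')
      unfold minor at this
      rw [map_sub, map_mul, map_mul, eval_X, eval_X, eval_X, eval_X, sub_eq_zero] at this
      exact this

/-- the parametrisation of `celS` -/
noncomputable def par (κ : Type*) [Field κ] {n : ℕ} (i j : ℕ) (p : Fin 2 × Fin n) :
    MvPolynomial ((Fin 2 × Fin 2) ⊕ (Fin 2 × Fin n)) κ :=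
  (if (p.2 : ℕ) ≤ i then X (Sum.inl (p.1, 0)) * X (Sum.inr (0, p.2)) else 0) +
    (if (p.2 : ℕ) ≤ j then X (Sum.inl (p.1, 1)) * X (Sum.inr (1, p.2)) else 0)

/-- the parametrisation of `celS`, points -/
def parP (i j : ℕ) (B : (Fin 2 × Fin 2) ⊕ (Fin 2 × Fin n) → κ) (p : Fin 2 × Fin n) : κ :=
  (if (p.2 : ℕ) ≤ i then B (Sum.inl (p.1, 0)) * B (Sum.inr (0, p.2)) else 0) +
    (if (p.2 : ℕ) ≤ j then B (Sum.inl (p.1, 1)) * B (Sum.inr (1, p.2)) else 0)

theorem eval_par (i j : ℕ) (B : (Fin 2 × Fin 2) ⊕ (Fin 2 × Fin n) → κ) (p : Fin 2 × Fin n) :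
    eval B (par κ i j p) = parP i j B p := by
  unfold par parP
  rw [map_add]
  split_ifs <;> simp

theorem eval_aeval_par (i j : ℕ) (B : (Fin 2 × Fin 2) ⊕ (Fin 2 × Fin n) → κ) (f : Rg κ n) :
    eval B (aeval (par κ i j) f) = eval (parP i j B) f := by
  have h : (eval B).comp (aeval (par κ i j) : Rg κ n →ₐ[κ] _).toRingHom =
      eval (parP i j B) := by
    refine ringHom_ext (fun a => ?_) fun p => ?_
    · simp
    · show eval B (aeval (par κ i j) (X p)) = eval (parP i j B) (X p)
      rw [aeval_X, eval_par, eval_X]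
  exact congrArg (fun g : Rg κ n →+* κ => g f) h

theorem parP_mem {i j : ℕ} (hij : i < j) (B : (Fin 2 × Fin 2) ⊕ (Fin 2 × Fin n) → κ) :
    parP i j B ∈ celS κ n i j := by
  refine ⟨fun r q hq => ?_, fun q q' hq hq' => ?_⟩
  · unfold parP
    rw [if_neg (by simp only; omega), if_neg (by simp only; omega), add_zero]
  · have key : ∀ (r : Fin 2) (q : Fin n), i < q → parP i j B (r, q) =
        if (q : ℕ) ≤ j then B (Sum.inl (r, 1)) * B (Sum.inr (1, q)) else 0 := by
      intro r q hq
      unfold parP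
      rw [if_neg (by simp only; omega), zero_add]
    rw [key 0 q hq, key 1 q' hq', key 0 q' hq', key 1 q hq]
    split_ifs <;> ring

theorem exists_parP {i j : ℕ} (hij : i < j) {A : Fin 2 × Fin n → κ} (hA : A ∈ celS κ n i j) :
    ∃ B, parP i j B = A := by
  by_cases h : ∀ (r : Fin 2) (q : Fin n), i < q → A (r, q) = 0
  · refine ⟨Sum.elim (fun p => if p.1 = p.2 then 1 else 0) A, ?_⟩
    funext p
    obtain ⟨r, q⟩ := p
    fin_cases r
    · show parP i j _ (0, q) = A (0, q)
      unfold parP
      by_cases hq : (q : ℕ) ≤ i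
      · simp [hq]
      · simp [hq, h 0 q (by omega)]
    · show parP i j _ (1, q) = A (1, q)
      unfold parP
      by_cases hq : (q : ℕ) ≤ j
      · simp [hq]
      · simp [hq, h 1 q (by omega)]
  · push Not at h
    obtain ⟨r₀, q₀, hq₀, hne⟩ := h
    by_cases h0 : A (0, q₀) = 0
    · have h1 : A (1, q₀) ≠ 0 := by
        fin_cases r₀
        · exact absurd h0 hne
        · exact hne
      refine ⟨Sum.elim (fun p => if p.2 = 0 then (if p.1 = 0 then 1 else 0) else A (p.1, q₀))
        (fun p => if p.1 = 0 then A (0, p.2) else A (1, p.2) / A (1, q₀)), ?_⟩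
      funext p
      obtain ⟨r, q⟩ := p
      have hq' : i < (q : ℕ) → A (0, q) = 0 := by
        intro hq
        have h2 := hA.2 q q₀ hq hq₀
        rw [h0, zero_mul] at h2
        exact (mul_eq_zero.1 h2).resolve_right h1
      fin_cases r
      · show parP i j _ (0, q) = A (0, q)
        unfold parP
        by_cases hq : (q : ℕ) ≤ i
        · simp [hq, h0]
        · simp [hq, h0, hq' (by omega)]
      · show parP i j _ (1, q) = A (1, q)
        unfold parP
        by_cases hq : (q : ℕ) ≤ j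
        · simp [hq]
          field_simp
        · simp [hq, hA.1 1 q (by omega)]
    · refine ⟨Sum.elim (fun p => if p.2 = 0 then (if p.1 = 0 then 0 else 1) else A (p.1, q₀))
        (fun p => if p.1 = 0 then A (1, p.2) - A (1, q₀) * (A (0, p.2) / A (0, q₀))
          else A (0, p.2) / A (0, q₀)), ?_⟩
      funext p
      obtain ⟨r, q⟩ := p
      have hq' : i < (q : ℕ) → A (1, q) = A (1, q₀) * (A (0, q) / A (0, q₀)) := by
        intro hq
        have h2 := hA.2 q q₀ hq hq₀
        field_simp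
        linear_combination -h2
      fin_cases r
      · show parP i j _ (0, q) = A (0, q)
        unfold parP
        by_cases hq : (q : ℕ) ≤ j
        · simp [hq]
          field_simp
        · simp [hq, hA.1 0 q (by omega)]
      · show parP i j _ (1, q) = A (1, q)
        unfold parP
        by_cases hq : (q : ℕ) ≤ i
        · have hqj : (q : ℕ) ≤ j := by omega
          simp [hq, hqj]
        · by_cases hqj : (q : ℕ) ≤ j
          · simp [hq, hqj]
            rw [← hq' (by omega)]
          · simp [hq, hqj, hA.1 1 q (by omega)]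

theorem celI_eq_ker [Infinite κ] {i j : ℕ} (hij : i < j) :
    celI κ n i j = RingHom.ker (aeval (par κ i j) : Rg κ n →ₐ[κ] _) := by
  ext f
  rw [RingHom.mem_ker]
  constructor
  · intro hf
    refine MvPolynomial.funext fun B => ?_
    rw [eval_aeval_par, map_zero]
    exact hf _ (parP_mem hij B)
  · intro hf A hA
    obtain ⟨B, rfl⟩ := exists_parP hij hA
    rw [← eval_aeval_par, hf, map_zero]

theorem isPrime_celI [Infinite κ] {i j : ℕ} (hij : i < j) (hj : j < n) : (celI κ n i j).IsPrime := by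
  rw [celI_eq_ker hij]
  exact RingHom.ker_isPrime _

theorem isBi_celI [Infinite κ] (i j : ℕ) : IsBi (celI κ n i j) := by
  refine isBi_of_eval (S := celS κ n i j) (fun A hA a b _ _ => ?_) fun f => Iff.rfl
  refine ⟨fun r q hq => ?_, fun q q' hq hq' => ?_⟩
  · beta_reduce
    rw [hA.1 r q hq, mul_zero]
  · simp only [if_true, one_ne_zero, if_false]
    linear_combination a * b * hA.2 q q' hq hq'

theorem rowStab_celI [CharZero κ] (i j : ℕ) : RowStab (celI κ n i j) := by
  constructor
  · refine stabD_of_eval (S := celS κ n i j) (fun A hA a _ => ?_) fun f => Iff.rfl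
    refine ⟨fun r q hq => ?_, fun q q' hq hq' => ?_⟩
    · rw [Pi.add_apply, Pi.smul_apply, rowM_mulVec]
      simp only
      rw [hA.1 r q hq, hA.1 1 q hq]
      simp
    · simp only [Pi.add_apply, Pi.smul_apply, rowM_mulVec, if_true, one_ne_zero, if_false,
        smul_eq_mul]
      linear_combination hA.2 q q' hq hq'
  · refine stabD_of_eval (S := celS κ n i j) (fun A hA a _ => ?_) fun f => Iff.rfl
    refine ⟨fun r q hq => ?_, fun q q' hq hq' => ?_⟩
    · rw [Pi.add_apply, Pi.smul_apply, rowM_mulVec]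
      simp only
      rw [hA.1 r q hq, hA.1 0 q hq]
      simp
    · simp only [Pi.add_apply, Pi.smul_apply, rowM_mulVec, if_true, zero_ne_one, if_false,
        smul_eq_mul]
      linear_combination hA.2 q q' hq hq'

/-! ### The chain of the Schubert varieties -/

theorem celI_anti {i j i' j' : ℕ} (h : celS κ n i j ⊆ celS κ n i' j') :
    celI κ n i' j' ≤ celI κ n i j := fun _ hf A hA => hf A (h hA)

theorem celI_lt {i j i' j' : ℕ} (h : celS κ n i j ⊆ celS κ n i' j')
    (hne : ∃ A ∈ celS κ n i' j', A ∉ celS κ n i j) : celI κ n i' j' < celI κ n i j := by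
  refine lt_of_le_not_ge (celI_anti h) fun h' => ?_
  obtain ⟨A, hA, hA'⟩ := hne
  exact hA' (mem_celS_iff.2 fun f hf => mem_celS_iff.1 hA f (h' hf))

theorem celS_mono {i j i' j' : ℕ} (hi : i ≤ i') (hj : j ≤ j') : celS κ n i j ⊆ celS κ n i' j' :=
  fun _ hA => ⟨fun r q hq => hA.1 r q (by omega), fun q q' hq hq' => hA.2 q q' (by omega) (by omega)⟩

theorem celI_lt_right {i j : ℕ} (hj : j + 1 < n) : celI κ n i (j + 1) < celI κ n i j := by
  refine celI_lt (celS_mono le_rfl (Nat.le_succ j)) ⟨Pi.single (0, ⟨j + 1, hj⟩) 1, ?_, ?_⟩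
  · refine ⟨fun r q hq => ?_, fun q q' hq hq' => ?_⟩
    · rw [Pi.single_eq_of_ne]
      intro h
      have := congrArg (fun p : Fin 2 × Fin n => (p.2 : ℕ)) h
      simp only at this
      omega
    · rw [Pi.single_eq_of_ne (i' := (1, q')), Pi.single_eq_of_ne (i' := (1, q)), mul_zero, mul_zero]
      · intro h
        have := congrArg Prod.fst h
        simp at this
      · intro h
        have := congrArg Prod.fst h
        simp at this
  · intro h
    have := h.1 0 ⟨j + 1, hj⟩ (Nat.lt_succ_self j)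
    rw [Pi.single_eq_same] at this
    exact one_ne_zero this

theorem celI_lt_left {i j : ℕ} (hij : i + 1 < j) (hj : j < n) :
    celI κ n (i + 1) j < celI κ n i j := by
  have hi : i + 1 < n := by omega
  refine celI_lt (celS_mono (Nat.le_succ i) le_rfl)
    ⟨fun p => if p = (0, ⟨i + 1, hi⟩) ∨ p = (1, ⟨j, hj⟩) then 1 else 0, ?_, ?_⟩
  · refine ⟨fun r q hq => ?_, fun q q' hq hq' => ?_⟩
    · beta_reduce
      rw [if_neg]
      rintro (h | h)
      · have := congrArg (fun p : Fin 2 × Fin n => (p.2 : ℕ)) h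
        simp only at this
        omega
      · have := congrArg (fun p : Fin 2 × Fin n => (p.2 : ℕ)) h
        simp only at this
        omega
    · have h1 : ∀ q : Fin n, i + 1 < q → ¬ (((0 : Fin 2), q) = (0, ⟨i + 1, hi⟩) ∨
          ((0 : Fin 2), q) = (1, ⟨j, hj⟩)) := by
        rintro q hq (h | h)
        · have := congrArg (fun p : Fin 2 × Fin n => (p.2 : ℕ)) h
          simp only at this
          omega
        · have := congrArg Prod.fst h
          simp at this
      beta_reduce
      rw [if_neg (h1 q hq), if_neg (h1 q' hq'), zero_mul, zero_mul]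
  · intro h
    have h1 := h.2 ⟨i + 1, hi⟩ ⟨j, hj⟩ (Nat.lt_succ_self i) (by simp only; omega)
    beta_reduce at h1
    have hne : ¬ ((0 : Fin 2), (⟨j, hj⟩ : Fin n)) = (0, ⟨i + 1, hi⟩) := by
      intro h
      have := congrArg (fun p : Fin 2 × Fin n => (p.2 : ℕ)) h
      simp only at this
      omega
    have hne' : ¬ ((0 : Fin 2), (⟨j, hj⟩ : Fin n)) = (1, ⟨j, hj⟩) := by
      intro h
      have := congrArg Prod.fst h
      simp at this
    rw [if_pos (Or.inl rfl), if_pos (Or.inr rfl), if_neg (not_or.2 ⟨hne, hne'⟩)] at h1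
    simp at h1

/-- finite-dimensionality of the bihomogeneous components -/
theorem cell_wt_sum (d : (Fin 2 × Fin n) →₀ ℕ) :
    (Finsupp.weight (wt n) d).1 + (Finsupp.weight (wt n) d).2 = ∑ p, d p := by
  rw [Finsupp.weight_eq_sum, Prod.fst_sum, Prod.snd_sum, ← Finset.sum_add_distrib]
  refine Finset.sum_congr rfl fun p _ => ?_
  unfold wt
  split_ifs <;> simp

theorem bi_le_restrictTotalDegree (s t : ℕ) :
    bi κ n s t ≤ restrictTotalDegree (Fin 2 × Fin n) κ (s + t) := by
  intro f hf
  rw [mem_restrictTotalDegree]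
  refine Finset.sup_le fun d hd => ?_
  have h1 : Finsupp.weight (wt n) d = (s, t) := hf (mem_support_iff.1 hd)
  have h2 := cell_wt_sum d
  rw [h1] at h2
  rw [Finsupp.sum_fintype _ _ (fun _ => rfl)]
  exact h2.symm.le

theorem cell_finite_bi (s t : ℕ) : Module.Finite κ (bi κ n s t) :=
  Module.Finite.of_injective (Submodule.inclusion (bi_le_restrictTotalDegree s t))
    (Submodule.inclusion_injective _)

theorem rename_mem_bi {m : ℕ} (g : Fin m → Fin n) {s t : ℕ} {f : Rg κ m} (hf : f ∈ bi κ m s t) :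
    rename (Prod.map id g : Fin 2 × Fin m → Fin 2 × Fin n) f ∈ bi κ n s t := by
  induction hf using IsWeightedHomogeneous.induction_on with
  | zero => rw [map_zero]; exact Submodule.zero_mem _
  | add p q hp hq h1 h2 => rw [map_add]; exact Submodule.add_mem _ h1 h2
  | monomial d r hr =>
    rw [rename_monomial]
    refine isWeightedHomogeneous_monomial _ _ _ ?_
    rw [← hr]
    show (Finsupp.linearCombination ℕ (wt n)) _ = (Finsupp.linearCombination ℕ (wt m)) d
    rw [Finsupp.linearCombination_mapDomain]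
    rfl

theorem eq_zero_of_rename_mem [Infinite κ] (hn : 2 ≤ n) {f : Rg κ 2}
    (hf : rename (Prod.map id (Fin.castLE hn) : Fin 2 × Fin 2 → Fin 2 × Fin n) f ∈ celI κ n 0 1) :
    f = 0 := by
  refine MvPolynomial.funext fun B => ?_
  rw [map_zero]
  set A : Fin 2 × Fin n → κ := fun p => if h : (p.2 : ℕ) < 2 then B (p.1, ⟨p.2, h⟩) else 0 with hA
  have h1 : A ∈ celS κ n 0 1 := by
    refine ⟨fun r q hq => ?_, fun q q' hq hq' => ?_⟩
    · rw [hA]
      simp only
      rw [dif_neg (by omega)]
    · rcases lt_or_ge (q : ℕ) 2 with h2 | h2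
      · rcases lt_or_ge (q' : ℕ) 2 with h3 | h3
        · obtain rfl : q = q' := Fin.ext (by omega)
          rfl
        · have h4 : ∀ r, A (r, q') = 0 := fun r => by
            rw [hA]
            simp only
            rw [dif_neg (by omega)]
          rw [h4, h4, mul_zero, zero_mul]
      · have h4 : ∀ r, A (r, q) = 0 := fun r => by
          rw [hA]
          simp only
          rw [dif_neg (by omega)]
        rw [h4, h4, mul_zero, zero_mul]
  have h2 := hf A h1
  rw [eval_rename] at h2
  have h3 : A ∘ (Prod.map id (Fin.castLE hn) : Fin 2 × Fin 2 → Fin 2 × Fin n) = B := by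
    funext p
    rw [hA]
    simp only [Function.comp, Prod.map_fst, Prod.map_snd, id]
    rw [dif_pos (show ((Fin.castLE hn p.2 : Fin n) : ℕ) < 2 from p.2.2)]
    rfl
  rwa [h3] at h2

theorem HF_bot_le [Infinite κ] (hn : 2 ≤ n) (s t : ℕ) :
    HF (⊥ : Ideal (Rg κ 2)) s t ≤ HF (celI κ n 0 1) s t := by
  have hf1 : Module.Finite κ (bi κ 2 s t) := cell_finite_bi s t
  have hf2 : Module.Finite κ (bi κ n s t) := cell_finite_bi s t
  unfold HF
  refine (Submodule.finrank_quotient_le _).trans ?_
  let R : bi κ 2 s t →ₗ[κ] bi κ n s t :=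
    LinearMap.restrict (rename (Prod.map id (Fin.castLE hn) :
      Fin 2 × Fin 2 → Fin 2 × Fin n) : Rg κ 2 →ₐ[κ] Rg κ n).toLinearMap
      (fun f hf => rename_mem_bi _ hf)
  refine LinearMap.finrank_le_finrank_of_injective
    (f := (part (celI κ n 0 1) s t).mkQ ∘ₗ R) ?_
  rw [← LinearMap.ker_eq_bot, LinearMap.ker_eq_bot']
  intro f hf
  have h1 : R f ∈ part (celI κ n 0 1) s t := by
    rwa [LinearMap.comp_apply, Submodule.mkQ_apply, Submodule.Quotient.mk_eq_zero] at hf
  have h2 : rename (Prod.map id (Fin.castLE hn) : Fin 2 × Fin 2 → Fin 2 × Fin n) f.1 ∈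
      celI κ n 0 1 := h1
  exact Subtype.ext (eq_zero_of_rename_mem hn h2)

/-- `F` has degree `≤ D` -/
def LeD (F : ℕ → ℕ → ℤ) (D : ℕ) : Prop := ∃ c : Fin (D + 1) → ℤ, BP F D c

/-- `F` has degree `< D` -/
def LtD (F : ℕ → ℕ → ℤ) (D : ℕ) : Prop := BP F D 0

theorem LtD.drop {F : ℕ → ℕ → ℤ} {D : ℕ} (h : LtD F (D + 1)) : LeD F D := BP.drop h

theorem not_LtD_base [Infinite κ] (hn : 2 ≤ n) :
    ¬ LtD (fun s t => (HF (celI κ n 0 1) s t : ℤ)) 2 := by
  intro h
  obtain ⟨c, hc⟩ := h.drop
  obtain ⟨c', hc', h'⟩ := BP.choose_mul 1 1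
  obtain ⟨c'', h''⟩ := IsPoly.bound (F := fun s t => ((s + 1).choose 1 : ℤ) * ((t + 1).choose 1 : ℤ))
    hc ⟨_, _, h'⟩ 0 (fun s t _ _ => by
      constructor
      · positivity
      · have h1 := HF_bot_le (κ := κ) hn s t
        rw [HF_bot (by norm_num)] at h1
        simp only [show 2 - 1 = 1 from rfl,
          show s + 2 - 1 = s + 1 from rfl, show t + 2 - 1 = t + 1 from rfl] at h1
        exact_mod_cast h1)
  exact hc' (h'.unique h''.lift)

theorem LeD_top [Infinite κ] (hn : 2 ≤ n) :
    LeD (fun s t => (HF (celI κ n (n - 2) (n - 1)) s t : ℤ)) (n - 1 + (n - 1)) := by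
  have h1 : celI κ n (n - 2) (n - 1) = ⊥ := by
    rw [eq_bot_iff]
    intro f hf
    rw [Ideal.mem_bot]
    refine MvPolynomial.funext fun A => ?_
    rw [map_zero]
    refine hf A ⟨fun r q hq => ?_, fun q q' hq hq' => ?_⟩
    · have := q.2
      omega
    · obtain rfl : q = q' := Fin.ext (by omega)
      rfl
  obtain ⟨c, -, hc⟩ := BP.choose_mul (n - 1) (n - 1)
  refine ⟨c, hc.congr 0 fun s t _ _ => ?_⟩
  rw [h1, HF_bot (by omega), show s + n - 1 = s + (n - 1) by omega,
    show t + n - 1 = t + (n - 1) by omega]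
  push_cast
  rfl

theorem LeD_celI [CharZero κ] (m : ℕ) : ∀ {i j : ℕ}, i < j → j < n → i + j + m = 2 * n - 3 →
    LeD (fun s t => (HF (celI κ n i j) s t : ℤ)) (i + j + 1) := by
  induction m with
  | zero =>
    intro i j hij hj h
    obtain rfl : j = n - 1 := by omega
    obtain rfl : i = n - 2 := by omega
    have h1 := LeD_top (κ := κ) (n := n) (by omega)
    rwa [show n - 1 + (n - 1) = n - 2 + (n - 1) + 1 by omega] at h1
  | succ m ih =>
    intro i j hij hj h
    by_cases hj' : j + 1 < n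
    · obtain ⟨c, hc⟩ := ih (i := i) (j := j + 1) (by omega) hj' (by omega)
      have h1 := BP_of_lt (isPrime_celI (by omega) hj') (isBi_celI i (j + 1)) (isBi_celI i j)
        (celI_lt_right hj') hc
      exact BP.drop h1
    · obtain ⟨c, hc⟩ := ih (i := i + 1) (j := j) (by omega) hj (by omega)
      have h1 := BP_of_lt (isPrime_celI (by omega) hj) (isBi_celI (i + 1) j) (isBi_celI i j)
        (celI_lt_left (by omega) hj) hc
      have h2 : LtD (fun s t => (HF (celI κ n i j) s t : ℤ)) (i + j + 1 + 1) := by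
        rw [show i + j + 1 + 1 = i + 1 + j + 1 by omega]
        exact h1
      exact h2.drop

theorem not_LtD_celI [CharZero κ] (m : ℕ) : ∀ {i j : ℕ}, i < j → j < n → i + j = m + 1 →
    ¬ LtD (fun s t => (HF (celI κ n i j) s t : ℤ)) (i + j + 1) := by
  induction m with
  | zero =>
    intro i j hij hj h
    obtain rfl : i = 0 := by omega
    obtain rfl : j = 1 := by omega
    exact not_LtD_base (by omega)
  | succ m ih =>
    intro i j hij hj h hlt
    rcases Nat.eq_zero_or_pos i with rfl | hi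
    · obtain ⟨j, rfl⟩ : ∃ j', j = j' + 1 := ⟨j - 1, by omega⟩
      refine ih (i := 0) (j := j) (by omega) (by omega) (by omega) ?_
      have h2 : LeD (fun s t => (HF (celI κ n 0 (j + 1)) s t : ℤ)) (0 + j + 1) := hlt.drop
      obtain ⟨c, hc⟩ := h2
      exact BP_of_lt (isPrime_celI (by omega) hj) (isBi_celI 0 (j + 1)) (isBi_celI 0 j)
        (celI_lt_right hj) hc
    · obtain ⟨i, rfl⟩ : ∃ i', i = i' + 1 := ⟨i - 1, by omega⟩
      refine ih (i := i) (j := j) (by omega) (by omega) (by omega) ?_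
      have h2 : LeD (fun s t => (HF (celI κ n (i + 1) j) s t : ℤ)) (i + 1 + j) := hlt.drop
      rw [show i + 1 + j = i + j + 1 by omega] at h2
      obtain ⟨c, hc⟩ := h2
      exact BP_of_lt (isPrime_celI hij hj) (isBi_celI (i + 1) j) (isBi_celI i j)
        (celI_lt_left hij hj) hc

/-- The degree of the cone over a Schubert variety. -/
theorem BP_celI [CharZero κ] {i j : ℕ} (hij : i < j) (hj : j < n) :
    ∃ c : Fin (i + j + 2) → ℤ, c ≠ 0 ∧ BP (fun s t => (HF (celI κ n i j) s t : ℤ)) (i + j + 1) c := by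
  obtain ⟨c, hc⟩ := LeD_celI (κ := κ) (2 * n - 3 - (i + j)) hij hj (by omega)
  refine ⟨c, ?_, hc⟩
  rintro rfl
  exact not_LtD_celI (κ := κ) (i + j - 1) hij hj (by omega) hc

/-- The points of `celS` where the minor of the columns `i`, `j` vanishes. -/
theorem mem_of_minor {i j : ℕ} (hij : i < j) (hj : j < n) {A : Fin 2 × Fin n → κ}
    (hA : A ∈ celS κ n i j) (h0 : A (0, ⟨i, hij.trans hj⟩) * A (1, ⟨j, hj⟩) =
      A (0, ⟨j, hj⟩) * A (1, ⟨i, hij.trans hj⟩)) :
    (i + 1 < j ∧ A ∈ celS κ n i (j - 1)) ∨ (1 ≤ i ∧ A ∈ celS κ n (i - 1) j) ∨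
      ∀ q q' : Fin n, A (0, q) * A (1, q') = A (0, q') * A (1, q) := by
  set J : Fin n := ⟨j, hj⟩ with hJ
  set I : Fin n := ⟨i, hij.trans hj⟩ with hI
  by_cases hz : ∀ r : Fin 2, A (r, J) = 0
  · -- the column `j` vanishes
    have hz' : ∀ (r : Fin 2) (q : Fin n), j - 1 < q → A (r, q) = 0 := by
      intro r q hq
      rcases Nat.lt_or_ge j q with h1 | h1
      · exact hA.1 r q h1
      · obtain rfl : q = J := Fin.ext (by rw [hJ]; simp only; omega)
        exact hz r
    by_cases h1 : i + 1 < j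
    · exact Or.inl ⟨h1, hz', hA.2⟩
    · have hji : j = i + 1 := by omega
      have key : ∀ q q' : Fin n, i - 1 < q → i - 1 < q' →
          A (0, q) * A (1, q') = A (0, q') * A (1, q) := by
        intro q q' hq hq'
        rcases Nat.lt_or_ge (j - 1) q with h2 | h2
        · rw [hz' 0 q h2, hz' 1 q h2, zero_mul, mul_zero]
        · rcases Nat.lt_or_ge (j - 1) q' with h3 | h3
          · rw [hz' 0 q' h3, hz' 1 q' h3, zero_mul, mul_zero]
          · obtain rfl : q = q' := Fin.ext (by omega)
            rfl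
      rcases Nat.eq_zero_or_pos i with hi | hi
      · refine Or.inr (Or.inr fun q q' => ?_)
        rcases Nat.lt_or_ge (j - 1) q with h2 | h2
        · rw [hz' 0 q h2, hz' 1 q h2, zero_mul, mul_zero]
        · rcases Nat.lt_or_ge (j - 1) q' with h3 | h3
          · rw [hz' 0 q' h3, hz' 1 q' h3, zero_mul, mul_zero]
          · obtain rfl : q = q' := Fin.ext (by omega)
            rfl
      · exact Or.inr (Or.inl ⟨hi, hA.1, key⟩)
  · -- all columns `≥ i` are proportional to the column `j`
    push Not at hz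
    have hpr : ∀ q : Fin n, i ≤ q → A (0, q) * A (1, J) = A (0, J) * A (1, q) := by
      intro q hq
      rcases hq.eq_or_lt with h1 | h1
      · obtain rfl : I = q := Fin.ext h1
        exact h0
      · exact hA.2 q J h1 hij
    have hpq : ∀ q q' : Fin n, i ≤ q → i ≤ q' → A (0, q) * A (1, q') = A (0, q') * A (1, q) := by
      intro q q' hq hq'
      have h1 := hpr q hq
      have h2 := hpr q' hq'
      obtain ⟨r, hr⟩ := hz
      have h3 : A (0, J) * (A (0, q) * A (1, q') - A (0, q') * A (1, q)) = 0 := by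
        linear_combination A (0, q') * h1 - A (0, q) * h2
      have h4 : A (1, J) * (A (0, q) * A (1, q') - A (0, q') * A (1, q)) = 0 := by
        linear_combination A (1, q') * h1 - A (1, q) * h2
      fin_cases r
      · exact sub_eq_zero.1 ((mul_eq_zero.1 h3).resolve_left hr)
      · exact sub_eq_zero.1 ((mul_eq_zero.1 h4).resolve_left hr)
    rcases Nat.eq_zero_or_pos i with hi | hi
    · exact Or.inr (Or.inr fun q q' => hpq q q' (by omega) (by omega))
    · exact Or.inr (Or.inl ⟨hi, hA.1, fun q q' hq hq' => hpq q q' (by omega) (by omega)⟩)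

/-- Nullstellensatz: if the zeros of the prime `𝔮` are contained in the union of the zero loci of
finitely many ideals then `𝔮` contains one of them. -/
theorem exists_le_of_zeros [IsAlgClosed κ] {ι : Type*} (S : Finset ι) (I : ι → Ideal (Rg κ n))
    {𝔮 : Ideal (Rg κ n)} (hq : 𝔮.IsPrime)
    (h : ∀ A, (∀ f ∈ 𝔮, eval A f = 0) → ∃ i ∈ S, ∀ f ∈ I i, eval A f = 0) :
    ∃ i ∈ S, I i ≤ 𝔮 := by
  by_contra hcon
  push Not at hcon
  have h1 : ∀ i ∈ S, ∃ f ∈ I i, f ∉ 𝔮 := fun i hi => Set.not_subset.1 (hcon i hi)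
  choose! F hF hF' using h1
  have h2 : ∏ i ∈ S, F i ∈ 𝔮 := by
    rw [← IsPrime.vanishingIdeal_zeroLocus (K := κ) 𝔮, mem_vanishingIdeal_iff]
    intro A hA
    obtain ⟨i, hi, h3⟩ := h A fun f hf => hA f hf
    rw [map_prod]
    exact Finset.prod_eq_zero hi (h3 _ (hF i hi))
  rw [hq.prod_mem_iff] at h2
  obtain ⟨i, hi, h3⟩ := h2
  exact hF' i hi h3

end Pool.Agent.GrUp
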