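import Pool.Agent.GrUp.Orbit

/-!
# Classification of the stable primes which contain `ω` (module F3)
-/

namespace Pool.Agent.GrUp

open MvPolynomial

variable {κ : Type*} [Field κ] {n : ℕ}

/-- The top part of a hyperplane section. -/
def hypZ {D : ℕ} (w : Fin (D + 2) → ℤ) : Fin (D + 1) → ℤ := fun p => w p.castSucc + w p.succ

theorem hypZ_injective {D : ℕ} {w : Fin (D + 2) → ℤ} (h0 : w 0 = 0) (h : hypZ w = 0) : w = 0 := by
  ext p
  induction p using Fin.induction with
  | zero => exact h0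
  | succ p ih =>
    have := congrFun h p
    simp only [hypZ, Pi.zero_apply] at this ih ⊢
    rw [ih, zero_add] at this
    exact this

theorem minor_relation (r : Fin 2) (i j q : Fin n) :
    (X (r, j) : Rg κ n) * minor κ i q = X (r, i) * minor κ j q + X (r, q) * minor κ i j := by
  fin_cases r <;> simp [minor] <;> ring

theorem minor_self (i : Fin n) : minor κ i i = 0 := by
  simp [minor]

theorem minor_swap (i j : Fin n) : minor κ i j = - minor κ j i := by
  simp [minor]

theorem eval_minor (A : Fin 2 × Fin n → κ) (i j : Fin n) :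
    eval A (minor κ i j) = A (0, i) * A (1, j) - A (0, j) * A (1, i) := by
  simp [minor]

theorem n_le_nn (n : ℕ) : n ≤ nn n + 1 := by
  unfold nn; omega

theorem omP_mem_bi : omP κ n ∈ bi κ n 1 1 := by
  unfold omP
  refine Submodule.sum_mem _ fun a _ => Submodule.sum_mem _ fun b _ => ?_
  split_ifs
  · unfold minor bi
    have h : ∀ (a b : Fin n), (X (0, a) * X (1, b) : Rg κ n) ∈
        weightedHomogeneousSubmodule κ (wt n) (1, 1) := by
      intro a b
      rw [mem_weightedHomogeneousSubmodule]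
      have h1 := (isWeightedHomogeneous_X κ (wt n) ((0 : Fin 2), a)).mul
        (isWeightedHomogeneous_X κ (wt n) ((1 : Fin 2), b))
      simpa [wt] using h1
    exact Submodule.sub_mem _ (h a b) (h b a)
  · exact Submodule.zero_mem _

/-- The bidegree `(0,0)`-free form of the Nullstellensatz for one polynomial. -/
theorem mem_of_zeros_one [IsAlgClosed κ] {𝔮 : Ideal (Rg κ n)} (hq : 𝔮.IsPrime) {f g : Rg κ n}
    (h : ∀ A, (∀ x ∈ 𝔮, eval A x = 0) → eval A f = 0 ∨ eval A g = 0) : f ∈ 𝔮 ∨ g ∈ 𝔮 := by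
  obtain ⟨i, -, hi⟩ := exists_le_of_zeros (Finset.univ : Finset (Fin 2))
    (fun i => if i = 0 then Ideal.span {f} else Ideal.span {g}) hq (by
      intro A hA
      rcases h A hA with h | h
      · refine ⟨0, Finset.mem_univ _, fun x hx => ?_⟩
        simp only [if_true] at hx
        obtain ⟨y, rfl⟩ := Ideal.mem_span_singleton'.1 hx
        simp [h]
      · refine ⟨1, Finset.mem_univ _, fun x hx => ?_⟩
        simp only [one_ne_zero, if_false] at hx
        obtain ⟨y, rfl⟩ := Ideal.mem_span_singleton'.1 hx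
        simp [h])
  by_cases h0 : i = 0
  · left
    simp only [h0, if_true] at hi
    exact hi (Ideal.subset_span rfl)
  · right
    simp only [h0, if_false] at hi
    exact hi (Ideal.subset_span rfl)

theorem classify [IsAlgClosed κ] [CharZero κ] {𝔭 : Ideal (Rg κ n)} (hp : 𝔭.IsPrime) (hb : IsBi 𝔭)
    (hr : RowStab 𝔭) (hN : ∀ a b : Fin n, (a : ℕ) + b < nn n → StabD 𝔭 (colM (Nab κ a b)))
    (hω : omP κ n ∈ 𝔭) {D : ℕ} (hD : nn n + 1 ≤ D) {c : Fin (D + 1) → ℤ} (hc0 : c ≠ 0)
    (hc : BP (fun s t => (HF 𝔭 s t : ℤ)) D c) :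
    ∃ (i j : ℕ), i < j ∧ j < n ∧ i + j = D ∧ ∃ (m : ℕ) (w : Fin (D + 2) → ℤ), 1 ≤ m ∧
      BP (fun s t => (HF (celI κ n i j) s t : ℤ)) (D + 1) w ∧ (m : ℤ) • c = hypZ w := by
  have hnn := n_le_nn n
  -- exactness of the degree of `𝔭`
  have hexact : ∀ {E : ℕ} {c' : Fin (E + 1) → ℤ}, BP (fun s t => (HF 𝔭 s t : ℤ)) E c' → D ≤ E := by
    intro E c' h
    by_contra hE
    push Not at hE
    exact hc0 (hc.unique (h.lift_of_lt hE))
  -- some minor is not in `𝔭`
  have hmin : ∃ i j : Fin n, minor κ i j ∉ 𝔭 := by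
    by_contra hcon
    push Not at hcon
    exact hc0 (hc.unique (BP_of_minors hb hcon (by omega)))
  -- the last nonzero column
  have hcol : ∃ q : Fin n, ∃ r : Fin 2, X (r, q) ∉ 𝔭 := by
    by_contra hcon
    push Not at hcon
    obtain ⟨i, j, h⟩ := hmin
    exact h (𝔭.sub_mem (𝔭.mul_mem_right _ (hcon i 0)) (𝔭.mul_mem_right _ (hcon j 0)))
  obtain ⟨j, hjr, hjmax⟩ : ∃ j : Fin n, (∃ r : Fin 2, X (r, j) ∉ 𝔭) ∧
      ∀ q : Fin n, j < q → ∀ r : Fin 2, X (r, q) ∈ 𝔭 := by
    classical
    let S : Finset (Fin n) := Finset.univ.filter (fun q => ∃ r : Fin 2, X (r, q) ∉ 𝔭)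
    have hS : S.Nonempty := by
      obtain ⟨q, hq⟩ := hcol
      exact ⟨q, by simp only [S, Finset.mem_filter, Finset.mem_univ, true_and]; exact hq⟩
    refine ⟨S.max' hS, ?_, fun q hq r => ?_⟩
    · have := S.max'_mem hS
      simpa only [S, Finset.mem_filter, Finset.mem_univ, true_and] using this
    · by_contra hcon
      have : q ∈ S := by
        simp only [S, Finset.mem_filter, Finset.mem_univ, true_and]
        exact ⟨r, hcon⟩
      exact absurd (S.le_max' q this) (not_le.2 hq)
  obtain ⟨r₀, hr₀⟩ := hjr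
  -- the first index
  have hex : ∃ i : ℕ, ∀ q q' : Fin n, i < q → i < q' → minor κ q q' ∈ 𝔭 :=
    ⟨n, fun q q' hq => absurd hq (by have := q.2; omega)⟩
  classical
  let i : ℕ := Nat.find hex
  have hi : ∀ q q' : Fin n, i < q → i < q' → minor κ q q' ∈ 𝔭 := Nat.find_spec hex
  have hj1 : 1 ≤ (j : ℕ) := by
    by_contra hcon
    obtain ⟨a, b, hab⟩ := hmin
    have hz : ∀ q : Fin n, q ≠ j → ∀ r, X (r, q) ∈ 𝔭 := fun q hq r => hjmax q (by
      rw [Fin.lt_def]
      have : (q : ℕ) ≠ j := fun h => hq (Fin.ext h)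
      omega) r
    by_cases ha : a = j
    · by_cases hb' : b = j
      · rw [ha, hb', minor_self] at hab
        exact hab 𝔭.zero_mem
      · exact hab (𝔭.sub_mem (𝔭.mul_mem_left _ (hz b hb' 1)) (𝔭.mul_mem_right _ (hz b hb' 0)))
    · exact hab (𝔭.sub_mem (𝔭.mul_mem_right _ (hz a ha 0)) (𝔭.mul_mem_left _ (hz a ha 1)))
  have hij : i < j := by
    have : i ≤ (j : ℕ) - 1 := by
      apply Nat.find_min' hex
      intro q q' hq hq'
      by_cases h1 : q = j
      · by_cases h2 : q' = j
        · rw [h1, h2, minor_self]; exact 𝔭.zero_mem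
        · have h3 : j < q' := by
            rw [Fin.lt_def]
            have : (q' : ℕ) ≠ j := fun h => h2 (Fin.ext h)
            omega
          exact 𝔭.sub_mem (𝔭.mul_mem_left _ (hjmax q' h3 1)) (𝔭.mul_mem_right _ (hjmax q' h3 0))
      · have h3 : j < q := by
          rw [Fin.lt_def]
          have : (q : ℕ) ≠ j := fun h => h1 (Fin.ext h)
          omega
        exact 𝔭.sub_mem (𝔭.mul_mem_right _ (hjmax q h3 0)) (𝔭.mul_mem_left _ (hjmax q h3 1))
    omega
  have hin : i < n := hij.trans j.2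
  let i' : Fin n := ⟨i, hin⟩
  -- a minor with first column `i` is not in `𝔭`
  have hq : ∃ q : Fin n, i < q ∧ minor κ i' q ∉ 𝔭 := by
    by_contra hcon
    push Not at hcon
    have hall : ∀ q q' : Fin n, i ≤ q → i ≤ q' → minor κ q q' ∈ 𝔭 := by
      intro q q' hq hq'
      rcases Nat.lt_or_ge i q with h1 | h1
      · rcases Nat.lt_or_ge i q' with h2 | h2
        · exact hi q q' h1 h2
        · have : q' = i' := Fin.ext (le_antisymm h2 hq')
          rw [this, minor_swap]
          exact 𝔭.neg_mem (hcon q h1)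
      · have hqi : q = i' := Fin.ext (le_antisymm h1 hq)
        rcases Nat.lt_or_ge i q' with h2 | h2
        · rw [hqi]; exact hcon q' h2
        · have : q' = i' := Fin.ext (le_antisymm h2 hq')
          rw [hqi, this, minor_self]; exact 𝔭.zero_mem
    rcases Nat.eq_zero_or_pos i with h0 | h0
    · obtain ⟨a, b, hab⟩ := hmin
      exact hab (hall a b (by omega) (by omega))
    · have := Nat.find_min' hex (m := i - 1) (fun q q' hq hq' => hall q q' (by omega) (by omega))
      omega
  have hmij : minor κ i' j ∉ 𝔭 := by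
    intro hcon
    obtain ⟨q, hq1, hq2⟩ := hq
    have h1 : (X (r₀, j) : Rg κ n) * minor κ i' q ∈ 𝔭 := by
      rw [minor_relation]
      exact 𝔭.add_mem (𝔭.mul_mem_left _ (hi j q hij hq1)) (𝔭.mul_mem_left _ hcon)
    rcases hp.mem_or_mem h1 with h | h
    · exact hr₀ h
    · exact hq2 h
  -- zeros of `𝔭`
  let Z : Set (Fin 2 × Fin n → κ) := {A | ∀ f ∈ 𝔭, eval A f = 0}
  have hZcel : ∀ A ∈ Z, A ∈ celS κ n i j := by
    intro A hA
    refine ⟨fun r q hq => ?_, fun q q' hq hq' => ?_⟩
    · simpa using hA _ (hjmax q (Fin.lt_def.2 hq) r)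
    · have := hA _ (hi q q' hq hq')
      rw [eval_minor] at this
      exact sub_eq_zero.1 this
  have hle : celI κ n i j ≤ 𝔭 := by
    obtain ⟨_, -, h⟩ := exists_le_of_zeros ({()} : Finset Unit) (fun _ => celI κ n i j) hp
      (fun A hA => ⟨(), by simp, mem_celS_iff.1 (hZcel A hA)⟩)
    exact h
  obtain ⟨A₀, hA₀, hA₀m⟩ : ∃ A ∈ Z, eval A (minor κ i' j) ≠ 0 := by
    by_contra hcon
    push Not at hcon
    rcases mem_of_zeros_one hp (f := minor κ i' j) (g := minor κ i' j)
      (fun A hA => Or.inl (hcon A hA)) with h | h <;> exact hmij h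
  have hrow : ∀ A ∈ Z, ∀ g : Matrix (Fin 2) (Fin 2) κ, g.det ≠ 0 →
      (fun p : Fin 2 × Fin n => ∑ r, g p.1 r * A (r, p.2)) ∈ Z :=
    fun A hA g hg => eval_row hb hr hA g hg
  have hcolst : ∀ A ∈ Z, ∀ (c d : Fin n) (a : κ), (c : ℕ) + d < nn n →
      A + a • (colM (Nab κ c d)).mulVec A ∈ Z :=
    fun A hA c d a h => eval_add_mulVec (Nab_sq h) (hN c d h) a hA
  have hωZ : ∀ A ∈ Z, omV A = 0 := fun A hA => by rw [← eval_omP]; exact hA _ hω
  have hne : ∀ A : Fin 2 × Fin n → κ, eval A (minor κ i' j) ≠ 0 →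
      A (0, ⟨i, hij.trans j.2⟩) * A (1, ⟨(j : ℕ), j.2⟩) ≠
        A (0, ⟨(j : ℕ), j.2⟩) * A (1, ⟨i, hij.trans j.2⟩) := by
    intro A h h'
    apply h
    rw [eval_minor]
    exact sub_eq_zero.2 h'
  -- the index sum
  obtain ⟨w, hw0, hw⟩ := BP_celI (κ := κ) hij j.2
  have hDle : D ≤ i + j + 1 := by
    obtain ⟨c', hc'⟩ := BP_of_le hb hle hw
    exact hexact hc'
  have hsum : nn n < i + j := by
    have h1 : i + (j : ℕ) ≠ nn n := by
      intro h
      exact omV_ne_zero hij j.2 h (hZcel A₀ hA₀) (hne A₀ hA₀m) (hωZ A₀ hA₀)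
    omega
  have hstd : stdA κ n i j ∈ Z :=
    (mem_iff_stdA hrow hcolst hij j.2 hsum (hZcel A₀ hA₀) (hωZ A₀ hA₀) (hne A₀ hA₀m)).1 hA₀
  -- the section of the Schubert cone by `ω`
  have hprime := isPrime_celI (κ := κ) hij j.2
  have hbc := isBi_celI (κ := κ) (n := n) i j
  have hJ := BP_sup_span hprime hbc omP_mem_bi (omP_not_mem hij j.2 hsum.le) hw
  have hJ' : BP (fun s t => (HF (celI κ n i j ⊔ Ideal.span {omP κ n}) s t : ℤ)) (i + j) (hypZ w) := by
    convert hJ using 1
    ext p
    simp [hypZ, add_comm]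
  have hhw : hypZ w ≠ 0 := by
    intro h
    exact hw0 (hypZ_injective (BP_HF_zero (by have := j.2; omega) (by omega) hw) h)
  have hJle : celI κ n i j ⊔ Ideal.span {omP κ n} ≤ 𝔭 :=
    sup_le hle ((Ideal.span_singleton_le_iff_mem _).2 hω)
  obtain ⟨c₁, hc₁⟩ := BP_of_le hb hJle hJ'
  have hDle' : D ≤ i + j := hexact hc₁
  -- the primes of degree `i + j` above
  have key : ∀ (𝔮 : Ideal (Rg κ n)) (c' : Fin (i + j + 1) → ℤ), 𝔮.IsPrime → IsBi 𝔮 →
      celI κ n i j ⊔ Ideal.span {omP κ n} ≤ 𝔮 → BP (fun s t => (HF 𝔮 s t : ℤ)) (i + j) c' →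
      c' ≠ 0 → 𝔮 = 𝔭 := by
    intro 𝔮 c' hqp hqb hJq hc' hc'0
    have hωq : omP κ n ∈ 𝔮 := hJq (Ideal.mem_sup_right (Ideal.subset_span rfl))
    have hcq : celI κ n i j ≤ 𝔮 := le_sup_left.trans hJq
    have hmq : minor κ i' j ∉ 𝔮 := by
      intro hm
      obtain ⟨l, -, hl⟩ := exists_le_of_zeros (Finset.univ : Finset (Fin 3))
        (fun l => if l = 0 then (if i + 1 < (j : ℕ) then celI κ n i (j - 1) else ⊤) else
          if l = 1 then (if 1 ≤ i then celI κ n (i - 1) j else ⊤) else
            Ideal.span {f | ∃ a b : Fin n, f = minor κ a b}) hqp (by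
        intro A hA
        have hAc : A ∈ celS κ n i j := mem_celS_iff.2 fun f hf => hA f (hcq hf)
        have hAm : A (0, ⟨i, hij.trans j.2⟩) * A (1, ⟨(j : ℕ), j.2⟩) =
            A (0, ⟨(j : ℕ), j.2⟩) * A (1, ⟨i, hij.trans j.2⟩) := by
          have := hA _ hm
          rw [eval_minor] at this
          exact sub_eq_zero.1 this
        rcases mem_of_minor hij j.2 hAc hAm with ⟨h1, h2⟩ | ⟨h1, h2⟩ | h3
        · refine ⟨0, Finset.mem_univ _, ?_⟩
          simp only [if_true, h1]
          exact mem_celS_iff.1 h2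
        · refine ⟨1, Finset.mem_univ _, ?_⟩
          simp only [one_ne_zero, if_false, if_true, h1]
          exact mem_celS_iff.1 h2
        · refine ⟨2, Finset.mem_univ _, ?_⟩
          have e1 : (2 : Fin 3) ≠ 0 := by decide
          have e2 : (2 : Fin 3) ≠ 1 := by decide
          simp only [e1, e2, if_false]
          intro f hf
          have : Ideal.span {f | ∃ a b : Fin n, f = minor κ a b} ≤ RingHom.ker (eval A) := by
            rw [Ideal.span_le]
            rintro f ⟨a, b, rfl⟩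
            rw [SetLike.mem_coe, RingHom.mem_ker, eval_minor, h3 a b, sub_self]
          exact this hf)
      have hcases : l = 0 ∨ l = 1 ∨ l = 2 := by fin_cases l <;> simp
      rcases hcases with rfl | rfl | rfl
      · simp only [if_true] at hl
        by_cases h1 : i + 1 < (j : ℕ)
        · rw [if_pos h1] at hl
          have hlt : celI κ n i (j - 1) < 𝔮 := lt_of_le_of_ne hl (by
            intro h
            exact omP_not_mem (κ := κ) (n := n) (i := i) (j := j - 1) (by omega) (by omega) (by omega)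
              (h ▸ hωq))
          obtain ⟨w', -, hw'⟩ := BP_celI (κ := κ) (n := n) (i := i) (j := j - 1) (by omega) (by omega)
          have := BP_of_lt (isPrime_celI (by omega) (by omega)) (isBi_celI _ _) hqb hlt hw'
          have e : i + (j - 1 : ℕ) + 1 = i + j := by omega
          rw [e] at this
          exact hc'0 (hc'.unique this)
        · rw [if_neg h1] at hl
          exact hqp.ne_top (top_le_iff.1 hl)
      · simp only [one_ne_zero, if_false, if_true] at hl
        by_cases h1 : 1 ≤ i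
        · rw [if_pos h1] at hl
          have hlt : celI κ n (i - 1) j < 𝔮 := lt_of_le_of_ne hl (by
            intro h
            exact omP_not_mem (κ := κ) (n := n) (i := i - 1) (j := j) (by omega) j.2 (by omega)
              (h ▸ hωq))
          obtain ⟨w', -, hw'⟩ := BP_celI (κ := κ) (n := n) (i := i - 1) (j := j) (by omega) j.2
          have := BP_of_lt (isPrime_celI (by omega) j.2) (isBi_celI _ _) hqb hlt hw'
          have e : (i - 1) + (j : ℕ) + 1 = i + j := by omega
          rw [e] at this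
          exact hc'0 (hc'.unique this)
        · rw [if_neg h1] at hl
          exact hqp.ne_top (top_le_iff.1 hl)
      · have e1 : (2 : Fin 3) ≠ 0 := by decide
        have e2 : (2 : Fin 3) ≠ 1 := by decide
        simp only [e1, e2, if_false] at hl
        have := BP_of_minors hqb (D := i + j) (fun a b => hl (Ideal.subset_span ⟨a, b, rfl⟩)) (by omega)
        exact hc'0 (hc'.unique this)
    have hpq : 𝔭 ≤ 𝔮 := by
      intro f hf
      rcases mem_of_zeros_one hqp (f := f) (g := minor κ i' j) (by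
        intro A hA
        by_cases hAm : eval A (minor κ i' j) = 0
        · exact Or.inr hAm
        · left
          have hAc : A ∈ celS κ n i j := mem_celS_iff.2 fun f hf => hA f (hcq hf)
          have hAω : omV A = 0 := by rw [← eval_omP]; exact hA _ hωq
          exact (mem_iff_stdA hrow hcolst hij j.2 hsum hAc hAω (hne A hAm)).2 hstd f hf) with h | h
      · exact h
      · exact absurd h hmq
    by_contra hcon
    exact hc'0 (hc'.unique (BP_of_lt hp hb hqb (lt_of_le_of_ne hpq (Ne.symm hcon)) hc₁))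
  -- conclusion
  have hmem := mem_closure_primes (isBi_sup hbc (isBi_span omP_mem_bi)) hJ'
  have hmul : ∃ m : ℕ, hypZ w = m • c₁ := by
    refine AddSubmonoid.closure_induction (motive := fun x _ => ∃ m : ℕ, x = m • c₁) ?_ ?_ ?_ hmem
    · rintro c' ⟨𝔮, h1, h2, h3, h4⟩
      by_cases h0 : c' = 0
      · exact ⟨0, by simp [h0]⟩
      · refine ⟨1, ?_⟩
        have := key 𝔮 c' h1 h2 h3 h4 h0
        subst this
        rw [one_smul]
        exact h4.unique hc₁
    · exact ⟨0, by simp⟩
    · rintro x y _ _ ⟨m, rfl⟩ ⟨m', rfl⟩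
      exact ⟨m + m', by rw [add_smul]⟩
  obtain ⟨m, hm⟩ := hmul
  have hm1 : 1 ≤ m := by
    by_contra h
    have : m = 0 := by omega
    rw [this, zero_smul] at hm
    exact hhw hm
  have hc₁0 : c₁ ≠ 0 := by
    intro h
    rw [h, smul_zero] at hm
    exact hhw hm
  have hDeq : i + (j : ℕ) = D := by
    by_contra hcon
    exact hc₁0 (hc₁.unique (hc.lift_of_lt (by omega)))
  subst hDeq
  refine ⟨i, j, hij, j.2, rfl, m, w, hm1, hw, ?_⟩
  rw [hc.unique hc₁, hm]
  simp

end Pool.Agent.GrUp
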