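import Pool.Agent.GrUp.Red
import Pool.Agent.GrUp.Cell

/-!
# The Schubert cones over a field and over the residue field of a valuation (module E2)
-/

namespace Pool.Agent.GrUp

open MvPolynomial IsLocalRing

/-- The zeros of the reduction of `celI` are in `celS`. -/
lemma mem_celS_of_red {K : Type*} [Field K] (V : ValuationSubring K) {n i j : ℕ}
    {A : Fin 2 × Fin n → ResidueField V}
    (hA : ∀ f ∈ red V (celI K n i j), eval A f = 0) : A ∈ celS (ResidueField V) n i j := by
  constructor
  · intro r q hq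
    have h1 : (X (r, q) : Rg (ResidueField V) n) ∈ red V (celI K n i j) := by
      refine mem_red.2 ⟨X (r, q), ?_, map_X _ _⟩
      rw [map_X]
      intro B hB
      rw [eval_X]
      exact hB.1 r q hq
    have h2 := hA _ h1
    rwa [eval_X] at h2
  · intro q q' hq hq'
    have h1 : (X (0, q) * X (1, q') - X (0, q') * X (1, q) : Rg (ResidueField V) n) ∈
        red V (celI K n i j) := by
      refine mem_red.2 ⟨X (0, q) * X (1, q') - X (0, q') * X (1, q), ?_, ?_⟩
      · rw [map_sub, map_mul, map_mul, map_X, map_X, map_X, map_X]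
        intro B hB
        rw [map_sub, map_mul, map_mul, eval_X, eval_X, eval_X, eval_X, sub_eq_zero]
        exact hB.2 q q' hq hq'
      · rw [map_sub, map_mul, map_mul, map_X, map_X, map_X, map_X]
    have h2 := hA _ h1
    rwa [map_sub, map_mul, map_mul, eval_X, eval_X, eval_X, eval_X, sub_eq_zero] at h2

/-- The class of a Schubert variety over `K` is a positive multiple of its class over the residue
field of a valuation. -/
theorem celI_cross {K : Type*} [Field K] [CharZero K] [IsAlgClosed K] (V : ValuationSubring K)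
    [CharZero (ResidueField V)] {n i j : ℕ} (hij : i < j) (hj : j < n) {w w' : Fin (i + j + 2) → ℤ}
    (hw : BP (fun s t => (HF (celI K n i j) s t : ℤ)) (i + j + 1) w)
    (hw' : BP (fun s t => (HF (celI (ResidueField V) n i j) s t : ℤ)) (i + j + 1) w') :
    ∃ m : ℕ, 1 ≤ m ∧ w = (m : ℤ) • w' := by
  have hac : IsAlgClosed (ResidueField V) := isAlgClosed_residueField V
  have hb : IsBi (celI K n i j) := isBi_celI i j
  have h1 : BP (fun s t => (HF (red V (celI K n i j)) s t : ℤ)) (i + j + 1) w :=
    hw.congr 0 fun s t _ _ => by rw [HF_red hb]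
  have h2 := mem_closure_primes (isBi_red hb) h1
  have h3 : ∀ c' ∈ {c' : Fin (i + j + 1 + 1) → ℤ | ∃ 𝔮 : Ideal (Rg (ResidueField V) n), 𝔮.IsPrime ∧
      IsBi 𝔮 ∧ red V (celI K n i j) ≤ 𝔮 ∧ BP (fun s t => (HF 𝔮 s t : ℤ)) (i + j + 1) c'},
      ∃ m : ℕ, c' = (m : ℤ) • w' := by
    rintro c' ⟨𝔮, hq, hqb, hle, hc'⟩
    obtain ⟨_, _, h4⟩ := exists_le_of_zeros ({()} : Finset Unit)
      (fun _ => celI (ResidueField V) n i j) hq (by
        intro A hA
        have h5 : A ∈ celS (ResidueField V) n i j :=
          mem_celS_of_red V fun f hf => hA f (hle hf)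
        exact ⟨(), Finset.mem_singleton_self _, fun f hf => hf A h5⟩)
    rcases h4.eq_or_lt with h5 | h5
    · refine ⟨1, ?_⟩
      have h6 : c' = w' := hc'.unique (by rw [← h5]; exact hw')
      rw [h6, Nat.cast_one, one_smul]
    · refine ⟨0, ?_⟩
      have h6 : c' = 0 := hc'.unique
        (BP_of_lt (isPrime_celI hij hj) (isBi_celI i j) hqb h5 hw')
      rw [h6, Nat.cast_zero, zero_smul]
  have h4 : ∃ m : ℕ, w = (m : ℤ) • w' := by
    clear h1 hw
    induction h2 using AddSubmonoid.closure_induction with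
    | mem x hx => exact h3 x hx
    | zero => exact ⟨0, by rw [Nat.cast_zero, zero_smul]⟩
    | add x y _ _ hx hy =>
      obtain ⟨m, hm⟩ := hx
      obtain ⟨m', hm'⟩ := hy
      exact ⟨m + m', by rw [hm, hm', Nat.cast_add, add_smul]⟩
  obtain ⟨m, hm⟩ := h4
  refine ⟨m, ?_, hm⟩
  rcases Nat.eq_zero_or_pos m with h5 | h5
  · exfalso
    obtain ⟨c, hc0, hc⟩ := BP_celI (κ := K) hij hj
    have h6 : w = c := hw.unique hc
    rw [h5, Nat.cast_zero, zero_smul] at hm
    exact hc0 (h6 ▸ hm)
  · exact h5

end Pool.Agent.GrUp
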