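import Pool.Agent.GrCyc.Defs

/-!
# Effective cones of `k`-cycles of subsets of `Gr(2,n)` through bigraded Hilbert functions

For `Z ⊆ G = Gr(2,n)` let `T_Z ⊆ ℙ^(n-1) × ℙ^(n-1)` be the closure of the set of pairs `(r,s)` with
`r, s ∈ V` for some `V ∈ Z`. Its bigraded Hilbert function is `hil Z`. If `Z` is irreducible of
dimension `k` then `hil Z s t` is, for large `s` and `t`, a polynomial of degree `k + 2` with leading
form `∑ v_a s^a t^(k+2-a) / (a! (k+2-a)!)`, where `v_a` is the intersection number of `T_Z` with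
`H₁^a H₂^(k+2-a)`, that is, the intersection number of `Z` with `σ_(a-1) σ_(k+1-a)`.
-/

namespace Pool.Agent.GrUp

open MvPolynomial Pool.Agent.GrCyc

/-- The bidegree of the entries of a `2 × n` matrix: `(1,0)` in the first row, `(0,1)` in the second. -/
def wt (n : ℕ) : Fin 2 × Fin n → ℕ × ℕ := fun p => if p.1 = 0 then (1, 0) else (0, 1)

/-- The polynomials in the entries of a `2 × n` matrix which are homogeneous of degree `s` in the
first row and of degree `t` in the second row. -/
def bi (κ : Type*) [Field κ] (n s t : ℕ) : Submodule κ (MvPolynomial (Fin 2 × Fin n) κ) :=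
  weightedHomogeneousSubmodule κ (wt n) (s, t)

/-- The `2 × n` matrices whose rows span a member of `Z`. -/
def cone {n : ℕ} (Z : Set (Gr 2 n)) : Set (Fin 2 × Fin n → ℂ) :=
  {A | ∃ V ∈ Z, Submodule.span ℂ (Set.range fun (r : Fin 2) (i : Fin n) => A (r, i)) = V.1}

/-- Restriction of polynomials to a set of points. -/
noncomputable def restr {σ : Type*} (S : Set (σ → ℂ)) : MvPolynomial σ ℂ →ₗ[ℂ] (S → ℂ) where
  toFun f A := eval A.1 f
  map_add' f g := by ext A; simp
  map_smul' c f := by ext A; simp [smul_eval]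

/-- The bigraded Hilbert function of `Z ⊆ Gr(2,n)`: the dimension of the space of functions on
`cone Z` which are given by polynomials of bidegree `(s,t)`. -/
noncomputable def hil {n : ℕ} (Z : Set (Gr 2 n)) (s t : ℕ) : ℕ :=
  Module.finrank ℂ ((bi ℂ n s t).map (restr (cone Z)))

/-- `v` is the class of the `k`-dimensional subvariety `Z` of `Gr(2,n)`: the coordinate `v a` is the
intersection number of `Z` with the product `σ_(a-1) σ_(k+1-a)` of special Schubert classes, read off
from the leading form of the bigraded Hilbert function. (If `dim Z < k` then this holds with `v = 0`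
only, and if `dim Z > k` then it holds for no `v`.) -/
def IsClass {n : ℕ} (k : ℕ) (Z : Set (Gr 2 n)) (v : Fin (k + 3) → ℝ) : Prop :=
  ∀ s t : ℕ, 0 < s → 0 < t → Filter.Tendsto
    (fun N : ℕ => (hil Z (s * N) (t * N) : ℝ) / (N : ℝ) ^ (k + 2)) Filter.atTop
    (nhds (∑ a : Fin (k + 3), v a * (s : ℝ) ^ (a : ℕ) * (t : ℝ) ^ (k + 2 - (a : ℕ)) /
      ((a : ℕ).factorial * (k + 2 - (a : ℕ)).factorial)))

/-- The effective cone of `k`-cycles of `X ⊆ Gr(2,n)`, in the coordinates `v a`, the intersection
numbers with the products `σ_(a-1) σ_(k+1-a)`: the closure of the convex cone spanned by the classes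
of the subvarieties (irreducible closed subsets) of `X`. -/
def effCone {n : ℕ} (k : ℕ) (X : Set (Gr 2 n)) : Set (Fin (k + 3) → ℝ) :=
  closure (Submodule.span NNReal
    {v : Fin (k + 3) → ℝ | ∃ Z : Set (Gr 2 n), Z ⊆ X ∧ IsClosed Z ∧ IsIrreducible Z ∧ IsClass k Z v} :
      Set (Fin (k + 3) → ℝ))

/-- Intersection of a class of dimension `k + 1` (with `k + 2 ≥ n`) with the hyperplane class of
`Gr(2,n)`. -/
def hyp (k : ℕ) : (Fin (k + 4) → ℝ) →ₗ[ℝ] (Fin (k + 3) → ℝ) where
  toFun w a := w a.castSucc + w a.succ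
  map_add' v w := by ext a; simp; ring
  map_smul' c v := by ext a; simp; ring

end Pool.Agent.GrUp
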