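import Pool.Agent.GrUp.Hilb

/-!
# Ideals stable under linear derivations (module C1)
-/

namespace Pool.Agent.GrUp

open MvPolynomial

variable {κ : Type*} [Field κ] {n : ℕ}

theorem der_X (T : Matrix (Fin 2 × Fin n) (Fin 2 × Fin n) κ) (p : Fin 2 × Fin n) :
    der T (X p) = linT T p := mkDerivation_X κ (linT T) p

theorem linT_add (T T' : Matrix (Fin 2 × Fin n) (Fin 2 × Fin n) κ) (p : Fin 2 × Fin n) :
    linT (T + T') p = linT T p + linT T' p := by
  unfold linT
  rw [← Finset.sum_add_distrib]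
  exact Finset.sum_congr rfl fun q _ => by rw [Matrix.add_apply, C_add, add_mul]

theorem linT_smul (a : κ) (T : Matrix (Fin 2 × Fin n) (Fin 2 × Fin n) κ) (p : Fin 2 × Fin n) :
    linT (a • T) p = C a * linT T p := by
  unfold linT
  rw [Finset.mul_sum]
  exact Finset.sum_congr rfl fun q _ => by
    rw [Matrix.smul_apply, smul_eq_mul, C_mul, mul_assoc]

theorem linT_zero (p : Fin 2 × Fin n) :
    linT (0 : Matrix (Fin 2 × Fin n) (Fin 2 × Fin n) κ) p = 0 := by
  unfold linT
  exact Finset.sum_eq_zero fun q _ => by rw [Matrix.zero_apply, C_0, zero_mul]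

theorem der_linT (T T' : Matrix (Fin 2 × Fin n) (Fin 2 × Fin n) κ) (p : Fin 2 × Fin n) :
    der T (linT T' p) = linT (T' * T) p := by
  unfold linT
  rw [map_sum]
  have h1 : ∀ q, der T (C (T' p q) * X q) = ∑ q', C (T' p q) * (C (T q q') * X q') := by
    intro q
    rw [Derivation.leibniz, der_X, ← algebraMap_eq, Derivation.map_algebraMap, smul_zero,
      add_zero, smul_eq_mul]
    unfold linT
    rw [Finset.mul_sum]
    rfl
  rw [Finset.sum_congr rfl fun q _ => h1 q, Finset.sum_comm]
  refine Finset.sum_congr rfl fun q' _ => ?_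
  rw [Matrix.mul_apply, map_sum, Finset.sum_mul]
  exact Finset.sum_congr rfl fun q _ => by rw [C_mul, mul_assoc]

theorem der_add (T T' : Matrix (Fin 2 × Fin n) (Fin 2 × Fin n) κ) (f : Rg κ n) :
    der (T + T') f = der T f + der T' f := by
  have h : der (T + T') = der T + der T' := by
    refine derivation_ext fun p => ?_
    rw [Derivation.add_apply, der_X, der_X, der_X, linT_add]
  rw [h, Derivation.add_apply]

theorem der_smul (a : κ) (T : Matrix (Fin 2 × Fin n) (Fin 2 × Fin n) κ) (f : Rg κ n) :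
    der (a • T) f = a • der T f := by
  have h : der (a • T) = a • der T := by
    refine derivation_ext fun p => ?_
    rw [Derivation.smul_apply, der_X, der_X, linT_smul, smul_eq_C_mul]
  rw [h, Derivation.smul_apply]

/-- The matrices under whose derivation `J` is stable. -/
def stabM (J : Ideal (Rg κ n)) : Submodule κ (Matrix (Fin 2 × Fin n) (Fin 2 × Fin n) κ) where
  carrier := {T | StabD J T}
  add_mem' := fun {a b} ha hb f hf => by
    rw [der_add]; exact J.add_mem (ha f hf) (hb f hf)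
  zero_mem' := fun f hf => by
    have : der (0 : Matrix (Fin 2 × Fin n) (Fin 2 × Fin n) κ) f = 0 := by
      have h := der_smul (0 : κ) (0 : Matrix (Fin 2 × Fin n) (Fin 2 × Fin n) κ) f
      simpa using h
    rw [this]; exact J.zero_mem
  smul_mem' := fun c T hT f hf => by
    rw [der_smul, smul_eq_C_mul]; exact J.mul_mem_left _ (hT f hf)

theorem mem_stabM {J : Ideal (Rg κ n)} {T : Matrix (Fin 2 × Fin n) (Fin 2 × Fin n) κ} :
    T ∈ stabM J ↔ StabD J T := Iff.rfl

/-- Minimal primes of a stable ideal are stable (characteristic `0`). -/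
theorem stabD_minimalPrime [CharZero κ] {J 𝔮 : Ideal (Rg κ n)} (hq : 𝔮 ∈ J.minimalPrimes)
    {T : Matrix (Fin 2 × Fin n) (Fin 2 × Fin n) κ} (h : StabD J T) : StabD 𝔮 T := by
  have hprime : 𝔮.IsPrime := hq.1.1
  intro f hf
  -- a power of `f` is killed
  have hex : ∃ r : ℕ, ∃ s : Rg κ n, s ∉ 𝔮 ∧ s * f ^ r ∈ J := by
    by_contra hcon
    push Not at hcon
    have hdis : Disjoint (J : Set (Rg κ n)) (𝔮.primeCompl ⊔ Submonoid.powers f : Submonoid _) := by
      rw [Set.disjoint_left]
      intro x hxJ hxS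
      obtain ⟨y, hy, z, ⟨r, rfl⟩, rfl⟩ := Submonoid.mem_sup.1 hxS
      exact hcon r y hy hxJ
    obtain ⟨𝔭, hp, hJp, hpd⟩ := Ideal.exists_le_prime_disjoint J _ hdis
    rw [Set.disjoint_left] at hpd
    have hpq : 𝔭 ≤ 𝔮 := by
      intro x hx
      by_contra hxq
      exact hpd hx (Submonoid.mem_sup_left (show x ∈ 𝔮.primeCompl from hxq))
    have hfp : f ∈ 𝔭 := hq.2 ⟨hp, hJp⟩ hpq hf
    exact hpd hfp (Submonoid.mem_sup_right (Submonoid.mem_powers f))
  classical
  obtain ⟨s, hs, hsf⟩ := Nat.find_spec hex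
  have hr0 : Nat.find hex ≠ 0 := by
    intro h0
    rw [h0, pow_zero, mul_one] at hsf
    exact hs (hq.1.2 hsf)
  obtain ⟨r, hr⟩ := Nat.exists_eq_succ_of_ne_zero hr0
  have hmin := Nat.find_min hex (m := r) (by rw [hr]; exact Nat.lt_succ_self r)
  rw [hr] at hsf
  by_contra hcon
  refine hmin ⟨s ^ 2 * der T f, ?_, ?_⟩
  · intro h1
    rcases hprime.mem_or_mem h1 with h2 | h2
    · exact hs (hprime.mem_of_pow_mem 2 h2)
    · exact hcon h2
  · have h1 : der T (s * f ^ (r + 1)) ∈ J := h _ hsf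
    have h2 : der T (s * f ^ (r + 1)) =
        s * (((r + 1 : ℕ) : Rg κ n) * (f ^ r * der T f)) + f ^ (r + 1) * der T s := by
      rw [Derivation.leibniz, Derivation.leibniz_pow, smul_eq_mul, smul_eq_mul, smul_eq_mul,
        nsmul_eq_mul, Nat.add_sub_cancel]
    have h3 : ((r + 1 : ℕ) : Rg κ n) * (s ^ 2 * der T f * f ^ r) ∈ J := by
      have h4 : ((r + 1 : ℕ) : Rg κ n) * (s ^ 2 * der T f * f ^ r) =
          s * der T (s * f ^ (r + 1)) - der T s * (s * f ^ (r + 1)) := by
        rw [h2]; ring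
      rw [h4]
      exact J.sub_mem (J.mul_mem_left _ h1) (J.mul_mem_left _ hsf)
    have h5 : (C (((r + 1 : ℕ) : κ)⁻¹) : Rg κ n) * ((r + 1 : ℕ) : Rg κ n) = 1 := by
      rw [← map_natCast (C : κ →+* Rg κ n), ← C_mul,
        inv_mul_cancel₀ (Nat.cast_ne_zero.2 (Nat.succ_ne_zero r)), C_1]
    have h6 := J.mul_mem_left (C (((r + 1 : ℕ) : κ)⁻¹)) h3
    rwa [← mul_assoc, h5, one_mul] at h6

/-- The substitution `X p ↦ X p + σ ∑ q, T p q X q`, where `σ` is the variable of `Polynomial`. -/
noncomputable def expT (T : Matrix (Fin 2 × Fin n) (Fin 2 × Fin n) κ) :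
    Rg κ n →ₐ[κ] Polynomial (Rg κ n) :=
  aeval (fun p => Polynomial.C (X p) + Polynomial.X * Polynomial.C (linT T p))

theorem expT_X (T : Matrix (Fin 2 × Fin n) (Fin 2 × Fin n) κ) (p : Fin 2 × Fin n) :
    expT T (X p) = Polynomial.C (X p) + Polynomial.X * Polynomial.C (linT T p) := aeval_X _ p

theorem expT_C (T : Matrix (Fin 2 × Fin n) (Fin 2 × Fin n) κ) (a : κ) :
    expT T (C a) = Polynomial.C (C a) := by
  rw [← algebraMap_eq, AlgHom.commutes]
  rfl

theorem coeff_zero_expT (T : Matrix (Fin 2 × Fin n) (Fin 2 × Fin n) κ) (f : Rg κ n) :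
    (expT T f).coeff 0 = f := by
  rw [Polynomial.coeff_zero_eq_eval_zero]
  have h : ((Polynomial.evalRingHom (0 : Rg κ n)).comp (expT T).toRingHom) = RingHom.id _ := by
    refine ringHom_ext (fun a => ?_) fun p => ?_
    · show Polynomial.eval 0 (expT T (C a)) = C a
      rw [expT_C, Polynomial.eval_C]
    · show Polynomial.eval 0 (expT T (X p)) = X p
      rw [expT_X]
      simp
  exact RingHom.congr_fun h f

theorem coeff_one_expT (T : Matrix (Fin 2 × Fin n) (Fin 2 × Fin n) κ) (f : Rg κ n) :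
    (expT T f).coeff 1 = der T f := by
  induction f using MvPolynomial.induction_on with
  | C a =>
    rw [expT_C, Polynomial.coeff_C_succ, ← algebraMap_eq, Derivation.map_algebraMap]
  | add f g hf hg => rw [map_add, Polynomial.coeff_add, hf, hg, map_add]
  | mul_X f p hf =>
    rw [map_mul, Polynomial.mul_coeff_one, coeff_zero_expT, hf, expT_X, Derivation.leibniz, der_X,
      Polynomial.coeff_add, Polynomial.coeff_add, Polynomial.coeff_C_succ, Polynomial.coeff_C_zero,
      Polynomial.coeff_X_mul, Polynomial.coeff_X_mul_zero, Polynomial.coeff_C_zero, smul_eq_mul,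
      smul_eq_mul]
    ring

theorem linT_expT {T : Matrix (Fin 2 × Fin n) (Fin 2 × Fin n) κ} (hT : T * T = 0)
    (p : Fin 2 × Fin n) : expT T (linT T p) = Polynomial.C (linT T p) := by
  have h1 : expT T (linT T p) = ∑ q, (Polynomial.C (C (T p q) * X q) +
      Polynomial.X * Polynomial.C (C (T p q) * linT T q)) := by
    unfold linT
    rw [map_sum]
    refine Finset.sum_congr rfl fun q _ => ?_
    rw [map_mul, expT_C, expT_X, Polynomial.C_mul, Polynomial.C_mul]
    unfold linT
    ring
  have h2 : ∑ q, C (T p q) * linT T q = 0 := by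
    have := der_linT T T p
    rw [hT, linT_zero] at this
    rw [← this]
    conv_rhs => rw [show linT T p = ∑ q, C (T p q) * X q from rfl]
    rw [map_sum]
    refine Finset.sum_congr rfl fun q _ => ?_
    rw [Derivation.leibniz, der_X, ← algebraMap_eq, Derivation.map_algebraMap, smul_zero,
      add_zero, smul_eq_mul]
  rw [h1, Finset.sum_add_distrib, ← Finset.mul_sum, ← map_sum, ← map_sum, h2, Polynomial.C_0,
    mul_zero, add_zero]
  rfl

theorem derivative_expT {T : Matrix (Fin 2 × Fin n) (Fin 2 × Fin n) κ} (hT : T * T = 0)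
    (f : Rg κ n) : Polynomial.derivative (expT T f) = expT T (der T f) := by
  induction f using MvPolynomial.induction_on with
  | C a =>
    rw [expT_C, Polynomial.derivative_C, ← algebraMap_eq, Derivation.map_algebraMap, map_zero]
  | add f g hf hg => rw [map_add, map_add, hf, hg, map_add, map_add]
  | mul_X f p hf =>
    rw [map_mul, Polynomial.derivative_mul, hf, Derivation.leibniz, map_add, smul_eq_mul,
      smul_eq_mul, map_mul, map_mul, der_X, linT_expT hT, expT_X]
    simp only [Polynomial.derivative_add, Polynomial.derivative_C, Polynomial.derivative_mul,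
      Polynomial.derivative_X, one_mul, mul_zero, add_zero, zero_add]
    ring

/-- the coefficients of `expT T f` are in `J` for `f ∈ J` -/
theorem coeff_expT_mem [CharZero κ] {J : Ideal (Rg κ n)}
    {T : Matrix (Fin 2 × Fin n) (Fin 2 × Fin n) κ} (hT : T * T = 0) (h : StabD J T)
    (k : ℕ) : ∀ {f : Rg κ n}, f ∈ J → (expT T f).coeff k ∈ J := by
  induction k with
  | zero =>
    intro f hf
    rwa [coeff_zero_expT]
  | succ k ih =>
    intro f hf
    have h1 := ih (h f hf)
    rw [← derivative_expT hT, Polynomial.coeff_derivative] at h1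
    have h5 : ((k : Rg κ n) + 1) * (C (((k + 1 : ℕ) : κ)⁻¹) : Rg κ n) = 1 := by
      have h6 : ((k : Rg κ n) + 1) = C ((k + 1 : ℕ) : κ) := by
        rw [map_natCast]; push_cast; ring
      rw [h6, ← C_mul, mul_inv_cancel₀ (Nat.cast_ne_zero.2 (Nat.succ_ne_zero k)), C_1]
    have h2 := J.mul_mem_right (C (((k + 1 : ℕ) : κ)⁻¹)) h1
    rwa [mul_assoc, h5, mul_one] at h2

/-- If `T ^ 2 = 0` then an ideal stable under `der T` is stable under `X ↦ X + a • T X`. -/
theorem stabD_subst [CharZero κ] {J : Ideal (Rg κ n)}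
    {T : Matrix (Fin 2 × Fin n) (Fin 2 × Fin n) κ} (hT : T * T = 0) (h : StabD J T) (a : κ)
    {f : Rg κ n} (hf : f ∈ J) : aeval (fun p => X p + C a * linT T p) f ∈ J := by
  have h1 : (aeval (fun p => X p + C a * linT T p) : Rg κ n →ₐ[κ] Rg κ n) f =
      Polynomial.eval (C a) (expT T f) := by
    have h : (aeval (fun p => X p + C a * linT T p) : Rg κ n →ₐ[κ] Rg κ n).toRingHom =
        (Polynomial.evalRingHom (C a : Rg κ n)).comp (expT T).toRingHom := by
      refine ringHom_ext (fun b => ?_) fun p => ?_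
      · show aeval _ (C b) = Polynomial.eval _ (expT T (C b))
        rw [expT_C, Polynomial.eval_C, aeval_C, algebraMap_eq]
      · show aeval _ (X p) = Polynomial.eval _ (expT T (X p))
        rw [expT_X, aeval_X, Polynomial.eval_add, Polynomial.eval_mul, Polynomial.eval_C,
          Polynomial.eval_C, Polynomial.eval_X]
    exact RingHom.congr_fun h f
  rw [h1, Polynomial.eval_eq_sum, Polynomial.sum_def]
  exact J.sum_mem fun k _ => J.mul_mem_right _ (coeff_expT_mem hT h k hf)

theorem eval_linT (T : Matrix (Fin 2 × Fin n) (Fin 2 × Fin n) κ) (A : Fin 2 × Fin n → κ)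
    (p : Fin 2 × Fin n) : eval A (linT T p) = T.mulVec A p := by
  unfold linT
  rw [map_sum]
  refine Finset.sum_congr rfl fun q _ => ?_
  rw [map_mul, eval_C, eval_X]

/-- The zero locus of an ideal stable under `der T`, `T ^ 2 = 0`, is stable under `1 + a T`. -/
theorem eval_add_mulVec [CharZero κ] {J : Ideal (Rg κ n)}
    {T : Matrix (Fin 2 × Fin n) (Fin 2 × Fin n) κ} (hT : T * T = 0) (h : StabD J T) (a : κ)
    {A : Fin 2 × Fin n → κ} (hA : ∀ f ∈ J, eval A f = 0) :
    ∀ f ∈ J, eval (A + a • T.mulVec A) f = 0 := by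
  intro f hf
  have h1 := hA _ (stabD_subst hT h a hf)
  have h2 : eval A ((aeval (fun p => X p + C a * linT T p) : Rg κ n →ₐ[κ] Rg κ n) f) =
      eval (A + a • T.mulVec A) f := by
    have h : (eval A).comp (aeval (fun p => X p + C a * linT T p) :
        Rg κ n →ₐ[κ] Rg κ n).toRingHom = eval (A + a • T.mulVec A) := by
      refine ringHom_ext (fun b => ?_) fun p => ?_
      · show eval A (aeval _ (C b)) = eval _ (C b)
        rw [aeval_C, algebraMap_eq, eval_C, eval_C]
      · show eval A (aeval _ (X p)) = eval _ (X p)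
        rw [aeval_X, eval_X, map_add, map_mul, eval_X, eval_C, eval_linT]
        rfl
    exact RingHom.congr_fun h f
  rw [← h2, h1]

/-- Conversely, if the zeros of a radical ideal... : an ideal of functions vanishing on a set stable
under `1 + a T` is stable under `der T`. -/
theorem stabD_of_eval [Infinite κ] {S : Set (Fin 2 × Fin n → κ)}
    {T : Matrix (Fin 2 × Fin n) (Fin 2 × Fin n) κ} (hS : ∀ A ∈ S, ∀ a : κ, a ≠ 0 →
      A + a • T.mulVec A ∈ S) {J : Ideal (Rg κ n)} (hJ : ∀ f, f ∈ J ↔ ∀ A ∈ S, eval A f = 0) :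
    StabD J T := by
  intro f hf
  rw [hJ] at hf ⊢
  intro A hA
  have h1 : ∀ a : κ, ((expT T f).map (eval A)).eval a = eval (A + a • T.mulVec A) f := by
    intro a
    have h : (Polynomial.evalRingHom a).comp ((Polynomial.mapRingHom (eval A)).comp
        (expT T).toRingHom) = eval (A + a • T.mulVec A) := by
      refine ringHom_ext (fun b => ?_) fun p => ?_
      · show Polynomial.eval a ((expT T (C b)).map (eval A)) = eval _ (C b)
        rw [expT_C, Polynomial.map_C, Polynomial.eval_C, eval_C, eval_C]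
      · show Polynomial.eval a ((expT T (X p)).map (eval A)) = eval _ (X p)
        rw [expT_X, Polynomial.map_add, Polynomial.map_mul, Polynomial.map_C, Polynomial.map_C,
          Polynomial.map_X, Polynomial.eval_add, Polynomial.eval_mul, Polynomial.eval_C,
          Polynomial.eval_C, Polynomial.eval_X, eval_X, eval_X, eval_linT]
        rfl
    exact RingHom.congr_fun h f
  have h2 : (expT T f).map (eval A) = 0 := by
    refine Polynomial.funext fun a => ?_
    rw [h1, Polynomial.eval_zero]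
    by_cases ha : a = 0
    · rw [ha, zero_smul, add_zero]
      exact hf A hA
    · exact hf _ (hS A hA a ha)
  have h3 := congrArg (fun g : Polynomial κ => g.coeff 1) h2
  simp only [Polynomial.coeff_map, Polynomial.coeff_zero, coeff_one_expT] at h3
  exact h3

/-! ### row operations -/

/-- left multiplication by a `2 × 2` matrix -/
def act (g : Matrix (Fin 2) (Fin 2) κ) (A : Fin 2 × Fin n → κ) : Fin 2 × Fin n → κ :=
  fun p => ∑ r, g p.1 r * A (r, p.2)

theorem act_mul (g h : Matrix (Fin 2) (Fin 2) κ) (A : Fin 2 × Fin n → κ) :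
    act (g * h) A = act g (act h A) := by
  funext p
  unfold act
  simp only [Matrix.mul_apply, Fin.sum_univ_two]
  ring

theorem rowM_mulVec (r r' : Fin 2) (A : Fin 2 × Fin n → κ) (p : Fin 2 × Fin n) :
    (rowM κ n r r').mulVec A p = if p.1 = r then A (r', p.2) else 0 := by
  show ∑ q : Fin 2 × Fin n, (if p.1 = r ∧ q.1 = r' ∧ p.2 = q.2 then (1 : κ) else 0) * A q = _
  split_ifs with h
  · rw [Finset.sum_eq_single (r', p.2)]
    · rw [if_pos ⟨h, rfl, rfl⟩, one_mul]
    · rintro ⟨q1, q2⟩ - hq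
      rw [if_neg, zero_mul]
      rintro ⟨-, h1, h2⟩
      exact hq (Prod.ext h1 h2.symm)
    · intro h'
      exact absurd (Finset.mem_univ _) h'
  · refine Finset.sum_eq_zero fun q _ => ?_
    rw [if_neg (fun h' => h h'.1), zero_mul]

theorem act_upper (a : κ) (A : Fin 2 × Fin n → κ) :
    act !![1, a; 0, 1] A = A + a • (rowM κ n 0 1).mulVec A := by
  funext p
  rw [Pi.add_apply, Pi.smul_apply, rowM_mulVec, smul_eq_mul]
  unfold act
  obtain ⟨r, i⟩ := p
  fin_cases r <;> simp

theorem act_lower (a : κ) (A : Fin 2 × Fin n → κ) :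
    act !![1, 0; a, 1] A = A + a • (rowM κ n 1 0).mulVec A := by
  funext p
  rw [Pi.add_apply, Pi.smul_apply, rowM_mulVec, smul_eq_mul]
  unfold act
  obtain ⟨r, i⟩ := p
  fin_cases r <;> simp [add_comm]

theorem rowM_sq {r r' : Fin 2} (h : r ≠ r') : rowM κ n r r' * rowM κ n r r' = 0 := by
  ext p q
  rw [Matrix.mul_apply, Matrix.zero_apply]
  refine Finset.sum_eq_zero fun x _ => ?_
  unfold rowM
  by_cases h1 : x.1 = r'
  · rw [if_neg (fun h' : x.1 = r ∧ _ => h (h'.1.symm.trans h1)), mul_zero]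
  · rw [if_neg (fun h' : _ ∧ x.1 = r' ∧ _ => h1 h'.2.1), zero_mul]

/-- a bihomogeneous polynomial at a matrix with scaled rows -/
theorem eval_diag {f : Rg κ n} {m : ℕ × ℕ} (hf : IsWeightedHomogeneous (wt n) f m) (u v : κ)
    (A : Fin 2 × Fin n → κ) :
    eval (act !![u, 0; 0, v] A) f = u ^ m.1 * v ^ m.2 * eval A f := by
  rw [eval_eq', eval_eq', Finset.mul_sum]
  refine Finset.sum_congr rfl fun d hd => ?_
  have hw : Finsupp.weight (wt n) d = m := hf (mem_support_iff.1 hd)
  have hact : ∀ p : Fin 2 × Fin n, act !![u, 0; 0, v] A p =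
      u ^ (wt n p).1 * v ^ (wt n p).2 * A p := by
    rintro ⟨r, i⟩
    unfold act wt
    fin_cases r <;> simp
  have h1 : ∏ p, act !![u, 0; 0, v] A p ^ d p =
      (∏ p, (u ^ (wt n p).1 * v ^ (wt n p).2) ^ d p) * ∏ p, A p ^ d p := by
    rw [← Finset.prod_mul_distrib]
    exact Finset.prod_congr rfl fun p _ => by rw [hact, mul_pow]
  have h2 : ∏ p, (u ^ (wt n p).1 * v ^ (wt n p).2) ^ d p = u ^ m.1 * v ^ m.2 := by
    have h3 : ∀ p, (u ^ (wt n p).1 * v ^ (wt n p).2) ^ d p =
        u ^ (d p * (wt n p).1) * v ^ (d p * (wt n p).2) := fun p => by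
      rw [mul_pow, ← pow_mul, ← pow_mul, mul_comm (d p), mul_comm (d p)]
    rw [Finset.prod_congr rfl fun p _ => h3 p, Finset.prod_mul_distrib, Finset.prod_pow_eq_pow_sum,
      Finset.prod_pow_eq_pow_sum]
    have h4 : Finsupp.weight (wt n) d = ∑ p, d p • wt n p := by
      rw [Finsupp.weight_apply]
      exact Finsupp.sum_fintype _ _ fun _ => zero_smul _ _
    rw [← hw, h4, Prod.fst_sum, Prod.snd_sum]
    rfl
  rw [h1, h2]
  ring

theorem eval_diag_mem {J : Ideal (Rg κ n)} (hb : IsBi J) {A : Fin 2 × Fin n → κ}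
    (hA : ∀ f ∈ J, eval A f = 0) (u v : κ) : ∀ f ∈ J, eval (act !![u, 0; 0, v] A) f = 0 := by
  intro f hf
  have h1 := sum_weightedHomogeneousComponent (wt n) f
  rw [finsum_eq_sum _ (weightedHomogeneousComponent_finsupp f)] at h1
  rw [← h1, map_sum]
  refine Finset.sum_eq_zero fun m _ => ?_
  rw [eval_diag (weightedHomogeneousComponent_isWeightedHomogeneous m f), hA _ (hb f hf m),
    mul_zero]

/-- Row operations on bihomogeneous ideals: the zero locus of a bihomogeneous row stable ideal is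
stable under the left multiplication by all `2 × 2` matrices of determinant `≠ 0`. -/
theorem eval_row [CharZero κ] {J : Ideal (Rg κ n)} (hb : IsBi J) (hr : RowStab J)
    {A : Fin 2 × Fin n → κ} (hA : ∀ f ∈ J, eval A f = 0) (g : Matrix (Fin 2) (Fin 2) κ)
    (hg : g.det ≠ 0) :
    ∀ f ∈ J, eval (fun p => ∑ r, g p.1 r * A (r, p.2)) f = 0 := by
  show ∀ f ∈ J, eval (act g A) f = 0
  have hup : ∀ (B : Fin 2 × Fin n → κ), (∀ f ∈ J, eval B f = 0) → ∀ a : κ,
      ∀ f ∈ J, eval (act !![1, a; 0, 1] B) f = 0 := by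
    intro B hB a
    rw [act_upper]
    exact eval_add_mulVec (rowM_sq (by decide)) hr.1 a hB
  have hlo : ∀ (B : Fin 2 × Fin n → κ), (∀ f ∈ J, eval B f = 0) → ∀ a : κ,
      ∀ f ∈ J, eval (act !![1, 0; a, 1] B) f = 0 := by
    intro B hB a
    rw [act_lower]
    exact eval_add_mulVec (rowM_sq (by decide)) hr.2 a hB
  have key : ∀ g : Matrix (Fin 2) (Fin 2) κ, g 0 0 ≠ 0 → ∀ (B : Fin 2 × Fin n → κ),
      (∀ f ∈ J, eval B f = 0) → ∀ f ∈ J, eval (act g B) f = 0 := by
    intro g h00 B hB
    have hg' : g = !![1, 0; g 1 0 / g 0 0, 1] * (!![g 0 0, 0; 0, g 1 1 - g 1 0 * g 0 1 / g 0 0] *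
        !![1, g 0 1 / g 0 0; 0, 1]) := by
      ext i j
      fin_cases i <;> fin_cases j <;> simp [Matrix.mul_apply, Fin.sum_univ_two] <;> field_simp
      all_goals ring
    rw [hg', act_mul, act_mul]
    exact hlo _ (eval_diag_mem hb (hup _ hB _) _ _) _
  by_cases h00 : g 0 0 = 0
  · have h10 : g 1 0 ≠ 0 := by
      intro h
      refine hg ?_
      rw [Matrix.det_fin_two, h00, h]
      ring
    have hone : (!![1, -1; 0, 1] : Matrix (Fin 2) (Fin 2) κ) * !![1, 1; 0, 1] = 1 := by
      ext i j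
      fin_cases i <;> fin_cases j <;> simp [Matrix.mul_apply, Fin.sum_univ_two]
    have hg' : g = !![1, -1; 0, 1] * (!![1, 1; 0, 1] * g) := by
      rw [← Matrix.mul_assoc, hone, Matrix.one_mul]
    rw [hg', act_mul]
    refine hup _ (key _ ?_ _ hA) _
    have h11 : ((!![1, 1; 0, 1] : Matrix (Fin 2) (Fin 2) κ) * g) 0 0 = g 0 0 + g 1 0 := by
      rw [Matrix.mul_apply, Fin.sum_univ_two]
      simp
    rw [h11, h00, zero_add]
    exact h10
  · exact key g h00 A hA

theorem colM_mul (N N' : Matrix (Fin n) (Fin n) κ) : colM N * colM N' = colM (N * N') := by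
  ext p q
  rw [Matrix.mul_apply, Fintype.sum_prod_type]
  unfold colM
  rw [Finset.sum_eq_single p.1]
  · by_cases h : p.1 = q.1
    · simp only [h, if_true, Matrix.mul_apply]
    · simp only [if_true, if_neg h, mul_zero, Finset.sum_const_zero]
  · intro r _ hr
    refine Finset.sum_eq_zero fun i _ => ?_
    rw [if_neg (Ne.symm hr), zero_mul]
  · intro h
    exact absurd (Finset.mem_univ _) h

theorem rowM_mul_colM (r r' : Fin 2) (N : Matrix (Fin n) (Fin n) κ) :
    rowM κ n r r' * colM N = colM N * rowM κ n r r' := by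
  ext p q
  rw [Matrix.mul_apply, Matrix.mul_apply]
  have h1 : ∑ x, rowM κ n r r' p x * colM N x q =
      if p.1 = r ∧ r' = q.1 then N p.2 q.2 else 0 := by
    unfold rowM colM
    rw [Finset.sum_eq_single (r', p.2)]
    · by_cases h : p.1 = r
      · by_cases h' : r' = q.1
        · simp [h, h']
        · simp [h']
      · simp [h]
    · rintro ⟨x1, x2⟩ - hx
      rw [if_neg, zero_mul]
      rintro ⟨-, h1, h2⟩
      exact hx (Prod.ext h1 h2.symm)
    · intro h'
      exact absurd (Finset.mem_univ _) h'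
  have h2 : ∑ x, colM N p x * rowM κ n r r' x q =
      if p.1 = r ∧ r' = q.1 then N p.2 q.2 else 0 := by
    unfold rowM colM
    rw [Finset.sum_eq_single (p.1, q.2)]
    · by_cases h : p.1 = r
      · by_cases h' : q.1 = r'
        · simp [h, h']
        · simp [h', Ne.symm h']
      · simp [h]
    · rintro ⟨x1, x2⟩ - hx
      by_cases h1 : p.1 = x1
      · rw [if_neg (fun h' : x1 = r ∧ q.1 = r' ∧ x2 = q.2 => hx (by rw [h1, ← h'.2.2])), mul_zero]
      · rw [if_neg h1, zero_mul]
    · intro h'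
      exact absurd (Finset.mem_univ _) h'
  rw [h1, h2]

theorem linT_rowM (r r' : Fin 2) (p : Fin 2 × Fin n) :
    linT (rowM κ n r r') p = if p.1 = r then X (r', p.2) else 0 := by
  show ∑ q : Fin 2 × Fin n, C (if p.1 = r ∧ q.1 = r' ∧ p.2 = q.2 then (1 : κ) else 0) * X q = _
  split_ifs with h
  · rw [Finset.sum_eq_single (r', p.2)]
    · rw [if_pos ⟨h, rfl, rfl⟩, C_1, one_mul]
    · rintro ⟨q1, q2⟩ - hq
      rw [if_neg, C_0, zero_mul]
      rintro ⟨-, h1, h2⟩
      exact hq (Prod.ext h1 h2.symm)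
    · intro h'
      exact absurd (Finset.mem_univ _) h'
  · refine Finset.sum_eq_zero fun q _ => ?_
    rw [if_neg (fun h' => h h'.1), C_0, zero_mul]

theorem der_row_minor {r r' : Fin 2} (h : r ≠ r') (i j : Fin n) :
    der (rowM κ n r r') (minor κ i j) = 0 := by
  unfold minor
  rw [map_sub, Derivation.leibniz, Derivation.leibniz, der_X, der_X, der_X, der_X, linT_rowM,
    linT_rowM, linT_rowM, linT_rowM]
  fin_cases r <;> fin_cases r' <;> simp at h ⊢ <;> ring

end Pool.Agent.GrUp
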