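import Pool.Agent.GrUp.Upper

/-!
# The effective cones of very general hypersurfaces of `Gr(2,n)` in dimension `> dim X / 2`
-/

namespace Pool.Agent.GrUp

open MvPolynomial Pool.Agent.GrCyc

variable {n : ℕ}

/-- The nonzero polynomials with rational coefficients in the coefficients of a form of degree `d`. -/
def ratPols (n d : ℕ) : Set (MvPolynomial {m : (Fin 2 ↪o Fin n) →₀ ℕ // m.degree = d} ℂ) :=
  (map (algebraMap ℚ ℂ)) '' {Q | Q ≠ 0}

theorem countable_ratPols (n d : ℕ) : (ratPols n d).Countable := by
  have : Countable (MvPolynomial {m : (Fin 2 ↪o Fin n) →₀ ℕ // m.degree = d} ℚ) := by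
    let f : MvPolynomial {m : (Fin 2 ↪o Fin n) →₀ ℕ // m.degree = d} ℚ →
        (({m : (Fin 2 ↪o Fin n) →₀ ℕ // m.degree = d} →₀ ℕ) →₀ ℚ) := fun Q =>
      Finsupp.onFinset Q.support (fun m => Q.coeff m) (fun m hm => mem_support_iff.2 hm)
    refine Function.Injective.countable (f := f) fun a b hab => ?_
    ext m
    exact DFunLike.congr_fun hab m
  exact (Set.to_countable _).image _

theorem zero_notMem_ratPols (n d : ℕ) : 0 ∉ ratPols n d := by
  rintro ⟨Q, hQ, h⟩
  apply hQ
  exact map_injective (algebraMap ℚ ℂ) (algebraMap ℚ ℂ).injective (by rw [h, map_zero])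

theorem algebraicIndependent_of {d : ℕ} {P : MvPolynomial (Fin 2 ↪o Fin n) ℂ}
    (h : ∀ Q ∈ ratPols n d, eval (fun m : {m : (Fin 2 ↪o Fin n) →₀ ℕ // m.degree = d} =>
      P.coeff m.1) Q ≠ 0) :
    AlgebraicIndependent ℚ
      (fun m : {m : (Fin 2 ↪o Fin n) →₀ ℕ // m.degree = d} => P.coeff m.1) := by
  rw [algebraicIndependent_iff]
  intro Q hQ
  by_contra hne
  refine h _ ⟨Q, hne, rfl⟩ ?_
  rw [eval_map]
  exact hQ

theorem zeros_ne_univ {d : ℕ} (hn : 2 ≤ n) {P : MvPolynomial (Fin 2 ↪o Fin n) ℂ}
    (h : ∀ Q ∈ ratPols n d, eval (fun m : {m : (Fin 2 ↪o Fin n) →₀ ℕ // m.degree = d} =>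
      P.coeff m.1) Q ≠ 0) (hP : P.IsHomogeneous d) : zeros P ≠ Set.univ := by
  classical
  let a : Fin n := ⟨0, by omega⟩
  let b : Fin n := ⟨1, by omega⟩
  have hab : a < b := by simp [a, b, Fin.lt_def]
  let K : Fin 2 ↪o Fin n := pairEmb hab
  let A : Fin 2 → Fin n → ℂ := ![Pi.single a 1, Pi.single b 1]
  have hli : LinearIndependent ℂ A := by
    rw [LinearIndependent.pair_iff]
    intro s t hst
    have h1 := congrFun hst a
    have h2 := congrFun hst b
    have hne : a ≠ b := hab.ne
    simp [hne, hne.symm] at h1 h2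
    exact ⟨h1, h2⟩
  have hplu : ∀ K' : Fin 2 ↪o Fin n, plu A K' = if K' = K then 1 else 0 := by
    intro K'
    have hdet : plu A K' = A 0 (K' 0) * A 1 (K' 1) - A 0 (K' 1) * A 1 (K' 0) := by
      rw [plu, Matrix.det_fin_two]
      rfl
    rw [hdet]
    have hlt : K' 0 < K' 1 := K'.strictMono (by decide)
    by_cases hK : K' = K
    · rw [if_pos hK, hK]
      have e0 : K 0 = a := rfl
      have e1 : K 1 = b := rfl
      have hne : a ≠ b := hab.ne
      rw [e0, e1]
      simp [A, hne, hne.symm]
    · rw [if_neg hK]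
      have h1 : A 0 (K' 1) = 0 := by
        have : K' 1 ≠ a := by
          intro h
          rw [h] at hlt
          simp [a, Fin.lt_def] at hlt
        simp [A, Pi.single_apply, this]
      rw [h1, zero_mul, sub_zero]
      by_contra hne
      have h2 : A 0 (K' 0) ≠ 0 := left_ne_zero_of_mul hne
      have h3 : A 1 (K' 1) ≠ 0 := right_ne_zero_of_mul hne
      have h4 : K' 0 = a := by
        by_contra h
        exact h2 (by simp [A, Pi.single_apply, h])
      have h5 : K' 1 = b := by
        by_contra h
        exact h3 (by simp [A, Pi.single_apply, h])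
      apply hK
      ext x
      fin_cases x
      · exact congrArg Fin.val h4
      · exact congrArg Fin.val h5
  intro huniv
  have hV : ofBasis A hli ∈ zeros P := by rw [huniv]; exact Set.mem_univ _
  have h0 : eval (plu A) P = 0 := hV A rfl
  have hval : eval (plu A) P = P.coeff (Finsupp.single K d) := by
    rw [eval_eq]
    have hterm : ∀ m ∈ P.support, P.coeff m * ∏ i ∈ m.support, plu A i ^ m i =
        if m = Finsupp.single K d then P.coeff m else 0 := by
      intro m hm
      have hdeg : m.degree = d := by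
        by_contra hne
        exact (mem_support_iff.1 hm) (hP.coeff_eq_zero hne)
      split_ifs with h1
      · have : ∏ i ∈ m.support, plu A i ^ m i = 1 := by
          refine Finset.prod_eq_one fun i hi => ?_
          have hi' : i = K := by
            by_contra hne
            rw [Finsupp.mem_support_iff, h1, Finsupp.single_apply, if_neg (Ne.symm hne)] at hi
            exact hi rfl
          rw [hplu, if_pos hi', one_pow]
        rw [this, mul_one]
      · have : ∃ i ∈ m.support, i ≠ K := by
          by_contra hcon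
          push Not at hcon
          apply h1
          have h2 : m = Finsupp.single K (m K) := by
            ext i
            by_cases hi : i = K
            · rw [hi, Finsupp.single_eq_same]
            · rw [Finsupp.single_apply, if_neg (Ne.symm hi)]
              by_contra h3
              exact hi (hcon i (Finsupp.mem_support_iff.2 h3))
          have h3 : m.degree = m K := by
            conv_lhs => rw [h2]
            simp
          rw [h2, ← hdeg, h3]
        obtain ⟨i, hi, hiK⟩ := this
        rw [Finset.prod_eq_zero hi, mul_zero]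
        rw [hplu, if_neg hiK, zero_pow (Finsupp.mem_support_iff.1 hi)]
    rw [Finset.sum_congr rfl hterm, Finset.sum_ite_eq']
    split_ifs with h1
    · rfl
    · exact (notMem_support_iff.1 h1).symm
  have hdeg : (Finsupp.single K d).degree = d := by simp
  refine h (X ⟨Finsupp.single K d, hdeg⟩) ⟨X ⟨Finsupp.single K d, hdeg⟩, X_ne_zero _, ?_⟩ ?_
  · simp
  · rw [eval_X, ← hval]
    exact h0

/-- For the very general hypersurface `X` of degree `d` of `G = Gr(2,n)`:
`Eff_k(X) = h · Eff_(k+1)(G)` if `k > dim X / 2`. -/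
theorem very_general (k d : ℕ) (hn : 3 ≤ n) (hd : 1 ≤ d) (hk : n + n % 2 ≤ k + 2)
    {P : MvPolynomial (Fin 2 ↪o Fin n) ℂ} (hP : P.IsHomogeneous d)
    (h : ∀ Q ∈ ratPols n d, eval (fun m : {m : (Fin 2 ↪o Fin n) →₀ ℕ // m.degree = d} =>
      P.coeff m.1) Q ≠ 0) :
    IsHypersurface d (zeros P) ∧
      effCone k (zeros P) = hyp k '' effCone (k + 1) (Set.univ : Set (Gr 2 n)) := by
  have h1 := zeros_ne_univ (by omega) h hP
  refine ⟨⟨P, hP, h1, rfl⟩, Set.Subset.antisymm ?_ ?_⟩
  · exact upper hn hk hP (algebraicIndependent_of h)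
  · exact lower (by omega) hP hd h1

end Pool.Agent.GrUp
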