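import Pool.Agent.GrUp.Cell
import Pool.Agent.GrUp.BiEval
import Pool.Agent.GrCyc.Top
import Pool.Agent.GrCyc.Param

/-!
# Closed subsets of `Gr(2,n)` and bihomogeneous ideals (module G)
-/

namespace Pool.Agent.GrUp

open MvPolynomial Pool.Agent.GrCyc

variable {n : ℕ}

/-- The gRows of `A`. -/
def gRows (A : Fin 2 × Fin n → ℂ) : Fin 2 → Fin n → ℂ := fun r i => A (r, i)

/-- Left multiplication. -/
def gAct (h : Matrix (Fin 2) (Fin 2) ℂ) (A : Fin 2 × Fin n → ℂ) : Fin 2 × Fin n → ℂ :=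
  fun p => ∑ r, h p.1 r * A (r, p.2)

theorem gRows_gAct (h : Matrix (Fin 2) (Fin 2) ℂ) (A : Fin 2 × Fin n → ℂ) :
    gRows (gAct h A) = fun i => ∑ j, h i j • gRows A j := by
  funext i q
  simp [gRows, gAct, Finset.sum_apply]

theorem act_act (h h' : Matrix (Fin 2) (Fin 2) ℂ) (A : Fin 2 × Fin n → ℂ) :
    gAct h (gAct h' A) = gAct (h * h') A := by
  funext p
  simp only [gAct, Matrix.mul_apply, Fin.sum_univ_two]
  ring

theorem act_one (A : Fin 2 × Fin n → ℂ) : gAct 1 A = A := by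
  funext p
  obtain ⟨r, i⟩ := p
  simp [gAct, Matrix.one_apply]

theorem span_act_le (h : Matrix (Fin 2) (Fin 2) ℂ) (A : Fin 2 × Fin n → ℂ) :
    Submodule.span ℂ (Set.range (gRows (gAct h A))) ≤ Submodule.span ℂ (Set.range (gRows A)) := by
  rw [Submodule.span_le]
  rintro _ ⟨i, rfl⟩
  rw [gRows_gAct]
  exact Submodule.sum_mem _ fun j _ => Submodule.smul_mem _ _ (Submodule.subset_span ⟨j, rfl⟩)

theorem span_act {h : Matrix (Fin 2) (Fin 2) ℂ} (hd : h.det ≠ 0) (A : Fin 2 × Fin n → ℂ) :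
    Submodule.span ℂ (Set.range (gRows (gAct h A))) = Submodule.span ℂ (Set.range (gRows A)) := by
  refine le_antisymm (span_act_le h A) ?_
  have h1 := span_act_le h⁻¹ (gAct h A)
  rw [act_act, Matrix.nonsing_inv_mul _ (isUnit_iff_ne_zero.2 hd), act_one] at h1
  exact h1

theorem mem_cone {Z : Set (Gr 2 n)} {A : Fin 2 × Fin n → ℂ} :
    A ∈ cone Z ↔ ∃ V ∈ Z, Submodule.span ℂ (Set.range (gRows A)) = V.1 := Iff.rfl

theorem act_mem_cone {Z : Set (Gr 2 n)} {A : Fin 2 × Fin n → ℂ} (hA : A ∈ cone Z)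
    {h : Matrix (Fin 2) (Fin 2) ℂ} (hd : h.det ≠ 0) : gAct h A ∈ cone Z := by
  obtain ⟨V, hV, hAV⟩ := mem_cone.1 hA
  exact mem_cone.2 ⟨V, hV, (span_act hd A).trans hAV⟩

theorem exists_act {A B : Fin 2 × Fin n → ℂ} {V : Gr 2 n}
    (hA : Submodule.span ℂ (Set.range (gRows A)) = V.1)
    (hB : Submodule.span ℂ (Set.range (gRows B)) = V.1) :
    ∃ h : Matrix (Fin 2) (Fin 2) ℂ, h.det ≠ 0 ∧ B = gAct h A := by
  obtain ⟨M, hM, hB'⟩ := exists_matrix_of_span_eq (linearIndependent_of_span V _ hB)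
    (hA.trans hB.symm)
  refine ⟨M, hM, ?_⟩
  rw [← gRows_gAct] at hB'
  funext p
  exact congrFun (congrFun hB' p.1) p.2

theorem exists_mat (V : Gr 2 n) : ∃ A : Fin 2 × Fin n → ℂ,
    Submodule.span ℂ (Set.range (gRows A)) = V.1 := by
  obtain ⟨A, _, hA⟩ := exists_basis V
  exact ⟨fun p => A p.1 p.2, hA⟩

/-- The ideal of the polynomials vanishing on `cone Z`. -/
noncomputable def idl (Z : Set (Gr 2 n)) : Ideal (Rg ℂ n) where
  carrier := {f | ∀ A ∈ cone Z, eval A f = 0}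
  add_mem' := fun {a b} ha hb A hA => by simp [ha A hA, hb A hA]
  zero_mem' := fun A _ => by simp
  smul_mem' := fun c x hx A hA => by simp [hx A hA]

theorem mem_idl {Z : Set (Gr 2 n)} {f : Rg ℂ n} : f ∈ idl Z ↔ ∀ A ∈ cone Z, eval A f = 0 := Iff.rfl

theorem hil_eq (Z : Set (Gr 2 n)) (s t : ℕ) : hil Z s t = HF (idl Z) s t := by
  unfold hil HF
  let φ : bi ℂ n s t →ₗ[ℂ] (cone Z → ℂ) := (restr (cone Z)).domRestrict (bi ℂ n s t)
  have h1 : LinearMap.range φ = (bi ℂ n s t).map (restr (cone Z)) := LinearMap.range_domRestrict _ _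
  have h2 : LinearMap.ker φ = part (idl Z) s t := by
    ext x
    show φ x = 0 ↔ (x : Rg ℂ n) ∈ idl Z
    rw [mem_idl]
    constructor
    · intro h A hA
      exact congrFun h ⟨A, hA⟩
    · intro h
      funext A
      exact h A.1 A.2
  rw [← h1, ← h2]
  exact (LinearEquiv.finrank_eq φ.quotKerEquivRange).symm

theorem isBi_of_act {S : Set (Fin 2 × Fin n → ℂ)}
    (hS : ∀ A ∈ S, ∀ h : Matrix (Fin 2) (Fin 2) ℂ, h.det ≠ 0 → gAct h A ∈ S)
    {J : Ideal (Rg ℂ n)} (hJ : ∀ f, f ∈ J ↔ ∀ A ∈ S, eval A f = 0) : IsBi J := by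
  refine isBi_of_eval (S := S) ?_ hJ
  intro A hA a b ha hb
  have h := hS A hA !![a, 0; 0, b] (by simp [Matrix.det_fin_two_of, ha, hb])
  have h1 : gAct !![a, 0; 0, b] A = fun p : Fin 2 × Fin n => (if p.1 = 0 then a else b) * A p := by
    funext p
    obtain ⟨r, i⟩ := p
    fin_cases r <;> simp [gAct]
  rwa [h1] at h

theorem rowStab_of_act {S : Set (Fin 2 × Fin n → ℂ)}
    (hS : ∀ A ∈ S, ∀ h : Matrix (Fin 2) (Fin 2) ℂ, h.det ≠ 0 → gAct h A ∈ S)
    {J : Ideal (Rg ℂ n)} (hJ : ∀ f, f ∈ J ↔ ∀ A ∈ S, eval A f = 0) : RowStab J := by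
  refine ⟨stabD_of_eval (S := S) ?_ hJ, stabD_of_eval (S := S) ?_ hJ⟩
  · intro A hA a _
    have h := hS A hA !![1, a; 0, 1] (by simp [Matrix.det_fin_two_of])
    have h1 : gAct !![1, a; 0, 1] A = A + a • (rowM ℂ n 0 1).mulVec A := by
      funext p
      rw [Pi.add_apply, Pi.smul_apply, rowM_mulVec]
      obtain ⟨r, i⟩ := p
      fin_cases r <;> simp [gAct]
    rwa [h1] at h
  · intro A hA a _
    have h := hS A hA !![1, 0; a, 1] (by simp [Matrix.det_fin_two_of])
    have h1 : gAct !![1, 0; a, 1] A = A + a • (rowM ℂ n 1 0).mulVec A := by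
      funext p
      rw [Pi.add_apply, Pi.smul_apply, rowM_mulVec]
      obtain ⟨r, i⟩ := p
      fin_cases r <;> simp [gAct, add_comm]
    rwa [h1] at h

theorem isBi_idl (Z : Set (Gr 2 n)) : IsBi (idl Z) :=
  isBi_of_act (S := cone Z) (fun _ hA _ hd => act_mem_cone hA hd) fun _ => mem_idl

theorem rowStab_idl (Z : Set (Gr 2 n)) : RowStab (idl Z) :=
  rowStab_of_act (S := cone Z) (fun _ hA _ hd => act_mem_cone hA hd) fun _ => mem_idl

theorem wh_aeval {σ τ M R : Type*} [CommSemiring R] [AddCommMonoid M] {w : σ → M} {w' : τ → M}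
    {g : σ → MvPolynomial τ R} (hg : ∀ i, IsWeightedHomogeneous w' (g i) (w i))
    {f : MvPolynomial σ R} {m : M} (hf : IsWeightedHomogeneous w f m) :
    IsWeightedHomogeneous w' (aeval g f) m := by
  rw [aeval_def, eval₂_eq]
  refine IsWeightedHomogeneous.sum _ _ _ fun d hd => ?_
  rw [algebraMap_eq]
  refine IsWeightedHomogeneous.C_mul ?_ _
  have h1 := hf (mem_support_iff.1 hd)
  rw [← h1, Finsupp.weight_apply, Finsupp.sum]
  exact IsWeightedHomogeneous.prod _ _ _ fun i _ => (hg i).pow _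

theorem eval_aeval' {σ τ R : Type*} [CommRing R] (g : σ → MvPolynomial τ R) (x : τ → R)
    (f : MvPolynomial σ R) : eval x (aeval g f) = eval (fun i => eval x (g i)) f := by
  induction f using MvPolynomial.induction_on with
  | C a => simp
  | add p q hp hq => rw [map_add, map_add, map_add, hp, hq]
  | mul_X p i hp => rw [map_mul, map_mul, map_mul, hp, aeval_X, eval_X]

/-- The increasing pair `a < b`. -/
def emb {a b : Fin n} (h : a < b) : Fin 2 ↪o Fin n :=
  OrderEmbedding.ofStrictMono ![a, b] (by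
    intro x y hxy
    fin_cases x <;> fin_cases y <;> simp_all)

theorem plu_two (A : Fin 2 → Fin n → ℂ) (K : Fin 2 ↪o Fin n) :
    plu A K = A 0 (K 0) * A 1 (K 1) - A 0 (K 1) * A 1 (K 0) := by
  unfold plu
  rw [Matrix.det_fin_two]
  rfl

/-- The Plücker coordinate of the columns `a`, `b`. -/
noncomputable def plC (a b : Fin n) : MvPolynomial (Fin 2 ↪o Fin n) ℂ :=
  if h : a < b then X (emb h) else if h' : b < a then - X (emb h') else 0

theorem eval_plC (A : Fin 2 → Fin n → ℂ) (a b : Fin n) :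
    eval (plu A) (plC a b) = A 0 a * A 1 b - A 0 b * A 1 a := by
  unfold plC
  by_cases h : a < b
  · rw [dif_pos h, eval_X, plu_two]
    rfl
  · rw [dif_neg h]
    by_cases h' : b < a
    · rw [dif_pos h', map_neg, eval_X, plu_two]
      show -(A 0 b * A 1 a - A 0 a * A 1 b) = _
      ring
    · rw [dif_neg h', map_zero]
      have : a = b := le_antisymm (not_lt.1 h') (not_lt.1 h)
      subst this
      ring

theorem hom_plC (a b : Fin n) : (plC a b).IsHomogeneous 1 := by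
  unfold plC
  split_ifs
  · exact isHomogeneous_X _ _
  · exact (isHomogeneous_X _ _).neg
  · exact isHomogeneous_zero _ _ _

/-- The submatrix of the columns `i`, `j`. -/
def mat (i j : Fin n) (A : Fin 2 × Fin n → ℂ) : Matrix (Fin 2) (Fin 2) ℂ :=
  !![A (0, i), A (0, j); A (1, i), A (1, j)]

theorem det_mat (K : Fin 2 ↪o Fin n) (A : Fin 2 × Fin n → ℂ) :
    (mat (K 0) (K 1) A).det = plu (gRows A) K := by
  rw [plu_two, mat, Matrix.det_fin_two_of]
  rfl

/-- The polynomial `f` at the normalised matrix of the chart `(i,j)`, multiplied by `h`. -/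
noncomputable def chP (i j : Fin n) (h : Matrix (Fin 2) (Fin 2) ℂ) :
    Rg ℂ n →ₐ[ℂ] MvPolynomial (Fin 2 ↪o Fin n) ℂ :=
  aeval (fun p : Fin 2 × Fin n => C (h p.1 0) * plC p.2 j + C (h p.1 1) * plC i p.2)

theorem eval_chP (i j : Fin n) (h : Matrix (Fin 2) (Fin 2) ℂ) (A : Fin 2 × Fin n → ℂ)
    (f : Rg ℂ n) :
    eval (plu (gRows A)) (chP i j h f) = eval (gAct (h * (mat i j A).adjugate) A) f := by
  unfold chP
  rw [eval_aeval']
  congr 2
  funext p
  rw [map_add, map_mul, map_mul, eval_C, eval_C, eval_plC, eval_plC, mat,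
    Matrix.adjugate_fin_two_of]
  simp only [gAct, gRows, Matrix.mul_apply, Fin.sum_univ_two, Matrix.of_apply, Matrix.cons_val',
    Matrix.cons_val_zero, Matrix.cons_val_one, Matrix.cons_val_fin_one]
  ring

theorem weight_one_eq (d : (Fin 2 × Fin n) →₀ ℕ) :
    Finsupp.weight (1 : Fin 2 × Fin n → ℕ) d =
      (Finsupp.weight (wt n) d).1 + (Finsupp.weight (wt n) d).2 := by
  rw [Finsupp.weight_eq_sum, Finsupp.weight_eq_sum, Prod.fst_sum, Prod.snd_sum,
    ← Finset.sum_add_distrib]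
  refine Finset.sum_congr rfl fun p _ => ?_
  unfold wt
  by_cases h : p.1 = 0 <;> simp [h]

theorem hom_of_bi {f : Rg ℂ n} {s t : ℕ} (hf : f ∈ bi ℂ n s t) :
    IsWeightedHomogeneous (1 : Fin 2 × Fin n → ℕ) f (s + t) := by
  intro d hd
  have h : Finsupp.weight (wt n) d = (s, t) := hf hd
  rw [weight_one_eq, h]

theorem hom_chP (i j : Fin n) (h : Matrix (Fin 2) (Fin 2) ℂ) {f : Rg ℂ n} {s t : ℕ}
    (hf : f ∈ bi ℂ n s t) : (chP i j h f).IsHomogeneous (s + t) := by
  refine wh_aeval (fun p => ?_) (hom_of_bi hf)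
  exact ((hom_plC p.2 j).C_mul _).add ((hom_plC i p.2).C_mul _)

theorem eval_smul_bi {f : Rg ℂ n} {s t : ℕ} (hf : f ∈ bi ℂ n s t) (c : ℂ)
    (A : Fin 2 × Fin n → ℂ) : eval (gAct (c • (1 : Matrix (Fin 2) (Fin 2) ℂ)) A) f =
      c ^ (s + t) * eval A f := by
  rw [← eval_smul_of_hom (hom_of_bi hf) c A]
  congr 2
  funext p
  obtain ⟨r, i⟩ := p
  simp [gAct, Matrix.one_apply]

/-- The subspaces all of whose matrices are zeros of `J`. -/
def loc (J : Ideal (Rg ℂ n)) : Set (Gr 2 n) :=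
  {V | ∀ A, Submodule.span ℂ (Set.range (gRows A)) = V.1 → ∀ f ∈ J, eval A f = 0}

theorem isClosed_loc {J : Ideal (Rg ℂ n)} (hb : IsBi J) : IsClosed (loc J) := by
  rw [isClosed_iff]
  intro V hV
  obtain ⟨A, hA, f, hf, hfA⟩ : ∃ A, Submodule.span ℂ (Set.range (gRows A)) = V.1 ∧
      ∃ f ∈ J, eval A f ≠ 0 := by
    by_contra hcon
    push Not at hcon
    exact hV fun A hA f hf => hcon A hA f hf
  obtain ⟨m, hm⟩ : ∃ m, eval A (weightedHomogeneousComponent (wt n) m f) ≠ 0 := by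
    by_contra hcon
    push Not at hcon
    apply hfA
    have h1 := sum_weightedHomogeneousComponent (wt n) f
    rw [finsum_eq_sum _ (weightedHomogeneousComponent_finsupp f)] at h1
    rw [← h1, map_sum]
    exact Finset.sum_eq_zero fun m _ => hcon m
  obtain ⟨s, t⟩ := m
  set g := weightedHomogeneousComponent (wt n) (s, t) f with hg
  have hgJ : g ∈ J := hb f hf (s, t)
  have hgb : g ∈ bi ℂ n s t := weightedHomogeneousComponent_mem _ _ _
  obtain ⟨K, hK⟩ := exists_plu_ne_zero (linearIndependent_of_span V _ hA)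
  have hhom : (chP (K 0) (K 1) (mat (K 0) (K 1) A) g * X K).IsHomogeneous (s + t + 1) :=
    (hom_chP _ _ _ hgb).mul (isHomogeneous_X _ _)
  refine ⟨_, _, hhom, ?_, ?_⟩
  · intro V' hV'
    obtain ⟨A', hA'⟩ := exists_mat V'
    refine (mem_zeros_iff hhom hA').2 ?_
    rw [map_mul, eval_chP, eval_X, ← det_mat]
    by_cases hd : (mat (K 0) (K 1) A').det = 0
    · rw [hd, mul_zero]
    · have hne : (mat (K 0) (K 1) A * (mat (K 0) (K 1) A').adjugate).det ≠ 0 := by
        rw [Matrix.det_mul, Matrix.det_adjugate]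
        refine mul_ne_zero ?_ (pow_ne_zero _ hd)
        rw [det_mat]; exact hK
      rw [hV' _ ((span_act hne A').trans hA') g hgJ, zero_mul]
  · intro h
    have h1 := (mem_zeros_iff hhom hA).1 h
    rw [map_mul, eval_chP, eval_X, Matrix.mul_adjugate, eval_smul_bi hgb, det_mat] at h1
    exact mul_ne_zero (mul_ne_zero (pow_ne_zero _ hK) hm) hK h1

theorem bi_le_span {f : Rg ℂ n} {V : Gr 2 n} : V ∈ loc (Ideal.span {f}) ↔
    ∀ A, Submodule.span ℂ (Set.range (gRows A)) = V.1 → eval A f = 0 := by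
  constructor
  · intro h A hA
    exact h A hA f (Ideal.subset_span rfl)
  · intro h A hA g hg
    obtain ⟨q, rfl⟩ := Ideal.mem_span_singleton'.1 hg
    rw [map_mul, h A hA, mul_zero]

theorem isPrime_idl {Z : Set (Gr 2 n)} (hc : IsClosed Z) (hi : IsIrreducible Z) :
    (idl Z).IsPrime := by
  by_contra hp
  have htop : idl Z ≠ ⊤ := by
    intro h
    obtain ⟨V, hV⟩ := hi.nonempty
    obtain ⟨A, hA⟩ := exists_mat V
    have h1 : (1 : Rg ℂ n) ∈ idl Z := by rw [h]; trivial
    have h2 := mem_idl.1 h1 A (mem_cone.2 ⟨V, hV, hA⟩)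
    rw [map_one] at h2
    exact one_ne_zero h2
  obtain ⟨f, g, a, b, a', b', hf, hg, hfJ, hgJ, hfg⟩ := exists_of_not_prime (isBi_idl Z) htop hp
  have hcl : ∀ {f : Rg ℂ n} {a b : ℕ}, f ∈ bi ℂ n a b → IsClosed (loc (Ideal.span {f})) :=
    fun hf => isClosed_loc (isBi_span hf)
  have hsub : Z ⊆ loc (Ideal.span {f}) ∪ loc (Ideal.span {g}) := by
    intro V hV
    obtain ⟨A, hA⟩ := exists_mat V
    -- polynomials in the entries of the `2 × 2` matrix
    let gen : Fin 2 × Fin n → MvPolynomial (Fin 2 × Fin 2) ℂ :=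
      fun p => ∑ r, X (p.1, r) * C (A (r, p.2))
    have hgen : ∀ (c : Fin 2 × Fin 2 → ℂ) (q : Rg ℂ n), eval c (aeval gen q) =
        eval (gAct (Matrix.of fun r r' => c (r, r')) A) q := by
      intro c q
      rw [eval_aeval']
      congr 2
      funext p
      simp [gen, gAct]
    let D : MvPolynomial (Fin 2 × Fin 2) ℂ := X (0, 0) * X (1, 1) - X (0, 1) * X (1, 0)
    have hD : ∀ c : Fin 2 × Fin 2 → ℂ, eval c D = (Matrix.of fun r r' => c (r, r')).det := by
      intro c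
      simp [D, Matrix.det_fin_two]
    have h0 : aeval gen f * aeval gen g * D = 0 := by
      refine MvPolynomial.funext fun c => ?_
      rw [map_mul, map_mul, hgen, hgen, hD, map_zero]
      by_cases hd : (Matrix.of fun r r' => c (r, r')).det = 0
      · rw [hd, mul_zero]
      · rw [← map_mul, mem_idl.1 hfg _ (mem_cone.2 ⟨V, hV, (span_act hd A).trans hA⟩), zero_mul]
    have hD0 : D ≠ 0 := by
      intro h
      have h1 := hD (fun p => if p.1 = p.2 then 1 else 0)
      rw [h, map_zero] at h1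
      have h2 : (Matrix.of fun r r' : Fin 2 => (if (r, r').1 = (r, r').2 then (1 : ℂ) else 0)) = 1 := by
        ext r r'
        simp [Matrix.one_apply]
      rw [h2, Matrix.det_one] at h1
      exact zero_ne_one h1
    have hend : ∀ q : Rg ℂ n, aeval gen q = 0 → V ∈ loc (Ideal.span {q}) := by
      intro q hq
      rw [bi_le_span]
      intro B hB
      obtain ⟨h, _, rfl⟩ := exists_act hA hB
      have h1 := hgen (fun p => h p.1 p.2) q
      rw [hq, map_zero] at h1
      exact h1.symm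
    rcases mul_eq_zero.1 ((mul_eq_zero.1 h0).resolve_right hD0) with h | h
    · exact Or.inl (hend f h)
    · exact Or.inr (hend g h)
  rcases (isPreirreducible_iff_isClosed_union_isClosed.1 hi.2) _ _ (hcl hf) (hcl hg) hsub with h | h
  · refine hfJ (mem_idl.2 fun A hA => ?_)
    obtain ⟨V, hV, hAV⟩ := mem_cone.1 hA
    exact bi_le_span.1 (h hV) A hAV
  · refine hgJ (mem_idl.2 fun A hA => ?_)
    obtain ⟨V, hV, hAV⟩ := mem_cone.1 hA
    exact bi_le_span.1 (h hV) A hAV

/-- The form `P` evaluated at the `2 × 2` minors. -/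
noncomputable def pluP (P : MvPolynomial (Fin 2 ↪o Fin n) ℂ) : Rg ℂ n :=
  aeval (fun K : Fin 2 ↪o Fin n => minor ℂ (K 0) (K 1)) P

theorem minor_mem_bi {κ : Type*} [Field κ] (i j : Fin n) : minor κ i j ∈ bi κ n 1 1 := by
  have h0 : ∀ i : Fin n, IsWeightedHomogeneous (wt n) (X (0, i) : Rg κ n) (1, 0) := fun i => by
    have := isWeightedHomogeneous_X κ (wt n) ((0 : Fin 2), i)
    simpa [wt] using this
  have h1 : ∀ i : Fin n, IsWeightedHomogeneous (wt n) (X (1, i) : Rg κ n) (0, 1) := fun i => by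
    have := isWeightedHomogeneous_X κ (wt n) ((1 : Fin 2), i)
    simpa [wt] using this
  exact ((h0 i).mul (h1 j)).sub ((h0 j).mul (h1 i))

theorem pluP_mem_bi {d : ℕ} {P : MvPolynomial (Fin 2 ↪o Fin n) ℂ} (hP : P.IsHomogeneous d) :
    pluP P ∈ bi ℂ n d d := by
  have hw : IsWeightedHomogeneous (fun _ : Fin 2 ↪o Fin n => ((1, 1) : ℕ × ℕ)) P (d, d) := by
    intro c hc
    have h1 : Finsupp.weight (1 : (Fin 2 ↪o Fin n) → ℕ) c = d := hP hc
    rw [Finsupp.weight_eq_sum] at h1 ⊢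
    have h2 : ∑ i, c i = d := by simpa using h1
    refine Prod.ext ?_ ?_
    · rw [Prod.fst_sum]; simpa using h2
    · rw [Prod.snd_sum]; simpa using h2
  exact wh_aeval (fun K => minor_mem_bi _ _) hw

theorem eval_pluP (P : MvPolynomial (Fin 2 ↪o Fin n) ℂ) (A : Fin 2 × Fin n → ℂ) :
    eval A (pluP P) = eval (plu (gRows A)) P := by
  unfold pluP
  rw [eval_aeval']
  congr 2
  funext K
  rw [plu_two]
  simp [minor, gRows]

theorem pluP_mem_idl {d : ℕ} {P : MvPolynomial (Fin 2 ↪o Fin n) ℂ} (hP : P.IsHomogeneous d)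
    (Z : Set (Gr 2 n)) : pluP P ∈ idl Z ↔ Z ⊆ zeros P := by
  rw [mem_idl]
  constructor
  · intro h V hV
    obtain ⟨A, hA⟩ := exists_mat V
    rw [mem_zeros_iff hP hA, ← eval_pluP]
    exact h A (mem_cone.2 ⟨V, hV, hA⟩)
  · intro h A hA
    obtain ⟨V, hV, hAV⟩ := mem_cone.1 hA
    rw [eval_pluP]
    exact (mem_zeros_iff hP hAV).1 (h hV)

theorem der_pluP {r r' : Fin 2} (h : r ≠ r') (P : MvPolynomial (Fin 2 ↪o Fin n) ℂ) :
    der (rowM ℂ n r r') (pluP P) = 0 := by
  unfold pluP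
  induction P using MvPolynomial.induction_on with
  | C a => simp [algHom_C]
  | add p q hp hq => rw [map_add, map_add, hp, hq, add_zero]
  | mul_X p i hp => rw [map_mul, Derivation.leibniz, hp, aeval_X, der_row_minor h, smul_zero,
      smul_zero, add_zero]

/-- The span of a matrix of rank `2` all of whose polynomial relations `idl Z` hold, `Z` closed, is in
`Z`. -/
theorem mem_of_zeros {Z : Set (Gr 2 n)} (hc : IsClosed Z) {A : Fin 2 × Fin n → ℂ}
    (hA : ∀ f ∈ idl Z, eval A f = 0) {V : Gr 2 n}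
    (hV : Submodule.span ℂ (Set.range fun (r : Fin 2) (i : Fin n) => A (r, i)) = V.1) : V ∈ Z := by
  by_contra hVZ
  obtain ⟨d, P, hP, hZP, hVP⟩ := isClosed_iff.1 hc V hVZ
  refine hVP ((mem_zeros_iff hP (A := gRows A) hV).2 ?_)
  rw [← eval_pluP]
  exact hA _ ((pluP_mem_idl hP Z).2 hZP)

/-- Every row stable bihomogeneous prime which does not contain all minors is the ideal of an
irreducible closed subset. -/
theorem exists_of_prime {𝔮 : Ideal (Rg ℂ n)} (hq : 𝔮.IsPrime) (hb : IsBi 𝔮) (hr : RowStab 𝔮)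
    (hm : ∃ i j : Fin n, minor ℂ i j ∉ 𝔮) :
    ∃ Z : Set (Gr 2 n), IsClosed Z ∧ IsIrreducible Z ∧ idl Z = 𝔮 := by
  obtain ⟨i, j, hij⟩ := hm
  have hidl : idl (loc 𝔮) = 𝔮 := by
    refine le_antisymm ?_ ?_
    · intro f hf
      have h1 : f * minor ℂ i j ∈ vanishingIdeal ℂ (zeroLocus ℂ 𝔮) := by
        rw [mem_vanishingIdeal_iff]
        intro A hA
        have hA' : ∀ f ∈ 𝔮, eval A f = 0 := fun f hf => by
          simpa [aeval_eq_eval] using hA f hf
        rw [aeval_eq_eval]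
        show eval A (f * minor ℂ i j) = 0
        rw [map_mul]
        by_cases hmA : eval A (minor ℂ i j) = 0
        · rw [hmA, mul_zero]
        · have hli : LinearIndependent ℂ (gRows A) := by
            by_contra hcon
            apply hmA
            have h2 := eval_plC (gRows A) i j
            rw [plu_eq_zero hcon] at h2
            have h3 : eval (0 : (Fin 2 ↪o Fin n) → ℂ) (plC i j) = 0 := by
              unfold plC
              split_ifs <;> simp
            rw [h3] at h2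
            simpa [minor, gRows] using h2.symm
          have h4 : ofBasis (gRows A) hli ∈ loc 𝔮 := by
            intro B hB
            obtain ⟨g, hg, rfl⟩ := exists_act (V := ofBasis (gRows A) hli) (A := A) rfl hB
            exact eval_row hb hr hA' g hg
          rw [mem_idl.1 hf A (mem_cone.2 ⟨_, h4, rfl⟩), zero_mul]
      rw [IsPrime.vanishingIdeal_zeroLocus (K := ℂ) 𝔮 (h := hq)] at h1
      exact (hq.mem_or_mem h1).resolve_right hij
    · intro f hf
      refine mem_idl.2 fun A hA => ?_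
      obtain ⟨V, hV, hAV⟩ := mem_cone.1 hA
      exact hV A hAV f hf
  have hne : (loc 𝔮).Nonempty := by
    rw [Set.nonempty_iff_ne_empty]
    intro h
    apply hq.ne_top
    rw [← hidl, Ideal.eq_top_iff_one, mem_idl]
    rintro A ⟨V, hV, _⟩
    rw [h] at hV
    exact absurd hV (Set.notMem_empty V)
  refine ⟨loc 𝔮, isClosed_loc hb, ?_, hidl⟩
  refine isIrreducible_of hne ?_
  intro d e P Q hP hQ hZP hZQ
  rw [← pluP_mem_idl hP, hidl] at hZP
  rw [← pluP_mem_idl hQ, hidl] at hZQ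
  have h1 : pluP P * pluP Q ∉ idl (loc 𝔮) := by
    rw [hidl]
    intro h
    rcases hq.mem_or_mem h with h | h
    · exact hZP h
    · exact hZQ h
  rw [mem_idl] at h1
  push Not at h1
  obtain ⟨A, hA, hne'⟩ := h1
  obtain ⟨V, hV, hAV⟩ := mem_cone.1 hA
  rw [map_mul, eval_pluP, eval_pluP] at hne'
  refine ⟨V, hV, ?_, ?_⟩
  · rw [mem_zeros_iff hP hAV]; exact left_ne_zero_of_mul hne'
  · rw [mem_zeros_iff hQ hAV]; exact right_ne_zero_of_mul hne'

theorem subset_of_idl_le {Z X : Set (Gr 2 n)} (hX : IsClosed X) (h : idl X ≤ idl Z) : Z ⊆ X := by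
  intro V hV
  obtain ⟨A, hA⟩ := exists_mat V
  exact mem_of_zeros hX (fun f hf => mem_idl.1 (h hf) A (mem_cone.2 ⟨V, hV, hA⟩)) hA

/-- The substitution given by a matrix of column operations. -/
noncomputable def subN (N : Matrix (Fin n) (Fin n) ℂ) : Rg ℂ n →ₐ[ℂ] Rg ℂ n :=
  aeval (fun p : Fin 2 × Fin n => ∑ j, C (N p.2 j) * X (p.1, j))

/-- Column operations on matrices. -/
def actN (N : Matrix (Fin n) (Fin n) ℂ) (A : Fin 2 × Fin n → ℂ) : Fin 2 × Fin n → ℂ :=
  fun p => ∑ j, N p.2 j * A (p.1, j)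

theorem eval_subN (N : Matrix (Fin n) (Fin n) ℂ) (A : Fin 2 × Fin n → ℂ) (f : Rg ℂ n) :
    eval A (subN N f) = eval (actN N A) f := by
  unfold subN
  rw [eval_aeval']
  congr 2
  funext p
  simp [actN]

theorem actN_actN (N N' : Matrix (Fin n) (Fin n) ℂ) (A : Fin 2 × Fin n → ℂ) :
    actN N (actN N' A) = actN (N * N') A := by
  funext p
  have := congrFun (Matrix.mulVec_mulVec (fun k => A (p.1, k)) N N') p.2
  exact this

theorem actN_one (A : Fin 2 × Fin n → ℂ) : actN 1 A = A := by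
  funext p
  simp [actN, Matrix.one_apply]

theorem span_actN (N : Matrix (Fin n) (Fin n) ℂ) (A : Fin 2 × Fin n → ℂ) :
    Submodule.span ℂ (Set.range (gRows (actN N A))) =
      (Submodule.span ℂ (Set.range (gRows A))).map (Matrix.toLin' N) := by
  rw [Submodule.map_span, ← Set.range_comp]
  rfl

theorem actN_act (N : Matrix (Fin n) (Fin n) ℂ) (h : Matrix (Fin 2) (Fin 2) ℂ)
    (A : Fin 2 × Fin n → ℂ) : actN N (gAct h A) = gAct h (actN N A) := by
  funext p
  simp only [actN, gAct, Finset.mul_sum]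
  rw [Finset.sum_comm]
  refine Finset.sum_congr rfl fun r _ => Finset.sum_congr rfl fun j _ => ?_
  ring

theorem subN_subN {N N' : Matrix (Fin n) (Fin n) ℂ} (h : N' * N = 1) (f : Rg ℂ n) :
    subN N (subN N' f) = f := by
  refine MvPolynomial.funext fun A => ?_
  rw [eval_subN, eval_subN, actN_actN, h, actN_one]

theorem subN_mem_bi (N : Matrix (Fin n) (Fin n) ℂ) {s t : ℕ} {f : Rg ℂ n} (hf : f ∈ bi ℂ n s t) :
    subN N f ∈ bi ℂ n s t := by
  refine wh_aeval (fun p => ?_) hf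
  refine IsWeightedHomogeneous.sum _ _ _ fun j _ => ?_
  exact (isWeightedHomogeneous_X ℂ (wt n) (p.1, j)).C_mul _

/-- The translate of a closed irreducible set by `GL_n` which contains a prescribed point. -/
theorem exists_translate {Y : Set (Gr 2 n)} (hc : IsClosed Y) (hi : IsIrreducible Y) (V : Gr 2 n) :
    ∃ Y' : Set (Gr 2 n), IsClosed Y' ∧ IsIrreducible Y' ∧ V ∈ Y' ∧ ∀ s t, hil Y' s t = hil Y s t := by
  obtain ⟨W, hW⟩ := hi.nonempty
  obtain ⟨A, hA⟩ := exists_mat W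
  let f : W.1 ≃ₗ[ℂ] V.1 := LinearEquiv.ofFinrankEq _ _ (W.2.trans V.2.symm)
  obtain ⟨g, hg⟩ := Submodule.exists_linearEquiv_restrict_eq f
  set N := LinearMap.toMatrix' (g : (Fin n → ℂ) →ₗ[ℂ] (Fin n → ℂ)) with hN
  set N' := LinearMap.toMatrix' (g.symm : (Fin n → ℂ) →ₗ[ℂ] (Fin n → ℂ)) with hN'
  have h1 : N * N' = 1 := by
    rw [hN, hN', ← LinearMap.toMatrix'_comp]
    simp
  have h2 : N' * N = 1 := by
    rw [hN, hN', ← LinearMap.toMatrix'_comp]
    simp
  have hWV : W.1.map (Matrix.toLin' N) = V.1 := by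
    rw [hN, Matrix.toLin'_toMatrix']
    ext x
    constructor
    · rintro ⟨y, hy, rfl⟩
      show g y ∈ V.1
      rw [← hg ⟨y, hy⟩]
      exact (f ⟨y, hy⟩).2
    · intro hx
      refine ⟨f.symm ⟨x, hx⟩, (f.symm ⟨x, hx⟩).2, ?_⟩
      have h3 := hg (f.symm ⟨x, hx⟩)
      rw [f.apply_symm_apply] at h3
      exact h3.symm
  let S : Set (Fin 2 × Fin n → ℂ) := {A | actN N' A ∈ cone Y}
  let 𝔮 : Ideal (Rg ℂ n) := (idl Y).comap (subN N)
  have hq : ∀ f, f ∈ 𝔮 ↔ ∀ A ∈ S, eval A f = 0 := by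
    intro f
    show subN N f ∈ idl Y ↔ _
    rw [mem_idl]
    constructor
    · intro h A hA
      have := h _ hA
      rwa [eval_subN, actN_actN, h1, actN_one] at this
    · intro h A hA
      rw [eval_subN]
      apply h
      show actN N' (actN N A) ∈ cone Y
      rwa [actN_actN, h2, actN_one]
  have hSact : ∀ A ∈ S, ∀ h : Matrix (Fin 2) (Fin 2) ℂ, h.det ≠ 0 → gAct h A ∈ S := by
    intro A hA h hd
    show actN N' (gAct h A) ∈ cone Y
    rw [actN_act]
    exact act_mem_cone hA hd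
  have hB : actN N A ∈ S := by
    show actN N' (actN N A) ∈ cone Y
    rw [actN_actN, h2, actN_one]
    exact mem_cone.2 ⟨W, hW, hA⟩
  have hBV : Submodule.span ℂ (Set.range (gRows (actN N A))) = V.1 := by
    rw [span_actN, hA, hWV]
  obtain ⟨K, hK⟩ := exists_plu_ne_zero (linearIndependent_of_span V _ hBV)
  have hp : (idl Y).IsPrime := isPrime_idl hc hi
  have hqp : 𝔮.IsPrime := Ideal.comap_isPrime (subN N) (idl Y)
  obtain ⟨Y', hY'c, hY'i, hY'⟩ := exists_of_prime hqp (isBi_of_act hSact hq)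
    (rowStab_of_act hSact hq) ⟨K 0, K 1, fun h => by
      have h3 := (hq _).1 h _ hB
      apply hK
      rw [plu_two]
      simpa [minor, gRows] using h3⟩
  refine ⟨Y', hY'c, hY'i, mem_of_zeros hY'c (A := actN N A) (fun f hf => ?_) hBV, ?_⟩
  · rw [hY'] at hf
    exact (hq f).1 hf _ hB
  · intro s t
    rw [hil_eq, hil_eq, hY']
    let e : bi ℂ n s t ≃ₗ[ℂ] bi ℂ n s t := LinearEquiv.ofLinearMap
      ((subN N).toLinearMap.restrict fun x hx => subN_mem_bi N hx)
      ((subN N').toLinearMap.restrict fun x hx => subN_mem_bi N' hx)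
      (by
        ext x
        show ((subN N (subN N' x.1) : Rg ℂ n)).coeff _ = _
        rw [subN_subN h2]
        rfl)
      (by
        ext x
        show ((subN N' (subN N x.1) : Rg ℂ n)).coeff _ = _
        rw [subN_subN h1]
        rfl)
    refine LinearEquiv.finrank_eq (Submodule.Quotient.equiv (part 𝔮 s t) (part (idl Y) s t) e ?_)
    ext x
    constructor
    · rintro ⟨y, hy, rfl⟩
      exact hy
    · intro hx
      refine ⟨e.symm x, ?_, e.apply_symm_apply x⟩
      show subN N ((e.symm x : bi ℂ n s t) : Rg ℂ n) ∈ idl Y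
      have h3 : subN N ((e.symm x : bi ℂ n s t) : Rg ℂ n) = x.1 :=
        congrArg Subtype.val (e.apply_symm_apply x)
      rw [h3]
      exact hx

end Pool.Agent.GrUp
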