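import Pool.Agent.GrUp.Base

/-!
# Hilbert functions of bihomogeneous ideals (module B)
-/

namespace Pool.Agent.GrUp

open MvPolynomial

variable {κ : Type*} [Field κ] {n : ℕ}

theorem weight_wt (d : Fin 2 × Fin n →₀ ℕ) :
    Finsupp.weight (wt n) d = (∑ i, d (0, i), ∑ i, d (1, i)) := by
  rw [Finsupp.weight_apply, Finsupp.sum_fintype _ _ (fun i => zero_smul ℕ (wt n i)),
    Fintype.sum_prod_type, Fin.sum_univ_two]
  have h1 : ∀ i : Fin n, wt n ((1 : Fin 2), i) = (0, 1) := fun i => if_neg (by simp)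
  have h0 : ∀ i : Fin n, wt n ((0 : Fin 2), i) = (1, 0) := fun i => if_pos rfl
  simp only [h0, h1]
  ext
  · simp [Prod.fst_sum]
  · simp [Prod.snd_sum]

/-- exponent of the monomial with given exponents in the two rows -/
noncomputable def rows : (Fin 2 × Fin n →₀ ℕ) ≃ (Fin n →₀ ℕ) × (Fin n →₀ ℕ) where
  toFun d := (Finsupp.equivFunOnFinite.symm fun i => d (0, i),
    Finsupp.equivFunOnFinite.symm fun i => d (1, i))
  invFun p := Finsupp.equivFunOnFinite.symm fun q => if q.1 = 0 then p.1 q.2 else p.2 q.2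
  left_inv d := by
    ext ⟨r, i⟩
    fin_cases r <;> simp
  right_inv p := by
    ext i <;> simp

theorem weight_rows_symm (p : (Fin n →₀ ℕ) × (Fin n →₀ ℕ)) :
    Finsupp.weight (wt n) (rows.symm p) = (∑ i, p.1 i, ∑ i, p.2 i) := by
  rw [weight_wt]
  simp [rows]

/-- the exponents of bidegree `(s,t)` -/
noncomputable def expoEquiv (n s t : ℕ) : {d : Fin 2 × Fin n →₀ ℕ | Finsupp.weight (wt n) d = (s, t)} ≃
    (Finset.finsuppAntidiag (Finset.univ : Finset (Fin n)) s) ×
      (Finset.finsuppAntidiag (Finset.univ : Finset (Fin n)) t) where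
  toFun d := (⟨(rows d.1).1, by
      have h := congrArg Prod.fst (d.2 : Finsupp.weight (wt n) d.1 = (s, t))
      rw [weight_wt] at h
      rw [Finset.mem_finsuppAntidiag]
      exact ⟨h, Finset.subset_univ _⟩⟩, ⟨(rows d.1).2, by
      have h := congrArg Prod.snd (d.2 : Finsupp.weight (wt n) d.1 = (s, t))
      rw [weight_wt] at h
      rw [Finset.mem_finsuppAntidiag]
      exact ⟨h, Finset.subset_univ _⟩⟩)
  invFun p := ⟨rows.symm (p.1.1, p.2.1), by
    show Finsupp.weight (wt n) _ = _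
    rw [weight_rows_symm]
    have h1 := (Finset.mem_finsuppAntidiag.1 p.1.2).1
    have h2 := (Finset.mem_finsuppAntidiag.1 p.2.2).1
    exact Prod.ext h1 h2⟩
  left_inv d := by
    apply Subtype.ext
    show rows.symm (rows d.1) = d.1
    exact rows.symm_apply_apply _
  right_inv p := by
    have h : rows (rows.symm (p.1.1, p.2.1)) = (p.1.1, p.2.1) := rows.apply_symm_apply _
    apply Prod.ext
    · apply Subtype.ext
      exact congrArg Prod.fst h
    · apply Subtype.ext
      exact congrArg Prod.snd h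

theorem bi_eq (n s t : ℕ) : bi κ n s t =
    restrictSupport κ {d : Fin 2 × Fin n →₀ ℕ | Finsupp.weight (wt n) d = (s, t)} :=
  weightedHomogeneousSubmodule_eq_finsupp_supported κ (wt n) (s, t)

instance finite_bi (n s t : ℕ) : Module.Finite κ (bi κ n s t) := by
  rw [bi_eq]
  have : Finite {d : Fin 2 × Fin n →₀ ℕ | Finsupp.weight (wt n) d = (s, t)} :=
    Finite.of_equiv _ (expoEquiv n s t).symm
  exact Module.Finite.of_basis (basisRestrictSupport κ _)

theorem card_antidiag (hn : 1 ≤ n) (s : ℕ) :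
    (Finset.finsuppAntidiag (Finset.univ : Finset (Fin n)) s).card = (s + n - 1).choose (n - 1) := by
  rw [Finset.card_finsuppAntidiag_nat_eq_choose, Finset.card_univ, Fintype.card_fin,
    add_comm n s]
  exact (Nat.choose_symm_of_eq_add (by omega))

theorem finrank_bi (hn : 1 ≤ n) (s t : ℕ) : Module.finrank κ (bi κ n s t) =
    (s + n - 1).choose (n - 1) * (t + n - 1).choose (n - 1) := by
  rw [bi_eq]
  have : Fintype {d : Fin 2 × Fin n →₀ ℕ | Finsupp.weight (wt n) d = (s, t)} :=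
    Fintype.ofEquiv _ (expoEquiv n s t).symm
  rw [Module.finrank_eq_card_basis (basisRestrictSupport κ _),
    Fintype.card_congr (expoEquiv n s t), Fintype.card_prod, Fintype.card_coe, Fintype.card_coe,
    card_antidiag hn, card_antidiag hn]

theorem HF_eq (J : Ideal (Rg κ n)) (s t : ℕ) :
    HF J s t + Module.finrank κ (part J s t) = Module.finrank κ (bi κ n s t) :=
  Submodule.finrank_quotient_add_finrank _

theorem part_mono {J J' : Ideal (Rg κ n)} (h : J ≤ J') (s t : ℕ) : part J s t ≤ part J' s t :=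
  Submodule.comap_mono (fun _ hx => h hx)

theorem HF_mono {J J' : Ideal (Rg κ n)} (h : J ≤ J') (s t : ℕ) : HF J' s t ≤ HF J s t := by
  have h1 := HF_eq J s t
  have h2 := HF_eq J' s t
  have h3 := Submodule.finrank_mono (part_mono h s t)
  omega

theorem HF_le (J : Ideal (Rg κ n)) (hn : 1 ≤ n) (s t : ℕ) :
    HF J s t ≤ (s + n - 1).choose (n - 1) * (t + n - 1).choose (n - 1) := by
  have h1 := HF_eq J s t
  rw [finrank_bi hn] at h1
  omega

theorem HF_bot (hn : 1 ≤ n) (s t : ℕ) :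
    HF (⊥ : Ideal (Rg κ n)) s t = (s + n - 1).choose (n - 1) * (t + n - 1).choose (n - 1) := by
  have h1 := HF_eq (⊥ : Ideal (Rg κ n)) s t
  have h2 : part (⊥ : Ideal (Rg κ n)) s t = ⊥ := by
    rw [eq_bot_iff]
    intro x hx
    have h3 : (x : Rg κ n) ∈ (⊥ : Ideal (Rg κ n)) := hx
    rw [Submodule.mem_bot] at h3 ⊢
    exact Subtype.ext h3
  rw [h2, finrank_bot, finrank_bi hn] at h1
  omega

/-! ### the grading -/

/-- the weights with the lexicographic order -/
def wl (n : ℕ) : Fin 2 × Fin n → ℕ ×ₗ ℕ := fun p => toLex (wt n p)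

theorem weight_wl (d : Fin 2 × Fin n →₀ ℕ) :
    Finsupp.weight (wl n) d = toLex (Finsupp.weight (wt n) d) := by
  rw [Finsupp.weight_apply, Finsupp.weight_apply, Finsupp.sum, Finsupp.sum]
  have : ∀ s : Finset (Fin 2 × Fin n), ∑ a ∈ s, d a • wl n a = toLex (∑ a ∈ s, d a • wt n a) := by
    intro s
    induction s using Finset.induction_on with
    | empty => simp
    | insert a s ha ih => rw [Finset.sum_insert ha, Finset.sum_insert ha, ih]; rfl
  exact this _

theorem comp_wl (m : ℕ × ℕ) (f : Rg κ n) :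
    weightedHomogeneousComponent (wl n) (toLex m) f = weightedHomogeneousComponent (wt n) m f := by
  classical
  ext d
  rw [coeff_weightedHomogeneousComponent, coeff_weightedHomogeneousComponent, weight_wl]
  simp only [EmbeddingLike.apply_eq_iff_eq]

theorem bi_wl (s t : ℕ) : bi κ n s t = weightedHomogeneousSubmodule κ (wl n) (toLex (s, t)) := by
  ext f
  show (∀ ⦃d⦄, coeff d f ≠ 0 → Finsupp.weight (wt n) d = (s, t)) ↔
    (∀ ⦃d⦄, coeff d f ≠ 0 → Finsupp.weight (wl n) d = toLex (s, t))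
  simp only [weight_wl, EmbeddingLike.apply_eq_iff_eq]

noncomputable local instance gradedAlg : GradedAlgebra (weightedHomogeneousSubmodule κ (wl n)) :=
  weightedGradedAlgebra κ (wl n)

theorem isBi_iff (J : Ideal (Rg κ n)) :
    IsBi J ↔ J.IsHomogeneous (weightedHomogeneousSubmodule κ (wl n)) := by
  constructor
  · intro h m f hf
    have h1 := h f hf (ofLex m)
    rw [← comp_wl] at h1
    have h2 := weightedDecomposition.decompose'_apply κ (wl n) f m
    show ((weightedDecomposition κ (wl n)).decompose' f m : Rg κ n) ∈ J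
    rw [h2]
    exact h1
  · intro h f hf m
    rw [← comp_wl]
    exact weightedHomogeneousComponent_mem_of_mem κ (wl n) h hf (toLex m)

theorem isHomogeneousElem_iff (f : Rg κ n) :
    SetLike.IsHomogeneousElem (weightedHomogeneousSubmodule κ (wl n)) f ↔ ∃ s t, f ∈ bi κ n s t := by
  constructor
  · rintro ⟨m, hm⟩
    refine ⟨(ofLex m).1, (ofLex m).2, ?_⟩
    rw [bi_wl]
    exact hm
  · rintro ⟨s, t, h⟩
    rw [bi_wl] at h
    exact ⟨_, h⟩

theorem isBi_sup {J J' : Ideal (Rg κ n)} (h : IsBi J) (h' : IsBi J') : IsBi (J ⊔ J') := by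
  rw [isBi_iff] at h h' ⊢
  exact h.sup h'

theorem isBi_span {f : Rg κ n} {a b : ℕ} (hf : f ∈ bi κ n a b) : IsBi (Ideal.span {f}) := by
  rw [isBi_iff]
  apply Ideal.homogeneous_span
  rintro _ rfl
  exact (isHomogeneousElem_iff _).2 ⟨a, b, hf⟩

theorem mul_mem_bi {f g : Rg κ n} {a b s t : ℕ} (hf : f ∈ bi κ n s t) (hg : g ∈ bi κ n a b) :
    f * g ∈ bi κ n (s + a) (t + b) := by
  have h : (f * g).IsWeightedHomogeneous (wt n) ((s, t) + (a, b)) :=
    IsWeightedHomogeneous.mul hf hg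
  exact h

theorem comp_mem_bi (f : Rg κ n) (m : ℕ × ℕ) :
    weightedHomogeneousComponent (wt n) m f ∈ bi κ n m.1 m.2 :=
  weightedHomogeneousComponent_mem (wt n) f m

theorem comp_mul (g : Rg κ n) {f : Rg κ n} {a b : ℕ} (hf : f ∈ bi κ n a b) (m : ℕ × ℕ) :
    weightedHomogeneousComponent (wt n) (m + (a, b)) (g * f) =
      weightedHomogeneousComponent (wt n) m g * f := by
  classical
  have hfin := weightedHomogeneousComponent_finsupp (w := wt n) g
  have h1 : g = ∑ i ∈ hfin.toFinset, weightedHomogeneousComponent (wt n) i g := by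
    conv_lhs => rw [← sum_weightedHomogeneousComponent (wt n) g]
    exact finsum_eq_sum _ hfin
  have h2 : ∀ i, weightedHomogeneousComponent (wt n) (m + (a, b))
      (weightedHomogeneousComponent (wt n) i g * f) =
      if i = m then weightedHomogeneousComponent (wt n) i g * f else 0 := by
    intro i
    have h3 : weightedHomogeneousComponent (wt n) i g * f ∈
        weightedHomogeneousSubmodule κ (wt n) (i + (a, b)) :=
      IsWeightedHomogeneous.mul (weightedHomogeneousComponent_isWeightedHomogeneous i g) hf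
    rw [weightedHomogeneousComponent_of_mem h3]
    simp only [add_left_inj, eq_comm]
  conv_lhs => rw [h1, Finset.sum_mul, map_sum]
  simp only [h2]
  rw [Finset.sum_ite_eq']
  split_ifs with h
  · rfl
  · have h0 : weightedHomogeneousComponent (wt n) m g = 0 := by
      by_contra h0
      exact h (hfin.mem_toFinset.2 h0)
    rw [h0, zero_mul]

/-- The colon ideal. -/
def colon (J : Ideal (Rg κ n)) (f : Rg κ n) : Ideal (Rg κ n) where
  carrier := {g | g * f ∈ J}
  add_mem' := fun {a b} ha hb => by simpa [add_mul] using J.add_mem ha hb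
  zero_mem' := by simp
  smul_mem' := fun c x hx => by simpa [mul_assoc] using J.mul_mem_left c hx

theorem mem_colon {J : Ideal (Rg κ n)} {f g : Rg κ n} : g ∈ colon J f ↔ g * f ∈ J := Iff.rfl

theorem le_colon (J : Ideal (Rg κ n)) (f : Rg κ n) : J ≤ colon J f := fun _ hg =>
  J.mul_mem_right _ hg

theorem isBi_colon {J : Ideal (Rg κ n)} (h : IsBi J) {f : Rg κ n} {a b : ℕ} (hf : f ∈ bi κ n a b) :
    IsBi (colon J f) := by
  intro g hg m
  rw [mem_colon, ← comp_mul g hf m]
  exact h _ hg _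

/-- multiplication by `f` -/
noncomputable def mulF {f : Rg κ n} {a b : ℕ} (hf : f ∈ bi κ n a b) (s t : ℕ) :
    bi κ n s t →ₗ[κ] bi κ n (s + a) (t + b) where
  toFun g := ⟨g.1 * f, mul_mem_bi g.2 hf⟩
  map_add' _ _ := Subtype.ext (add_mul _ _ _)
  map_smul' _ _ := Subtype.ext (smul_mul_assoc _ _ _)

theorem part_sup_span {J : Ideal (Rg κ n)} (h : IsBi J) {f : Rg κ n} {a b : ℕ}
    (hf : f ∈ bi κ n a b) (s t : ℕ) : part (J ⊔ Ideal.span {f}) (s + a) (t + b) =
      part J (s + a) (t + b) ⊔ LinearMap.range (mulF hf s t) := by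
  apply le_antisymm
  · rintro ⟨x, hx⟩ hxJ
    have hxJ' : x ∈ J ⊔ Ideal.span {f} := hxJ
    obtain ⟨j, hj, z, hz, hjz⟩ := Submodule.mem_sup.1 hxJ'
    obtain ⟨g, rfl⟩ := Ideal.mem_span_singleton'.1 hz
    have h1 : weightedHomogeneousComponent (wt n) ((s, t) + (a, b)) x = x :=
      weightedHomogeneousComponent_eq_self hx
    rw [← hjz, map_add, comp_mul g hf (s, t)] at h1
    have h2 := h j hj ((s, t) + (a, b))
    refine Submodule.mem_sup.2 ⟨⟨_, comp_mem_bi j ((s, t) + (a, b))⟩, h2,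
      mulF hf s t ⟨_, comp_mem_bi g (s, t)⟩, ⟨_, rfl⟩, ?_⟩
    apply Subtype.ext
    show weightedHomogeneousComponent (wt n) ((s, t) + (a, b)) j +
      weightedHomogeneousComponent (wt n) (s, t) g * f = x
    rw [h1, hjz]
  · refine sup_le (part_mono le_sup_left _ _) ?_
    rintro _ ⟨g, rfl⟩
    show (g.1 * f) ∈ J ⊔ Ideal.span {f}
    exact Ideal.mem_sup_right (Ideal.mul_mem_left _ _ (Ideal.mem_span_singleton_self f))

theorem HF_add {J : Ideal (Rg κ n)} (h : IsBi J) {f : Rg κ n} {a b : ℕ} (hf : f ∈ bi κ n a b)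
    (s t : ℕ) : HF J (s + a) (t + b) = HF (colon J f) s t + HF (J ⊔ Ideal.span {f}) (s + a) (t + b) := by
  let S := part J (s + a) (t + b)
  let T := part (J ⊔ Ideal.span {f}) (s + a) (t + b)
  let ψ : bi κ n s t →ₗ[κ] (bi κ n (s + a) (t + b) ⧸ S) := S.mkQ ∘ₗ mulF hf s t
  have hker : LinearMap.ker ψ = part (colon J f) s t := by
    ext g
    rw [LinearMap.mem_ker]
    show S.mkQ (mulF hf s t g) = 0 ↔ g.1 * f ∈ J
    rw [Submodule.mkQ_apply, Submodule.Quotient.mk_eq_zero]
    rfl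
  have hrange : Submodule.map S.mkQ T = LinearMap.range ψ := by
    show Submodule.map S.mkQ (part (J ⊔ Ideal.span {f}) (s + a) (t + b)) = _
    rw [part_sup_span h hf, Submodule.map_sup, Submodule.mkQ_map_self, bot_sup_eq,
      LinearMap.range_comp]
  have h1 : Module.finrank κ (bi κ n s t ⧸ LinearMap.ker ψ) = Module.finrank κ (LinearMap.range ψ) :=
    (LinearMap.quotKerEquivRange ψ).finrank_eq
  rw [hker] at h1
  have h2 : Module.finrank κ ((bi κ n (s + a) (t + b) ⧸ S) ⧸ LinearMap.range ψ) +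
      Module.finrank κ (LinearMap.range ψ) = Module.finrank κ (bi κ n (s + a) (t + b) ⧸ S) :=
    Submodule.finrank_quotient_add_finrank _
  rw [← hrange] at h2
  have h3 := (Submodule.quotientQuotientEquivQuotient S T (part_mono le_sup_left _ _)).finrank_eq
  rw [h3, hrange, ← h1] at h2
  show Module.finrank κ (bi κ n (s + a) (t + b) ⧸ S) = Module.finrank κ (bi κ n s t ⧸ part (colon J f) s t)
    + Module.finrank κ (bi κ n (s + a) (t + b) ⧸ T)
  omega

/-- A proper bihomogeneous ideal which is not prime has bihomogeneous zero divisors. -/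
theorem exists_of_not_prime {J : Ideal (Rg κ n)} (h : IsBi J) (hJ : J ≠ ⊤) (hp : ¬ J.IsPrime) :
    ∃ (f g : Rg κ n) (a b a' b' : ℕ), f ∈ bi κ n a b ∧ g ∈ bi κ n a' b' ∧ f ∉ J ∧ g ∉ J ∧ f * g ∈ J := by
  by_contra hcon
  push Not at hcon
  apply hp
  refine ((isBi_iff J).1 h).isPrime_of_homogeneous_mem_or_mem hJ ?_
  intro x y hx hy hxy
  obtain ⟨a, b, hx⟩ := (isHomogeneousElem_iff x).1 hx
  obtain ⟨a', b', hy⟩ := (isHomogeneousElem_iff y).1 hy
  by_contra hxy'
  push Not at hxy'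
  exact hcon x y a b a' b' hx hy hxy'.1 hxy'.2 hxy

/-! ### Hilbert functions are eventually polynomials -/

theorem HF_eq_zero {J : Ideal (Rg κ n)} {s t : ℕ} (h : ∀ f ∈ bi κ n s t, f ∈ J) : HF J s t = 0 := by
  have h1 := HF_eq J s t
  have h2 : part J s t = ⊤ := by
    rw [eq_top_iff]
    intro f _
    exact h f.1 f.2
  rw [h2, finrank_top] at h1
  omega

theorem HF_top (s t : ℕ) : HF (⊤ : Ideal (Rg κ n)) s t = 0 :=
  HF_eq_zero fun _ _ => Submodule.mem_top

theorem BP.of_eventually_zero {F : ℕ → ℕ → ℤ} (D n₀ : ℕ)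
    (h : ∀ s t, n₀ ≤ s → n₀ ≤ t → F s t = 0) : BP F D 0 :=
  (BP.zero D).congr n₀ fun s t hs ht => (h s t hs ht).symm

theorem monomial_mem {J : Ideal (Rg κ n)} {p : Fin 2 × Fin n} (hp : X p ∈ J)
    {d : Fin 2 × Fin n →₀ ℕ} (hd : d p ≠ 0) (c : κ) : monomial d c ∈ J := by
  have h0 : d - Finsupp.single p 1 + Finsupp.single p 1 = d := by
    ext q
    by_cases hq : p = q
    · subst hq
      simp only [Finsupp.add_apply, Finsupp.tsub_apply, Finsupp.single_eq_same]
      omega
    · simp [hq]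
  have h1 : monomial d c = monomial (d - Finsupp.single p 1) c * X p := by
    rw [X, monomial_mul, mul_one, h0]
  rw [h1]
  exact J.mul_mem_left _ hp

theorem mem_of_row {J : Ideal (Rg κ n)} (r : Fin 2) (hJ : ∀ i : Fin n, X (r, i) ∈ J) {f : Rg κ n}
    (hf : ∀ d ∈ f.support, ∑ i, d (r, i) ≠ 0) : f ∈ J := by
  rw [← f.support_sum_monomial_coeff]
  refine J.sum_mem fun d hd => ?_
  obtain ⟨i, -, hi⟩ := Finset.exists_ne_zero_of_sum_ne_zero (hf d hd)
  exact monomial_mem (hJ i) hi _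

theorem weight_of_mem_bi {f : Rg κ n} {s t : ℕ} (hf : f ∈ bi κ n s t) {d : Fin 2 × Fin n →₀ ℕ}
    (hd : d ∈ f.support) : ∑ i, d (0, i) = s ∧ ∑ i, d (1, i) = t := by
  have h : Finsupp.weight (wt n) d = (s, t) := hf (mem_support_iff.1 hd)
  rw [weight_wt] at h
  exact ⟨congrArg Prod.fst h, congrArg Prod.snd h⟩

theorem HF_zero_of_row0 {J : Ideal (Rg κ n)} (hJ : ∀ i : Fin n, X ((0 : Fin 2), i) ∈ J) {s t : ℕ}
    (hs : 1 ≤ s) : HF J s t = 0 :=
  HF_eq_zero fun f hf => mem_of_row 0 hJ fun d hd => by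
    rw [(weight_of_mem_bi hf hd).1]; omega

theorem HF_zero_of_row1 {J : Ideal (Rg κ n)} (hJ : ∀ i : Fin n, X ((1 : Fin 2), i) ∈ J) {s t : ℕ}
    (ht : 1 ≤ t) : HF J s t = 0 :=
  HF_eq_zero fun f hf => mem_of_row 1 hJ fun d hd => by
    rw [(weight_of_mem_bi hf hd).2]; omega

theorem X0_mem_bi (i : Fin n) : (X ((0 : Fin 2), i) : Rg κ n) ∈ bi κ n 1 0 := by
  have h := isWeightedHomogeneous_X κ (wt n) ((0 : Fin 2), i)
  exact h

theorem X1_mem_bi (i : Fin n) : (X ((1 : Fin 2), i) : Rg κ n) ∈ bi κ n 0 1 := by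
  have h := isWeightedHomogeneous_X κ (wt n) ((1 : Fin 2), i)
  have h1 : wt n ((1 : Fin 2), i) = (0, 1) := if_neg (by simp)
  rw [h1] at h
  exact h

theorem lt_sup_span {J : Ideal (Rg κ n)} {f : Rg κ n} (hf : f ∉ J) : J < J ⊔ Ideal.span {f} :=
  lt_of_le_of_ne le_sup_left fun h => hf (by
    rw [h]; exact Ideal.mem_sup_right (Ideal.mem_span_singleton_self f))

theorem isPoly_HF {J : Ideal (Rg κ n)} (h : IsBi J) : IsPoly (fun s t => (HF J s t : ℤ)) := by
  refine IsNoetherian.induction (P := fun J : Ideal (Rg κ n) =>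
    IsBi J → IsPoly (fun s t => (HF J s t : ℤ))) ?_ J h
  clear h J
  intro J ih hJ
  by_cases h0 : ∀ i : Fin n, X ((0 : Fin 2), i) ∈ J
  · exact ⟨0, 0, BP.of_eventually_zero 0 1 fun s t hs _ => by
      rw [HF_zero_of_row0 h0 hs]; rfl⟩
  by_cases h1 : ∀ i : Fin n, X ((1 : Fin 2), i) ∈ J
  · exact ⟨0, 0, BP.of_eventually_zero 0 1 fun s t _ ht => by
      rw [HF_zero_of_row1 h1 ht]; rfl⟩
  push Not at h0 h1
  obtain ⟨i, hi⟩ := h0
  obtain ⟨j, hj⟩ := h1
  have key : ∀ (f : Rg κ n) (a b : ℕ), f ∈ bi κ n a b → f ∉ J →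
      IsPoly (fun s t => (HF J s t : ℤ)) ∨
      IsPoly (fun s t => (HF J (s + a) (t + b) : ℤ) - (HF J s t : ℤ)) := by
    intro f a b hf hfJ
    have h2 := ih _ (lt_sup_span hfJ) (isBi_sup hJ (isBi_span hf))
    have h3 := (IsPoly.shift_iff a b).2 h2
    by_cases hc : colon J f = J
    · right
      refine h3.congr 0 fun s t _ _ => ?_
      have h4 := HF_add hJ hf s t
      rw [hc] at h4
      simp only [h4]
      push_cast
      ring
    · left
      have h4 := ih _ (lt_of_le_of_ne (le_colon J f) (Ne.symm hc)) (isBi_colon hJ hf)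
      rw [← IsPoly.shift_iff a b]
      refine (h4.add h3).congr 0 fun s t _ _ => ?_
      have h5 := HF_add hJ hf s t
      simp only [h5]
      push_cast
      ring
  rcases key _ 1 0 (X0_mem_bi i) hi with h2 | h2
  · exact h2
  rcases key _ 0 1 (X1_mem_bi j) hj with h3 | h3
  · exact h3
  exact IsPoly.of_diff h2 h3

/-- A bihomogeneous ideal above an ideal of degree `≤ D` has degree `≤ D`. -/
theorem BP_of_le {J J' : Ideal (Rg κ n)} (h' : IsBi J') (hle : J ≤ J') {D : ℕ}
    {c : Fin (D + 1) → ℤ} (hc : BP (fun s t => (HF J s t : ℤ)) D c) :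
    ∃ c' : Fin (D + 1) → ℤ, BP (fun s t => (HF J' s t : ℤ)) D c' :=
  IsPoly.bound hc (isPoly_HF h') 0 fun s t _ _ =>
    ⟨Int.natCast_nonneg _, Int.ofNat_le.2 (HF_mono hle s t)⟩

/-- Additivity along a prime filtration. -/
theorem mem_closure_primes {J : Ideal (Rg κ n)} (h : IsBi J) {D : ℕ} {c : Fin (D + 1) → ℤ}
    (hc : BP (fun s t => (HF J s t : ℤ)) D c) :
    c ∈ AddSubmonoid.closure {c' : Fin (D + 1) → ℤ | ∃ 𝔮 : Ideal (Rg κ n), 𝔮.IsPrime ∧ IsBi 𝔮 ∧
      J ≤ 𝔮 ∧ BP (fun s t => (HF 𝔮 s t : ℤ)) D c'} := by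
  refine IsNoetherian.induction (P := fun J : Ideal (Rg κ n) => IsBi J → ∀ c : Fin (D + 1) → ℤ,
    BP (fun s t => (HF J s t : ℤ)) D c → c ∈ AddSubmonoid.closure {c' : Fin (D + 1) → ℤ |
      ∃ 𝔮 : Ideal (Rg κ n), 𝔮.IsPrime ∧ IsBi 𝔮 ∧
      J ≤ 𝔮 ∧ BP (fun s t => (HF 𝔮 s t : ℤ)) D c'}) ?_ J h c hc
  clear hc c h J
  intro J ih hJ c hc
  by_cases hp : Ideal.IsPrime J
  · exact AddSubmonoid.subset_closure ⟨J, hp, hJ, le_refl _, hc⟩
  by_cases htop : J = ⊤
  · subst htop
    have h0 : c = 0 := hc.unique (BP.of_eventually_zero D 0 fun s t _ _ => by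
      rw [HF_top]; rfl)
    rw [h0]
    exact zero_mem _
  obtain ⟨f, g, a, b, a', b', hf, hg, hfJ, hgJ, hfg⟩ := exists_of_not_prime hJ htop hp
  have hlt : J < colon J f := lt_of_le_of_ne (le_colon J f) fun h => hgJ (by
    rw [h, mem_colon, mul_comm]; exact hfg)
  have hlt' := lt_sup_span hfJ
  have hb1 := isBi_colon hJ hf
  have hb2 := isBi_sup hJ (isBi_span hf)
  obtain ⟨c₁, hc₁⟩ := BP_of_le hb1 hlt.le hc
  obtain ⟨c₂, hc₂⟩ := BP_of_le hb2 hlt'.le hc
  have h1 := ih _ hlt hb1 c₁ hc₁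
  have h2 := ih _ hlt' hb2 c₂ hc₂
  have h3 : c = c₁ + c₂ := by
    refine ((BP.shift_iff c a b).2 hc).unique ((hc₁.add ((BP.shift_iff c₂ a b).2 hc₂)).congr 0 ?_)
    intro s t _ _
    have h5 := HF_add hJ hf s t
    simp only [h5]
    push_cast
    ring
  rw [h3]
  refine add_mem ?_ ?_
  · refine AddSubmonoid.closure_mono ?_ h1
    rintro c' ⟨𝔮, h4, h5, h6, h7⟩
    exact ⟨𝔮, h4, h5, hlt.le.trans h6, h7⟩
  · refine AddSubmonoid.closure_mono ?_ h2
    rintro c' ⟨𝔮, h4, h5, h6, h7⟩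
    exact ⟨𝔮, h4, h5, hlt'.le.trans h6, h7⟩

theorem colon_eq_self {𝔮 : Ideal (Rg κ n)} (hq : 𝔮.IsPrime) {f : Rg κ n} (hfq : f ∉ 𝔮) :
    colon 𝔮 f = 𝔮 :=
  le_antisymm (fun _ hg => (hq.mem_or_mem hg).resolve_right hfq) (le_colon 𝔮 f)

theorem HF_sup_span {𝔮 : Ideal (Rg κ n)} (hq : 𝔮.IsPrime) (h : IsBi 𝔮) {f : Rg κ n} {a b : ℕ}
    (hf : f ∈ bi κ n a b) (hfq : f ∉ 𝔮) (s t : ℕ) :
    (HF (𝔮 ⊔ Ideal.span {f}) (s + a) (t + b) : ℤ) = HF 𝔮 (s + a) (t + b) - HF 𝔮 s t := by
  have h1 := HF_add h hf s t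
  rw [colon_eq_self hq hfq] at h1
  rw [h1]
  push_cast
  ring

/-- The Hilbert function of a hypersurface section of an integral scheme. -/
theorem BP_sup_span {𝔮 : Ideal (Rg κ n)} (hq : 𝔮.IsPrime) (h : IsBi 𝔮) {f : Rg κ n} {a b : ℕ}
    (hf : f ∈ bi κ n a b) (hfq : f ∉ 𝔮) {D : ℕ} {c : Fin (D + 2) → ℤ}
    (hc : BP (fun s t => (HF 𝔮 s t : ℤ)) (D + 1) c) :
    BP (fun s t => (HF (𝔮 ⊔ Ideal.span {f}) s t : ℤ)) D
      (fun p => (a : ℤ) * c p.succ + (b : ℤ) * c p.castSucc) := by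
  rw [← BP.shift_iff _ a b]
  exact (hc.diff a b).congr 0 fun s t _ _ => (HF_sup_span hq h hf hfq s t).symm

/-- The degree of the Hilbert polynomial drops along strict inclusions of primes. -/
theorem BP_of_lt {𝔮 𝔭 : Ideal (Rg κ n)} (hq : 𝔮.IsPrime) (h : IsBi 𝔮) (h' : IsBi 𝔭) (hlt : 𝔮 < 𝔭)
    {D : ℕ} {c : Fin (D + 1) → ℤ} (hc : BP (fun s t => (HF 𝔮 s t : ℤ)) D c) :
    BP (fun s t => (HF 𝔭 s t : ℤ)) D 0 := by
  obtain ⟨g, hg, hgq⟩ := Set.exists_of_ssubset (show (𝔮 : Set (Rg κ n)) ⊂ 𝔭 from hlt)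
  obtain ⟨m, hm⟩ : ∃ m, weightedHomogeneousComponent (wt n) m g ∉ 𝔮 := by
    by_contra hcon
    push Not at hcon
    apply hgq
    have hfin := weightedHomogeneousComponent_finsupp (w := wt n) g
    have h1 : g = ∑ i ∈ hfin.toFinset, weightedHomogeneousComponent (wt n) i g := by
      conv_lhs => rw [← sum_weightedHomogeneousComponent (wt n) g]
      exact finsum_eq_sum _ hfin
    rw [h1]
    exact 𝔮.sum_mem fun i _ => hcon i
  set f := weightedHomogeneousComponent (wt n) m g with hfdef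
  have hf : f ∈ bi κ n m.1 m.2 := comp_mem_bi g m
  have hf𝔭 : f ∈ 𝔭 := h' g hg m
  have hle : 𝔮 ⊔ Ideal.span {f} ≤ 𝔭 :=
    sup_le hlt.le ((Ideal.span_singleton_le_iff_mem _).2 hf𝔭)
  cases D with
  | zero =>
    obtain ⟨n₀, e, he, hF⟩ := hc
    have h1 : ∀ s t, n₀ ≤ s → n₀ ≤ t → (HF 𝔮 s t : ℤ) = e 0 0 := by
      intro s t hs ht
      exact (hF s t hs ht).trans (by simp [bsum])
    refine BP.of_eventually_zero 0 (n₀ + m.1 + m.2) fun s t hs ht => ?_
    have h2 : HF (𝔮 ⊔ Ideal.span {f}) s t = 0 := by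
      have h3 := HF_sup_span hq h hf hm (s - m.1) (t - m.2)
      rw [Nat.sub_add_cancel (by omega), Nat.sub_add_cancel (by omega)] at h3
      rw [h1 s t (by omega) (by omega), h1 _ _ (by omega) (by omega), sub_self] at h3
      exact_mod_cast h3
    have h4 := HF_mono hle s t
    have h5 : HF 𝔭 s t = 0 := by omega
    rw [h5]; rfl
  | succ D =>
    obtain ⟨c', hc'⟩ := BP_of_le h' hle (BP_sup_span hq h hf hm hc)
    exact hc'.lift

/-- The first coordinate of the top part vanishes if `D ≥ n`. -/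
theorem BP_HF_zero {J : Ideal (Rg κ n)} (hn : 1 ≤ n) {D : ℕ} (hD : n ≤ D) {c : Fin (D + 1) → ℤ}
    (hc : BP (fun s t => (HF J s t : ℤ)) D c) : c 0 = 0 := by
  refine hc.top_zero hn hD 0 fun s t _ _ => ⟨Int.natCast_nonneg _, ?_⟩
  exact_mod_cast HF_le J hn s t

/-- A prime of exact degree `D` above an ideal `J` of degree `≤ D` is a minimal prime of `J`. -/
theorem mem_minimalPrimes {J 𝔮 : Ideal (Rg κ n)} (h : IsBi J) (hq : 𝔮.IsPrime) (hb : IsBi 𝔮)
    (hle : J ≤ 𝔮) {D : ℕ} {c c' : Fin (D + 1) → ℤ} (hc : BP (fun s t => (HF J s t : ℤ)) D c)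
    (hc' : BP (fun s t => (HF 𝔮 s t : ℤ)) D c') (hne : c' ≠ 0) : 𝔮 ∈ J.minimalPrimes := by
  refine ⟨⟨hq, hle⟩, ?_⟩
  rintro 𝔯 ⟨hr, hJr⟩ hrq
  let 𝔯' : Ideal (Rg κ n) := (𝔯.homogeneousCore (weightedHomogeneousSubmodule κ (wl n))).toIdeal
  have h1 : 𝔯' ≤ 𝔯 := Ideal.toIdeal_homogeneousCore_le _ _
  have h2 : 𝔯'.IsPrime := hr.homogeneousCore
  have h3 : IsBi 𝔯' := (isBi_iff _).2 (HomogeneousIdeal.isHomogeneous _)
  have h4 : J ≤ 𝔯' := by
    have h5 := ((isBi_iff J).1 h).toIdeal_homogeneousCore_eq_self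
    rw [← h5]
    exact Ideal.homogeneousCore_mono _ hJr
  by_contra hcon
  have hlt : 𝔯' < 𝔮 := lt_of_le_of_ne (h1.trans hrq) fun h6 => hcon (by rw [← h6]; exact h1)
  obtain ⟨c₁, hc₁⟩ := BP_of_le h3 h4 hc
  exact hne (hc'.unique (BP_of_lt h2 h3 hb hlt hc₁))

/-! ### the ideal of the minors -/

/-- modulo the minors a monomial depends only on the row degrees and on the column degrees -/
theorem monomial_sub_mem {𝔮 : Ideal (Rg κ n)} (hm : ∀ i j : Fin n, minor κ i j ∈ 𝔮) (N : ℕ) :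
    ∀ d d' : Fin 2 × Fin n →₀ ℕ, ∑ i, (d (0, i) - d' (0, i)) = N →
      ∑ i, d (0, i) = ∑ i, d' (0, i) → (∀ i, d (0, i) + d (1, i) = d' (0, i) + d' (1, i)) →
      (monomial d (1 : κ) - monomial d' 1) ∈ 𝔮 := by
  induction N with
  | zero =>
    intro d d' h0 hr hc
    have h1 : ∀ i, d (0, i) ≤ d' (0, i) := by
      intro i
      have := (Finset.sum_eq_zero_iff.1 h0) i (Finset.mem_univ i)
      omega
    have h2 : ∀ i, d (0, i) = d' (0, i) := by
      intro i
      exact (Finset.sum_eq_sum_iff_of_le fun i _ => h1 i).1 hr i (Finset.mem_univ i)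
    have h3 : d = d' := by
      ext ⟨r, i⟩
      have h4 := hc i
      have h5 := h2 i
      fin_cases r
      · exact h5
      · show d (1, i) = d' (1, i)
        omega
    rw [h3, sub_self]
    exact 𝔮.zero_mem
  | succ N ih =>
    intro d d' h0 hr hc
    obtain ⟨i, hi⟩ : ∃ i, d' (0, i) < d (0, i) := by
      by_contra hcon
      push Not at hcon
      have : ∑ i, (d (0, i) - d' (0, i)) = 0 := Finset.sum_eq_zero fun i _ => by
        have := hcon i; omega
      omega
    obtain ⟨j, hj⟩ : ∃ j, d (0, j) < d' (0, j) := by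
      by_contra hcon
      push Not at hcon
      have h1 := (Finset.sum_eq_sum_iff_of_le fun i _ => hcon i).1 hr.symm i (Finset.mem_univ i)
      omega
    have hij : i ≠ j := by rintro rfl; omega
    have hj1 : 0 < d (1, j) := by have := hc j; omega
    let b : Fin 2 × Fin n →₀ ℕ := d - Finsupp.single (0, i) 1 - Finsupp.single (1, j) 1
    have hb : d = b + Finsupp.single (0, i) 1 + Finsupp.single (1, j) 1 := by
      ext ⟨r, l⟩
      simp only [b, Finsupp.add_apply, Finsupp.tsub_apply, Finsupp.single_apply, Prod.mk.injEq]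
      fin_cases r
      · by_cases hl : i = l
        · subst hl; simp; omega
        · simp [hl]
      · by_cases hl : j = l
        · subst hl; simp; omega
        · simp [hl]
    let d'' : Fin 2 × Fin n →₀ ℕ := b + Finsupp.single (0, j) 1 + Finsupp.single (1, i) 1
    have e0 : ∀ l, d'' (0, l) + (if i = l then 1 else 0) = d (0, l) + (if j = l then 1 else 0) := by
      intro l
      rw [hb]
      simp only [d'', Finsupp.add_apply, Finsupp.single_apply, Prod.mk.injEq]
      simp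
      omega
    have e1 : ∀ l, d'' (1, l) + (if j = l then 1 else 0) = d (1, l) + (if i = l then 1 else 0) := by
      intro l
      rw [hb]
      simp only [d'', Finsupp.add_apply, Finsupp.single_apply, Prod.mk.injEq]
      simp
      omega
    have h1 : (monomial d (1 : κ) - monomial d'' 1) ∈ 𝔮 := by
      have h2 : (monomial d (1 : κ) - monomial d'' 1) = monomial b 1 * minor κ i j := by
        rw [hb]
        show _ - monomial (b + Finsupp.single (0, j) 1 + Finsupp.single (1, i) 1) (1 : κ) = _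
        rw [minor, mul_sub, X, X, X, X, monomial_mul, monomial_mul, monomial_mul, monomial_mul]
        simp only [mul_one, add_assoc]
      rw [h2]
      exact 𝔮.mul_mem_left _ (hm i j)
    have h2 : (monomial d'' (1 : κ) - monomial d' 1) ∈ 𝔮 := by
      apply ih
      · have h3 : ∀ l, (d'' (0, l) - d' (0, l)) + (if i = l then 1 else 0) = d (0, l) - d' (0, l) := by
          intro l
          have h4 := e0 l
          by_cases hl : i = l
          · subst hl
            rw [if_pos rfl] at h4 ⊢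
            rw [if_neg (Ne.symm hij)] at h4
            omega
          · rw [if_neg hl] at h4 ⊢
            by_cases hl' : j = l
            · subst hl'
              rw [if_pos rfl] at h4
              omega
            · rw [if_neg hl'] at h4
              omega
        have h5 := Finset.sum_congr rfl fun l (_ : l ∈ Finset.univ) => h3 l
        rw [Finset.sum_add_distrib, Finset.sum_ite_eq, if_pos (Finset.mem_univ _), h0] at h5
        omega
      · have h5 := Finset.sum_congr rfl fun l (_ : l ∈ Finset.univ) => e0 l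
        rw [Finset.sum_add_distrib, Finset.sum_add_distrib, Finset.sum_ite_eq, Finset.sum_ite_eq,
          if_pos (Finset.mem_univ _), if_pos (Finset.mem_univ _)] at h5
        omega
      · intro l
        have h4 := e0 l
        have h5 := e1 l
        have h6 := hc l
        omega
    have h3 := 𝔮.add_mem h1 h2
    rwa [sub_add_sub_cancel] at h3

theorem HF_le_of_minors {𝔮 : Ideal (Rg κ n)} (hm : ∀ i j : Fin n, minor κ i j ∈ 𝔮) (s t : ℕ) :
    HF 𝔮 s t ≤ (Finset.finsuppAntidiag (Finset.univ : Finset (Fin n)) (s + t)).card := by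
  classical
  let col : (Fin 2 × Fin n →₀ ℕ) → (Fin n →₀ ℕ) := fun d =>
    Finsupp.equivFunOnFinite.symm fun i => d (0, i) + d (1, i)
  let v : Finset.finsuppAntidiag (Finset.univ : Finset (Fin n)) (s + t) →
      (bi κ n s t ⧸ part 𝔮 s t) := fun e =>
    if h : ∃ d : Fin 2 × Fin n →₀ ℕ, Finsupp.weight (wt n) d = (s, t) ∧ col d = e.1 then
      (part 𝔮 s t).mkQ ⟨monomial h.choose 1,
        isWeightedHomogeneous_monomial (wt n) h.choose 1 h.choose_spec.1⟩
    else 0
  have hv : ∀ (d : Fin 2 × Fin n →₀ ℕ) (hd : Finsupp.weight (wt n) d = (s, t)),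
      (part 𝔮 s t).mkQ ⟨monomial d 1, isWeightedHomogeneous_monomial (wt n) d 1 hd⟩ ∈
        Set.range v := by
    intro d hd
    have hd' := hd
    rw [weight_wt] at hd'
    have h0 := congrArg Prod.fst hd'
    have h1 := congrArg Prod.snd hd'
    simp only at h0 h1
    refine ⟨⟨col d, ?_⟩, ?_⟩
    · rw [Finset.mem_finsuppAntidiag]
      refine ⟨?_, Finset.subset_univ _⟩
      show ∑ i, (d (0, i) + d (1, i)) = s + t
      rw [Finset.sum_add_distrib, h0, h1]
    · have hex : ∃ d' : Fin 2 × Fin n →₀ ℕ, Finsupp.weight (wt n) d' = (s, t) ∧ col d' = col d :=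
        ⟨d, hd, rfl⟩
      show dite _ _ _ = _
      rw [dif_pos hex]
      rw [← sub_eq_zero, ← map_sub, Submodule.mkQ_apply, Submodule.Quotient.mk_eq_zero]
      have h2 := hex.choose_spec
      have h3 := h2.1
      rw [weight_wt] at h3
      have h4 := congrArg Prod.fst h3
      simp only at h4
      show (monomial hex.choose (1 : κ) - monomial d 1) ∈ 𝔮
      refine monomial_sub_mem hm _ _ _ rfl (h4.trans h0.symm) fun i => ?_
      exact DFunLike.congr_fun h2.2 i
  have hspan : Submodule.span κ (Set.range v) = ⊤ := by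
    rw [eq_top_iff]
    intro x _
    obtain ⟨⟨f, hf⟩, rfl⟩ := (part 𝔮 s t).mkQ_surjective x
    have hw : ∀ d ∈ f.support, Finsupp.weight (wt n) d = (s, t) := fun d hd =>
      hf (mem_support_iff.1 hd)
    have h1 : (⟨f, hf⟩ : bi κ n s t) = ∑ d ∈ f.support.attach, coeff d.1 f •
        (⟨monomial d.1 1, isWeightedHomogeneous_monomial (wt n) d.1 1 (hw d.1 d.2)⟩ :
          bi κ n s t) := by
      apply Subtype.ext
      rw [Submodule.coe_sum]
      simp only [Submodule.coe_smul, smul_monomial, smul_eq_mul, mul_one]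
      rw [Finset.sum_attach f.support (fun d => monomial d (coeff d f))]
      exact (f.support_sum_monomial_coeff).symm
    rw [h1, map_sum]
    refine Submodule.sum_mem _ fun d _ => ?_
    rw [map_smul]
    exact Submodule.smul_mem _ _ (Submodule.subset_span (hv d.1 (hw d.1 d.2)))
  have h1 : HF 𝔮 s t = (Set.range v).finrank κ := by
    rw [Set.finrank, hspan, finrank_top]
    rfl
  rw [h1]
  exact (finrank_range_le_card v).trans (by rw [Fintype.card_coe])

/-- A bihomogeneous prime which contains all `2 × 2` minors has degree `≤ n - 1`. -/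
theorem BP_of_minors {𝔮 : Ideal (Rg κ n)} (hb : IsBi 𝔮) (hm : ∀ i j : Fin n, minor κ i j ∈ 𝔮)
    {D : ℕ} (hD : n ≤ D) : BP (fun s t => (HF 𝔮 s t : ℤ)) D 0 := by
  rcases Nat.eq_zero_or_pos n with rfl | hn
  · exact BP.of_eventually_zero D 1 fun s t hs _ => by
      rw [HF_zero_of_row0 (fun i => i.elim0) hs]; rfl
  obtain ⟨c, hc⟩ := BP.choose_add (n - 1)
  obtain ⟨c', hc'⟩ := IsPoly.bound hc (isPoly_HF hb) 0 fun s t _ _ => by
    refine ⟨Int.natCast_nonneg _, ?_⟩
    have h1 := HF_le_of_minors hm s t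
    rw [card_antidiag hn, show s + t + n - 1 = s + t + (n - 1) by omega] at h1
    exact_mod_cast h1
  exact hc'.lift_of_lt (by omega)

end Pool.Agent.GrUp
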