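import Pool.Agent.GrUp.Lim

/-!
# The maximal nilpotent algebra of the (odd) symplectic group (module F1)

The form `ω` on `κ ^ n`: `ω(e_a, e_b) = ± 1` if `a + b = nn n`, where `nn n = n - 1` for even `n` and
`nn n = n` for odd `n` (so that `nn n` is odd; for odd `n` the vector `e_0` spans the kernel).
-/

namespace Pool.Agent.GrUp

open MvPolynomial

/-- The (odd) index sum of dual basis vectors. -/
def nn (n : ℕ) : ℕ := n - 1 + n % 2

/-- The values `ω(e_a, e_b)`. -/
def om (n a b : ℕ) : ℤ := if a + b = nn n then (if a < b then 1 else -1) else 0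

/-- The polynomial `ω(row 0, row 1)`. -/
noncomputable def omP (κ : Type*) [Field κ] (n : ℕ) : Rg κ n :=
  ∑ a : Fin n, ∑ b : Fin n, if a < b ∧ (a : ℕ) + b = nn n then minor κ a b else 0

/-- The matrix of `x ↦ ω(x, e_a) e_b + ω(x, e_b) e_a`. -/
def Nab (κ : Type*) [Field κ] {n : ℕ} (a b : Fin n) : Matrix (Fin n) (Fin n) κ := fun i j =>
  (if i = b then (om n j a : κ) else 0) + (if i = a then (om n j b : κ) else 0)

variable {κ : Type*} [Field κ] {n : ℕ}

/-! ### auxiliary facts on `ω` -/

theorem nn_odd {n : ℕ} (hn : 0 < n) : nn n % 2 = 1 := by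
  unfold nn; omega

theorem om_of_ne {n a b : ℕ} (h : a + b ≠ nn n) : om n a b = 0 := if_neg h

theorem om_swap {n a b : ℕ} (hn : 0 < n) : om n a b = - om n b a := by
  have := nn_odd hn
  unfold om
  rw [add_comm b a]
  by_cases h : a + b = nn n
  · rw [if_pos h, if_pos h]
    rcases lt_trichotomy a b with h1 | h1 | h1
    · rw [if_pos h1, if_neg (by omega)]; norm_num
    · omega
    · rw [if_neg (by omega), if_pos h1]
  · rw [if_neg h, if_neg h]; simp

theorem om_swap' {a b : Fin n} : (om n a b : κ) = - (om n b a : κ) := by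
  rw [om_swap (by have := a.2; omega)]; push_cast; ring

theorem om_self {a : Fin n} : om n a a = 0 := by
  have := nn_odd (n := n) (by have := a.2; omega)
  exact om_of_ne (by omega)

/-- The matrix of `x ↦ ω(x, e_u) e_v`. -/
def Em (κ : Type*) [Field κ] {n : ℕ} (u v : Fin n) : Matrix (Fin n) (Fin n) κ := fun i j =>
  if i = v then (om n j u : κ) else 0

theorem Nab_eq (a b : Fin n) : Nab κ a b = Em κ a b + Em κ b a := by
  ext i j; simp only [Nab, Em, Matrix.add_apply]

theorem Nab_comm (a b : Fin n) : Nab κ a b = Nab κ b a := by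
  rw [Nab_eq, Nab_eq, add_comm]

theorem Em_mul (u v a b : Fin n) : Em κ u v * Em κ a b = (om n b u : κ) • Em κ a v := by
  ext i j
  simp only [Matrix.mul_apply, Em, Matrix.smul_apply, smul_eq_mul]
  rw [Finset.sum_eq_single b]
  · by_cases h : i = v
    · simp [h]
    · simp [h]
  · intro k _ hk
    simp [hk]
  · intro h; exact absurd (Finset.mem_univ _) h

theorem Nab_sq' {a b : Fin n} (h : (a : ℕ) + b < nn n) : Nab κ a b * Nab κ a b = 0 := by
  have h1 : (om n a b : κ) = 0 := by rw [om_of_ne (by omega)]; simp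
  have h2 : (om n b a : κ) = 0 := by rw [om_of_ne (by omega)]; simp
  have h3 : (om n a a : κ) = 0 := by rw [om_self]; simp
  have h4 : (om n b b : κ) = 0 := by rw [om_self]; simp
  rw [Nab_eq]
  simp only [Matrix.add_mul, Matrix.mul_add, Em_mul, h1, h2, h3, h4, zero_smul, add_zero]

theorem Nab_sq {a b : Fin n} (h : (a : ℕ) + b < nn n) : colM (Nab κ a b) * colM (Nab κ a b) = 0 := by
  rw [colM_mul, Nab_sq' h]
  ext p q
  simp [colM]

theorem omP_eq : omP κ n = ∑ a : Fin n, ∑ b : Fin n, C (om n a b : κ) * (X (0, a) * X (1, b)) := by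
  have h1 : ∀ a b : Fin n, (C (om n a b : κ) * (X (0, a) * X (1, b)) : Rg κ n) =
      (if a < b ∧ (a : ℕ) + b = nn n then X (0, a) * X (1, b) else 0) -
      (if b < a ∧ (b : ℕ) + a = nn n then X (0, a) * X (1, b) else 0) := by
    intro a b
    have hodd := nn_odd (n := n) (by have := a.2; omega)
    unfold om
    rcases lt_trichotomy a b with h | h | h
    · have h' : ¬ b < a := not_lt.2 h.le
      by_cases hs : (a : ℕ) + b = nn n
      · rw [if_pos hs, if_pos (by exact h), if_pos ⟨h, hs⟩, if_neg (fun h2 => h' h2.1)]; simp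
      · rw [if_neg hs, if_neg (fun h2 => hs h2.2), if_neg (fun h2 => h' h2.1)]; simp
    · subst h
      rw [if_neg (by omega), if_neg (fun h2 => lt_irrefl _ h2.1)]; simp
    · have h' : ¬ a < b := not_lt.2 h.le
      by_cases hs : (a : ℕ) + b = nn n
      · rw [if_pos hs, if_neg (by exact h'), if_neg (fun h2 => h' h2.1),
          if_pos ⟨h, by omega⟩]; simp
      · rw [if_neg hs, if_neg (fun h2 => hs h2.2), if_neg (fun h2 => hs (by omega))]; simp
  simp only [h1, Finset.sum_sub_distrib]
  rw [Finset.sum_comm (f := fun a b : Fin n =>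
    (if b < a ∧ (b : ℕ) + a = nn n then X (0, a) * X (1, b) else (0 : Rg κ n)))]
  rw [← Finset.sum_sub_distrib]
  unfold omP
  refine Finset.sum_congr rfl fun a _ => ?_
  rw [← Finset.sum_sub_distrib]
  refine Finset.sum_congr rfl fun b _ => ?_
  unfold minor
  split_ifs <;> simp

theorem linT_colM (N : Matrix (Fin n) (Fin n) κ) (r : Fin 2) (i : Fin n) :
    linT (colM N) (r, i) = ∑ j, C (N i j) * X (r, j) := by
  unfold linT colM
  rw [Fintype.sum_prod_type, Finset.sum_eq_single r]
  · simp
  · intro r' _ hr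
    simp [hr.symm]
  · intro h; exact absurd (Finset.mem_univ _) h

/-- the linear form `ω(row r, e_a)` -/
noncomputable def Lf (κ : Type*) [Field κ] {n : ℕ} (a : Fin n) (r : Fin 2) : Rg κ n :=
  ∑ j : Fin n, C (om n j a : κ) * X (r, j)

theorem der_Nab_X (a b : Fin n) (r : Fin 2) (i : Fin n) :
    der (colM (Nab κ a b)) (X (r, i)) =
      (if i = b then Lf κ a r else 0) + (if i = a then Lf κ b r else 0) := by
  rw [der_X, linT_colM]
  unfold Nab Lf
  simp only [C_add, add_mul, Finset.sum_add_distrib]
  congr 1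
  · split_ifs with h
    · rfl
    · simp
  · split_ifs with h
    · rfl
    · simp

theorem sum_om_left (b : Fin n) :
    ∑ b' : Fin n, (C (om n b b' : κ) * X (1, b') : Rg κ n) = - Lf κ b 1 := by
  unfold Lf
  rw [← Finset.sum_neg_distrib]
  refine Finset.sum_congr rfl fun j _ => ?_
  rw [om_swap' (a := b) (b := j), C_neg, neg_mul]

theorem der_omP {a b : Fin n} : der (colM (Nab κ a b)) (omP κ n) = 0 := by
  have h1 : ∀ a' b' : Fin n, der (colM (Nab κ a b))
      (C (om n a' b' : κ) * (X (0, a') * X (1, b')) : Rg κ n) =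
      (if a' = b then Lf κ a 0 * (C (om n a' b' : κ) * X (1, b')) else 0) +
      (if a' = a then Lf κ b 0 * (C (om n a' b' : κ) * X (1, b')) else 0) +
      ((if b' = b then (C (om n a' b' : κ) * X (0, a')) * Lf κ a 1 else 0) +
      (if b' = a then (C (om n a' b' : κ) * X (0, a')) * Lf κ b 1 else 0)) := by
    intro a' b'
    rw [← smul_eq_C_mul, Derivation.map_smul, Derivation.leibniz, der_Nab_X, der_Nab_X]
    simp only [smul_eq_mul, smul_eq_C_mul]
    split_ifs <;> ring
  rw [omP_eq, map_sum]
  simp only [map_sum, h1, Finset.sum_add_distrib]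
  have e1 : ∀ u v : Fin n, ∑ a' : Fin n, ∑ b' : Fin n,
      (if a' = v then Lf κ u 0 * (C (om n a' b' : κ) * X (1, b')) else 0) =
      - (Lf κ u 0 * Lf κ v 1) := by
    intro u v
    rw [Finset.sum_comm]
    simp only [Finset.sum_ite_eq', Finset.mem_univ, if_true]
    rw [← Finset.mul_sum, sum_om_left, mul_neg]
  have e2 : ∀ u v : Fin n, ∑ a' : Fin n, ∑ b' : Fin n,
      (if b' = v then (C (om n a' b' : κ) * X (0, a')) * Lf κ u 1 else 0) =
      Lf κ v 0 * Lf κ u 1 := by
    intro u v
    simp only [Finset.sum_ite_eq', Finset.mem_univ, if_true]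
    rw [← Finset.sum_mul]
    rfl
  rw [e1, e1, e2, e2]
  ring

theorem der_row_omP {r r' : Fin 2} (h : r ≠ r') : der (rowM κ n r r') (omP κ n) = 0 := by
  unfold omP
  rw [map_sum]
  refine Finset.sum_eq_zero fun a _ => ?_
  rw [map_sum]
  refine Finset.sum_eq_zero fun b _ => ?_
  split_ifs
  · exact der_row_minor h a b
  · exact map_zero _

/-- The span of the row operations and of the `Nab` with `a + b < h`. -/
def gg (κ : Type*) [Field κ] (n h : ℕ) : Submodule κ (Matrix (Fin 2 × Fin n) (Fin 2 × Fin n) κ) :=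
  Submodule.span κ ({rowM κ n 0 1, rowM κ n 1 0} ∪
    {T | ∃ a b : Fin n, (a : ℕ) + b < h ∧ T = colM (Nab κ a b)})

theorem colM_add (N N' : Matrix (Fin n) (Fin n) κ) : colM (N + N') = colM N + colM N' := by
  ext p q; simp only [colM, Matrix.add_apply]; split_ifs <;> simp

theorem colM_smul (a : κ) (N : Matrix (Fin n) (Fin n) κ) : colM (a • N) = a • colM N := by
  ext p q; simp only [colM, Matrix.smul_apply]; split_ifs <;> simp

theorem colM_sub (N N' : Matrix (Fin n) (Fin n) κ) : colM (N - N') = colM N - colM N' := by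
  ext p q; simp only [colM, Matrix.sub_apply]; split_ifs <;> simp

theorem smul_mem_gg (z : ℤ) (y : κ) {h : ℕ} {a b : Fin n} (hz : z ≠ 0 → y ≠ 0 → (a : ℕ) + b < h) :
    ((z : κ) * y) • colM (Nab κ a b) ∈ gg κ n h := by
  by_cases h0 : z = 0
  · simp [h0]
  · by_cases h1 : y = 0
    · simp [h1]
    · exact Submodule.smul_mem _ _ (Submodule.subset_span (Or.inr ⟨a, b, hz h0 h1, rfl⟩))

theorem of_om_ne {a b : Fin n} (h : om n a b ≠ 0) : (a : ℕ) + b = nn n := by
  by_contra h1; exact h (om_of_ne h1)

theorem of_om_ne' {a b : Fin n} (h : (om n a b : κ) ≠ 0) : (a : ℕ) + b = nn n := by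
  by_contra h1; exact h (by rw [om_of_ne h1]; simp)

theorem comm_eq (a b c d : Fin n) : Nab κ a b * Nab κ c d - Nab κ c d * Nab κ a b =
    (om n d a : κ) • Nab κ c b + (om n c a : κ) • Nab κ d b + (om n d b : κ) • Nab κ c a +
      (om n c b : κ) • Nab κ d a := by
  simp only [Nab_eq, Matrix.add_mul, Matrix.mul_add, Em_mul]
  rw [om_swap' (a := b) (b := c), om_swap' (a := a) (b := c), om_swap' (a := b) (b := d),
    om_swap' (a := a) (b := d)]
  module

theorem triple_eq (a b c d : Fin n) : Nab κ a b * Nab κ c d * Nab κ a b =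
    ((om n d a : κ) * (om n b c : κ) + (om n c a : κ) * (om n b d : κ)) • Nab κ a b +
      (-((om n a c : κ) * (om n a d : κ))) • Nab κ b b +
      (-((om n b c : κ) * (om n b d : κ))) • Nab κ a a := by
  simp only [Nab_eq, Matrix.add_mul, Matrix.mul_add, Em_mul, Matrix.smul_mul, smul_smul]
  rw [om_swap' (a := c) (b := b), om_swap' (a := c) (b := a), om_swap' (a := d) (b := b),
    om_swap' (a := d) (b := a)]
  module

/-- The commutators and the products `N M N` of the `N = Nab a b` with `a + b < nn n` and of the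
`M = Nab c d` with `c + d ≤ a + b` are combinations of the `Nab a' b'` with `a' + b' < c + d`. -/
theorem comm_mem {a b c d : Fin n} (h : (a : ℕ) + b < nn n) (h' : (c : ℕ) + d ≤ a + b) :
    colM (Nab κ a b) * colM (Nab κ c d) - colM (Nab κ c d) * colM (Nab κ a b) ∈ gg κ n (c + d) ∧
      colM (Nab κ a b) * colM (Nab κ c d) * colM (Nab κ a b) ∈ gg κ n (c + d) := by
  constructor
  · rw [colM_mul, colM_mul, ← colM_sub, comm_eq]
    simp only [colM_add, colM_smul]
    have key : ∀ (x y u v : Fin n), (u : ℕ) + v + (x + y) = a + b + (c + d) →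
        (om n x y : κ) • colM (Nab κ u v) ∈ gg κ n (c + d) := by
      intro x y u v hs
      have := smul_mem_gg (κ := κ) (n := n) (om n x y) 1 (h := c + d) (a := u) (b := v)
        (fun h1 _ => by have := of_om_ne h1; omega)
      rwa [mul_one] at this
    refine Submodule.add_mem _ (Submodule.add_mem _ (Submodule.add_mem _ ?_ ?_) ?_) ?_
    · exact key d a c b (by omega)
    · exact key c a d b (by omega)
    · exact key d b c a (by omega)
    · exact key c b d a (by omega)
  · rw [colM_mul, colM_mul, triple_eq]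
    simp only [colM_add, colM_smul]
    have e1 : (om n d a : κ) * (om n b c : κ) = 0 := by
      by_contra hne
      have h1 := of_om_ne' (left_ne_zero_of_mul hne)
      have h2 := of_om_ne' (right_ne_zero_of_mul hne)
      omega
    have e2 : (om n c a : κ) * (om n b d : κ) = 0 := by
      by_contra hne
      have h1 := of_om_ne' (left_ne_zero_of_mul hne)
      have h2 := of_om_ne' (right_ne_zero_of_mul hne)
      omega
    rw [e1, e2, add_zero, zero_smul, zero_add]
    refine Submodule.add_mem _ ?_ ?_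
    · rw [neg_smul]
      refine Submodule.neg_mem _ (smul_mem_gg _ _ fun h1 h2 => ?_)
      have h3 := of_om_ne h1
      have h4 := of_om_ne' h2
      omega
    · rw [neg_smul]
      refine Submodule.neg_mem _ (smul_mem_gg _ _ fun h1 h2 => ?_)
      have h3 := of_om_ne h1
      have h4 := of_om_ne' h2
      omega

/-- Every class of a bihomogeneous, row stable ideal which contains `ω` is a sum of classes of primes
containing `ω` which are stable under the row operations and all `Nab a b` with `a + b < nn n`. -/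
theorem mem_closure_stable [CharZero κ] {𝔮 : Ideal (Rg κ n)} (hb : IsBi 𝔮) (hr : RowStab 𝔮)
    (hω : omP κ n ∈ 𝔮) {D : ℕ} {c : Fin (D + 1) → ℤ} (hc : BP (fun s t => (HF 𝔮 s t : ℤ)) D c) :
    c ∈ AddSubmonoid.closure {c' : Fin (D + 1) → ℤ | c' ≠ 0 ∧ ∃ 𝔭 : Ideal (Rg κ n), 𝔭.IsPrime ∧
      IsBi 𝔭 ∧ RowStab 𝔭 ∧ (∀ a b : Fin n, (a : ℕ) + b < nn n → StabD 𝔭 (colM (Nab κ a b))) ∧
      omP κ n ∈ 𝔭 ∧ BP (fun s t => (HF 𝔭 s t : ℤ)) D c'} := by
  classical
  -- the sorted list of pairs
  let r : Fin n × Fin n → Fin n × Fin n → Prop := fun p q => (p.1 : ℕ) + p.2 ≤ q.1 + q.2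
  let P : List (Fin n × Fin n) := List.insertionSort r
    (Finset.univ.filter fun p : Fin n × Fin n => (p.1 : ℕ) + p.2 < nn n).toList
  have hPmem : ∀ p : Fin n × Fin n, p ∈ P ↔ (p.1 : ℕ) + p.2 < nn n := by
    intro p
    rw [List.mem_insertionSort]
    simp
  have hPs : P.Pairwise r := by
    have : Std.Total r := ⟨fun p q => le_total _ _⟩
    have : IsTrans _ r := ⟨fun p q t h1 h2 => le_trans h1 h2⟩
    exact List.pairwise_insertionSort r _
  let f : Fin n × Fin n → Matrix (Fin 2 × Fin n) (Fin 2 × Fin n) κ := fun p => colM (Nab κ p.1 p.2)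
  let 𝔤 : Submodule κ (Matrix (Fin 2 × Fin n) (Fin 2 × Fin n) κ) :=
    Submodule.span κ {rowM κ n 0 1, rowM κ n 1 0}
  have hg : 𝔤 ≤ stabM 𝔮 := by
    refine Submodule.span_le.2 ?_
    rintro M (rfl | rfl)
    · exact hr.1
    · exact hr.2
  have key := chain (P.map f) 𝔤 ?_ hb hg hc
  · refine AddSubmonoid.closure_mono ?_ key
    rintro c' ⟨h0, 𝔭, hp, hbp, hst, hin, hBP⟩
    refine ⟨h0, 𝔭, hp, hbp, ⟨?_, ?_⟩, ?_, ?_, hBP⟩
    · exact hst (Submodule.mem_sup_left (Submodule.subset_span (Or.inl rfl)))
    · exact hst (Submodule.mem_sup_left (Submodule.subset_span (Or.inr rfl)))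
    · intro a b hab
      refine hst (Submodule.mem_sup_right (Submodule.subset_span ?_))
      exact List.mem_map.2 ⟨(a, b), (hPmem _).2 hab, rfl⟩
    · refine hin _ hω ?_
      intro T hT
      obtain ⟨p, -, rfl⟩ := List.mem_map.1 hT
      exact der_omP
  · intro L₁ T L₂ hL
    obtain ⟨P₁, P', hP, hP₁, hP'⟩ := List.map_eq_append_iff.1 hL
    obtain ⟨p, P₂, hP2, hfp, hP₂⟩ := List.map_eq_cons_iff.1 hP'
    subst hP2
    subst hfp
    have hpm : (p.1 : ℕ) + p.2 < nn n := (hPmem p).1 (by rw [hP]; simp)
    have hsub : gg κ n (p.1 + p.2) ≤ 𝔤 ⊔ Submodule.span κ {M | M ∈ L₁} := by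
      refine Submodule.span_le.2 ?_
      rintro M (hM | ⟨a, b, hab, rfl⟩)
      · exact Submodule.mem_sup_left (Submodule.subset_span hM)
      · refine Submodule.mem_sup_right (Submodule.subset_span ?_)
        have hm : (a, b) ∈ P := (hPmem _).2 (by simp only; omega)
        rw [hP] at hm
        rw [hP, List.pairwise_append] at hPs
        rcases List.mem_append.1 hm with hm | hm
        · show colM (Nab κ a b) ∈ L₁
          rw [← hP₁]
          exact List.mem_map.2 ⟨(a, b), hm, rfl⟩
        · exfalso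
          rcases List.mem_cons.1 hm with hm | hm
          · rw [← hm] at hab; exact lt_irrefl _ hab
          · have := (List.pairwise_cons.1 hPs.2.1).1 _ hm
            simp only [r] at this
            omega
    have hsub1 : 𝔤 ≤ 𝔤 ⊔ Submodule.span κ {M | M ∈ L₁} := le_sup_left
    have hTT : f p * f p = 0 := Nab_sq hpm
    refine ⟨hTT, ?_, ?_⟩
    · intro x y hxy
      exact if_neg hxy
    · -- linearity
      let W : Submodule κ (Matrix (Fin 2 × Fin n) (Fin 2 × Fin n) κ) :=
        𝔤 ⊔ Submodule.span κ {M | M ∈ L₁}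
      let V : Submodule κ (Matrix (Fin 2 × Fin n) (Fin 2 × Fin n) κ) :=
        { carrier := {M | f p * M - M * f p ∈ W ∧ f p * M * f p ∈ W}
          add_mem' := fun {x y} hx hy => by
            refine ⟨?_, ?_⟩
            · have := W.add_mem hx.1 hy.1
              rwa [show f p * x - x * f p + (f p * y - y * f p) =
                f p * (x + y) - (x + y) * f p by
                rw [Matrix.mul_add, Matrix.add_mul]; abel] at this
            · have := W.add_mem hx.2 hy.2
              rwa [← Matrix.add_mul, ← Matrix.mul_add] at this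
          zero_mem' := by simp
          smul_mem' := fun a x hx => by
            refine ⟨?_, ?_⟩
            · have := W.smul_mem a hx.1
              rwa [smul_sub, ← Matrix.mul_smul, ← Matrix.smul_mul] at this
            · have := W.smul_mem a hx.2
              rwa [← Matrix.smul_mul, ← Matrix.mul_smul] at this }
      have hWV : W ≤ V := by
        refine sup_le (Submodule.span_le.2 ?_) (Submodule.span_le.2 ?_)
        · have hrow : ∀ r r' : Fin 2, rowM κ n r r' ∈ V := by
            intro r r'
            have hcm : f p * rowM κ n r r' = rowM κ n r r' * f p := (rowM_mul_colM r r' _).symm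
            refine ⟨?_, ?_⟩
            · rw [hcm, sub_self]; exact W.zero_mem
            · rw [hcm, Matrix.mul_assoc, hTT, Matrix.mul_zero]; exact W.zero_mem
          rintro M (rfl | rfl)
          · exact hrow _ _
          · exact hrow _ _
        · intro M hM
          have hM' : M ∈ L₁ := hM
          rw [← hP₁] at hM'
          obtain ⟨q, hq, rfl⟩ := List.mem_map.1 hM'
          rw [hP, List.pairwise_append] at hPs
          have hqp : (q.1 : ℕ) + q.2 ≤ p.1 + p.2 := hPs.2.2 q hq p (by simp)
          have hcm := comm_mem (κ := κ) hpm hqp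
          have hsub2 : gg κ n (q.1 + q.2) ≤ W := by
            refine le_trans (Submodule.span_mono ?_) hsub
            refine Set.union_subset_union_right _ ?_
            rintro T' ⟨a, b, hab, rfl⟩
            exact ⟨a, b, by omega, rfl⟩
          exact ⟨hsub2 hcm.1, hsub2 hcm.2⟩
      exact fun M hM => hWV hM

end Pool.Agent.GrUp
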