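import Pool.Agent.GrUp.Der

/-!
# One-parameter degenerations of bihomogeneous ideals (module C2)
-/

namespace Pool.Agent.GrUp

open MvPolynomial

variable {κ : Type*} [Field κ] {n : ℕ}

/-- The automorphism `X p ↦ X p + σ ∑ q, T p q X q`, `σ ↦ σ` of `(Rg κ n)[σ]` (if `T ^ 2 = 0`). -/
noncomputable def expA (T : Matrix (Fin 2 × Fin n) (Fin 2 × Fin n) κ) :
    Polynomial (Rg κ n) →+* Polynomial (Rg κ n) :=
  Polynomial.eval₂RingHom (expT T).toRingHom Polynomial.X

/-! ### basic facts on `expA` -/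

theorem expA_C (T : Matrix (Fin 2 × Fin n) (Fin 2 × Fin n) κ) (f : Rg κ n) :
    expA T (Polynomial.C f) = expT T f := Polynomial.eval₂_C _ _

theorem expA_X (T : Matrix (Fin 2 × Fin n) (Fin 2 × Fin n) κ) :
    expA T Polynomial.X = Polynomial.X := Polynomial.eval₂_X _ _

theorem expA_monomial (T : Matrix (Fin 2 × Fin n) (Fin 2 × Fin n) κ) (k : ℕ) (f : Rg κ n) :
    expA T (Polynomial.monomial k f) = expT T f * Polynomial.X ^ k := by
  rw [← Polynomial.C_mul_X_pow_eq_monomial, map_mul, map_pow, expA_C, expA_X]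

theorem expT_linT (T N : Matrix (Fin 2 × Fin n) (Fin 2 × Fin n) κ) (p : Fin 2 × Fin n) :
    expT T (linT N p) = Polynomial.C (linT N p) + Polynomial.X * Polynomial.C (linT (N * T) p) := by
  have h1 : expT T (linT N p) = ∑ q, (Polynomial.C (C (N p q) * X q) +
      Polynomial.X * Polynomial.C (C (N p q) * linT T q)) := by
    conv_lhs => rw [show linT N p = ∑ q, C (N p q) * X q from rfl]
    rw [map_sum]
    refine Finset.sum_congr rfl fun q _ => ?_
    rw [map_mul, expT_C, expT_X, Polynomial.C_mul, Polynomial.C_mul]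
    ring
  have h2 : ∑ q, C (N p q) * linT T q = linT (N * T) p := by
    rw [← der_linT T N p]
    conv_rhs => rw [show linT N p = ∑ q, C (N p q) * X q from rfl]
    rw [map_sum]
    refine Finset.sum_congr rfl fun q _ => ?_
    rw [Derivation.leibniz, der_X, ← algebraMap_eq, Derivation.map_algebraMap, smul_zero,
      add_zero, smul_eq_mul]
  rw [h1, Finset.sum_add_distrib, ← Finset.mul_sum, ← map_sum, ← map_sum, h2]
  rfl

theorem linT_neg (T : Matrix (Fin 2 × Fin n) (Fin 2 × Fin n) κ) (p : Fin 2 × Fin n) :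
    linT (-T) p = -linT T p := by
  have h := linT_smul (-1) T p
  rw [neg_one_smul] at h
  rw [h, C_neg, C_1, neg_one_mul]

theorem expA_neg {T : Matrix (Fin 2 × Fin n) (Fin 2 × Fin n) κ} (hT : T * T = 0)
    (G : Polynomial (Rg κ n)) : expA (-T) (expA T G) = G := by
  have h : (expA (-T)).comp (expA T) = RingHom.id _ := by
    refine Polynomial.ringHom_ext' ?_ ?_
    · refine ringHom_ext (fun a => ?_) fun p => ?_
      · show expA (-T) (expA T (Polynomial.C (C a))) = Polynomial.C (C a)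
        rw [expA_C, expT_C, expA_C, expT_C]
      · show expA (-T) (expA T (Polynomial.C (X p))) = Polynomial.C (X p)
        rw [expA_C, expT_X, map_add, map_mul, expA_C, expA_C, expA_X, expT_X, expT_linT,
          linT_neg, Matrix.mul_neg, hT, neg_zero, linT_zero, Polynomial.C_0, mul_zero, add_zero,
          Polynomial.C_neg]
        ring
    · show expA (-T) (expA T Polynomial.X) = Polynomial.X
      rw [expA_X, expA_X]
  exact RingHom.congr_fun h G

theorem expA_expA_neg {T : Matrix (Fin 2 × Fin n) (Fin 2 × Fin n) κ} (hT : T * T = 0)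
    (G : Polynomial (Rg κ n)) : expA T (expA (-T) G) = G := by
  have h := expA_neg (T := -T) (by rw [neg_mul_neg, hT]) G
  rwa [neg_neg] at h

/-! ### coefficientwise maps -/

/-- the coefficientwise application of an additive map -/
noncomputable def cw {R : Type*} [CommRing R] (φ : R →+ R) (G : Polynomial R) : Polynomial R :=
  ∑ k ∈ G.support, Polynomial.monomial k (φ (G.coeff k))

theorem coeff_cw {R : Type*} [CommRing R] (φ : R →+ R) (G : Polynomial R) (k : ℕ) :
    (cw φ G).coeff k = φ (G.coeff k) := by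
  unfold cw
  rw [Polynomial.finsetSum_coeff]
  simp only [Polynomial.coeff_monomial]
  rw [Finset.sum_ite_eq']
  split_ifs with h
  · rfl
  · rw [Polynomial.notMem_support_iff.1 h, map_zero]

theorem cw_add {R : Type*} [CommRing R] (φ : R →+ R) (G H : Polynomial R) :
    cw φ (G + H) = cw φ G + cw φ H := by
  ext k
  rw [coeff_cw, Polynomial.coeff_add, Polynomial.coeff_add, coeff_cw, coeff_cw, map_add]

theorem cw_mul_X_pow {R : Type*} [CommRing R] (φ : R →+ R) (G : Polynomial R) (k : ℕ) :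
    cw φ (G * Polynomial.X ^ k) = cw φ G * Polynomial.X ^ k := by
  ext j
  rw [coeff_cw, Polynomial.coeff_mul_X_pow', Polynomial.coeff_mul_X_pow']
  split_ifs
  · rw [coeff_cw]
  · rw [map_zero]

theorem cw_monomial {R : Type*} [CommRing R] (φ : R →+ R) (k : ℕ) (f : R) :
    cw φ (Polynomial.monomial k f) = Polynomial.monomial k (φ f) := by
  ext j
  rw [coeff_cw, Polynomial.coeff_monomial, Polynomial.coeff_monomial]
  split_ifs
  · rfl
  · rw [map_zero]

theorem natDegree_cw_le {R : Type*} [CommRing R] (φ : R →+ R) (G : Polynomial R) :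
    (cw φ G).natDegree ≤ G.natDegree := by
  rw [Polynomial.natDegree_le_iff_coeff_eq_zero]
  intro N hN
  rw [coeff_cw, Polynomial.coeff_eq_zero_of_natDegree_lt hN, map_zero]

/-- coefficientwise derivation -/
noncomputable def cD (T : Matrix (Fin 2 × Fin n) (Fin 2 × Fin n) κ) (G : Polynomial (Rg κ n)) :
    Polynomial (Rg κ n) := cw (der T : Rg κ n →+ Rg κ n) G

theorem coeff_cD (T : Matrix (Fin 2 × Fin n) (Fin 2 × Fin n) κ) (G : Polynomial (Rg κ n)) (k : ℕ) :
    (cD T G).coeff k = der T (G.coeff k) := coeff_cw _ _ _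

theorem cD_add (T : Matrix (Fin 2 × Fin n) (Fin 2 × Fin n) κ) (G H : Polynomial (Rg κ n)) :
    cD T (G + H) = cD T G + cD T H := cw_add _ _ _

theorem cD_mul_X_pow (T : Matrix (Fin 2 × Fin n) (Fin 2 × Fin n) κ) (G : Polynomial (Rg κ n))
    (k : ℕ) : cD T (G * Polynomial.X ^ k) = cD T G * Polynomial.X ^ k := cw_mul_X_pow _ _ _

theorem cD_monomial (T : Matrix (Fin 2 × Fin n) (Fin 2 × Fin n) κ) (k : ℕ) (f : Rg κ n) :
    cD T (Polynomial.monomial k f) = Polynomial.monomial k (der T f) := cw_monomial _ _ _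

theorem cD_mul (T : Matrix (Fin 2 × Fin n) (Fin 2 × Fin n) κ) (G H : Polynomial (Rg κ n)) :
    cD T (G * H) = cD T G * H + G * cD T H := by
  ext1 k
  rw [coeff_cD, Polynomial.coeff_add, Polynomial.coeff_mul, Polynomial.coeff_mul,
    Polynomial.coeff_mul, map_sum, ← Finset.sum_add_distrib]
  refine Finset.sum_congr rfl fun x _ => ?_
  rw [Derivation.leibniz, coeff_cD, coeff_cD, smul_eq_mul, smul_eq_mul]
  ring

/-- polynomials in `σ` are determined by monomials -/
theorem poly_induction {R : Type*} [CommRing R] {P : Polynomial R → Prop}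
    (h0 : ∀ f g, P f → P g → P (f + g)) (h1 : ∀ k f, P (Polynomial.monomial k f))
    (G : Polynomial R) : P G := Polynomial.induction_on' G h0 h1

/-! ### the three identities -/

theorem derivative_expA {T : Matrix (Fin 2 × Fin n) (Fin 2 × Fin n) κ} (hT : T * T = 0)
    (G : Polynomial (Rg κ n)) :
    Polynomial.derivative (expA T G) = expA T (Polynomial.derivative G + cD T G) := by
  induction G using poly_induction with
  | h0 f g hf hg =>
    rw [map_add (expA T) f g, Polynomial.derivative_add, hf, hg, cD_add, Polynomial.derivative_add,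
      ← map_add]
    congr 1
    ring
  | h1 k f =>
    rw [expA_monomial, Polynomial.derivative_mul, derivative_expT hT, Polynomial.derivative_X_pow,
      cD_monomial, map_add, expA_monomial, Polynomial.derivative_monomial, expA_monomial, map_mul,
      add_comm]
    congr 1
    rw [show expT T (k : Rg κ n) = (k : Polynomial (Rg κ n)) from map_natCast _ _, mul_assoc]
    rfl

theorem cD_C (T : Matrix (Fin 2 × Fin n) (Fin 2 × Fin n) κ) (f : Rg κ n) :
    cD T (Polynomial.C f) = Polynomial.C (der T f) := by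
  ext1 k
  rw [coeff_cD, Polynomial.coeff_C, Polynomial.coeff_C]
  split_ifs
  · rfl
  · rw [map_zero]

theorem cD_X (T : Matrix (Fin 2 × Fin n) (Fin 2 × Fin n) κ) :
    cD T (Polynomial.X : Polynomial (Rg κ n)) = 0 := by
  ext1 k
  rw [coeff_cD, Polynomial.coeff_X, Polynomial.coeff_zero]
  split_ifs
  · exact Derivation.map_one_eq_zero _
  · rw [map_zero]

/-- the conjugation identity on constants -/
theorem cD_expT {T M : Matrix (Fin 2 × Fin n) (Fin 2 × Fin n) κ} (hT : T * T = 0) (f : Rg κ n) :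
    cD M (expT T f) = expT T (der M f) + Polynomial.X * expT T (der (T * M - M * T) f) -
      Polynomial.X ^ 2 * expT T (der (T * M * T) f) := by
  induction f using MvPolynomial.induction_on with
  | C a =>
    rw [expT_C, cD_C]
    simp only [← algebraMap_eq, Derivation.map_algebraMap, map_zero, mul_zero, add_zero, sub_zero]
  | add f g hf hg =>
    rw [map_add, cD_add, hf, hg]
    simp only [map_add]
    ring
  | mul_X f p hf =>
    have hX : cD M (expT T (X p)) = expT T (der M (X p)) +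
        Polynomial.X * expT T (der (T * M - M * T) (X p)) -
        Polynomial.X ^ 2 * expT T (der (T * M * T) (X p)) := by
      have e1 : (T * M - M * T) * T = T * M * T := by
        rw [Matrix.sub_mul, Matrix.mul_assoc M T T, hT, Matrix.mul_zero, sub_zero]
      have e2 : T * M * T * T = 0 := by rw [Matrix.mul_assoc, hT, Matrix.mul_zero]
      have e3 : linT (T * M - M * T) p = linT (T * M) p - linT (M * T) p := by
        rw [sub_eq_add_neg, linT_add, linT_neg, ← sub_eq_add_neg]
      rw [expT_X, cD_add, cD_mul, cD_C, cD_C, cD_X, der_X, der_X, der_X, der_linT, expT_linT,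
        expT_linT, expT_linT, e1, e2, e3, linT_zero, Polynomial.C_0, Polynomial.C_sub]
      ring
    rw [map_mul, cD_mul, hf, hX]
    simp only [Derivation.leibniz, smul_eq_mul, map_add, map_mul]
    ring

theorem cD_expA {T M : Matrix (Fin 2 × Fin n) (Fin 2 × Fin n) κ} (hT : T * T = 0)
    (G : Polynomial (Rg κ n)) :
    cD M (expA T G) = expA T (cD M G + Polynomial.X * cD (T * M - M * T) G -
      Polynomial.X ^ 2 * cD (T * M * T) G) := by
  induction G using poly_induction with
  | h0 f g hf hg =>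
    rw [map_add, cD_add, hf, hg, cD_add, cD_add, cD_add, ← map_add]
    congr 1
    ring
  | h1 k f =>
    rw [expA_monomial, cD_mul_X_pow, cD_expT hT, cD_monomial, cD_monomial, cD_monomial, map_sub,
      map_add, map_mul, map_mul, map_pow, expA_X, expA_monomial, expA_monomial, expA_monomial]
    ring

/-! ### bidegrees -/

/-- the component map -/
noncomputable abbrev cmp (κ : Type*) [Field κ] (n : ℕ) (m : ℕ × ℕ) : Rg κ n →+ Rg κ n :=
  (weightedHomogeneousComponent (wt n) m : Rg κ n →ₗ[κ] Rg κ n).toAddMonoidHom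

theorem cmp_apply (m : ℕ × ℕ) (f : Rg κ n) :
    cmp κ n m f = weightedHomogeneousComponent (wt n) m f := rfl

theorem linT_homog {T : Matrix (Fin 2 × Fin n) (Fin 2 × Fin n) κ}
    (hTr : ∀ p q, p.1 ≠ q.1 → T p q = 0) (p : Fin 2 × Fin n) :
    linT T p ∈ weightedHomogeneousSubmodule κ (wt n) (wt n p) := by
  unfold linT
  refine Submodule.sum_mem _ fun q _ => ?_
  rw [← smul_eq_C_mul]
  by_cases h : p.1 = q.1
  · refine Submodule.smul_mem _ _ ?_
    have : wt n p = wt n q := by unfold wt; rw [h]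
    rw [this]
    exact isWeightedHomogeneous_X κ (wt n) q
  · rw [hTr p q h, zero_smul]
    exact Submodule.zero_mem _

theorem expT_monomial {T : Matrix (Fin 2 × Fin n) (Fin 2 × Fin n) κ}
    (hTr : ∀ p q, p.1 ≠ q.1 → T p q = 0) (d : (Fin 2 × Fin n) →₀ ℕ) (a : κ) :
    ∃ m, monomial d a ∈ weightedHomogeneousSubmodule κ (wt n) m ∧
      ∀ k, (expT T (monomial d a)).coeff k ∈ weightedHomogeneousSubmodule κ (wt n) m := by
  refine MvPolynomial.induction_on_monomial (motive := fun f : Rg κ n => ∃ m,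
    f ∈ weightedHomogeneousSubmodule κ (wt n) m ∧
      ∀ k, (expT T f).coeff k ∈ weightedHomogeneousSubmodule κ (wt n) m) ?_ ?_ d a
  · intro a
    refine ⟨0, isWeightedHomogeneous_C (wt n) a, fun k => ?_⟩
    rw [expT_C, Polynomial.coeff_C]
    split_ifs
    · exact isWeightedHomogeneous_C (wt n) a
    · exact Submodule.zero_mem _
  · rintro f p ⟨m, hm, hk⟩
    refine ⟨m + wt n p, IsWeightedHomogeneous.mul hm (isWeightedHomogeneous_X κ (wt n) p),
      fun k => ?_⟩
    rw [map_mul, expT_X, mul_add, Polynomial.coeff_add, Polynomial.coeff_mul_C, ← mul_assoc,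
      Polynomial.coeff_mul_C]
    refine Submodule.add_mem _
      (IsWeightedHomogeneous.mul (hk k) (isWeightedHomogeneous_X κ (wt n) p)) ?_
    refine IsWeightedHomogeneous.mul ?_ (linT_homog hTr p)
    rcases k with _ | k
    · rw [Polynomial.coeff_mul_X_zero]
      exact isWeightedHomogeneous_zero κ (wt n) m
    · rw [Polynomial.coeff_mul_X]
      exact hk k

theorem cw_expT {T : Matrix (Fin 2 × Fin n) (Fin 2 × Fin n) κ}
    (hTr : ∀ p q, p.1 ≠ q.1 → T p q = 0) (m : ℕ × ℕ) (f : Rg κ n) :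
    cw (cmp κ n m) (expT T f) = expT T (cmp κ n m f) := by
  classical
  induction f using MvPolynomial.induction_on' with
  | monomial d a =>
    obtain ⟨m', h1, h2⟩ := expT_monomial hTr d a
    rw [cmp_apply, weightedHomogeneousComponent_of_mem h1]
    ext1 k
    rw [coeff_cw, cmp_apply, weightedHomogeneousComponent_of_mem (h2 k)]
    split_ifs
    · rfl
    · rw [map_zero, Polynomial.coeff_zero]
  | add f g hf hg => rw [map_add, cw_add, hf, hg, map_add, map_add]

theorem cw_expA {T : Matrix (Fin 2 × Fin n) (Fin 2 × Fin n) κ}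
    (hTr : ∀ p q, p.1 ≠ q.1 → T p q = 0) (m : ℕ × ℕ) (G : Polynomial (Rg κ n)) :
    cw (cmp κ n m) (expA T G) = expA T (cw (cmp κ n m) G) := by
  induction G using poly_induction with
  | h0 f g hf hg => rw [map_add, cw_add, hf, hg, cw_add, map_add]
  | h1 k f => rw [expA_monomial, cw_mul_X_pow, cw_expT hTr, cw_monomial, expA_monomial]

/-! ### the limit -/

/-- The limit of the ideals `exp(σ der T) J` for `σ → ∞`: all `f` such that `σ ^ Q f + lower terms`
is in `expA T (J[σ])` for some `Q`. -/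
def lim (J : Ideal (Rg κ n)) (T : Matrix (Fin 2 × Fin n) (Fin 2 × Fin n) κ) (hT : T * T = 0) :
    Ideal (Rg κ n) where
  carrier := {f | ∃ (Q : ℕ) (G : Polynomial (Rg κ n)), (∀ i, G.coeff i ∈ J) ∧
    (expA T G).natDegree ≤ Q ∧ (expA T G).coeff Q = f}
  add_mem' := by
    rintro f g ⟨Q₁, G₁, h₁, hd₁, rfl⟩ ⟨Q₂, G₂, h₂, hd₂, rfl⟩
    refine ⟨Q₁ + Q₂, G₁ * Polynomial.X ^ Q₂ + G₂ * Polynomial.X ^ Q₁, fun i => ?_, ?_, ?_⟩
    · rw [Polynomial.coeff_add, Polynomial.coeff_mul_X_pow', Polynomial.coeff_mul_X_pow']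
      refine J.add_mem ?_ ?_
      · split_ifs
        · exact h₁ _
        · exact J.zero_mem
      · split_ifs
        · exact h₂ _
        · exact J.zero_mem
    · rw [map_add, map_mul, map_mul, map_pow, map_pow, expA_X]
      refine Polynomial.natDegree_add_le_of_degree_le ?_ ?_
      · exact Polynomial.natDegree_mul_le_of_le hd₁ (Polynomial.natDegree_X_pow_le Q₂)
      · rw [add_comm]
        exact Polynomial.natDegree_mul_le_of_le hd₂ (Polynomial.natDegree_X_pow_le Q₁)
    · rw [map_add, map_mul, map_mul, map_pow, map_pow, expA_X, Polynomial.coeff_add,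
        Polynomial.coeff_mul_X_pow, add_comm Q₁ Q₂, Polynomial.coeff_mul_X_pow]
  zero_mem' := ⟨0, 0, by simp, by simp, by simp⟩
  smul_mem' := by
    rintro c f ⟨Q, G, h, hd, rfl⟩
    refine ⟨Q, expA (-T) (Polynomial.C c) * G, fun i => ?_, ?_, ?_⟩
    · rw [Polynomial.coeff_mul]
      exact J.sum_mem fun x _ => J.mul_mem_left _ (h _)
    · rw [map_mul, expA_expA_neg hT]
      exact (Polynomial.natDegree_C_mul_le _ _).trans hd
    · rw [map_mul, expA_expA_neg hT, Polynomial.coeff_C_mul, smul_eq_mul]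

theorem mem_lim {J : Ideal (Rg κ n)} {T : Matrix (Fin 2 × Fin n) (Fin 2 × Fin n) κ}
    {hT : T * T = 0} {f : Rg κ n} : f ∈ lim J T hT ↔ ∃ (Q : ℕ) (G : Polynomial (Rg κ n)),
      (∀ i, G.coeff i ∈ J) ∧ (expA T G).natDegree ≤ Q ∧ (expA T G).coeff Q = f := Iff.rfl

theorem isBi_lim {J : Ideal (Rg κ n)} (h : IsBi J) {T : Matrix (Fin 2 × Fin n) (Fin 2 × Fin n) κ}
    (hT : T * T = 0) (hTr : ∀ p q, p.1 ≠ q.1 → T p q = 0) : IsBi (lim J T hT) := by
  rintro f ⟨Q, G, hG, hd, rfl⟩ m
  refine ⟨Q, cw (cmp κ n m) G, fun i => ?_, ?_, ?_⟩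
  · rw [coeff_cw]
    exact h _ (hG i) m
  · rw [← cw_expA hTr]
    exact (natDegree_cw_le _ _).trans hd
  · rw [← cw_expA hTr, coeff_cw]
    rfl

theorem stabD_lim_self {J : Ideal (Rg κ n)} {T : Matrix (Fin 2 × Fin n) (Fin 2 × Fin n) κ}
    (hT : T * T = 0) : StabD (lim J T hT) T := by
  rintro f ⟨Q, G, hG, hd, rfl⟩
  have h1 : expA T (-Polynomial.derivative G) =
      cD T (expA T G) - Polynomial.derivative (expA T G) := by
    have e1 : T * T - T * T = 0 := sub_self _
    have e2 : T * T * T = 0 := by rw [hT, Matrix.zero_mul]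
    have e3 : cD (0 : Matrix (Fin 2 × Fin n) (Fin 2 × Fin n) κ) G = 0 := by
      ext1 k
      rw [coeff_cD, Polynomial.coeff_zero]
      have h := der_smul (0 : κ) (0 : Matrix (Fin 2 × Fin n) (Fin 2 × Fin n) κ) (G.coeff k)
      rwa [zero_smul, zero_smul] at h
    rw [derivative_expA hT, cD_expA hT, e1, e2, e3, mul_zero, mul_zero, add_zero, sub_zero,
      ← map_sub]
    congr 1
    ring
  refine ⟨Q, -Polynomial.derivative G, fun i => ?_, ?_, ?_⟩
  · rw [Polynomial.coeff_neg, Polynomial.coeff_derivative]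
    exact J.neg_mem (J.mul_mem_right _ (hG _))
  · rw [h1]
    refine (Polynomial.natDegree_sub_le _ _).trans (max_le ((natDegree_cw_le _ _).trans hd) ?_)
    exact ((Polynomial.natDegree_derivative_le _).trans (Nat.sub_le _ _)).trans hd
  · rw [h1, Polynomial.coeff_sub, coeff_cD, Polynomial.coeff_derivative,
      Polynomial.coeff_eq_zero_of_natDegree_lt (Nat.lt_succ_of_le hd), zero_mul, sub_zero]

theorem stabD_lim {J : Ideal (Rg κ n)} {T M : Matrix (Fin 2 × Fin n) (Fin 2 × Fin n) κ}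
    (hT : T * T = 0) (h₀ : StabD J M) (h₁ : StabD J (T * M - M * T)) (h₂ : StabD J (T * M * T)) :
    StabD (lim J T hT) M := by
  rintro f ⟨Q, G, hG, hd, rfl⟩
  refine ⟨Q, cD M G + Polynomial.X * cD (T * M - M * T) G -
      Polynomial.X ^ 2 * cD (T * M * T) G, fun i => ?_, ?_, ?_⟩
  · rw [Polynomial.coeff_sub, Polynomial.coeff_add, coeff_cD]
    refine J.sub_mem (J.add_mem (h₀ _ (hG i)) ?_) ?_
    · rcases i with _ | i
      · rw [Polynomial.coeff_X_mul_zero]
        exact J.zero_mem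
      · rw [Polynomial.coeff_X_mul, coeff_cD]
        exact h₁ _ (hG i)
    · rw [mul_comm, Polynomial.coeff_mul_X_pow']
      split_ifs
      · rw [coeff_cD]
        exact h₂ _ (hG _)
      · exact J.zero_mem
  · rw [← cD_expA hT]
    exact (natDegree_cw_le _ _).trans hd
  · rw [← cD_expA hT, coeff_cD]

theorem mem_lim_of_der [CharZero κ] {J : Ideal (Rg κ n)}
    {T : Matrix (Fin 2 × Fin n) (Fin 2 × Fin n) κ}
    (hT : T * T = 0) {f : Rg κ n} (hf : f ∈ J) (hd : der T f = 0) : f ∈ lim J T hT := by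
  have h1 : expT T f = Polynomial.C f := by
    have h2 : Polynomial.derivative (expT T f) = 0 := by rw [derivative_expT hT, hd, map_zero]
    have h3 := Polynomial.derivative_eq_zero.1 h2
    rw [Polynomial.eq_C_of_natDegree_eq_zero h3, coeff_zero_expT]
  refine ⟨0, Polynomial.C f, fun i => ?_, ?_, ?_⟩
  · rw [Polynomial.coeff_C]
    split_ifs
    · exact hf
    · exact J.zero_mem
  · rw [expA_C, h1, Polynomial.natDegree_C]
  · rw [expA_C, h1, Polynomial.coeff_C_zero]

/-! ### the Hilbert function of the limit -/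

theorem lim_finite_bi (κ : Type*) [Field κ] (n s t : ℕ) : FiniteDimensional κ (bi κ n s t) := by
  have h1 : bi κ n s t ≤ weightedHomogeneousSubmodule κ (fun _ => 1) (s + t) := by
    intro f hf d hd
    have h2 : Finsupp.weight (wt n) d = (s, t) := hf hd
    have h4 : Finsupp.weight (wt n) d = ∑ p, d p • wt n p := by
      rw [Finsupp.weight_apply]
      exact Finsupp.sum_fintype _ _ fun _ => zero_smul _ _
    have h5 : Finsupp.weight (fun _ : Fin 2 × Fin n => 1) d = ∑ p, d p • 1 := by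
      rw [Finsupp.weight_apply]
      exact Finsupp.sum_fintype _ _ fun _ => zero_smul _ _
    rw [h4] at h2
    have h6 := congrArg Prod.fst h2
    have h7 := congrArg Prod.snd h2
    rw [Prod.fst_sum] at h6
    rw [Prod.snd_sum] at h7
    rw [h5, ← show (s, t).1 = s from rfl, ← show (s, t).2 = t from rfl, ← h6, ← h7,
      ← Finset.sum_add_distrib]
    refine Finset.sum_congr rfl fun p _ => ?_
    rw [Prod.smul_fst, Prod.smul_snd, smul_eq_mul, smul_eq_mul, smul_eq_mul, ← Nat.mul_add]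
    congr 1
    unfold wt
    split_ifs <;> rfl
  have h2 : FiniteDimensional κ (weightedHomogeneousSubmodule κ (fun _ : Fin 2 × Fin n => 1)
      (s + t)) := Module.Finite.iff_fg.2
    (weightedHomogeneousSubmodule_fg κ (fun _ => 1) (fun _ => one_ne_zero) (s + t))
  exact Submodule.finiteDimensional_of_le h1

theorem free_part (J : Ideal (Rg κ n)) (s t : ℕ) : Module.Free κ (part J s t) := by
  have := @Module.Free.of_divisionRing κ (part J s t) _ (Submodule.addCommGroup (part J s t))
    (part J s t).module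
  exact this

theorem mem_part {J : Ideal (Rg κ n)} {s t : ℕ} {f : bi κ n s t} :
    f ∈ part J s t ↔ (f : Rg κ n) ∈ J := Iff.rfl

theorem coe_part_sum {ι : Type*} {J : Ideal (Rg κ n)} {s t : ℕ} (S : Finset ι) (g : ι → κ)
    (u : ι → part J s t) : (((∑ i ∈ S, g i • u i : part J s t) : bi κ n s t) : Rg κ n) =
      ∑ i ∈ S, g i • ((u i : bi κ n s t) : Rg κ n) := by
  rw [Submodule.coe_sum, Submodule.coe_sum]
  exact Finset.sum_congr rfl fun i _ => rfl

theorem li_coe {ι : Type*} {J : Ideal (Rg κ n)} {s t : ℕ} (u : ι → part J s t) :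
    LinearIndependent κ u ↔ LinearIndependent κ (fun k => ((u k : bi κ n s t) : Rg κ n)) := by
  have e1 := @linearIndependent_iff' ι κ (part J s t) _ (Submodule.addCommGroup (part J s t))
    (part J s t).module u
  refine e1.trans (Iff.trans ?_ linearIndependent_iff'.symm)
  refine forall_congr' fun S => forall_congr' fun g => ?_
  have h : ∑ i ∈ S, g i • u i = 0 ↔ ∑ i ∈ S, g i • ((u i : bi κ n s t) : Rg κ n) = 0 := by
    rw [← coe_part_sum]
    constructor
    · intro h; rw [h]; rfl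
    · intro h; exact Subtype.ext (Subtype.ext h)
  exact imp_congr h Iff.rfl

/-- polynomials in `σ` over `κ` as polynomials over `Rg κ n` -/
noncomputable def io (κ : Type*) [Field κ] (n : ℕ) : Polynomial κ →+* Polynomial (Rg κ n) :=
  Polynomial.mapRingHom (C : κ →+* Rg κ n)

theorem coeff_io (p : Polynomial κ) (k : ℕ) : (io κ n p).coeff k = C (p.coeff k) :=
  Polynomial.coeff_map _ _

theorem expA_io (T : Matrix (Fin 2 × Fin n) (Fin 2 × Fin n) κ) (p : Polynomial κ) :
    expA T (io κ n p) = io κ n p := by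
  have h : (expA T).comp (io κ n) = io κ n := by
    refine Polynomial.ringHom_ext (fun a => ?_) ?_
    · show expA T (io κ n (Polynomial.C a)) = io κ n (Polynomial.C a)
      unfold io
      rw [Polynomial.coe_mapRingHom, Polynomial.map_C, expA_C, expT_C]
    · show expA T (io κ n Polynomial.X) = io κ n Polynomial.X
      unfold io
      rw [Polynomial.coe_mapRingHom, Polynomial.map_X, expA_X]
  exact RingHom.congr_fun h p

theorem natDegree_io_le (p : Polynomial κ) : (io κ n p).natDegree ≤ p.natDegree :=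
  Polynomial.natDegree_map_le

/-- the `κ[σ]`-linear combination of the polynomials `w i` with coefficients `v i` -/
noncomputable def co {r : ℕ} (w : Fin r → Rg κ n) (v : Fin r → Polynomial κ) :
    Polynomial (Rg κ n) := ∑ i, io κ n (v i) * Polynomial.C (w i)

theorem coeff_co {r : ℕ} (w : Fin r → Rg κ n) (v : Fin r → Polynomial κ) (k : ℕ) :
    (co w v).coeff k = ∑ i, (v i).coeff k • w i := by
  unfold co
  rw [Polynomial.finsetSum_coeff]
  exact Finset.sum_congr rfl fun i _ => by
    rw [Polynomial.coeff_mul_C, coeff_io, smul_eq_C_mul]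

theorem co_sum {r : ℕ} {ι : Type*} (w : Fin r → Rg κ n) (S : Finset ι) (c : ι → Polynomial κ)
    (v : ι → Fin r → Polynomial κ) :
    co w (∑ k ∈ S, c k • v k) = ∑ k ∈ S, io κ n (c k) * co w (v k) := by
  unfold co
  simp only [Finset.mul_sum]
  rw [Finset.sum_comm]
  refine Finset.sum_congr rfl fun i _ => ?_
  rw [Finset.sum_apply, map_sum, Finset.sum_mul]
  refine Finset.sum_congr rfl fun k _ => ?_
  rw [Pi.smul_apply, smul_eq_mul, map_mul, mul_assoc]

theorem co_eq_zero {r : ℕ} {w : Fin r → Rg κ n} (hw : LinearIndependent κ w)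
    {v : Fin r → Polynomial κ} (h : co w v = 0) : v = 0 := by
  funext i
  ext k
  have h1 := congrArg (fun G : Polynomial (Rg κ n) => G.coeff k) h
  simp only [coeff_co, Polynomial.coeff_zero] at h1
  exact Fintype.linearIndependent_iff.1 hw (fun i => (v i).coeff k) h1 i

theorem expA_injective {T : Matrix (Fin 2 × Fin n) (Fin 2 × Fin n) κ} (hT : T * T = 0) :
    Function.Injective (expA T) := fun G H h => by
  rw [← expA_neg hT G, h, expA_neg hT]

theorem exists_co {r s t : ℕ} {J : Ideal (Rg κ n)} (b : Module.Basis (Fin r) κ (part J s t))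
    (G : Polynomial (Rg κ n)) (hG : ∀ k, G.coeff k ∈ J) (hG' : ∀ k, G.coeff k ∈ bi κ n s t) :
    ∃ v : Fin r → Polynomial κ, co (fun i => ((b i : bi κ n s t) : Rg κ n)) v = G := by
  refine ⟨fun i => ∑ k ∈ G.support,
    Polynomial.monomial k (b.repr ⟨⟨G.coeff k, hG' k⟩, hG k⟩ i), ?_⟩
  ext1 j
  rw [coeff_co]
  by_cases hj : j ∈ G.support
  · have h1 : ∀ i, (∑ k ∈ G.support,
        Polynomial.monomial k (b.repr ⟨⟨G.coeff k, hG' k⟩, hG k⟩ i)).coeff j =
        b.repr ⟨⟨G.coeff j, hG' j⟩, hG j⟩ i := by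
      intro i
      rw [Polynomial.finsetSum_coeff]
      simp only [Polynomial.coeff_monomial]
      rw [Finset.sum_ite_eq', if_pos hj]
    rw [Finset.sum_congr rfl fun i _ => by rw [h1 i]]
    have h2 := b.sum_repr ⟨⟨G.coeff j, hG' j⟩, hG j⟩
    have h3 := congrArg (fun x : part J s t => ((x : bi κ n s t) : Rg κ n)) h2
    simp only [Submodule.coe_sum, Submodule.coe_smul] at h3
    exact h3
  · have h1 : ∀ i, (∑ k ∈ G.support,
        Polynomial.monomial k (b.repr ⟨⟨G.coeff k, hG' k⟩, hG k⟩ i)).coeff j = 0 := by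
      intro i
      rw [Polynomial.finsetSum_coeff]
      simp only [Polynomial.coeff_monomial]
      rw [Finset.sum_ite_eq', if_neg hj]
    rw [Polynomial.notMem_support_iff.1 hj]
    exact Finset.sum_eq_zero fun i _ => by rw [h1 i, zero_smul]

theorem mem_bi_iff {s t : ℕ} {f : Rg κ n} : f ∈ bi κ n s t ↔ cmp κ n (s, t) f = f := by
  constructor
  · intro h
    exact weightedHomogeneousComponent_eq_self h
  · intro h
    rw [← h]
    exact weightedHomogeneousComponent_mem _ _ _

theorem coeff_expA_mem_bi {T : Matrix (Fin 2 × Fin n) (Fin 2 × Fin n) κ}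
    (hTr : ∀ p q, p.1 ≠ q.1 → T p q = 0) {s t : ℕ} {G : Polynomial (Rg κ n)}
    (hG : ∀ k, G.coeff k ∈ bi κ n s t) (k : ℕ) : (expA T G).coeff k ∈ bi κ n s t := by
  rw [mem_bi_iff, ← coeff_cw, cw_expA hTr]
  congr 2
  ext1 j
  rw [coeff_cw, mem_bi_iff.1 (hG j)]

theorem finrank_part_lim_le {J : Ideal (Rg κ n)} (hb : IsBi J)
    {T : Matrix (Fin 2 × Fin n) (Fin 2 × Fin n) κ}
    (hT : T * T = 0) (hTr : ∀ p q, p.1 ≠ q.1 → T p q = 0) (s t : ℕ) :
    Module.finrank κ (part (lim J T hT) s t) ≤ Module.finrank κ (part J s t) := by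
  have := lim_finite_bi κ n s t
  have := free_part J s t
  have := free_part (lim J T hT) s t
  by_contra hlt
  push Not at hlt
  obtain ⟨w, hw⟩ : ∃ w : Fin (Module.finrank κ (part J s t)) → Rg κ n,
      w = fun i => ((Module.finBasis κ (part J s t) i : bi κ n s t) : Rg κ n) := ⟨_, rfl⟩
  have hlift : ∀ k : Fin (Module.finrank κ (part (lim J T hT) s t)),
      ∃ (Q : ℕ) (v : Fin (Module.finrank κ (part J s t)) → Polynomial κ),
        (expA T (co w v)).natDegree ≤ Q ∧ (expA T (co w v)).coeff Q =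
          ((Module.finBasis κ (part (lim J T hT) s t) k : bi κ n s t) : Rg κ n) := by
    intro k
    obtain ⟨Q, G, hG, hd, hc⟩ := (Module.finBasis κ (part (lim J T hT) s t) k).2
    obtain ⟨v, hv⟩ := exists_co (Module.finBasis κ (part J s t)) (cw (cmp κ n (s, t)) G)
      (fun i => by rw [coeff_cw]; exact hb _ (hG i) _)
      (fun i => by rw [coeff_cw]; exact weightedHomogeneousComponent_mem _ _ _)
    refine ⟨Q, v, ?_, ?_⟩
    · rw [hw, hv, ← cw_expA hTr]
      exact (natDegree_cw_le _ _).trans hd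
    · rw [hw, hv, ← cw_expA hTr, coeff_cw, hc]
      exact mem_bi_iff.1 (Module.finBasis κ (part (lim J T hT) s t) k).1.2
  choose Q v hQ hv using hlift
  have hdep : ¬ LinearIndependent (Polynomial κ) v := fun h => by
    have h1 := h.fintype_card_le_finrank
    rw [Module.finrank_fin_fun, Fintype.card_fin] at h1
    omega
  obtain ⟨p, hp, k₀, hk₀⟩ := Fintype.not_linearIndependent_iff.1 hdep
  classical
  obtain ⟨k₁, hk₁, hmax⟩ := Finset.exists_max_image
    (Finset.univ.filter fun k => p k ≠ 0) (fun k => (p k).natDegree + Q k)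
    ⟨k₀, Finset.mem_filter.2 ⟨Finset.mem_univ _, hk₀⟩⟩
  obtain ⟨D, hD⟩ : ∃ D, D = (p k₁).natDegree + Q k₁ := ⟨_, rfl⟩
  have hle : ∀ k, p k ≠ 0 → (p k).natDegree + Q k ≤ D := fun k hk => by
    rw [hD]; exact hmax k (Finset.mem_filter.2 ⟨Finset.mem_univ _, hk⟩)
  have hzero : ∑ k, io κ n (p k) * expA T (co w (v k)) = 0 := by
    have h1 : co w (∑ k, p k • v k) = 0 := by
      rw [hp]
      ext1 j
      rw [coeff_co]
      exact Finset.sum_eq_zero fun i _ => by
        rw [Pi.zero_apply, Polynomial.coeff_zero, zero_smul]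
    rw [co_sum] at h1
    have h2 := congrArg (expA T) h1
    rw [map_sum, map_zero] at h2
    rw [← h2]
    exact Finset.sum_congr rfl fun k _ => by rw [map_mul, expA_io]
  have hcoef : ∀ k, (io κ n (p k) * expA T (co w (v k))).coeff D =
      (if p k = 0 then 0 else (p k).coeff (D - Q k)) •
        ((Module.finBasis κ (part (lim J T hT) s t) k : bi κ n s t) : Rg κ n) := by
    intro k
    by_cases hk : p k = 0
    · rw [if_pos hk, hk, map_zero, zero_mul, Polynomial.coeff_zero, zero_smul]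
    · rw [if_neg hk]
      have h1 := hle k hk
      have h2 : D = (D - Q k) + Q k := by omega
      conv_lhs => rw [h2]
      rw [Polynomial.coeff_mul_add_eq_of_natDegree_le
        ((natDegree_io_le _).trans (by omega)) (hQ k), hv, coeff_io, smul_eq_C_mul]
  have hsum := congrArg (fun G : Polynomial (Rg κ n) => G.coeff D) hzero
  simp only [Polynomial.finsetSum_coeff, Polynomial.coeff_zero] at hsum
  rw [Finset.sum_congr rfl fun k _ => hcoef k] at hsum
  have hli : LinearIndependent κ fun k =>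
      ((Module.finBasis κ (part (lim J T hT) s t) k : bi κ n s t) : Rg κ n) := by
    exact (li_coe _).1 (Module.finBasis κ (part (lim J T hT) s t)).linearIndependent
  have h3 := Fintype.linearIndependent_iff.1 hli _ hsum k₁
  have hk₁' : p k₁ ≠ 0 := (Finset.mem_filter.1 hk₁).2
  rw [if_neg hk₁'] at h3
  have h4 : D - Q k₁ = (p k₁).natDegree := by omega
  rw [h4] at h3
  exact hk₁' (Polynomial.leadingCoeff_eq_zero.1 h3)

theorem finrank_le_part_lim {J : Ideal (Rg κ n)}
    {T : Matrix (Fin 2 × Fin n) (Fin 2 × Fin n) κ}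
    (hT : T * T = 0) (hTr : ∀ p q, p.1 ≠ q.1 → T p q = 0) (s t : ℕ) :
    Module.finrank κ (part J s t) ≤ Module.finrank κ (part (lim J T hT) s t) := by
  have := lim_finite_bi κ n s t
  have := free_part J s t
  have := free_part (lim J T hT) s t
  obtain ⟨w, hw⟩ : ∃ w : Fin (Module.finrank κ (part J s t)) → Rg κ n,
      w = fun i => ((Module.finBasis κ (part J s t) i : bi κ n s t) : Rg κ n) := ⟨_, rfl⟩
  have hwJ : ∀ i, w i ∈ J := fun i => by
    rw [hw]; exact (Module.finBasis κ (part J s t) i).2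
  have hwb : ∀ i, w i ∈ bi κ n s t := fun i => by
    rw [hw]; exact (Module.finBasis κ (part J s t) i).1.2
  have hwl : LinearIndependent κ w := by
    rw [hw]
    exact (li_coe _).1 (Module.finBasis κ (part J s t)).linearIndependent
  have hcJ : ∀ (v : Fin (Module.finrank κ (part J s t)) → Polynomial κ) (k : ℕ),
      (co w v).coeff k ∈ J := fun v k => by
    rw [coeff_co]
    refine J.sum_mem fun i _ => ?_
    rw [smul_eq_C_mul]
    exact J.mul_mem_left _ (hwJ i)
  have hcb : ∀ (v : Fin (Module.finrank κ (part J s t)) → Polynomial κ) (k : ℕ),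
      (co w v).coeff k ∈ bi κ n s t := fun v k => by
    rw [coeff_co]
    exact Submodule.sum_mem _ fun i _ => Submodule.smul_mem _ _ (hwb i)
  classical
  have hex : ∃ N : ℕ, ∃ q : Matrix (Fin (Module.finrank κ (part J s t)))
      (Fin (Module.finrank κ (part J s t))) (Polynomial κ), q.det ≠ 0 ∧
      ∑ k, (expA T (co w (q k))).natDegree = N :=
    ⟨_, 1, by rw [Matrix.det_one]; exact one_ne_zero, rfl⟩
  obtain ⟨q, hq, hqN⟩ := Nat.find_spec hex
  have hmin : ∀ q' : Matrix (Fin (Module.finrank κ (part J s t)))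
      (Fin (Module.finrank κ (part J s t))) (Polynomial κ), q'.det ≠ 0 →
      ¬ ∑ k, (expA T (co w (q' k))).natDegree < ∑ k, (expA T (co w (q k))).natDegree := by
    intro q' hq' hlt
    rw [hqN] at hlt
    exact Nat.find_min hex hlt ⟨q', hq', rfl⟩
  have hli : LinearIndependent κ fun k => (expA T (co w (q k))).leadingCoeff := by
    by_contra hcon
    obtain ⟨a, ha, k', hk'⟩ := Fintype.not_linearIndependent_iff.1 hcon
    obtain ⟨k₀, hk₀, hmax⟩ := Finset.exists_max_image
      (Finset.univ.filter fun k => a k ≠ 0) (fun k => (expA T (co w (q k))).natDegree)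
      ⟨k', Finset.mem_filter.2 ⟨Finset.mem_univ _, hk'⟩⟩
    have hk₀' : a k₀ ≠ 0 := (Finset.mem_filter.1 hk₀).2
    obtain ⟨d, hd⟩ : ∃ d : Fin (Module.finrank κ (part J s t)) → ℕ,
        ∀ k, d k = (expA T (co w (q k))).natDegree := ⟨_, fun _ => rfl⟩
    have hle : ∀ k, a k ≠ 0 → d k ≤ d k₀ := fun k hk => by
      rw [hd, hd]; exact hmax k (Finset.mem_filter.2 ⟨Finset.mem_univ _, hk⟩)
    obtain ⟨c, hc⟩ : ∃ c : Fin (Module.finrank κ (part J s t)) → Polynomial κ,
        ∀ k, c k = Polynomial.monomial (d k₀ - d k) (a k) := ⟨_, fun _ => rfl⟩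
    have hF : expA T (co w (∑ k, c k • q k)) = ∑ k, io κ n (c k) * expA T (co w (q k)) := by
      refine (congrArg (expA T) (co_sum w Finset.univ c (fun k => q k))).trans ?_
      rw [map_sum]
      exact Finset.sum_congr rfl fun k _ => by rw [map_mul, expA_io]
    have hterm : ∀ k, (io κ n (c k) * expA T (co w (q k))).natDegree ≤ d k₀ ∧
        (io κ n (c k) * expA T (co w (q k))).coeff (d k₀) =
          a k • (expA T (co w (q k))).leadingCoeff := by
      intro k
      by_cases hk : a k = 0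
      · rw [hc, hk, map_zero, map_zero, zero_mul, Polynomial.natDegree_zero,
          Polynomial.coeff_zero, zero_smul]
        exact ⟨Nat.zero_le _, rfl⟩
      · have h1 := hle k hk
        have h2 : d k₀ = (d k₀ - d k) + d k := by omega
        have h3 : (io κ n (c k)).natDegree ≤ d k₀ - d k := by
          refine (natDegree_io_le _).trans ?_
          rw [hc]
          exact Polynomial.natDegree_monomial_le _
        constructor
        · rw [h2]
          exact Polynomial.natDegree_mul_le_of_le h3 (hd k).ge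
        · conv_lhs => rw [h2]
          rw [Polynomial.coeff_mul_add_eq_of_natDegree_le h3 (hd k).ge, coeff_io, hc,
            Polynomial.coeff_monomial, if_pos rfl, smul_eq_C_mul, hd]
          rfl
    have hdeg : (expA T (co w (∑ k, c k • q k))).natDegree ≤ d k₀ := by
      rw [hF]
      exact Polynomial.natDegree_sum_le_of_forall_le _ _ fun k _ => (hterm k).1
    have hcoef : (expA T (co w (∑ k, c k • q k))).coeff (d k₀) = 0 := by
      rw [hF, Polynomial.finsetSum_coeff, Finset.sum_congr rfl fun k _ => (hterm k).2]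
      exact ha
    have hdet : (q.updateRow k₀ (∑ k, c k • q k)).det ≠ 0 := by
      rw [Matrix.det_updateRow_sum, smul_eq_mul]
      refine mul_ne_zero ?_ hq
      rw [hc]
      intro h0
      exact hk₀' ((Polynomial.monomial_eq_zero_iff _ _).1 h0)
    have hne : expA T (co w (∑ k, c k • q k)) ≠ 0 := by
      intro h0
      have h1 : co w (∑ k, c k • q k) = 0 := expA_injective hT (by rw [h0, map_zero])
      have h2 := co_eq_zero hwl h1
      refine hdet (Matrix.det_eq_zero_of_row_eq_zero k₀ fun j => ?_)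
      rw [Matrix.updateRow_self, h2]
      rfl
    have hlt : (expA T (co w (∑ k, c k • q k))).natDegree < d k₀ := by
      refine lt_of_le_of_ne hdeg fun h0 => hne ?_
      rw [← h0] at hcoef
      exact Polynomial.leadingCoeff_eq_zero.1 hcoef
    refine hmin _ hdet (Finset.sum_lt_sum (fun k _ => ?_) ⟨k₀, Finset.mem_univ _, ?_⟩)
    · by_cases hk : k = k₀
      · subst hk
        rw [Matrix.updateRow_self, ← hd]
        exact hlt.le
      · rw [Matrix.updateRow_ne hk]
    · rw [Matrix.updateRow_self, ← hd]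
      exact hlt
  -- the leading coefficients are in the limit
  obtain ⟨u, hu⟩ : ∃ u : Fin (Module.finrank κ (part J s t)) → part (lim J T hT) s t,
      ∀ k, ((u k : bi κ n s t) : Rg κ n) = (expA T (co w (q k))).leadingCoeff :=
    ⟨fun k => ⟨⟨_, coeff_expA_mem_bi hTr (hcb (q k)) _⟩,
      ⟨_, co w (q k), hcJ (q k), le_rfl, rfl⟩⟩, fun k => rfl⟩
  have huli : LinearIndependent κ u := by
    refine (li_coe u).2 ?_
    have h1 : (fun k => ((u k : bi κ n s t) : Rg κ n)) =
        fun k => (expA T (co w (q k))).leadingCoeff := funext fun k => hu k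
    rw [h1]
    exact hli
  have h1 := huli.fintype_card_le_finrank
  rwa [Fintype.card_fin] at h1

theorem HF_lim {J : Ideal (Rg κ n)} (h : IsBi J) {T : Matrix (Fin 2 × Fin n) (Fin 2 × Fin n) κ}
    (hT : T * T = 0) (hTr : ∀ p q, p.1 ≠ q.1 → T p q = 0) (s t : ℕ) :
    HF (lim J T hT) s t = HF J s t := by
  have := lim_finite_bi κ n s t
  unfold HF
  have h1 := Submodule.finrank_quotient_add_finrank (part (lim J T hT) s t)
  have h2 := Submodule.finrank_quotient_add_finrank (part J s t)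
  have h3 := finrank_part_lim_le h hT hTr s t
  have h4 := finrank_le_part_lim (J := J) hT hTr s t
  omega

/-! ### degeneration steps -/

/-- the top part of a bihomogeneous ideal is a sum of top parts of minimal primes -/
theorem lim_closure_stable [CharZero κ] {J : Ideal (Rg κ n)} (hb : IsBi J)
    {D : ℕ} {c : Fin (D + 1) → ℤ} (hc : BP (fun s t => (HF J s t : ℤ)) D c) :
    c ∈ AddSubmonoid.closure {c' : Fin (D + 1) → ℤ | c' ≠ 0 ∧ ∃ 𝔭 : Ideal (Rg κ n), 𝔭.IsPrime ∧
      IsBi 𝔭 ∧ stabM J ≤ stabM 𝔭 ∧ J ≤ 𝔭 ∧ BP (fun s t => (HF 𝔭 s t : ℤ)) D c'} := by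
  refine (AddSubmonoid.closure_le.2 ?_) (mem_closure_primes hb hc)
  rintro c' ⟨𝔭, hp, hpb, hJp, hc'⟩
  by_cases h0 : c' = 0
  · rw [h0]
    exact AddSubmonoid.zero_mem _
  · refine AddSubmonoid.subset_closure ⟨h0, 𝔭, hp, hpb, fun M hM => ?_, hJp, hc'⟩
    exact stabD_minimalPrime (mem_minimalPrimes hb hp hpb hJp hc hc' h0) hM

/-- One degeneration step. -/
theorem step [CharZero κ] {𝔮 : Ideal (Rg κ n)} (hb : IsBi 𝔮)
    {𝔤 : Submodule κ (Matrix (Fin 2 × Fin n) (Fin 2 × Fin n) κ)} (hg : 𝔤 ≤ stabM 𝔮)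
    {T : Matrix (Fin 2 × Fin n) (Fin 2 × Fin n) κ} (hT : T * T = 0)
    (hTr : ∀ p q, p.1 ≠ q.1 → T p q = 0) (hgT : ∀ M ∈ 𝔤, T * M - M * T ∈ 𝔤 ∧ T * M * T ∈ 𝔤)
    {D : ℕ} {c : Fin (D + 1) → ℤ} (hc : BP (fun s t => (HF 𝔮 s t : ℤ)) D c) :
    c ∈ AddSubmonoid.closure {c' : Fin (D + 1) → ℤ | c' ≠ 0 ∧ ∃ 𝔭 : Ideal (Rg κ n), 𝔭.IsPrime ∧
      IsBi 𝔭 ∧ 𝔤 ⊔ Submodule.span κ {T} ≤ stabM 𝔭 ∧ (∀ f ∈ 𝔮, der T f = 0 → f ∈ 𝔭) ∧
      BP (fun s t => (HF 𝔭 s t : ℤ)) D c'} := by
  have hc' : BP (fun s t => (HF (lim 𝔮 T hT) s t : ℤ)) D c := by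
    simp only [HF_lim hb hT hTr]
    exact hc
  refine AddSubmonoid.closure_mono ?_ (lim_closure_stable (isBi_lim hb hT hTr) hc')
  rintro c' ⟨h0, 𝔭, hp, hpb, hst, hle, hbp⟩
  refine ⟨h0, 𝔭, hp, hpb, ?_, fun f hf hd => hle (mem_lim_of_der hT hf hd), hbp⟩
  refine le_trans (sup_le ?_ ?_) hst
  · intro M hM
    exact stabD_lim hT (hg hM) (hg (hgT M hM).1) (hg (hgT M hM).2)
  · rw [Submodule.span_singleton_le_iff_mem]
    exact stabD_lim_self hT

/-- A chain of degenerations. -/
theorem chain [CharZero κ] (L : List (Matrix (Fin 2 × Fin n) (Fin 2 × Fin n) κ))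
    (𝔤 : Submodule κ (Matrix (Fin 2 × Fin n) (Fin 2 × Fin n) κ))
    (hL : ∀ L₁ T L₂, L = L₁ ++ T :: L₂ → T * T = 0 ∧ (∀ p q, p.1 ≠ q.1 → T p q = 0) ∧
      ∀ M ∈ 𝔤 ⊔ Submodule.span κ {M | M ∈ L₁}, T * M - M * T ∈ 𝔤 ⊔ Submodule.span κ {M | M ∈ L₁} ∧
        T * M * T ∈ 𝔤 ⊔ Submodule.span κ {M | M ∈ L₁})
    {𝔮 : Ideal (Rg κ n)} (hb : IsBi 𝔮) (hg : 𝔤 ≤ stabM 𝔮)
    {D : ℕ} {c : Fin (D + 1) → ℤ} (hc : BP (fun s t => (HF 𝔮 s t : ℤ)) D c) :
    c ∈ AddSubmonoid.closure {c' : Fin (D + 1) → ℤ | c' ≠ 0 ∧ ∃ 𝔭 : Ideal (Rg κ n), 𝔭.IsPrime ∧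
      IsBi 𝔭 ∧ 𝔤 ⊔ Submodule.span κ {M | M ∈ L} ≤ stabM 𝔭 ∧
      (∀ f ∈ 𝔮, (∀ T ∈ L, der T f = 0) → f ∈ 𝔭) ∧
      BP (fun s t => (HF 𝔭 s t : ℤ)) D c'} := by
  induction L generalizing 𝔤 𝔮 c with
  | nil =>
    refine AddSubmonoid.closure_mono ?_ (lim_closure_stable hb hc)
    rintro c' ⟨h0, 𝔭, hp, hpb, hst, hle, hbp⟩
    refine ⟨h0, 𝔭, hp, hpb, ?_, fun f hf _ => hle hf, hbp⟩
    refine sup_le (hg.trans hst) ?_
    rw [Submodule.span_le]
    intro M hM
    simp at hM
  | cons T L ih =>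
    have hempty : {M : Matrix (Fin 2 × Fin n) (Fin 2 × Fin n) κ | M ∈ ([] : List _)} = ∅ := by
      ext M; simp
    obtain ⟨hT, hTr, hgT⟩ := hL [] T L rfl
    rw [hempty, Submodule.span_empty, sup_bot_eq] at hgT
    refine (AddSubmonoid.closure_le.2 ?_) (step hb hg hT hTr hgT hc)
    rintro c' ⟨h0, 𝔭, hp, hpb, hst, hle, hbp⟩
    have hcons : ∀ L₁ : List (Matrix (Fin 2 × Fin n) (Fin 2 × Fin n) κ),
        (𝔤 ⊔ Submodule.span κ {T}) ⊔ Submodule.span κ {M | M ∈ L₁} =
          𝔤 ⊔ Submodule.span κ {M | M ∈ T :: L₁} := by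
      intro L₁
      have h1 : {M : Matrix (Fin 2 × Fin n) (Fin 2 × Fin n) κ | M ∈ T :: L₁} =
          {T} ∪ {M | M ∈ L₁} := by
        ext M
        simp
      rw [h1, Submodule.span_union, sup_assoc]
    have h1 := ih (𝔤 ⊔ Submodule.span κ {T}) (by
      intro L₁ T' L₂ hLL
      rw [hcons]
      exact hL (T :: L₁) T' L₂ (by rw [hLL]; rfl)) hpb hst hbp
    refine AddSubmonoid.closure_mono ?_ h1
    rintro c'' ⟨h0', 𝔭', hp', hpb', hst', hle', hbp'⟩
    rw [hcons] at hst'
    refine ⟨h0', 𝔭', hp', hpb', hst', fun f hf hd => ?_, hbp'⟩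
    exact hle' f (hle f hf (hd T List.mem_cons_self)) fun T' hT' =>
      hd T' (List.mem_cons_of_mem _ hT')

end Pool.Agent.GrUp
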