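import Pool.Agent.GrUp.Geo

/-!
# The lower bound (module H)
-/

namespace Pool.Agent.GrUp

open MvPolynomial Pool.Agent.GrCyc

variable {n : ℕ}

/-- Relation between `IsClass` and the top part of the Hilbert polynomial. -/
theorem isClass_iff {k : ℕ} {Z : Set (Gr 2 n)} {v : Fin (k + 3) → ℝ} :
    IsClass k Z v ↔ ∃ c : Fin (k + 2 + 1) → ℤ, BP (fun s t => (HF (idl Z) s t : ℤ)) (k + 2) c ∧
      ∀ a : Fin (k + 3), v a = c a := by
  constructor
  · intro h
    refine IsPoly.of_tendsto (D := k + 2) (isPoly_HF (isBi_idl Z)) v fun s t hs ht => ?_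
    have := h s t hs ht
    simpa only [hil_eq, Int.cast_natCast] using this
  · rintro ⟨c, hc, hv⟩ s t hs ht
    have := hc.tendsto hs ht
    simp only [Int.cast_natCast] at this
    simp only [hil_eq, hv]
    exact this

/-- The real vector of an integral one. -/
def toR (D : ℕ) : (Fin D → ℤ) →+ (Fin D → ℝ) where
  toFun c a := c a
  map_zero' := by ext; simp
  map_add' c c' := by ext; simp

theorem toR_apply {D : ℕ} (c : Fin D → ℤ) (a : Fin D) : toR D c a = c a := rfl

/-- The class of a row stable bihomogeneous prime of degree `k + 2 ≥ n` above `idl X`. -/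
theorem exists_class {k : ℕ} (hk : n ≤ k + 2) {J 𝔮 : Ideal (Rg ℂ n)} (hJ : IsBi J)
    (hr : RowStab J) (hq : 𝔮.IsPrime) (hb : IsBi 𝔮) (hle : J ≤ 𝔮) {c c' : Fin (k + 2 + 1) → ℤ}
    (hc : BP (fun s t => (HF J s t : ℤ)) (k + 2) c)
    (hc' : BP (fun s t => (HF 𝔮 s t : ℤ)) (k + 2) c') (h0 : c' ≠ 0) :
    ∃ Z : Set (Gr 2 n), IsClosed Z ∧ IsIrreducible Z ∧ idl Z = 𝔮 ∧ IsClass k Z (toR (k + 3) c') := by
  have hm := mem_minimalPrimes hJ hq hb hle hc hc' h0
  have hr' : RowStab 𝔮 := ⟨stabD_minimalPrime hm hr.1, stabD_minimalPrime hm hr.2⟩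
  have hmin : ∃ i j : Fin n, minor ℂ i j ∉ 𝔮 := by
    by_contra hcon
    push Not at hcon
    exact h0 (hc'.unique (BP_of_minors hb hcon hk))
  obtain ⟨Z, h1, h2, h3⟩ := exists_of_prime hq hb hr' hmin
  refine ⟨Z, h1, h2, h3, isClass_iff.2 ⟨c', ?_, fun a => rfl⟩⟩
  rw [h3]
  exact hc'

theorem hyp_toR {k : ℕ} (c : Fin (k + 4) → ℤ) (p : Fin (k + 3)) :
    hyp k (toR (k + 4) c) p = (c p.castSucc : ℝ) + c p.succ := rfl

/-- `h · Eff_(k+1)(G) ⊆ Eff_k(X)` for every hypersurface. -/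
theorem lower {k d : ℕ} (hk : n ≤ k + 2) {P : MvPolynomial (Fin 2 ↪o Fin n) ℂ}
    (hP : P.IsHomogeneous d) (hd : 1 ≤ d) (hX : zeros P ≠ Set.univ) :
    hyp k '' effCone (k + 1) (Set.univ : Set (Gr 2 n)) ⊆ effCone k (zeros P) := by
  set B : Set (Fin (k + 3) → ℝ) :=
    {v | ∃ Z : Set (Gr 2 n), Z ⊆ zeros P ∧ IsClosed Z ∧ IsIrreducible Z ∧ IsClass k Z v} with hB
  -- the classes
  have key : ∀ w : Fin (k + 4) → ℝ, (∃ Z : Set (Gr 2 n), Z ⊆ (Set.univ : Set (Gr 2 n)) ∧
      IsClosed Z ∧ IsIrreducible Z ∧ IsClass (k + 1) Z w) → hyp k w ∈ Submodule.span NNReal B := by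
    rintro w ⟨Y, -, hYc, hYi, hYw⟩
    obtain ⟨c, hc, hcw⟩ := isClass_iff.1 hYw
    obtain ⟨V, hV⟩ : ∃ V, V ∉ zeros P := by
      by_contra hcon
      push Not at hcon
      exact hX (Set.eq_univ_of_forall hcon)
    obtain ⟨Y', hYc', hYi', hVY, hhil⟩ := exists_translate hYc hYi V
    have hc2 : BP (fun s t => (HF (idl Y') s t : ℤ)) (k + 2 + 1) c := by
      refine hc.congr 0 fun s t _ _ => ?_
      rw [← hil_eq, ← hil_eq, hhil]
    have hnot : pluP P ∉ idl Y' := by
      rw [pluP_mem_idl hP]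
      exact fun h => hV (h hVY)
    have hbi := isBi_idl Y'
    have hsec := BP_sup_span (isPrime_idl hYc' hYi') hbi (pluP_mem_bi hP) hnot hc2
    have hJb : IsBi (idl Y' ⊔ Ideal.span {pluP P}) := isBi_sup hbi (isBi_span (pluP_mem_bi hP))
    have hJr : RowStab (idl Y' ⊔ Ideal.span {pluP P}) := by
      have hgen : ∀ r r' : Fin 2, r ≠ r' → StabD (idl Y') (rowM ℂ n r r') →
          StabD (idl Y' ⊔ Ideal.span {pluP P}) (rowM ℂ n r r') := by
        intro r r' hrr h f hf
        obtain ⟨a, ha, b, hb, rfl⟩ := Submodule.mem_sup.1 hf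
        obtain ⟨g, rfl⟩ := Ideal.mem_span_singleton'.1 hb
        rw [map_add, Derivation.leibniz, der_pluP hrr, smul_zero, zero_add]
        refine Ideal.add_mem _ (Ideal.mem_sup_left (h a ha)) (Ideal.mem_sup_right ?_)
        rw [smul_eq_mul]
        exact Ideal.mul_mem_right _ _ (Ideal.subset_span rfl)
      exact ⟨hgen 0 1 (by decide) (rowStab_idl Y').1, hgen 1 0 (by decide) (rowStab_idl Y').2⟩
    have hmem := mem_closure_primes hJb hsec
    have hle : AddSubmonoid.closure {c' : Fin (k + 2 + 1) → ℤ | ∃ 𝔮 : Ideal (Rg ℂ n), 𝔮.IsPrime ∧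
        IsBi 𝔮 ∧ idl Y' ⊔ Ideal.span {pluP P} ≤ 𝔮 ∧ BP (fun s t => (HF 𝔮 s t : ℤ)) (k + 2) c'} ≤
        (Submodule.span NNReal B).toAddSubmonoid.comap (toR (k + 3)) := by
      rw [AddSubmonoid.closure_le]
      rintro c' ⟨𝔮, hq, hb, hle, hc'⟩
      by_cases h0 : c' = 0
      · rw [h0]
        exact AddSubmonoid.zero_mem _
      · obtain ⟨Z, h1, h2, h3, h4⟩ := exists_class hk hJb hJr hq hb hle hsec hc' h0
        refine Submodule.subset_span ⟨Z, ?_, h1, h2, h4⟩
        rw [← pluP_mem_idl hP, h3]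
        exact hle (Ideal.mem_sup_right (Ideal.subset_span rfl))
    have h1 := hle hmem
    rw [AddSubmonoid.mem_comap, Submodule.mem_toAddSubmonoid] at h1
    have h2 : hyp k w = ((d : NNReal)⁻¹) • toR (k + 3)
        (fun p => (d : ℤ) * c p.succ + (d : ℤ) * c p.castSucc) := by
      have hd0 : (d : ℝ) ≠ 0 := by
        have : (0 : ℝ) < d := by exact_mod_cast hd
        exact this.ne'
      ext p
      rw [Pi.smul_apply, toR_apply, NNReal.smul_def]
      simp only [NNReal.coe_inv, NNReal.coe_natCast, smul_eq_mul, Int.cast_add, Int.cast_mul,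
        Int.cast_natCast]
      have e1 : hyp k w p = w p.castSucc + w p.succ := rfl
      rw [e1, hcw, hcw]
      field_simp
      ring
    rw [h2]
    exact Submodule.smul_mem _ _ h1
  -- closures
  have hmap : (hyp k) '' (Submodule.span NNReal {w : Fin (k + 1 + 3) → ℝ | ∃ Z : Set (Gr 2 n),
      Z ⊆ (Set.univ : Set (Gr 2 n)) ∧ IsClosed Z ∧ IsIrreducible Z ∧ IsClass (k + 1) Z w} :
        Set (Fin (k + 1 + 3) → ℝ)) ⊆ (Submodule.span NNReal B : Set (Fin (k + 3) → ℝ)) := by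
    rintro _ ⟨w, hw, rfl⟩
    refine Submodule.span_induction (p := fun w _ => hyp k w ∈ Submodule.span NNReal B) ?_ ?_ ?_ ?_ hw
    · exact fun w hw => key w hw
    · rw [map_zero]; exact Submodule.zero_mem _
    · intro x y _ _ hx hy
      rw [map_add]
      exact Submodule.add_mem _ hx hy
    · intro a x _ hx
      have : hyp k (a • x) = a • hyp k x := by
        rw [NNReal.smul_def, map_smul, NNReal.smul_def]
      rw [this]
      exact Submodule.smul_mem _ _ hx
  have hcont : Continuous (hyp k) := LinearMap.continuous_of_finiteDimensional _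
  rintro _ ⟨w, hw, rfl⟩
  have h1 := image_closure_subset_closure_image hcont (Set.mem_image_of_mem (hyp k) hw)
  exact closure_mono hmap h1

theorem hyp_injective {k : ℕ} {w : Fin (k + 4) → ℝ} (h0 : w 0 = 0) (h : hyp k w = 0) : w = 0 := by
  ext p
  induction p using Fin.induction with
  | zero => exact h0
  | succ p ih =>
    have h1 : w p.castSucc + w p.succ = 0 := congrFun h p
    simp only [Pi.zero_apply] at ih ⊢
    rw [ih, zero_add] at h1
    exact h1

/-- The image of the effective cone under `hyp` is closed. -/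
theorem isClosed_hyp {k : ℕ} (hn : 1 ≤ n) (hk : n ≤ k + 2) :
    IsClosed (hyp k '' effCone (k + 1) (Set.univ : Set (Gr 2 n))) := by
  let L : (Fin (k + 4) → ℝ) →ₗ[ℝ] (Fin (k + 3) → ℝ) × ℝ :=
    (hyp k).prod (LinearMap.proj 0)
  have hL : Function.Injective L := by
    rw [← LinearMap.ker_eq_bot, LinearMap.ker_eq_bot']
    intro w hw
    have h1 : hyp k w = 0 := congrArg Prod.fst hw
    have h2 : w 0 = 0 := congrArg Prod.snd hw
    exact hyp_injective h2 h1
  have hemb := LinearMap.isClosedEmbedding_of_injective (f := L) (LinearMap.ker_eq_bot.2 hL)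
  have hsub : effCone (k + 1) (Set.univ : Set (Gr 2 n)) ⊆ {w : Fin (k + 4) → ℝ | w 0 = 0} := by
    refine closure_minimal ?_ (isClosed_eq (continuous_apply 0) continuous_const)
    intro w hw
    refine Submodule.span_induction (p := fun (w : Fin (k + 1 + 3) → ℝ) _ => w 0 = 0) ?_ ?_ ?_ ?_ hw
    · rintro w ⟨Z, -, -, -, hZ⟩
      obtain ⟨c, hc, hcw⟩ := isClass_iff.1 hZ
      rw [hcw 0]
      have := BP_HF_zero (D := k + 1 + 2) hn (by omega) hc
      exact_mod_cast this
    · rfl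
    · intro x y _ _ hx hy
      rw [Pi.add_apply, hx, hy, add_zero]
    · intro a x _ hx
      rw [Pi.smul_apply, hx, smul_zero]
  have hcl : IsClosed (L '' effCone (k + 1) (Set.univ : Set (Gr 2 n))) :=
    hemb.isClosedMap _ isClosed_closure
  have heq : hyp k '' effCone (k + 1) (Set.univ : Set (Gr 2 n)) =
      (fun v : Fin (k + 3) → ℝ => (v, (0 : ℝ))) ⁻¹'
        (L '' effCone (k + 1) (Set.univ : Set (Gr 2 n))) := by
    ext v
    constructor
    · rintro ⟨w, hw, rfl⟩
      exact ⟨w, hw, Prod.ext rfl (hsub hw)⟩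
    · rintro ⟨w, hw, h⟩
      exact ⟨w, hw, congrArg Prod.fst h⟩
  rw [heq]
  exact hcl.preimage (by fun_prop)

end Pool.Agent.GrUp
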