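import Pool.Agent.GrUp.Lie
import Pool.Agent.GrUp.Cell

/-!
# Orbits of the unipotent symplectic group on isotropic planes (module F2)
-/

namespace Pool.Agent.GrUp

open MvPolynomial

variable {κ : Type*} [Field κ] {n : ℕ}

/-- The value of `ω` on the rows of `A`. -/
def omV (A : Fin 2 × Fin n → κ) : κ := ∑ a : Fin n, ∑ b : Fin n, (om n a b : κ) * A (0, a) * A (1, b)

theorem eval_omP (A : Fin 2 × Fin n → κ) : eval A (omP κ n) = omV A := by
  rw [omP_eq]
  unfold omV
  simp only [map_sum, map_mul, eval_C, eval_X, mul_assoc]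

/-- The standard point of the cell `(i,j)`: the rows are `e_i` and `e_j`. -/
def stdA (κ : Type*) [Field κ] (n i j : ℕ) : Fin 2 × Fin n → κ :=
  fun p => if (p.1 = 0 ∧ (p.2 : ℕ) = i) ∨ (p.1 = 1 ∧ (p.2 : ℕ) = j) then 1 else 0

namespace Orb

/-! ### the moves -/

/-- left multiplication by a `2 × 2` matrix -/
def rowAct (g : Matrix (Fin 2) (Fin 2) κ) (A : Fin 2 × Fin n → κ) : Fin 2 × Fin n → κ :=
  fun p => ∑ r, g p.1 r * A (r, p.2)

theorem rowAct_mul (g h : Matrix (Fin 2) (Fin 2) κ) (A : Fin 2 × Fin n → κ) :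
    rowAct g (rowAct h A) = rowAct (g * h) A := by
  ext p
  simp only [rowAct, Matrix.mul_apply, Fin.sum_univ_two]
  ring

theorem rowAct_one (A : Fin 2 × Fin n → κ) : rowAct 1 A = A := by
  ext ⟨r, q⟩
  simp only [rowAct, Fin.sum_univ_two]
  fin_cases r
  · show (1 : Matrix (Fin 2) (Fin 2) κ) 0 0 * A (0, q) + (1 : Matrix (Fin 2) (Fin 2) κ) 0 1 * A (1, q)
      = A (0, q)
    rw [Matrix.one_apply_eq, Matrix.one_apply_ne (by decide)]; ring
  · show (1 : Matrix (Fin 2) (Fin 2) κ) 1 0 * A (0, q) + (1 : Matrix (Fin 2) (Fin 2) κ) 1 1 * A (1, q)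
      = A (1, q)
    rw [Matrix.one_apply_eq, Matrix.one_apply_ne (by decide)]; ring

/-- `ω (row r, e_c)` -/
def wv (A : Fin 2 × Fin n → κ) (r : Fin 2) (c : Fin n) : κ := ∑ j : Fin n, (om n j c : κ) * A (r, j)

theorem wv_eq {A : Fin 2 × Fin n → κ} {r : Fin 2} {c c' : Fin n} (h : (c' : ℕ) + c = nn n) :
    wv A r c = (om n c' c : κ) * A (r, c') := by
  unfold wv
  rw [Finset.sum_eq_single c']
  · intro b _ hb
    have : (b : ℕ) + c ≠ nn n := fun h1 => hb (Fin.ext (by omega))
    rw [om_of_ne this]; simp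
  · intro h; exact absurd (Finset.mem_univ _) h

theorem wv_eq_zero {A : Fin 2 × Fin n → κ} {r : Fin 2} {c : Fin n}
    (h : ∀ c' : Fin n, (c' : ℕ) + c = nn n → A (r, c') = 0) : wv A r c = 0 := by
  unfold wv
  refine Finset.sum_eq_zero fun b _ => ?_
  by_cases hb : (b : ℕ) + c = nn n
  · rw [h b hb, mul_zero]
  · rw [om_of_ne hb]; simp

theorem mulVec_apply (A : Fin 2 × Fin n → κ) (c d : Fin n) (r : Fin 2) (q : Fin n) :
    (colM (Nab κ c d)).mulVec A (r, q) =
      (if q = d then wv A r c else 0) + (if q = c then wv A r d else 0) := by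
  unfold Matrix.mulVec dotProduct
  rw [Fintype.sum_prod_type, Finset.sum_eq_single r]
  · simp only [colM, if_true, Nab, add_mul, Finset.sum_add_distrib]
    unfold wv
    congr 1
    · split_ifs <;> simp
    · split_ifs <;> simp
  · intro r' _ hr
    refine Finset.sum_eq_zero fun j _ => ?_
    simp [colM, hr.symm]
  · intro h; exact absurd (Finset.mem_univ _) h

/-- the move `A ↦ A + a N A` -/
def mv (c d : Fin n) (a : κ) (A : Fin 2 × Fin n → κ) : Fin 2 × Fin n → κ :=
  A + a • (colM (Nab κ c d)).mulVec A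

theorem mv_apply (c d : Fin n) (a : κ) (A : Fin 2 × Fin n → κ) (r : Fin 2) (q : Fin n) :
    mv c d a A (r, q) = A (r, q) +
      a * ((if q = d then wv A r c else 0) + (if q = c then wv A r d else 0)) := by
  unfold mv
  rw [Pi.add_apply, Pi.smul_apply, mulVec_apply, smul_eq_mul]

theorem mv_neg {c d : Fin n} (h : (c : ℕ) + d < nn n) (a : κ) (A : Fin 2 × Fin n → κ) :
    mv c d (-a) (mv c d a A) = A := by
  unfold mv
  rw [Matrix.mulVec_add, Matrix.mulVec_smul, Matrix.mulVec_mulVec, Nab_sq h, Matrix.zero_mulVec,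
    smul_zero, add_zero, neg_smul]
  abel

/-! ### the bilinear form -/

/-- the form `ω` -/
def bl (x y : Fin n → κ) : κ := ∑ a : Fin n, ∑ b : Fin n, (om n a b : κ) * x a * y b

theorem omV_eq (A : Fin 2 × Fin n → κ) : omV A = bl (fun q => A (0, q)) (fun q => A (1, q)) := rfl

theorem bl_add_left (x y z : Fin n → κ) : bl (x + y) z = bl x z + bl y z := by
  simp only [bl, Pi.add_apply, mul_add, add_mul, Finset.sum_add_distrib]

theorem bl_add_right (x y z : Fin n → κ) : bl x (y + z) = bl x y + bl x z := by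
  simp only [bl, Pi.add_apply, mul_add, Finset.sum_add_distrib]

theorem bl_smul_left (k : κ) (x y : Fin n → κ) : bl (k • x) y = k * bl x y := by
  simp only [bl, Pi.smul_apply, smul_eq_mul, Finset.mul_sum]
  exact Finset.sum_congr rfl fun a _ => Finset.sum_congr rfl fun b _ => by ring

theorem bl_smul_right (k : κ) (x y : Fin n → κ) : bl x (k • y) = k * bl x y := by
  simp only [bl, Pi.smul_apply, smul_eq_mul, Finset.mul_sum]
  exact Finset.sum_congr rfl fun a _ => Finset.sum_congr rfl fun b _ => by ring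

theorem bl_swap (x y : Fin n → κ) : bl x y = - bl y x := by
  unfold bl
  rw [Finset.sum_comm, ← Finset.sum_neg_distrib]
  refine Finset.sum_congr rfl fun a _ => ?_
  rw [← Finset.sum_neg_distrib]
  refine Finset.sum_congr rfl fun b _ => ?_
  rw [om_swap' (a := b) (b := a)]; ring

theorem bl_self (x : Fin n → κ) : bl x x = 0 := by
  unfold bl
  rw [← Finset.sum_product']
  refine Finset.sum_involution (fun p _ => (p.2, p.1)) ?_ ?_ ?_ ?_
  · intro p _
    simp only
    rw [om_swap' (a := p.2) (b := p.1)]; ring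
  · intro p _ hp h
    apply hp
    have : p.2 = p.1 := congrArg Prod.fst h
    rw [this, om_self]; simp
  · intro p _; simp
  · intro p _; rfl

/-- the standard vectors -/
def ev (κ : Type*) [Field κ] {n : ℕ} (c : Fin n) : Fin n → κ := Pi.single c 1

theorem bl_ev (x : Fin n → κ) (c : Fin n) : bl x (ev κ c) = ∑ j : Fin n, (om n j c : κ) * x j := by
  unfold bl ev
  refine Finset.sum_congr rfl fun a _ => ?_
  rw [Finset.sum_eq_single c]
  · simp
  · intro b _ hb; simp [hb]
  · intro h; exact absurd (Finset.mem_univ _) h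

theorem wv_bl (A : Fin 2 × Fin n → κ) (r : Fin 2) (c : Fin n) :
    wv A r c = bl (fun q => A (r, q)) (ev κ c) := (bl_ev _ c).symm

theorem bl_ev_ev (c d : Fin n) : bl (ev κ c) (ev κ d) = (om n c d : κ) := by
  rw [bl_ev, Finset.sum_eq_single c]
  · simp [ev]
  · intro b _ hb; simp [ev, hb]
  · intro h; exact absurd (Finset.mem_univ _) h

theorem mv_row (c d : Fin n) (a : κ) (A : Fin 2 × Fin n → κ) (r : Fin 2) :
    (fun q => mv c d a A (r, q)) = (fun q => A (r, q)) +
      a • (wv A r c • ev κ d + wv A r d • ev κ c) := by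
  ext q
  rw [mv_apply]
  simp only [Pi.add_apply, Pi.smul_apply, smul_eq_mul, ev, Pi.single_apply]
  split_ifs <;> ring

theorem omV_rowAct (g : Matrix (Fin 2) (Fin 2) κ) (A : Fin 2 × Fin n → κ) :
    omV (rowAct g A) = g.det * omV A := by
  have h : ∀ r : Fin 2, (fun q => rowAct g A (r, q)) =
      g r 0 • (fun q => A (0, q)) + g r 1 • (fun q => A (1, q)) := by
    intro r; ext q; simp [rowAct, Fin.sum_univ_two]
  rw [omV_eq, omV_eq, h, h, Matrix.det_fin_two]
  simp only [bl_add_left, bl_add_right, bl_smul_left, bl_smul_right, bl_self]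
  rw [bl_swap (fun q => A (1, q)) (fun q => A (0, q))]
  ring

theorem omV_mv {c d : Fin n} (h : (c : ℕ) + d < nn n) (a : κ) (A : Fin 2 × Fin n → κ) :
    omV (mv c d a A) = omV A := by
  have h1 : (om n c d : κ) = 0 := by rw [om_of_ne (by omega)]; simp
  have h2 : (om n d c : κ) = 0 := by rw [om_of_ne (by omega)]; simp
  rw [omV_eq, omV_eq, mv_row, mv_row]
  simp only [bl_add_left, bl_add_right, bl_smul_left, bl_smul_right, bl_self, bl_ev_ev, h1, h2,
    ← wv_bl]
  rw [bl_swap (ev κ d) (fun q => A (1, q)), bl_swap (ev κ c) (fun q => A (1, q)), ← wv_bl, ← wv_bl]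
  ring

/-! ### normal forms -/

/-- normalised matrices of the cell `(i,j)` -/
structure Norm (i j : Fin n) (B : Fin 2 × Fin n → κ) : Prop where
  h0i : B (0, i) = 1
  h0 : ∀ q : Fin n, i < q → B (0, q) = 0
  h1j : B (1, j) = 1
  h1i : B (1, i) = 0
  h1 : ∀ q : Fin n, j < q → B (1, q) = 0

theorem exists_norm {i j : Fin n} (hij : i < j) {A : Fin 2 × Fin n → κ}
    (hA : A ∈ celS κ n i j) (h0 : A (0, i) * A (1, j) ≠ A (0, j) * A (1, i)) :
    ∃ g : Matrix (Fin 2) (Fin 2) κ, g.det ≠ 0 ∧ Norm i j (rowAct g A) := by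
  obtain ⟨hz, hp⟩ := hA
  set Δ := A (0, i) * A (1, j) - A (0, j) * A (1, i) with hΔ
  have hne : Δ ≠ 0 := sub_ne_zero.2 h0
  refine ⟨!![Δ⁻¹ * A (1, j), -(Δ⁻¹ * A (0, j)); -(Δ⁻¹ * A (1, i)), Δ⁻¹ * A (0, i)], ?_, ?_⟩
  · rw [Matrix.det_fin_two_of]
    have : Δ⁻¹ * A (1, j) * (Δ⁻¹ * A (0, i)) - -(Δ⁻¹ * A (0, j)) * -(Δ⁻¹ * A (1, i)) =
        Δ⁻¹ * Δ⁻¹ * Δ := by rw [hΔ]; ring
    rw [this]
    exact mul_ne_zero (mul_ne_zero (inv_ne_zero hne) (inv_ne_zero hne)) hne
  · refine ⟨?_, ?_, ?_, ?_, ?_⟩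
    · simp only [rowAct, Fin.sum_univ_two, Matrix.of_apply, Matrix.cons_val_zero,
        Matrix.cons_val_one, Matrix.cons_val_fin_one]
      have : Δ⁻¹ * A (1, j) * A (0, i) + -(Δ⁻¹ * A (0, j)) * A (1, i) = Δ⁻¹ * Δ := by
        rw [hΔ]; ring
      rw [this, inv_mul_cancel₀ hne]
    · intro q hq
      simp only [rowAct, Fin.sum_univ_two, Matrix.of_apply, Matrix.cons_val_zero,
        Matrix.cons_val_one, Matrix.cons_val_fin_one]
      have h1 := hp q j (by exact hq) (by exact hij)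
      linear_combination Δ⁻¹ * h1
    · simp only [rowAct, Fin.sum_univ_two, Matrix.of_apply, Matrix.cons_val_zero,
        Matrix.cons_val_one, Matrix.cons_val_fin_one]
      have : -(Δ⁻¹ * A (1, i)) * A (0, j) + Δ⁻¹ * A (0, i) * A (1, j) = Δ⁻¹ * Δ := by
        rw [hΔ]; ring
      rw [this, inv_mul_cancel₀ hne]
    · simp only [rowAct, Fin.sum_univ_two, Matrix.of_apply, Matrix.cons_val_zero,
        Matrix.cons_val_one, Matrix.cons_val_fin_one]
      ring
    · intro q hq
      simp only [rowAct, Fin.sum_univ_two, Matrix.of_apply, Matrix.cons_val_zero,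
        Matrix.cons_val_one, Matrix.cons_val_fin_one]
      rw [hz 0 q (by exact hq), hz 1 q (by exact hq)]
      ring

/-! ### killing the coordinates -/

theorem om_ne_zero {a b : Fin n} (h : (a : ℕ) + b = nn n) : (om n a b : κ) ≠ 0 := by
  unfold om
  rw [if_pos h]
  split_ifs <;> simp

section kill

variable {S : Set (Fin 2 × Fin n → κ)}

/-- the first two phases: the second row becomes `e_j` -/
theorem phase1 {i j js : Fin n} (hij : i < j) (hjs : (js : ℕ) + j = nn n) (hji : js < i)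
    (hcol : ∀ A, ∀ (c d : Fin n) (a : κ), (c : ℕ) + d < nn n → (A ∈ S ↔ mv c d a A ∈ S))
    (T : Finset (Fin n)) (hT : ∀ l ∈ T, l < j ∧ l ≠ i ∧ l ≠ js) :
    ∀ A, Norm i j A → omV A = 0 → ∃ B, (A ∈ S ↔ B ∈ S) ∧ Norm i j B ∧ omV B = 0 ∧
      ∀ l ∈ T, B (1, l) = 0 := by
  classical
  induction T using Finset.induction_on with
  | empty => intro A hA h; exact ⟨A, Iff.rfl, hA, h, by simp⟩
  | insert l T hl ih =>
    intro A hA h
    obtain ⟨B, hAB, hB, hBo, hBT⟩ := ih (fun l' hl' => hT l' (Finset.mem_insert_of_mem hl')) A hA h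
    obtain ⟨hlj, hli, hljs⟩ := hT l (Finset.mem_insert_self _ _)
    have hlj' : (l : ℕ) < j := hlj
    have hji' : (js : ℕ) < i := hji
    have hij' : (i : ℕ) < j := hij
    have hsum : (js : ℕ) + l < nn n := by omega
    have hw1 : wv B 1 js = (om n j js : κ) := by
      rw [wv_eq (c' := j) (by omega), hB.h1j, mul_one]
    have hw0 : wv B 0 js = 0 := by
      rw [wv_eq (c' := j) (by omega), hB.h0 j hij, mul_zero]
    have ho : (om n j js : κ) ≠ 0 := om_ne_zero (by omega)
    refine ⟨mv js l (-(B (1, l)) / (om n j js : κ)) B, hAB.trans (hcol _ _ _ _ hsum), ?_,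
      by rw [omV_mv hsum]; exact hBo, ?_⟩
    · have hne : ∀ q : Fin n, q ≠ js → ∀ r, q ≠ l → mv js l (-(B (1, l)) / (om n j js : κ)) B (r, q)
          = B (r, q) := by
        intro q h1 r h2
        rw [mv_apply, if_neg h2, if_neg h1]; ring
      have h0l : ∀ q : Fin n, q ≠ js → mv js l (-(B (1, l)) / (om n j js : κ)) B (0, q)
          = B (0, q) := by
        intro q h1
        rw [mv_apply, if_neg h1, hw0]; simp
      refine ⟨?_, ?_, ?_, ?_, ?_⟩
      · rw [h0l i hji.ne']; exact hB.h0i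
      · intro q hq; rw [h0l q (hji.trans hq).ne']; exact hB.h0 q hq
      · rw [hne j (hji.trans hij).ne' 1 hlj.ne']; exact hB.h1j
      · rw [hne i hji.ne' 1 (fun h => hli h.symm)]; exact hB.h1i
      · intro q hq
        rw [hne q ((hji.trans hij).trans hq).ne' 1 (hlj.trans hq).ne']; exact hB.h1 q hq
    · intro l' hl'
      rcases Finset.mem_insert.1 hl' with rfl | hl'
      · rw [mv_apply, if_pos rfl, if_neg hljs, hw1]
        field_simp
        ring
      · have h1 : l' ≠ js := (hT l' (Finset.mem_insert_of_mem hl')).2.2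
        have h2 : l' ≠ l := fun h => hl (h ▸ hl')
        rw [mv_apply, if_neg h2, if_neg h1, hBT l' hl']; ring

theorem phase2 [CharZero κ] {i j js : Fin n} (hij : i < j) (hjs : (js : ℕ) + j = nn n)
    (hji : js < i)
    (hcol : ∀ A, ∀ (c d : Fin n) (a : κ), (c : ℕ) + d < nn n → (A ∈ S ↔ mv c d a A ∈ S)) :
    ∀ A, Norm i j A → omV A = 0 → ∃ B, (A ∈ S ↔ B ∈ S) ∧ Norm i j B ∧ B (0, js) = 0 ∧
      ∀ q, q ≠ j → B (1, q) = 0 := by
  intro A hA h
  have hji' : (js : ℕ) < i := hji
  have hij' : (i : ℕ) < j := hij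
  obtain ⟨B, hAB, hB, hBo, hBT⟩ := phase1 hij hjs hji hcol
    (Finset.univ.filter fun l => l < j ∧ l ≠ i ∧ l ≠ js) (by simp) A hA h
  have hsum : (js : ℕ) + js < nn n := by omega
  have hw1 : wv B 1 js = (om n j js : κ) := by
    rw [wv_eq (c' := j) (by omega), hB.h1j, mul_one]
  have hw0 : wv B 0 js = 0 := by
    rw [wv_eq (c' := j) (by omega), hB.h0 j hij, mul_zero]
  have ho : (om n j js : κ) ≠ 0 := om_ne_zero (by omega)
  set a : κ := -(B (1, js)) / (2 * (om n j js : κ)) with ha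
  set B' := mv js js a B with hB'
  have hne : ∀ q : Fin n, q ≠ js → ∀ r, B' (r, q) = B (r, q) := by
    intro q h1 r
    rw [hB', mv_apply, if_neg h1]; ring
  have h0l : ∀ q : Fin n, B' (0, q) = B (0, q) := by
    intro q
    rw [hB', mv_apply, hw0]; simp
  have hN : Norm i j B' := by
    refine ⟨?_, ?_, ?_, ?_, ?_⟩
    · rw [h0l]; exact hB.h0i
    · intro q hq; rw [h0l]; exact hB.h0 q hq
    · rw [hne j (hji.trans hij).ne' 1]; exact hB.h1j
    · rw [hne i hji.ne' 1]; exact hB.h1i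
    · intro q hq
      rw [hne q ((hji.trans hij).trans hq).ne' 1]; exact hB.h1 q hq
  have hrow : ∀ q, q ≠ j → B' (1, q) = 0 := by
    intro q hq
    by_cases h1 : q = js
    · rw [h1, hB', mv_apply, if_pos rfl, hw1, ha]
      field_simp
      ring
    · rw [hne q h1 1]
      rcases lt_or_gt_of_ne hq with h2 | h2
      · by_cases h3 : q = i
        · rw [h3]; exact hB.h1i
        · exact hBT q (by simp [h1, h2, h3])
      · exact hB.h1 q h2
  refine ⟨B', hAB.trans (hcol _ _ _ _ hsum), hN, ?_, hrow⟩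
  have hiso : omV B' = 0 := by rw [hB', omV_mv hsum]; exact hBo
  have h1 : (fun q => B' (1, q)) = ev κ j := by
    ext q
    by_cases hq : q = j
    · rw [hq, hN.h1j]; simp [ev]
    · rw [hrow q hq]; simp [ev, hq]
  rw [omV_eq, h1, ← wv_bl, wv_eq (c' := js) hjs] at hiso
  exact (mul_eq_zero.1 hiso).resolve_left (om_ne_zero hjs)

theorem phase3 {i j js is : Fin n} (hij : i < j) (hjs : (js : ℕ) + j = nn n) (hji : js < i)
    (his : (is : ℕ) + i = nn n)
    (hcol : ∀ A, ∀ (c d : Fin n) (a : κ), (c : ℕ) + d < nn n → (A ∈ S ↔ mv c d a A ∈ S))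
    (T : Finset (Fin n)) (hT : ∀ l ∈ T, l < i ∧ l ≠ js ∧ l ≠ is) :
    ∀ A, Norm i j A → A (0, js) = 0 → (∀ q, q ≠ j → A (1, q) = 0) →
      ∃ B, (A ∈ S ↔ B ∈ S) ∧ Norm i j B ∧ B (0, js) = 0 ∧ (∀ q, q ≠ j → B (1, q) = 0) ∧
      ∀ l ∈ T, B (0, l) = 0 := by
  classical
  induction T using Finset.induction_on with
  | empty => intro A hA h1 h2; exact ⟨A, Iff.rfl, hA, h1, h2, by simp⟩
  | insert l T hl ih =>
    intro A hA h1 h2
    obtain ⟨B, hAB, hB, hBs, hB1, hBT⟩ :=
      ih (fun l' hl' => hT l' (Finset.mem_insert_of_mem hl')) A hA h1 h2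
    obtain ⟨hli, hljs, hlis⟩ := hT l (Finset.mem_insert_self _ _)
    have hli' : (l : ℕ) < i := hli
    have hji' : (js : ℕ) < i := hji
    have hij' : (i : ℕ) < j := hij
    have hodd := nn_odd (n := n) (by have := i.2; omega)
    have hsum : (is : ℕ) + l < nn n := by omega
    have hisi : is ≠ i := fun h => by have := congrArg Fin.val h; omega
    have hisjs : is ≠ js := fun h => by have := congrArg Fin.val h; omega
    have hw0 : wv B 0 is = (om n i is : κ) := by
      rw [wv_eq (c' := i) (by omega), hB.h0i, mul_one]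
    have hw1 : wv B 1 is = 0 := by
      rw [wv_eq (c' := i) (by omega), hB.h1i, mul_zero]
    have hw1l : wv B 1 l = 0 := by
      refine wv_eq_zero fun c' hc' => hB1 c' fun h => hljs (Fin.ext ?_)
      rw [h] at hc'; omega
    have ho : (om n i is : κ) ≠ 0 := om_ne_zero (by omega)
    set a : κ := -(B (0, l)) / (om n i is : κ) with ha
    set B' := mv is l a B with hB'
    have hr1 : ∀ q, B' (1, q) = B (1, q) := by
      intro q; rw [hB', mv_apply, hw1, hw1l]; simp
    have hr0 : ∀ q, q ≠ l → q ≠ is → B' (0, q) = B (0, q) := by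
      intro q h3 h4; rw [hB', mv_apply, if_neg h3, if_neg h4]; ring
    have hisq : i < is → B' (0, is) = 0 := by
      intro hlt
      have hlt' : (i : ℕ) < is := hlt
      rw [hB', mv_apply, if_neg (fun h => hlis h.symm), if_pos rfl, hB.h0 is hlt]
      rw [wv_eq_zero fun c' hc' => hB.h0 c' (by
        show (i : ℕ) < c'
        omega)]
      ring
    refine ⟨B', hAB.trans (hcol _ _ _ _ hsum), ⟨?_, ?_, ?_, ?_, ?_⟩, ?_, ?_, ?_⟩
    · rw [hr0 i hli.ne' (fun h => hisi h.symm)]; exact hB.h0i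
    · intro q hq
      by_cases h3 : q = is
      · rw [h3]; exact hisq (h3 ▸ hq)
      · rw [hr0 q (hli.trans hq).ne' h3]; exact hB.h0 q hq
    · rw [hr1]; exact hB.h1j
    · rw [hr1]; exact hB.h1i
    · intro q hq; rw [hr1]; exact hB.h1 q hq
    · rw [hr0 js (fun h => hljs h.symm) (fun h => hisjs h.symm)]; exact hBs
    · intro q hq; rw [hr1]; exact hB1 q hq
    · intro l' hl'
      rcases Finset.mem_insert.1 hl' with rfl | hl'
      · rw [hB', mv_apply, if_pos rfl, if_neg hlis, hw0, ha]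
        field_simp
        ring
      · have h3 : l' ≠ is := (hT l' (Finset.mem_insert_of_mem hl')).2.2
        have h4 : l' ≠ l := fun h => hl (h ▸ hl')
        rw [hr0 l' h4 h3, hBT l' hl']

theorem phase4 [CharZero κ] {i j js is : Fin n} (hij : i < j) (hjs : (js : ℕ) + j = nn n)
    (hji : js < i) (his : (is : ℕ) + i = nn n)
    (hcol : ∀ A, ∀ (c d : Fin n) (a : κ), (c : ℕ) + d < nn n → (A ∈ S ↔ mv c d a A ∈ S)) :
    ∀ A, Norm i j A → A (0, js) = 0 → (∀ q, q ≠ j → A (1, q) = 0) →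
      (A ∈ S ↔ stdA κ n i j ∈ S) := by
  intro A hA h1 h2
  obtain ⟨B, hAB, hB, hBs, hB1, hBT⟩ := phase3 hij hjs hji his hcol
    (Finset.univ.filter fun l => l < i ∧ l ≠ js ∧ l ≠ is) (by simp) A hA h1 h2
  have hji' : (js : ℕ) < i := hji
  have hij' : (i : ℕ) < j := hij
  have hodd := nn_odd (n := n) (by have := i.2; omega)
  have hisi : is ≠ i := fun h => by have := congrArg Fin.val h; omega
  have fin : ∀ C : Fin 2 × Fin n → κ, C (0, i) = 1 → (∀ q, q ≠ i → C (0, q) = 0) →
      C (1, j) = 1 → (∀ q, q ≠ j → C (1, q) = 0) → C = stdA κ n i j := by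
    intro C c1 c2 c3 c4
    ext ⟨r, q⟩
    unfold stdA
    fin_cases r
    · by_cases hq : q = i
      · subst hq; simp [c1]
      · have : ¬ ((q : ℕ) = i) := fun h => hq (Fin.ext h)
        simp [c2 q hq, this]
    · by_cases hq : q = j
      · subst hq; simp [c3]
      · have : ¬ ((q : ℕ) = j) := fun h => hq (Fin.ext h)
        simp [c4 q hq, this]
  rcases lt_or_gt_of_ne hisi with hlt | hlt
  · have hlt' : (is : ℕ) < i := hlt
    have hsum : (is : ℕ) + is < nn n := by omega
    have hw0 : wv B 0 is = (om n i is : κ) := by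
      rw [wv_eq (c' := i) (by omega), hB.h0i, mul_one]
    have hw1 : wv B 1 is = 0 := by
      rw [wv_eq (c' := i) (by omega), hB.h1i, mul_zero]
    have ho : (om n i is : κ) ≠ 0 := om_ne_zero (by omega)
    set a : κ := -(B (0, is)) / (2 * (om n i is : κ)) with ha
    have hfin := fin (mv is is a B) (by
        rw [mv_apply, if_neg hlt.ne']; simp [hB.h0i]) (by
        intro q hq
        by_cases h3 : q = is
        · rw [h3, mv_apply, if_pos rfl, hw0, ha]
          field_simp
          ring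
        · rw [mv_apply, if_neg h3]
          rcases lt_or_gt_of_ne hq with h4 | h4
          · by_cases h5 : q = js
            · rw [h5, hBs]; simp
            · rw [hBT q (by simp [h3, h4, h5])]; simp
          · rw [hB.h0 q h4]; simp) (by
        rw [mv_apply, hw1, hB.h1j]; simp) (by
        intro q hq
        rw [mv_apply, hw1, hB1 q hq]; simp)
    rw [hAB, hcol B is is a hsum, hfin]
  · rw [hAB, fin B hB.h0i (by
        intro q hq
        rcases lt_or_gt_of_ne hq with h4 | h4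
        · by_cases h5 : q = js
          · rw [h5, hBs]
          · exact hBT q (by simp [h4, h5, (h4.trans hlt).ne])
        · exact hB.h0 q h4) hB.h1j hB1]

end kill

end Orb

open Orb

/-- If a set `S` of matrices is stable under left multiplication by `GL_2` and under all
`1 + a Nab c d`, `c + d < nn n`, then an isotropic matrix `A ∈ celS i j` whose minor `(i,j)` does not
vanish is in `S` if and only if the standard point is in `S`. -/
theorem mem_iff_stdA [CharZero κ] {S : Set (Fin 2 × Fin n → κ)}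
    (hrow : ∀ A ∈ S, ∀ g : Matrix (Fin 2) (Fin 2) κ, g.det ≠ 0 →
      (fun p : Fin 2 × Fin n => ∑ r, g p.1 r * A (r, p.2)) ∈ S)
    (hcol : ∀ A ∈ S, ∀ (c d : Fin n) (a : κ), (c : ℕ) + d < nn n →
      A + a • (colM (Nab κ c d)).mulVec A ∈ S)
    {i j : ℕ} (hij : i < j) (hj : j < n) (hsum : nn n < i + j) {A : Fin 2 × Fin n → κ}
    (hA : A ∈ celS κ n i j) (hω : omV A = 0)
    (h0 : A (0, ⟨i, hij.trans hj⟩) * A (1, ⟨j, hj⟩) ≠ A (0, ⟨j, hj⟩) * A (1, ⟨i, hij.trans hj⟩)) :
    A ∈ S ↔ stdA κ n i j ∈ S := by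
  have hnn : n - 1 ≤ nn n := by unfold nn; omega
  have hcol' : ∀ A, ∀ (c d : Fin n) (a : κ), (c : ℕ) + d < nn n → (A ∈ S ↔ mv c d a A ∈ S) := by
    intro A c d a h
    refine ⟨fun hA => hcol A hA c d a h, fun hA => ?_⟩
    have := hcol _ hA c d (-a) h
    have h2 := mv_neg h a A
    unfold mv at h2 hA
    unfold mv at this
    rwa [h2] at this
  have hrow' : ∀ A, ∀ g : Matrix (Fin 2) (Fin 2) κ, g.det ≠ 0 → (A ∈ S ↔ rowAct g A ∈ S) := by
    intro A g hg
    refine ⟨fun hA => hrow A hA g hg, fun hA => ?_⟩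
    have hu : IsUnit g.det := isUnit_iff_ne_zero.2 hg
    have h1 := hrow _ hA g⁻¹ (by
      rw [Matrix.det_nonsing_inv, Ring.inverse_eq_inv']
      exact inv_ne_zero hg)
    have h2 : rowAct g⁻¹ (rowAct g A) = A := by
      rw [rowAct_mul, Matrix.nonsing_inv_mul g hu, rowAct_one]
    have h3 : rowAct g⁻¹ (rowAct g A) ∈ S := h1
    rwa [h2] at h3
  obtain ⟨g, hg, hN⟩ := exists_norm (i := ⟨i, hij.trans hj⟩) (j := ⟨j, hj⟩) hij hA h0
  have hiso : omV (rowAct g A) = 0 := by rw [omV_rowAct, hω, mul_zero]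
  obtain ⟨B, hAB, hB, hBs, hB1⟩ := phase2 (S := S) (i := ⟨i, hij.trans hj⟩) (j := ⟨j, hj⟩)
    (js := ⟨nn n - j, by omega⟩) hij (by simp only; omega) (by
      show nn n - j < i
      omega) hcol' _ hN hiso
  have h4 := phase4 (S := S) (i := ⟨i, hij.trans hj⟩) (j := ⟨j, hj⟩)
    (js := ⟨nn n - j, by omega⟩) (is := ⟨nn n - i, by omega⟩) hij (by simp only; omega) (by
      show nn n - j < i
      omega) (by simp only; omega) hcol' B hB hBs hB1
  rw [hrow' A g hg, hAB, h4]

/-- There are no isotropic planes in the cell `(i,j)` with `i + j = nn n`. -/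
theorem omV_ne_zero {i j : ℕ} (hij : i < j) (hj : j < n) (hsum : i + j = nn n)
    {A : Fin 2 × Fin n → κ} (hA : A ∈ celS κ n i j)
    (h0 : A (0, ⟨i, hij.trans hj⟩) * A (1, ⟨j, hj⟩) ≠ A (0, ⟨j, hj⟩) * A (1, ⟨i, hij.trans hj⟩)) :
    omV A ≠ 0 := by
  obtain ⟨g, hg, hN⟩ := exists_norm (i := ⟨i, hij.trans hj⟩) (j := ⟨j, hj⟩) hij hA h0
  intro hz
  have h1 : omV (rowAct g A) = 0 := by rw [omV_rowAct, hz, mul_zero]
  apply om_ne_zero (κ := κ) (a := ⟨i, hij.trans hj⟩) (b := ⟨j, hj⟩) hsum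
  rw [← h1]
  unfold omV
  rw [Finset.sum_eq_single ⟨i, hij.trans hj⟩]
  · rw [Finset.sum_eq_single ⟨j, hj⟩]
    · rw [hN.h0i, hN.h1j]; ring
    · intro b _ hb
      have : (i : ℕ) + b ≠ nn n := fun h => hb (Fin.ext (by simp only; omega))
      rw [om_of_ne (by simpa using this)]; simp
    · intro h; exact absurd (Finset.mem_univ _) h
  · intro a _ ha
    refine Finset.sum_eq_zero fun b _ => ?_
    by_cases hab : (a : ℕ) + b = nn n
    · rcases lt_or_gt_of_ne ha with h2 | h2
      · have h3 : (a : ℕ) < i := h2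
        rw [hN.h1 b (by show j < (b : ℕ); omega)]; ring
      · rw [hN.h0 a h2]; ring
    · rw [om_of_ne hab]; simp
  · intro h; exact absurd (Finset.mem_univ _) h

/-- `ω` does not vanish on `celS i j` if `nn n ≤ i + j`. -/
theorem omP_not_mem [Infinite κ] {i j : ℕ} (hij : i < j) (hj : j < n) (hsum : nn n ≤ i + j) :
    omP κ n ∉ celI κ n i j := by
  have hnn : n - 1 ≤ nn n := by unfold nn; omega
  have hi : nn n - j < n := by omega
  intro h
  have hmem : stdA κ n (nn n - j) j ∈ celS κ n i j := by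
    refine ⟨?_, ?_⟩
    · intro r q hq
      unfold stdA
      rw [if_neg]
      rintro (⟨-, h2⟩ | ⟨-, h2⟩)
      · simp only at h2; omega
      · simp only at h2; omega
    · intro q q' hq hq'
      have e : ∀ q : Fin n, i < q → stdA κ n (nn n - j) j (0, q) = 0 := by
        intro q hq
        unfold stdA
        rw [if_neg]
        rintro (⟨-, h2⟩ | ⟨h2, -⟩)
        · simp only at h2; omega
        · exact absurd (show (0 : Fin 2) = 1 from h2) (by decide)
      rw [e q hq, e q' hq']; ring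
  have h1 := h _ hmem
  rw [eval_omP] at h1
  apply om_ne_zero (κ := κ) (a := ⟨nn n - j, hi⟩) (b := ⟨j, hj⟩) (by simp only; omega)
  rw [← h1]
  unfold omV
  rw [Finset.sum_eq_single ⟨nn n - j, hi⟩]
  · rw [Finset.sum_eq_single ⟨j, hj⟩]
    · simp [stdA]
    · intro b _ hb
      have : ¬ ((b : ℕ) = j) := fun h => hb (Fin.ext h)
      simp [stdA, this]
    · intro h; exact absurd (Finset.mem_univ _) h
  · intro a _ ha
    refine Finset.sum_eq_zero fun b _ => ?_
    have : ¬ ((a : ℕ) = nn n - j) := fun h => ha (Fin.ext h)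
    simp [stdA, this]
  · intro h; exact absurd (Finset.mem_univ _) h

end Pool.Agent.GrUp
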