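import Mathlib

/-!
# Places of `ℂ` with prescribed values at algebraically independent elements (module D4)
-/

namespace Pool.Agent.GrUp

open IsLocalRing

/-- If the `p i` are algebraically independent over `ℚ` then there is a place of `ℂ` with values in a
field of characteristic `0` which sends `p i` to the integer `c i` for all `i`. -/
theorem exists_valuationSubring {ι : Type*} (p : ι → ℂ) (hp : AlgebraicIndependent ℚ p) (c : ι → ℤ) :
    ∃ V : ValuationSubring ℂ, CharZero (ResidueField V) ∧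
      ∀ i, ∃ h : p i ∈ V, residue V ⟨p i, h⟩ = (c i : ResidueField V) := by
  let φ : MvPolynomial ι ℚ →+* ℂ := (MvPolynomial.aeval (R := ℚ) p).toRingHom
  have hφ : Function.Injective φ := hp
  let A : Subring ℂ := φ.range
  let e : MvPolynomial ι ℚ →+* A := φ.rangeRestrict
  have he : Function.Bijective e :=
    ⟨fun x y h => hφ (congrArg Subtype.val h), φ.rangeRestrict_surjective⟩
  let ε : MvPolynomial ι ℚ ≃+* A := RingEquiv.ofBijective e he
  let ψ : A →+* ℚ := (MvPolynomial.eval (fun i => (c i : ℚ))).comp ε.symm.toRingHom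
  have hψ : ∀ f, ψ (ε f) = MvPolynomial.eval (fun i => (c i : ℚ)) f := by
    intro f
    show MvPolynomial.eval (fun i => (c i : ℚ)) (ε.symm (ε f)) = _
    rw [ε.symm_apply_apply]
  obtain ⟨V, hV1, hV2⟩ := Ideal.image_subset_nonunits_valuationSubring (RingHom.ker ψ)
    (RingHom.ker_ne_top ψ)
  have hmem : ∀ f, φ f ∈ V := fun f => hV1 ⟨f, rfl⟩
  refine ⟨V, ?_, fun i => ⟨?_, ?_⟩⟩
  · apply charZero_of_inj_zero
    intro m hm
    by_contra hm0
    have h1 : ((m : V) : V) ∈ maximalIdeal V := by
      rw [← residue_eq_zero_iff, map_natCast]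
      exact hm
    have h2 : IsUnit (m : V) := by
      rw [isUnit_iff_exists_inv]
      refine ⟨⟨φ (MvPolynomial.C (m : ℚ)⁻¹), hmem _⟩, ?_⟩
      apply Subtype.ext
      show ((m : V) : ℂ) * φ (MvPolynomial.C (m : ℚ)⁻¹) = 1
      have h3 : ((m : V) : ℂ) = φ (MvPolynomial.C (m : ℚ)) := by
        rw [map_natCast, map_natCast]
        rfl
      rw [h3, ← map_mul, ← map_mul, mul_inv_cancel₀ (Nat.cast_ne_zero.2 hm0), map_one, map_one]
    exact (mem_maximalIdeal _).1 h1 h2
  · have h1 := hmem (MvPolynomial.X i)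
    have h2 : φ (MvPolynomial.X i) = p i := MvPolynomial.aeval_X _ _
    rwa [h2] at h1
  · have h2 : φ (MvPolynomial.X i) = p i := MvPolynomial.aeval_X _ _
    have h3 : ε (MvPolynomial.X i - MvPolynomial.C (c i : ℚ)) ∈ RingHom.ker ψ := by
      rw [RingHom.mem_ker, hψ, map_sub, MvPolynomial.eval_X, MvPolynomial.eval_C, sub_self]
    have h4 : p i - (c i : ℂ) ∈ V.nonunits := by
      apply hV2
      refine ⟨_, h3, ?_⟩
      show φ (MvPolynomial.X i - MvPolynomial.C (c i : ℚ)) = _
      rw [map_sub, h2, map_intCast, map_intCast]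
    have h5 : p i ∈ V := by rw [← h2]; exact hmem _
    have h6 : ((⟨p i, h5⟩ - (c i : V) : V) : ℂ) ∈ V.nonunits := h4
    have h7 := (V.coe_mem_nonunits_iff).1 h6
    rw [← residue_eq_zero_iff, map_sub, map_intCast, sub_eq_zero] at h7
    exact h7

end Pool.Agent.GrUp
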