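import Pool.Agent.GrUp.Hilb

/-!
# Reduction of ideals modulo a valuation (module D)
-/

namespace Pool.Agent.GrUp

open MvPolynomial IsLocalRing Module

namespace RedAux

section General

variable {K : Type*} [Field K] (O : ValuationSubring K) {σ : Type*}
/-- the reduction of polynomials with coefficients in the valuation ring -/
noncomputable def redPoly : MvPolynomial σ O →+* MvPolynomial σ (ResidueField O) :=
  MvPolynomial.map (residue O)

/-- the inclusion of polynomials with coefficients in the valuation ring -/
noncomputable def incPoly : MvPolynomial σ O →+* MvPolynomial σ K :=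
  MvPolynomial.map (algebraMap O K)

lemma redPoly_surjective : Function.Surjective (redPoly O (σ := σ)) :=
  MvPolynomial.map_surjective _ residue_surjective

lemma incPoly_injective : Function.Injective (incPoly O (σ := σ)) :=
  MvPolynomial.map_injective _ (IsFractionRing.injective O K)

lemma coeff_redPoly (p : MvPolynomial σ O) (m : σ →₀ ℕ) :
    coeff m (redPoly O p) = residue O (coeff m p) := coeff_map _ _ _

lemma coeff_incPoly (p : MvPolynomial σ O) (m : σ →₀ ℕ) :
    coeff m (incPoly O p) = algebraMap O K (coeff m p) := coeff_map _ _ _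

lemma redPoly_C_mul (c : O) (p : MvPolynomial σ O) :
    redPoly O (C c * p) = residue O c • redPoly O p := by
  rw [map_mul, redPoly, map_C, ← smul_eq_C_mul]

lemma incPoly_C_mul (c : O) (p : MvPolynomial σ O) :
    incPoly O (C c * p) = (c : K) • incPoly O p := by
  rw [map_mul, incPoly, map_C, ← smul_eq_C_mul]
  rfl

/-- every nonzero polynomial becomes primitive after multiplication by a nonzero constant -/
lemma exists_scale {p : MvPolynomial σ K} (hp : p ≠ 0) :
    ∃ (c : K) (q : MvPolynomial σ O) (m : σ →₀ ℕ), c ≠ 0 ∧ c • p = incPoly O q ∧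
      coeff m q = 1 := by
  classical
  obtain ⟨m, hm, hmax⟩ := p.support.exists_max_image (fun m => O.valuation (coeff m p))
    (Finset.nonempty_of_ne_empty fun h => hp (support_eq_empty.1 h))
  have hm0 : coeff m p ≠ 0 := mem_support_iff.1 hm
  have hmem : ∀ l, (coeff m p)⁻¹ * coeff l p ∈ O := by
    intro l
    by_cases hl : l ∈ p.support
    · rw [← O.valuation_le_one_iff, map_mul, map_inv₀]
      have h0 : O.valuation (coeff m p) ≠ 0 := (Valuation.ne_zero_iff _).2 hm0
      rw [mul_comm, ← div_eq_mul_inv]
      exact (div_le_one₀ (zero_lt_iff.2 h0)).2 (hmax l hl)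
    · rw [notMem_support_iff.1 hl, mul_zero]
      exact O.zero_mem
  refine ⟨(coeff m p)⁻¹, ∑ l ∈ p.support, monomial l ⟨_, hmem l⟩, m, inv_ne_zero hm0, ?_, ?_⟩
  · ext l
    rw [coeff_smul, smul_eq_mul, coeff_incPoly, coeff_sum]
    simp only [coeff_monomial]
    rw [Finset.sum_ite_eq' p.support l]
    split_ifs with h
    · rfl
    · rw [notMem_support_iff.1 h, mul_zero]
      rfl
  · rw [coeff_sum]
    simp only [coeff_monomial]
    rw [Finset.sum_ite_eq' p.support m, if_pos hm]
    apply Subtype.ext
    exact inv_mul_cancel₀ hm0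

/-- linear independence of the reductions implies linear independence -/
theorem linearIndependent_of_red {κ : Type*} {b : κ → MvPolynomial σ O}
    (h : LinearIndependent (ResidueField O) (fun i => redPoly O (b i))) :
    LinearIndependent K (fun i => incPoly O (b i)) := by
  classical
  rw [linearIndependent_iff'] at h ⊢
  intro s g hg i hi
  by_contra hgi
  obtain ⟨j, hj, hmax⟩ := s.exists_max_image (fun i => O.valuation (g i)) ⟨i, hi⟩
  have hgj : g j ≠ 0 := by
    intro h0
    have h1 := hmax i hi
    rw [h0, map_zero] at h1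
    exact (Valuation.ne_zero_iff O.valuation).2 hgi (le_zero_iff.1 h1)
  have hmem : ∀ l ∈ s, (g j)⁻¹ * g l ∈ O := by
    intro l hl
    rw [← O.valuation_le_one_iff, map_mul, map_inv₀]
    have h0 : O.valuation (g j) ≠ 0 := (Valuation.ne_zero_iff _).2 hgj
    rw [mul_comm, ← div_eq_mul_inv]
    exact (div_le_one₀ (zero_lt_iff.2 h0)).2 (hmax l hl)
  let a : κ → O := fun l => if hl : l ∈ s then ⟨_, hmem l hl⟩ else 0
  have ha : ∀ l ∈ s, (a l : K) = (g j)⁻¹ * g l := by
    intro l hl
    simp only [a, dif_pos hl]
  have h1 : ∑ l ∈ s, C (a l) * b l = 0 := by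
    apply incPoly_injective O
    rw [map_sum, map_zero]
    have h2 : ∀ l ∈ s, incPoly O (C (a l) * b l) = (g j)⁻¹ • (g l • incPoly O (b l)) := by
      intro l hl
      rw [incPoly_C_mul, ha l hl, mul_smul]
    rw [Finset.sum_congr rfl h2, ← Finset.smul_sum, hg, smul_zero]
  have h2 := congrArg (redPoly O) h1
  rw [map_sum, map_zero] at h2
  have h3 := h s (fun l => residue O (a l)) (by
    rw [← h2]
    exact Finset.sum_congr rfl fun l _ => (redPoly_C_mul O _ _).symm) j hj
  have h4 : a j = 1 := by
    apply Subtype.ext
    rw [ha j hj, inv_mul_cancel₀ hgj]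
    rfl
  rw [h4, map_one] at h3
  exact one_ne_zero h3

theorem exists_basis_red_aux (r : ℕ) : ∀ (W : Submodule K (MvPolynomial σ K)),
    FiniteDimensional K W → finrank K W = r →
    ∃ b : Fin r → MvPolynomial σ O, (∀ i, incPoly O (b i) ∈ W) ∧
      LinearIndependent (ResidueField O) (fun i => redPoly O (b i)) := by
  classical
  induction r with
  | zero =>
    intro W _ _
    exact ⟨fun i => i.elim0, fun i => i.elim0, linearIndependent_empty_type⟩
  | succ r ih =>
    intro W _ hr
    have hW : W ≠ ⊥ := by
      rintro rfl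
      rw [finrank_bot] at hr
      omega
    obtain ⟨p, hp, hp0⟩ := Submodule.exists_mem_ne_zero_of_ne_bot hW
    obtain ⟨c, q, m, hc, hq, hm⟩ := exists_scale O hp0
    have hqW : incPoly O q ∈ W := by rw [← hq]; exact W.smul_mem c hp
    -- the hyperplane of vanishing coefficient
    let f : W →ₗ[K] K := (lcoeff K m) ∘ₗ W.subtype
    have hf : f ⟨_, hqW⟩ = 1 := by
      show coeff m (incPoly O q) = 1
      rw [coeff_incPoly, hm]
      rfl
    have hrk := LinearMap.finrank_range_add_finrank_ker f
    have hran : LinearMap.range f = ⊤ := by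
      rw [LinearMap.range_eq_top]
      intro a
      exact ⟨a • ⟨_, hqW⟩, by rw [map_smul, hf, smul_eq_mul, mul_one]⟩
    rw [hran, finrank_top, finrank_self, hr] at hrk
    let W' : Submodule K (MvPolynomial σ K) := (LinearMap.ker f).map W.subtype
    have hW'r : finrank K W' = r := by
      have h1 : finrank K W' = finrank K (LinearMap.ker f) :=
        LinearEquiv.finrank_eq (Submodule.equivMapOfInjective W.subtype
          W.injective_subtype (LinearMap.ker f)).symm
      omega
    have hW' : ∀ x, x ∈ W' ↔ x ∈ W ∧ coeff m x = 0 := by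
      intro x
      constructor
      · rintro ⟨y, hy, rfl⟩
        exact ⟨y.2, hy⟩
      · rintro ⟨h1, h2⟩
        exact ⟨⟨x, h1⟩, h2, rfl⟩
    obtain ⟨b', hb', hli'⟩ := ih W' inferInstance hW'r
    refine ⟨Fin.cons q b', ?_, ?_⟩
    · intro i
      refine Fin.cases ?_ (fun i => ?_) i
      · exact hqW
      · exact ((hW' _).1 (hb' i)).1
    · have h1 : (fun i => redPoly O ((Fin.cons q b' : Fin (r + 1) → MvPolynomial σ O) i)) =
          (Fin.cons (redPoly O q) (fun i => redPoly O (b' i)) :
            Fin (r + 1) → MvPolynomial σ (ResidueField O)) := by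
        funext i
        refine Fin.cases ?_ (fun i => ?_) i <;> rfl
      rw [h1, linearIndependent_finCons]
      refine ⟨hli', fun h => ?_⟩
      have h2 : ∀ x ∈ Submodule.span (ResidueField O)
          (Set.range fun i => redPoly O (b' i)), coeff m x = 0 := by
        intro x hx
        induction hx using Submodule.span_induction with
        | mem x hx =>
          obtain ⟨i, rfl⟩ := hx
          have h3 := ((hW' _).1 (hb' i)).2
          rw [coeff_incPoly] at h3
          have h4 : coeff m (b' i) = 0 := Subtype.ext h3
          show coeff m (redPoly O (b' i)) = 0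
          rw [coeff_redPoly, h4, map_zero]
        | zero => exact coeff_zero _
        | add x y _ _ hx hy => rw [coeff_add, hx, hy, add_zero]
        | smul a x _ hx => rw [coeff_smul, hx, smul_zero]
      have h3 := h2 _ h
      rw [coeff_redPoly, hm, map_one] at h3
      exact one_ne_zero h3

/-- a subspace has a basis whose reduction is linearly independent -/
theorem exists_basis_red (W : Submodule K (MvPolynomial σ K)) [hW : FiniteDimensional K W] :
    ∃ b : Fin (finrank K W) → MvPolynomial σ O, (∀ i, incPoly O (b i) ∈ W) ∧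
      LinearIndependent (ResidueField O) (fun i => redPoly O (b i)) :=
  exists_basis_red_aux O _ W hW rfl

/-- the reduction of a subspace -/
def redSub (W : Submodule K (MvPolynomial σ K)) :
    Submodule (ResidueField O) (MvPolynomial σ (ResidueField O)) where
  carrier := {q | ∃ p : MvPolynomial σ O, incPoly O p ∈ W ∧ redPoly O p = q}
  add_mem' := by
    rintro _ _ ⟨p, hp, rfl⟩ ⟨q, hq, rfl⟩
    exact ⟨p + q, by rw [map_add]; exact W.add_mem hp hq, by rw [map_add]⟩
  zero_mem' := ⟨0, by rw [map_zero]; exact W.zero_mem, by rw [map_zero]⟩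
  smul_mem' := by
    rintro c _ ⟨p, hp, rfl⟩
    obtain ⟨c, rfl⟩ := residue_surjective c
    exact ⟨C c * p, by rw [incPoly_C_mul]; exact W.smul_mem _ hp, redPoly_C_mul O c p⟩

lemma mem_redSub {W : Submodule K (MvPolynomial σ K)}
    {q : MvPolynomial σ (ResidueField O)} :
    q ∈ redSub O W ↔ ∃ p : MvPolynomial σ O, incPoly O p ∈ W ∧ redPoly O p = q := Iff.rfl

lemma redSub_mono {W W' : Submodule K (MvPolynomial σ K)} (h : W ≤ W') :
    redSub O W ≤ redSub O W' := by
  rintro _ ⟨p, hp, rfl⟩
  exact ⟨p, h hp, rfl⟩

/-- linearly independent elements of the reduction are at most `dim W` many -/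
lemma card_le_of_redSub (W : Submodule K (MvPolynomial σ K)) [FiniteDimensional K W] {s : ℕ}
    (v : Fin s → MvPolynomial σ (ResidueField O)) (hv : ∀ i, v i ∈ redSub O W)
    (hli : LinearIndependent (ResidueField O) v) : s ≤ finrank K W := by
  choose b hb hbv using hv
  have h1 : LinearIndependent K (fun i => incPoly O (b i)) := by
    apply linearIndependent_of_red
    have : (fun i => redPoly O (b i)) = v := funext hbv
    rw [this]
    exact hli
  have h2 : LinearIndependent K (fun i => (⟨incPoly O (b i), hb i⟩ : W)) := by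
    apply LinearIndependent.of_comp W.subtype
    exact h1
  have h3 := h2.fintype_card_le_finrank
  rwa [Fintype.card_fin] at h3

/-- linearly independent families bound the rank -/
lemma rank_redSub_le (W : Submodule K (MvPolynomial σ K)) [FiniteDimensional K W] :
    Module.rank (ResidueField O) (redSub O W) ≤ (finrank K W : ℕ) := by
  refine rank_le fun s hs => ?_
  have h1 : LinearIndependent (ResidueField O) (fun i : Fin s.card => ((s.equivFin.symm i).1 : redSub O W)) :=
    hs.comp _ s.equivFin.symm.injective
  refine card_le_of_redSub O W (fun i => ((s.equivFin.symm i).1 : redSub O W).1)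
    (fun i => ((s.equivFin.symm i).1 : redSub O W).2) ?_
  exact h1.map' (redSub O W).subtype (Submodule.ker_subtype _)

instance finite_redSub (W : Submodule K (MvPolynomial σ K)) [FiniteDimensional K W] :
    FiniteDimensional (ResidueField O) (redSub O W) := by
  exact rank_lt_aleph0_iff.1 (lt_of_le_of_lt (rank_redSub_le O W) Cardinal.natCast_lt_aleph0)

theorem finrank_redSub (W : Submodule K (MvPolynomial σ K)) [FiniteDimensional K W] :
    finrank (ResidueField O) (redSub O W) = finrank K W := by
  apply le_antisymm
  · let bb := Module.finBasis (ResidueField O) (redSub O W)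
    refine card_le_of_redSub O W (fun i => (bb i).1) (fun i => (bb i).2) ?_
    exact bb.linearIndependent.map' (redSub O W).subtype (Submodule.ker_subtype _)
  · obtain ⟨b, hb, hli⟩ := exists_basis_red O W
    have h2 : LinearIndependent (ResidueField O)
        (fun i => (⟨redPoly O (b i), ⟨b i, hb i, rfl⟩⟩ : redSub O W)) := by
      apply LinearIndependent.of_comp (redSub O W).subtype
      exact hli
    have h3 := h2.fintype_card_le_finrank
    rwa [Fintype.card_fin] at h3

/-- derivations commute with the change of coefficients -/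
lemma map_mkDerivation {R S : Type*} [CommRing R] [CommRing S] (φ : R →+* S)
    (u : σ → MvPolynomial σ R) (f : MvPolynomial σ R) :
    MvPolynomial.map φ (mkDerivation R u f) =
      mkDerivation S (fun i => MvPolynomial.map φ (u i)) (MvPolynomial.map φ f) := by
  induction f using MvPolynomial.induction_on with
  | C a =>
    rw [map_C, derivation_C, derivation_C, map_zero]
  | add p q hp hq => simp only [map_add, hp, hq]
  | mul_X p i hp =>
    rw [Derivation.leibniz, map_mul (MvPolynomial.map φ), Derivation.leibniz, map_add,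
      smul_eq_mul, smul_eq_mul, smul_eq_mul, smul_eq_mul, map_mul, map_mul, map_X, mkDerivation_X,
      mkDerivation_X, hp]

lemma map_weightedHomogeneousComponent {R S M : Type*} [CommRing R] [CommRing S]
    [AddCommMonoid M] (φ : R →+* S) (w : σ → M) (m : M) (f : MvPolynomial σ R) :
    MvPolynomial.map φ (weightedHomogeneousComponent w m f) =
      weightedHomogeneousComponent w m (MvPolynomial.map φ f) := by
  classical
  ext d
  rw [coeff_map, coeff_weightedHomogeneousComponent, coeff_weightedHomogeneousComponent, coeff_map]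
  split_ifs
  · rfl
  · rw [map_zero]

end General

variable {κ : Type*} [Field κ] {n : ℕ}

instance finite_bi (κ : Type*) [Field κ] (n s t : ℕ) : FiniteDimensional κ (bi κ n s t) := by
  have h : bi κ n s t ≤ restrictTotalDegree (Fin 2 × Fin n) κ (s + t) := by
    intro P hP
    rw [mem_restrictTotalDegree]
    refine Finset.sup_le fun d hd => ?_
    have h1 : Finsupp.weight (wt n) d = (s, t) := hP (mem_support_iff.1 hd)
    have h2 : (Finsupp.weight (wt n) d).1 + (Finsupp.weight (wt n) d).2 = d.sum fun _ c => c := by
      rw [Finsupp.weight_apply, Finsupp.sum, Finsupp.sum, Prod.fst_sum, Prod.snd_sum,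
        ← Finset.sum_add_distrib]
      refine Finset.sum_congr rfl fun p _ => ?_
      unfold wt
      split_ifs <;> simp
    rw [← h2, h1]
  exact Submodule.finiteDimensional_of_le h

end RedAux

open RedAux

variable {K : Type*} [Field K] {n : ℕ}

/-- linear forms -/
noncomputable def RedAux.linF (κ ι : Type*) [Field κ] [Fintype ι] :
    (ι → κ) →ₗ[κ] MvPolynomial ι κ where
  toFun x := ∑ i, C (x i) * X i
  map_add' x y := by
    simp only [Pi.add_apply, map_add, add_mul, Finset.sum_add_distrib]
  map_smul' a x := by
    simp only [Pi.smul_apply, smul_eq_mul, map_mul, mul_assoc, ← Finset.mul_sum, smul_eq_C_mul,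
      RingHom.id_apply]

lemma RedAux.coeff_linF {κ ι : Type*} [Field κ] [Fintype ι] (x : ι → κ) (i : ι) :
    coeff (Finsupp.single i 1) (RedAux.linF κ ι x) = x i := by
  classical
  show coeff (Finsupp.single i 1) (∑ j, C (x j) * X j) = x i
  rw [coeff_sum, Finset.sum_eq_single i]
  · rw [coeff_C_mul, coeff_X, if_pos rfl, mul_one]
  · intro j _ hj
    rw [coeff_C_mul, coeff_X, if_neg, mul_zero]
    intro h
    exact hj (Finsupp.single_left_injective one_ne_zero h)
  · intro h
    exact absurd (Finset.mem_univ _) h

lemma RedAux.linF_injective (κ ι : Type*) [Field κ] [Fintype ι] :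
    Function.Injective (RedAux.linF κ ι) := by
  intro x y h
  funext i
  rw [← RedAux.coeff_linF x i, h, RedAux.coeff_linF]

/-- A subspace `W` of `K ^ N` and its reduction: the dimension does not change. -/
theorem finrank_reduction {ι : Type*} [Fintype ι] (V : ValuationSubring K) (W : Submodule K (ι → K)) :
    ∃ W' : Submodule (ResidueField V) (ι → ResidueField V),
      (∀ x, x ∈ W' ↔ ∃ y : ι → V, (fun i => (y i : K)) ∈ W ∧ ∀ i, residue V (y i) = x i) ∧
      Module.finrank (ResidueField V) W' = Module.finrank K W := by
  have hinc : ∀ y : ι → V, incPoly V (∑ j, C (y j) * X j) = linF K ι (fun i => (y i : K)) := by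
    intro y
    show incPoly V (∑ j, C (y j) * X j) = ∑ j, C (y j : K) * X j
    rw [map_sum]
    refine Finset.sum_congr rfl fun q _ => ?_
    rw [incPoly, map_mul, map_C, map_X]
    rfl
  have hred : ∀ y : ι → V, redPoly V (∑ j, C (y j) * X j) =
      linF (ResidueField V) ι (fun i => residue V (y i)) := by
    intro y
    show redPoly V (∑ j, C (y j) * X j) = ∑ j, C (residue V (y j)) * X j
    rw [map_sum]
    refine Finset.sum_congr rfl fun q _ => ?_
    rw [redPoly, map_mul, map_C, map_X]
  let W₁ : Submodule K (MvPolynomial ι K) := W.map (linF K ι)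
  let W' : Submodule (ResidueField V) (ι → ResidueField V) :=
    (redSub V W₁).comap (linF (ResidueField V) ι)
  have h1 : ∀ p ∈ redSub V W₁, ∃ y : ι → V, (fun i => (y i : K)) ∈ W ∧
      linF (ResidueField V) ι (fun i => residue V (y i)) = p := by
    rintro _ ⟨F, ⟨x, hx, hF⟩, rfl⟩
    have hy : ∀ i, x i = ((coeff (Finsupp.single i 1) F : V) : K) := by
      intro i
      rw [← coeff_linF x i, hF, coeff_incPoly]
      rfl
    have hx' : (fun i => ((coeff (Finsupp.single i 1) F : V) : K)) = x := (funext hy).symm
    refine ⟨fun i => coeff (Finsupp.single i 1) F, by rw [hx']; exact hx, ?_⟩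
    rw [← hred]
    congr 1
    apply incPoly_injective V
    rw [hinc, ← hF, hx']
  have hmem : ∀ x, x ∈ W' ↔ ∃ y : ι → V, (fun i => (y i : K)) ∈ W ∧ ∀ i, residue V (y i) = x i := by
    intro x
    constructor
    · intro hx
      obtain ⟨y, hy, h⟩ := h1 _ hx
      refine ⟨y, hy, fun i => ?_⟩
      exact congrFun (linF_injective (ResidueField V) ι h) i
    · rintro ⟨y, hy, h⟩
      refine ⟨∑ j, C (y j) * X j, ⟨_, hy, (hinc y).symm⟩, ?_⟩
      rw [hred]
      congr 1
      exact funext h
  refine ⟨W', hmem, ?_⟩
  have h2 : W'.map (linF (ResidueField V) ι) = redSub V W₁ := by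
    apply le_antisymm
    · exact Submodule.map_comap_le _ _
    · intro p hp
      obtain ⟨y, hy, h⟩ := h1 p hp
      rw [← h]
      exact Submodule.mem_map_of_mem ((hmem _).2 ⟨y, hy, fun i => rfl⟩)
  have h3 : finrank (ResidueField V) W' = finrank (ResidueField V) (redSub V W₁) := by
    rw [← h2]
    exact LinearEquiv.finrank_eq (Submodule.equivMapOfInjective _ (linF_injective _ ι) W')
  have h4 : finrank K W₁ = finrank K W :=
    (LinearEquiv.finrank_eq (Submodule.equivMapOfInjective _ (linF_injective K ι) W)).symm
  rw [h3, finrank_redSub, h4]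

/-- The reduction of an ideal. -/
noncomputable def red (V : ValuationSubring K) (J : Ideal (Rg K n)) :
    Ideal (Rg (ResidueField V) n) :=
  Ideal.map (MvPolynomial.map (residue V))
    (Ideal.comap (MvPolynomial.map (algebraMap V K)) J)

theorem mem_red {V : ValuationSubring K} {J : Ideal (Rg K n)} {f : Rg (ResidueField V) n} :
    f ∈ red V J ↔ ∃ F : MvPolynomial (Fin 2 × Fin n) V, MvPolynomial.map (algebraMap V K) F ∈ J ∧
      MvPolynomial.map (residue V) F = f := by
  rw [red]
  exact Ideal.mem_map_iff_of_surjective (MvPolynomial.map (residue V)) (redPoly_surjective V)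

theorem isBi_red {V : ValuationSubring K} {J : Ideal (Rg K n)} (h : IsBi J) : IsBi (red V J) := by
  intro f hf m
  obtain ⟨F, hF, rfl⟩ := mem_red.1 hf
  refine mem_red.2 ⟨weightedHomogeneousComponent (wt n) m F, ?_, ?_⟩
  · rw [map_weightedHomogeneousComponent]
    exact h _ hF m
  · rw [map_weightedHomogeneousComponent]

/-- the reduction of the bihomogeneous part of an ideal -/
lemma redSub_inf_bi {V : ValuationSubring K} {J : Ideal (Rg K n)} (h : IsBi J) (s t : ℕ) :
    redSub V (J.restrictScalars K ⊓ bi K n s t) =
      (red V J).restrictScalars (ResidueField V) ⊓ bi (ResidueField V) n s t := by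
  classical
  ext q
  rw [mem_redSub, Submodule.mem_inf]
  constructor
  · rintro ⟨p, ⟨hp1, hp2⟩, rfl⟩
    refine ⟨mem_red.2 ⟨p, hp1, rfl⟩, ?_⟩
    intro d hd
    refine hp2 (d := d) ?_
    intro h0
    rw [coeff_incPoly] at h0
    have h1 : coeff d p = 0 := Subtype.ext h0
    rw [coeff_redPoly, h1, map_zero] at hd
    exact hd rfl
  · rintro ⟨h1, h2⟩
    obtain ⟨F, hF, rfl⟩ := mem_red.1 h1
    refine ⟨weightedHomogeneousComponent (wt n) (s, t) F, ⟨?_, ?_⟩, ?_⟩
    · show incPoly V _ ∈ J
      unfold incPoly
      rw [map_weightedHomogeneousComponent]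
      exact h _ hF _
    · unfold incPoly
      rw [map_weightedHomogeneousComponent]
      exact weightedHomogeneousComponent_isWeightedHomogeneous (w := wt n) (s, t) _
    · unfold redPoly
      rw [map_weightedHomogeneousComponent]
      exact IsWeightedHomogeneous.weightedHomogeneousComponent_same h2

lemma finrank_part (J : Ideal (Rg K n)) (s t : ℕ) :
    finrank K (part J s t) = finrank K ↥(J.restrictScalars K ⊓ bi K n s t) := by
  have h1 : (part J s t).map (bi K n s t).subtype = J.restrictScalars K ⊓ bi K n s t := by
    unfold part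
    rw [Submodule.map_comap_subtype, inf_comm]
  rw [← h1]
  exact LinearEquiv.finrank_eq (Submodule.equivMapOfInjective (bi K n s t).subtype
          (bi K n s t).injective_subtype (part J s t))

lemma finrank_bi_red (V : ValuationSubring K) (n s t : ℕ) :
    finrank (ResidueField V) (bi (ResidueField V) n s t) = finrank K (bi K n s t) := by
  have h1 := redSub_inf_bi (V := V) (J := (⊤ : Ideal (Rg K n))) (fun f _ m => Submodule.mem_top) s t
  have h2 : red V (⊤ : Ideal (Rg K n)) = ⊤ := by
    rw [Ideal.eq_top_iff_one]
    exact mem_red.2 ⟨1, Submodule.mem_top, map_one _⟩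
  rw [h2] at h1
  have h3 : (⊤ : Ideal (Rg K n)).restrictScalars K ⊓ bi K n s t = bi K n s t := by
    rw [Submodule.restrictScalars_top, top_inf_eq]
  have h4 : (⊤ : Ideal (Rg (ResidueField V) n)).restrictScalars (ResidueField V) ⊓
      bi (ResidueField V) n s t = bi (ResidueField V) n s t := by
    rw [Submodule.restrictScalars_top, top_inf_eq]
  rw [h3, h4] at h1
  rw [← h1]
  exact finrank_redSub V _

theorem HF_red {V : ValuationSubring K} {J : Ideal (Rg K n)} (h : IsBi J) (s t : ℕ) :
    HF (red V J) s t = HF J s t := by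
  have h1 := Submodule.finrank_quotient_add_finrank (part J s t)
  have h2 := Submodule.finrank_quotient_add_finrank (part (red V J) s t)
  have h3 : FiniteDimensional K ↥(J.restrictScalars K ⊓ bi K n s t) :=
    Submodule.finiteDimensional_of_le inf_le_right
  have h4 : finrank (ResidueField V) (part (red V J) s t) = finrank K (part J s t) := by
    rw [finrank_part, finrank_part, ← redSub_inf_bi h]
    exact finrank_redSub V _
  have h5 := finrank_bi_red V n s t
  unfold HF
  omega

theorem stabD_red {V : ValuationSubring K} {J : Ideal (Rg K n)}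
    (T : Matrix (Fin 2 × Fin n) (Fin 2 × Fin n) V)
    (h : StabD J (T.map (algebraMap V K))) : StabD (red V J) (T.map (residue V)) := by
  intro f hf
  obtain ⟨F, hF, rfl⟩ := mem_red.1 hf
  have key : ∀ {S : Type _} [Field S] (φ : V →+* S),
      MvPolynomial.map φ (mkDerivation V (fun p => ∑ q, C (T p q) * X q) F) =
        der (T.map φ) (MvPolynomial.map φ F) := by
    intro S _ φ
    rw [map_mkDerivation]
    unfold der linT
    congr 2
    funext p
    rw [map_sum]
    refine Finset.sum_congr rfl fun q _ => ?_
    rw [map_mul, map_C, map_X, Matrix.map_apply]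
  refine mem_red.2 ⟨mkDerivation V (fun p => ∑ q, C (T p q) * X q) F, ?_, key _⟩
  rw [key]
  exact h _ hF

theorem rowStab_red {V : ValuationSubring K} {J : Ideal (Rg K n)} (h : RowStab J) :
    RowStab (red V J) := by
  have key : ∀ (r r' : Fin 2), StabD J (rowM K n r r') → StabD (red V J) (rowM (ResidueField V) n r r') := by
    intro r r' h
    let T : Matrix (Fin 2 × Fin n) (Fin 2 × Fin n) V :=
      fun p q => if p.1 = r ∧ q.1 = r' ∧ p.2 = q.2 then 1 else 0
    have h1 : T.map (algebraMap V K) = rowM K n r r' := by
      funext p q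
      show algebraMap V K (if p.1 = r ∧ q.1 = r' ∧ p.2 = q.2 then 1 else 0) =
        if p.1 = r ∧ q.1 = r' ∧ p.2 = q.2 then 1 else 0
      split_ifs
      · exact map_one _
      · exact map_zero _
    have h2 : T.map (residue V) = rowM (ResidueField V) n r r' := by
      funext p q
      show residue V (if p.1 = r ∧ q.1 = r' ∧ p.2 = q.2 then 1 else 0) =
        if p.1 = r ∧ q.1 = r' ∧ p.2 = q.2 then 1 else 0
      split_ifs
      · exact map_one _
      · exact map_zero _
    rw [← h2]
    exact stabD_red T (by rw [h1]; exact h)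
  exact ⟨key 0 1 h.1, key 1 0 h.2⟩

theorem isAlgClosed_residueField [IsAlgClosed K] (V : ValuationSubring K) :
    IsAlgClosed (ResidueField V) := by
  refine IsAlgClosed.of_exists_root _ fun p hp hirr => ?_
  obtain ⟨q, hq, hdeg, hmon⟩ := Polynomial.lifts_and_degree_eq_and_monic
    (f := residue V) (p := p) (by
      rw [Polynomial.lifts_iff_coeff_lifts]
      intro m
      exact residue_surjective _) hp
  have hd : (q.map (algebraMap V K)).degree ≠ 0 := by
    rw [hmon.degree_map, hdeg]
    exact (Polynomial.degree_pos_of_irreducible hirr).ne'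
  obtain ⟨x, hx⟩ := IsAlgClosed.exists_root _ hd
  have hx1 : IsIntegral V x := ⟨q, hmon, by
    rw [Polynomial.IsRoot.def, Polynomial.eval_map] at hx
    exact hx⟩
  obtain ⟨y, rfl⟩ := IsIntegrallyClosed.isIntegral_iff.1 hx1
  refine ⟨residue V y, ?_⟩
  rw [Polynomial.IsRoot.def, Polynomial.eval_map, Polynomial.eval₂_at_apply] at hx
  have h1 : Polynomial.eval y q = 0 := by
    apply IsFractionRing.injective V K
    rw [hx, map_zero]
  rw [← hq, Polynomial.eval_map, Polynomial.eval₂_at_apply, h1, map_zero]

end Pool.Agent.GrUp
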