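import Pool.Agent.GrUp.Lower
import Pool.Agent.GrUp.Cross
import Pool.Agent.GrUp.Classify
import Pool.Agent.GrUp.Place

/-!
# The upper bound (module I)
-/

namespace Pool.Agent.GrUp

open MvPolynomial Pool.Agent.GrCyc IsLocalRing

variable {n : ℕ}

/-- The form `(∑ X_K)^d`, the sum over the `K` with index sum `nn n`. -/
noncomputable def Om (R : Type*) [CommRing R] (n d : ℕ) : MvPolynomial (Fin 2 ↪o Fin n) R :=
  (∑ K : Fin 2 ↪o Fin n, if ((K 0 : Fin n) : ℕ) + (K 1 : Fin n) = nn n then X K else 0) ^ d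

theorem isHomogeneous_Om (R : Type*) [CommRing R] (n d : ℕ) : (Om R n d).IsHomogeneous d := by
  have h : (∑ K : Fin 2 ↪o Fin n, if ((K 0 : Fin n) : ℕ) + (K 1 : Fin n) = nn n then X K else 0 :
      MvPolynomial (Fin 2 ↪o Fin n) R).IsHomogeneous 1 := by
    refine IsHomogeneous.sum _ _ _ fun K _ => ?_
    split_ifs
    · exact isHomogeneous_X _ _
    · exact isHomogeneous_zero _ _ _
  have := h.pow d
  simpa [Om] using this

theorem map_Om {R S : Type*} [CommRing R] [CommRing S] (f : R →+* S) (n d : ℕ) :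
    map f (Om R n d) = Om S n d := by
  simp only [Om, map_pow, map_sum]
  congr 1
  refine Finset.sum_congr rfl fun K _ => ?_
  split_ifs <;> simp

/-- The embedding with two given values. -/
def pairEmb {a b : Fin n} (h : a < b) : Fin 2 ↪o Fin n :=
  OrderEmbedding.ofStrictMono ![a, b] (by
    intro x y hxy
    fin_cases x <;> fin_cases y <;> simp_all)

theorem sum_pairs {M : Type*} [AddCommMonoid M] (f : Fin n → Fin n → M) :
    ∑ K : Fin 2 ↪o Fin n, f (K 0) (K 1) = ∑ a : Fin n, ∑ b : Fin n, if a < b then f a b else 0 := by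
  classical
  rw [← Finset.sum_product', ← Finset.sum_filter]
  refine Finset.sum_bij' (fun K _ => (K 0, K 1)) (fun p hp => pairEmb (by simpa using hp)) ?_ ?_ ?_ ?_ ?_
  · intro K _
    simp only [Finset.mem_filter, Finset.mem_product, Finset.mem_univ, true_and, and_self]
    exact K.strictMono (by decide)
  · intro p _
    exact Finset.mem_univ _
  · intro K _
    ext x
    fin_cases x <;> rfl
  · intro p _
    rfl
  · intro K _
    rfl

theorem aeval_Om (κ : Type*) [Field κ] (d : ℕ) :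
    aeval (fun K : Fin 2 ↪o Fin n => minor κ (K 0) (K 1)) (Om κ n d) = (omP κ n) ^ d := by
  simp only [Om, map_pow, map_sum]
  congr 1
  have h : ∀ K : Fin 2 ↪o Fin n, aeval (fun K : Fin 2 ↪o Fin n => minor κ (K 0) (K 1))
      (if ((K 0 : Fin n) : ℕ) + (K 1 : Fin n) = nn n then X K else 0 :
        MvPolynomial (Fin 2 ↪o Fin n) κ) =
      (fun a b : Fin n => if (a : ℕ) + b = nn n then minor κ a b else 0) (K 0) (K 1) := by
    intro K
    simp only
    split_ifs <;> simp
  rw [Finset.sum_congr rfl fun K _ => h K]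
  refine (sum_pairs (fun a b : Fin n => if (a : ℕ) + b = nn n then minor κ a b else 0)).trans ?_
  unfold omP
  refine Finset.sum_congr rfl fun a _ => Finset.sum_congr rfl fun b _ => ?_
  by_cases h1 : a < b
  · by_cases h2 : (a : ℕ) + b = nn n
    · simp [h1, h2]
    · simp [h1, h2]
  · simp [h1]

/-- Minors over a commutative ring. -/
theorem map_minor_sub {R : Type*} [CommRing R] {κ : Type*} [Field κ] (f : R →+* κ) (i j : Fin n) :
    map f (X (0, i) * X (1, j) - X (0, j) * X (1, i) : MvPolynomial (Fin 2 × Fin n) R) =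
      minor κ i j := by
  simp [minor]

/-- The reduction of the ideal of a subvariety of `zeros P` contains a power of `ω`. -/
theorem omP_pow_mem {d : ℕ} {P : MvPolynomial (Fin 2 ↪o Fin n) ℂ} (hP : P.IsHomogeneous d)
    (V : ValuationSubring ℂ) (hV : ∀ m : {m : (Fin 2 ↪o Fin n) →₀ ℕ // m.degree = d},
      ∃ h : P.coeff m.1 ∈ V, residue V ⟨P.coeff m.1, h⟩ =
        (((Om ℤ n d).coeff m.1 : ℤ) : ResidueField V))
    {J : Ideal (Rg ℂ n)} (hJ : pluP P ∈ J) : omP (ResidueField V) n ^ d ∈ red V J := by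
  classical
  -- lift of `P`
  have hcoef : ∀ m, P.coeff m ∈ V := by
    intro m
    by_cases hm : m.degree = d
    · exact (hV ⟨m, hm⟩).1
    · rw [hP.coeff_eq_zero hm]
      exact V.zero_mem
  let PV : MvPolynomial (Fin 2 ↪o Fin n) V :=
    ∑ m ∈ P.support, monomial m (⟨P.coeff m, hcoef m⟩ : V)
  have hPVc : ∀ m, PV.coeff m = (⟨P.coeff m, hcoef m⟩ : V) := by
    intro m
    simp only [PV, coeff_sum, coeff_monomial]
    rw [Finset.sum_ite_eq' P.support m]
    split_ifs with h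
    · rfl
    · rw [notMem_support_iff] at h
      exact Subtype.ext h.symm
  have hmap1 : map (algebraMap V ℂ) PV = P := by
    ext m
    rw [coeff_map, hPVc]
    rfl
  have hmap2 : map (residue V) PV = Om (ResidueField V) n d := by
    rw [← map_Om (Int.castRingHom (ResidueField V))]
    ext m
    rw [coeff_map, coeff_map, hPVc]
    by_cases hm : m.degree = d
    · obtain ⟨h1, h2⟩ := hV ⟨m, hm⟩
      rw [h2]
      rfl
    · have h1 : P.coeff m = 0 := hP.coeff_eq_zero hm
      have h2 : (Om ℤ n d).coeff m = 0 := (isHomogeneous_Om ℤ n d).coeff_eq_zero hm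
      rw [h2, map_zero]
      have : (⟨P.coeff m, hcoef m⟩ : V) = 0 := Subtype.ext h1
      rw [this, map_zero]
  let F : MvPolynomial (Fin 2 × Fin n) V :=
    aeval (fun K : Fin 2 ↪o Fin n => (X (0, K 0) * X (1, K 1) - X (0, K 1) * X (1, K 0) :
      MvPolynomial (Fin 2 × Fin n) V)) PV
  have hgen : ∀ {κ : Type} [Field κ] (f : V →+* κ), map f F =
      aeval (fun K : Fin 2 ↪o Fin n => minor κ (K 0) (K 1)) (map f PV) := by
    intro κ _ f
    simp only [F]
    rw [aeval_def, ← coe_eval₂Hom, aeval_def, ← coe_eval₂Hom, eval₂Hom_map_hom]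
    have : (map f : MvPolynomial (Fin 2 × Fin n) V →+* MvPolynomial (Fin 2 × Fin n) κ)
        ((eval₂Hom (algebraMap V (MvPolynomial (Fin 2 × Fin n) V))
          fun K : Fin 2 ↪o Fin n => (X (0, K 0) * X (1, K 1) - X (0, K 1) * X (1, K 0) :
            MvPolynomial (Fin 2 × Fin n) V)) PV) =
        ((map f).comp (eval₂Hom (algebraMap V (MvPolynomial (Fin 2 × Fin n) V))
          fun K : Fin 2 ↪o Fin n => (X (0, K 0) * X (1, K 1) - X (0, K 1) * X (1, K 0) :
            MvPolynomial (Fin 2 × Fin n) V))) PV := rfl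
    rw [this]
    congr 1
    refine MvPolynomial.ringHom_ext (fun r => ?_) fun K => ?_
    · simp [algebraMap_eq]
    · simp [minor]
  rw [mem_red]
  refine ⟨F, ?_, ?_⟩
  · rw [hgen, hmap1]
    exact hJ
  · rw [hgen, hmap2, aeval_Om]

/-- `celI_cross` with a prescribed degree. -/
theorem celI_cross' (V : ValuationSubring ℂ) [CharZero (ResidueField V)] {i j D : ℕ} (hD : i + j = D)
    (hij : i < j) (hj : j < n) {w' : Fin (D + 2) → ℤ}
    (hw' : BP (fun s t => (HF (celI (ResidueField V) n i j) s t : ℤ)) (D + 1) w') :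
    ∃ (w : Fin (D + 2) → ℤ) (m : ℕ), 1 ≤ m ∧
      BP (fun s t => (HF (celI ℂ n i j) s t : ℤ)) (D + 1) w ∧ w = (m : ℤ) • w' := by
  subst hD
  obtain ⟨w, -, hw⟩ := BP_celI (κ := ℂ) hij hj
  obtain ⟨m, hm, h⟩ := celI_cross V hij hj hw hw'
  exact ⟨w, m, hm, hw, h⟩

theorem stdA_mem_celS {κ : Type*} [Field κ] {i j : ℕ} (hij : i < j) : stdA κ n i j ∈ celS κ n i j := by
  constructor
  · intro r q hq
    simp only [stdA]
    rw [if_neg]
    rintro (⟨-, h⟩ | ⟨-, h⟩) <;> omega
  · intro q q' hq hq'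
    have h1 : stdA κ n i j (0, q) = 0 := by
      simp only [stdA]
      rw [if_neg]
      rintro (⟨-, h⟩ | ⟨h, -⟩)
      · omega
      · exact absurd h (by decide)
    have h2 : stdA κ n i j (0, q') = 0 := by
      simp only [stdA]
      rw [if_neg]
      rintro (⟨-, h⟩ | ⟨h, -⟩)
      · omega
      · exact absurd h (by decide)
    rw [h1, h2, zero_mul, zero_mul]

theorem minor_not_mem_celI {κ : Type*} [Field κ] {i j : ℕ} (hij : i < j) (hj : j < n) :
    minor κ (⟨i, hij.trans hj⟩ : Fin n) ⟨j, hj⟩ ∉ celI κ n i j := by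
  intro h
  have h1 := h _ (stdA_mem_celS hij)
  rw [eval_minor] at h1
  simp [stdA, hij.ne, hij.ne'] at h1

/-- The classes of the subvarieties of a hypersurface with algebraically independent coefficients. -/
theorem upper {k d : ℕ} (hn : 3 ≤ n) (hk : n + n % 2 ≤ k + 2) {P : MvPolynomial (Fin 2 ↪o Fin n) ℂ}
    (hP : P.IsHomogeneous d)
    (hai : AlgebraicIndependent ℚ
      (fun m : {m : (Fin 2 ↪o Fin n) →₀ ℕ // m.degree = d} => P.coeff m.1)) :
    effCone k (zeros P) ⊆ hyp k '' effCone (k + 1) (Set.univ : Set (Gr 2 n)) := by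
  have hnn : nn n + 1 ≤ k + 2 := by unfold nn; omega
  let A : Set (Fin (k + 1 + 3) → ℝ) := {w | ∃ Z : Set (Gr 2 n),
      Z ⊆ (Set.univ : Set (Gr 2 n)) ∧ IsClosed Z ∧ IsIrreducible Z ∧ IsClass (k + 1) Z w}
  let E : Submodule NNReal (Fin (k + 1 + 3) → ℝ) := (Submodule.span NNReal A).topologicalClosure
  let C' : Submodule NNReal (Fin (k + 3) → ℝ) := E.map ((hyp k).restrictScalars NNReal)
  have hC' : hyp k '' effCone (k + 1) (Set.univ : Set (Gr 2 n)) = (C' : Set (Fin (k + 3) → ℝ)) := rfl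
  refine closure_minimal ?_ (isClosed_hyp (by omega) (by omega))
  rw [hC', SetLike.coe_subset_coe, Submodule.span_le]
  rintro v ⟨Z, hZP, hZc, hZi, hZv⟩
  obtain ⟨c, hc, hcv⟩ := isClass_iff.1 hZv
  have hv : v = toR (k + 3) c := funext hcv
  rw [hv]
  -- the place
  obtain ⟨V, hchar, hV⟩ := exists_valuationSubring _ hai (fun m => (Om ℤ n d).coeff m.1)
  have := hchar
  have : IsAlgClosed (ResidueField V) := isAlgClosed_residueField V
  have hbi := isBi_idl Z
  have hred : BP (fun s t => (HF (red V (idl Z)) s t : ℤ)) (k + 2) c :=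
    hc.congr 0 fun s t _ _ => by rw [HF_red hbi]
  have hrb : IsBi (red V (idl Z)) := isBi_red hbi
  have hrr : RowStab (red V (idl Z)) := rowStab_red (rowStab_idl Z)
  have hω : omP (ResidueField V) n ^ d ∈ red V (idl Z) :=
    omP_pow_mem hP V hV ((pluP_mem_idl hP Z).2 hZP)
  -- stable primes
  have hstable : ∀ (c'' : Fin (k + 2 + 1) → ℤ), c'' ≠ 0 → (∃ 𝔭 : Ideal (Rg (ResidueField V) n),
      𝔭.IsPrime ∧ IsBi 𝔭 ∧ RowStab 𝔭 ∧
      (∀ a b : Fin n, (a : ℕ) + b < nn n → StabD 𝔭 (colM (Nab (ResidueField V) a b))) ∧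
      omP (ResidueField V) n ∈ 𝔭 ∧ BP (fun s t => (HF 𝔭 s t : ℤ)) (k + 2) c'') →
      toR (k + 3) c'' ∈ C' := by
    rintro c'' h0 ⟨𝔭, hp, hpb, hpr, hpN, hpω, hpc⟩
    obtain ⟨i, j, hij, hj, hsum, m, w', hm, hw', hmc⟩ := classify hp hpb hpr hpN hpω hnn h0 hpc
    obtain ⟨w, m', hm', hw, hww'⟩ := celI_cross' V hsum hij hj hw'
    obtain ⟨Y, hYc, hYi, hY⟩ := exists_of_prime (isPrime_celI (κ := ℂ) hij hj) (isBi_celI i j)
      (rowStab_celI i j) ⟨_, _, minor_not_mem_celI hij hj⟩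
    have hYw : IsClass (k + 1) Y (toR (k + 4) w) := by
      refine isClass_iff.2 ⟨w, ?_, fun a => rfl⟩
      rw [hY]
      exact hw
    have hYE : toR (k + 4) w ∈ E :=
      subset_closure (Submodule.subset_span ⟨Y, Set.subset_univ _, hYc, hYi, hYw⟩)
    have hYC : hyp k (toR (k + 4) w) ∈ C' := Submodule.mem_map_of_mem hYE
    have heq : toR (k + 3) c'' = (((m : NNReal) * m')⁻¹) • hyp k (toR (k + 4) w) := by
      have hm0 : (m : ℝ) ≠ 0 := by positivity
      have hm'0 : (m' : ℝ) ≠ 0 := by positivity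
      ext p
      rw [Pi.smul_apply, toR_apply, NNReal.smul_def, hyp_toR]
      have h1 := congrFun hmc p
      have h2 := congrFun hww' p.castSucc
      have h3 := congrFun hww' p.succ
      simp only [Pi.smul_apply, smul_eq_mul, hypZ] at h1 h2 h3
      have h1' : (m : ℝ) * c'' p = w' p.castSucc + w' p.succ := by exact_mod_cast h1
      have h2' : (w p.castSucc : ℝ) = m' * w' p.castSucc := by exact_mod_cast h2
      have h3' : (w p.succ : ℝ) = m' * w' p.succ := by exact_mod_cast h3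
      rw [h2', h3', ← mul_add, ← h1']
      simp only [NNReal.coe_inv, NNReal.coe_mul, NNReal.coe_natCast, smul_eq_mul]
      field_simp
    rw [heq]
    exact Submodule.smul_mem _ _ hYC
  have hprimes : ∀ (c' : Fin (k + 2 + 1) → ℤ), (∃ 𝔮 : Ideal (Rg (ResidueField V) n), 𝔮.IsPrime ∧
      IsBi 𝔮 ∧ red V (idl Z) ≤ 𝔮 ∧ BP (fun s t => (HF 𝔮 s t : ℤ)) (k + 2) c') →
      toR (k + 3) c' ∈ C' := by
    rintro c' ⟨𝔮, hq, hqb, hqle, hqc⟩
    by_cases h0 : c' = 0
    · rw [h0]
      have : toR (k + 3) (0 : Fin (k + 3) → ℤ) = 0 := map_zero _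
      rw [this]
      exact Submodule.zero_mem _
    have hmin := mem_minimalPrimes hrb hq hqb hqle hred hqc h0
    have hqr : RowStab 𝔮 := ⟨stabD_minimalPrime hmin hrr.1, stabD_minimalPrime hmin hrr.2⟩
    have hqω : omP (ResidueField V) n ∈ 𝔮 := hq.mem_of_pow_mem _ (hqle hω)
    have hmem := mem_closure_stable hqb hqr hqω hqc
    have hle : AddSubmonoid.closure {c' : Fin (k + 2 + 1) → ℤ | c' ≠ 0 ∧
        ∃ 𝔭 : Ideal (Rg (ResidueField V) n), 𝔭.IsPrime ∧ IsBi 𝔭 ∧ RowStab 𝔭 ∧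
        (∀ a b : Fin n, (a : ℕ) + b < nn n → StabD 𝔭 (colM (Nab (ResidueField V) a b))) ∧
        omP (ResidueField V) n ∈ 𝔭 ∧ BP (fun s t => (HF 𝔭 s t : ℤ)) (k + 2) c'} ≤
        C'.toAddSubmonoid.comap (toR (k + 3)) := by
      rw [AddSubmonoid.closure_le]
      rintro c'' ⟨h1, h2⟩
      exact hstable c'' h1 h2
    exact hle hmem
  have hmem := mem_closure_primes hrb hred
  have hle : AddSubmonoid.closure {c' : Fin (k + 2 + 1) → ℤ |
      ∃ 𝔮 : Ideal (Rg (ResidueField V) n), 𝔮.IsPrime ∧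
      IsBi 𝔮 ∧ red V (idl Z) ≤ 𝔮 ∧ BP (fun s t => (HF 𝔮 s t : ℤ)) (k + 2) c'} ≤
      C'.toAddSubmonoid.comap (toR (k + 3)) := by
    rw [AddSubmonoid.closure_le]
    rintro c' h
    exact hprimes c' h
  exact hle hmem

end Pool.Agent.GrUp
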